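import Pool.Agent.Lib.MP_c8a077_gtP.Defs
import Pool.Agent.Lib.MP_c8a077_gtP.CA.Cau

/-!
# Cauchy's surface area formula for convex bodies

From `CA.cauchy` (`CA/Cau.lean`): polytopes (`CA/Pol.lean`), monotonicity (`CA/Mon.lean`) and approximation (`CA/App.lean`).
-/

open MeasureTheory Set Metric Topology Filter Module
open Pool.Agent.MP_c8a077_gt
open scoped ENNReal NNReal Pointwise

namespace Pool.Agent.MP_c8a077_gtP

/-- Cauchy's surface area formula. -/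
theorem cauchy {d : ℕ} (hd : 2 ≤ d) : ∃ c : ℝ, 0 < c ∧ ∀ L : Set (E d), IsBody L →
    μHE[d - 1] (frontier L) = ENNReal.ofReal c * ∫⁻ v, ENNReal.ofReal (gam v) * sh L v := by
  obtain ⟨k, rfl⟩ : ∃ k, d = k + 2 := ⟨d - 2, by omega⟩
  refine ⟨(CA.cau k).toReal, ENNReal.toReal_pos (CA.cau_ne_zero k) (CA.cau_ne_top k), ?_⟩
  intro L hL
  rw [ENNReal.ofReal_toReal (CA.cau_ne_top k)]
  have h1 := CA.cauchy (W := E (k + 2)) (k := k) (by simp) hL.1 hL.2.1 hL.2.2
  have h2 : k + 2 - 1 = k + 1 := by omega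
  rw [h2, h1]
  rfl

end Pool.Agent.MP_c8a077_gtP
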