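import Pool.Agent.Lib.MP_c8a077_gtP.Dec

/-!
# JOB Pm (about 250 lines): the measure `pm v` and the volume `sh K v` in coordinates

For `v ≠ 0`, `ι` as in `IsDec`, write `e = v / ‖v‖` and
`Φ (y, s) = ι y + s e`; `Φ` is measure preserving (`dec_mp`), `pr v (Φ (y, s)) = ι y`,
`⟪Φ (y, s), v⟫ = s ‖v‖`, so `Φ ⁻¹' slab v = univ ×ˢ Icc 0 1`.
-/

open MeasureTheory Set Metric Topology Filter
open Pool.Agent.MP_c8a077_gt
open scoped ENNReal NNReal Pointwise

namespace Pool.Agent.MP_c8a077_gtP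

private theorem pm_inner {k : ℕ} {v : E (k + 1)} (hv : v ≠ 0) {ι : E k →ₗᵢ[ℝ] E (k + 1)}
    (hι : IsDec v ι) (y : E k) (s : ℝ) : inner ℝ (ι y + (s / ‖v‖) • v) v = s * ‖v‖ := by
  have hn : ‖v‖ ≠ 0 := norm_ne_zero_iff.mpr hv
  rw [inner_add_left, hι.1, zero_add, real_inner_smul_left, real_inner_self_eq_norm_sq, sq, ← mul_assoc,
    div_mul_cancel₀ _ hn]

private theorem pm_pr {k : ℕ} {v : E (k + 1)} (hv : v ≠ 0) {ι : E k →ₗᵢ[ℝ] E (k + 1)}
    (hι : IsDec v ι) (y : E k) (s : ℝ) : pr v (ι y + (s / ‖v‖) • v) = ι y := by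
  have hn : ‖v‖ ≠ 0 := norm_ne_zero_iff.mpr hv
  rw [pr, pm_inner hv hι, sq, mul_div_mul_right _ _ hn, add_sub_cancel_right]

private theorem pm_slab {k : ℕ} {v : E (k + 1)} (hv : v ≠ 0) {ι : E k →ₗᵢ[ℝ] E (k + 1)}
    (hι : IsDec v ι) (y : E k) (s : ℝ) : ι y + (s / ‖v‖) • v ∈ slab v ↔ s ∈ Icc (0 : ℝ) 1 := by
  have hn : 0 < ‖v‖ := norm_pos_iff.mpr hv
  change (0 ≤ inner ℝ (ι y + (s / ‖v‖) • v) v ∧ inner ℝ (ι y + (s / ‖v‖) • v) v ≤ ‖v‖) ↔ _
  rw [pm_inner hv hι, mem_Icc]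
  constructor
  · rintro ⟨h1, h2⟩
    exact ⟨nonneg_of_mul_nonneg_left h1 hn, by
      have h3 : s * ‖v‖ ≤ 1 * ‖v‖ := by rw [one_mul]; exact h2
      exact le_of_mul_le_mul_right h3 hn⟩
  · rintro ⟨h1, h2⟩
    exact ⟨mul_nonneg h1 hn.le, by
      have h3 := mul_le_mul_of_nonneg_right h2 hn.le
      rwa [one_mul] at h3⟩

private theorem pm_cont_pr {n : ℕ} (v : E n) : Continuous (pr v) := by
  unfold pr
  fun_prop

private theorem pm_closed_slab {n : ℕ} (v : E n) : IsClosed (slab v) := by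
  have h1 : IsClosed {x : E n | 0 ≤ (inner ℝ x v : ℝ)} :=
    isClosed_le continuous_const (by fun_prop)
  have h2 : IsClosed {x : E n | (inner ℝ x v : ℝ) ≤ ‖v‖} :=
    isClosed_le (by fun_prop) continuous_const
  exact h1.inter h2

theorem pm_eq {k : ℕ} {v : E (k + 1)} (hv : v ≠ 0) {ι : E k →ₗᵢ[ℝ] E (k + 1)}
    (hι : IsDec v ι) : pm v = Measure.map ι volume := by
  apply Measure.ext
  intro A hA
  have hpm : Measurable (pr v) := (pm_cont_pr v).measurable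
  have hs : MeasurableSet (slab v) := (pm_closed_slab v).measurableSet
  rw [pm, Measure.map_apply hpm hA, Measure.restrict_apply (hpm hA),
    Measure.map_apply ι.continuous.measurable hA,
    ← (dec_mp hv hι).measure_preimage ((hpm hA).inter hs).nullMeasurableSet]
  have h1 : (fun p : E k × ℝ => ι p.1 + (p.2 / ‖v‖) • v) ⁻¹' (pr v ⁻¹' A ∩ slab v) =
      (ι ⁻¹' A) ×ˢ Icc (0 : ℝ) 1 := by
    ext ⟨y, s⟩
    change (pr v (ι y + (s / ‖v‖) • v) ∈ A ∧ ι y + (s / ‖v‖) • v ∈ slab v) ↔ (ι y ∈ A ∧ s ∈ Icc (0 : ℝ) 1)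
    rw [pm_pr hv hι, pm_slab hv hι]
  rw [h1, Measure.prod_prod, Real.volume_Icc, sub_zero, ENNReal.ofReal_one, mul_one]

private theorem pm_pr_smul {n : ℕ} (v : E n) {r : ℝ} (hr : 0 < r) : pr (r • v) = pr v := by
  funext x
  have h1 : r * inner ℝ x v / (r ^ 2 * ‖v‖ ^ 2) * r = inner ℝ x v / ‖v‖ ^ 2 := by
    rw [div_mul_eq_mul_div]
    have h2 : r * inner ℝ x v * r = r ^ 2 * inner ℝ x v := by ring
    rw [h2, mul_div_mul_left _ _ (pow_ne_zero 2 hr.ne')]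
  rw [pr, pr, real_inner_smul_right, norm_smul, Real.norm_of_nonneg hr.le, mul_pow, smul_smul, h1]

private theorem pm_slab_smul {n : ℕ} (v : E n) {r : ℝ} (hr : 0 < r) : slab (r • v) = slab v := by
  ext x
  change (0 ≤ inner ℝ x (r • v) ∧ inner ℝ x (r • v) ≤ ‖r • v‖) ↔ (0 ≤ inner ℝ x v ∧ inner ℝ x v ≤ ‖v‖)
  rw [real_inner_smul_right, norm_smul, Real.norm_of_nonneg hr.le, mul_nonneg_iff_of_pos_left hr,
    mul_le_mul_iff_right₀ hr]

theorem pm_smul {n : ℕ} (v : E n) {r : ℝ} (hr : 0 < r) : pm (r • v) = pm v := by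
  rw [pm, pm, pm_pr_smul v hr, pm_slab_smul v hr]

theorem cyl_smul {n : ℕ} (K : Set (E n)) (v : E n) {r : ℝ} (hr : 0 < r) :
    cyl K (r • v) = cyl K v := by
  ext x
  constructor
  · rintro ⟨s, hs⟩
    refine ⟨s * r, ?_⟩
    rw [mul_smul]
    exact hs
  · rintro ⟨s, hs⟩
    refine ⟨s / r, ?_⟩
    rw [smul_smul, div_mul_cancel₀ _ hr.ne']
    exact hs

theorem TT_smul {n : ℕ} (K : Set (E n)) (v : E n) {r : ℝ} (hr : 0 < r) :
    TT K (r • v) = TT K v := by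
  rw [TT, TT, cyl_smul K v hr, pm_slab_smul v hr]

theorem lintegral_slice {k : ℕ} {v : E (k + 1)} (hv : v ≠ 0) {F : E (k + 1) → ℝ≥0∞}
    (hF : Measurable F) :
    ∫⁻ x, F x = ∫⁻ s : ℝ, ∫⁻ y, F (y + (s / ‖v‖) • v) ∂(pm v) := by
  obtain ⟨ι, hι⟩ := exists_dec hv
  rw [← (dec_mp hv hι).lintegral_comp hF, lintegral_prod_symm]
  · refine lintegral_congr fun s => ?_
    rw [pm_eq hv hι, lintegral_map _ ι.continuous.measurable]
    exact hF.comp (measurable_id.add_const _)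
  · exact (hF.comp (dec_mp hv hι).measurable).aemeasurable

theorem isClosed_cyl {n : ℕ} {K : Set (E n)} (hK : IsCompact K) (v : E n) :
    IsClosed (cyl K v) := by
  rcases eq_or_ne v 0 with hv | hv
  · have h1 : cyl K v = K := by
      ext x
      constructor
      · rintro ⟨s, hs⟩
        rw [hv, smul_zero, add_zero] at hs
        exact hs
      · intro hx
        refine ⟨0, ?_⟩
        rw [zero_smul, add_zero]
        exact hx
    rw [h1]
    exact hK.isClosed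
  · have hn : ‖v‖ ^ 2 ≠ 0 := pow_ne_zero 2 (norm_ne_zero_iff.mpr hv)
    have h1 : cyl K v = pr v ⁻¹' (pr v '' K) := by
      ext x
      constructor
      · rintro ⟨s, hs⟩
        refine ⟨x + s • v, hs, ?_⟩
        rw [pr, pr, inner_add_left, real_inner_smul_left, real_inner_self_eq_norm_sq, add_div,
          mul_div_cancel_right₀ _ hn, add_smul]
        abel
      · rintro ⟨z, hz, hzx⟩
        have h2 : z - (inner ℝ z v / ‖v‖ ^ 2) • v = x - (inner ℝ x v / ‖v‖ ^ 2) • v := hzx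
        refine ⟨inner ℝ z v / ‖v‖ ^ 2 - inner ℝ x v / ‖v‖ ^ 2, ?_⟩
        have h3 : x + (inner ℝ z v / ‖v‖ ^ 2 - inner ℝ x v / ‖v‖ ^ 2) • v = z := by
          generalize inner ℝ z v / ‖v‖ ^ 2 = b at h2 ⊢
          generalize inner ℝ x v / ‖v‖ ^ 2 = a at h2 ⊢
          rw [sub_smul]
          rw [sub_eq_iff_eq_add] at h2
          rw [h2]
          abel
        rw [h3]
        exact hz
    rw [h1]
    exact (hK.image (pm_cont_pr v)).isClosed.preimage (pm_cont_pr v)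

private theorem pm_cyl {k : ℕ} (K : Set (E (k + 1))) (v : E (k + 1)) (ι : E k →ₗᵢ[ℝ] E (k + 1))
    (y : E k) (c : ℝ) : ι y + c • v ∈ cyl K v ↔ ι y ∈ cyl K v := by
  constructor
  · rintro ⟨s, hs⟩
    refine ⟨c + s, ?_⟩
    rw [add_smul, ← add_assoc]
    exact hs
  · rintro ⟨s, hs⟩
    refine ⟨s - c, ?_⟩
    rw [sub_smul, add_assoc, add_sub_cancel]
    exact hs

private theorem pm_TT {k : ℕ} (K : Set (E (k + 1))) {v : E (k + 1)} (hv : v ≠ 0)
    {ι : E k →ₗᵢ[ℝ] E (k + 1)} (hι : IsDec v ι) :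
    (fun p : E k × ℝ => ι p.1 + (p.2 / ‖v‖) • v) ⁻¹' (TT K v) = (ι ⁻¹' cyl K v) ×ˢ Icc (0 : ℝ) 1 := by
  ext ⟨y, s⟩
  change (ι y + (s / ‖v‖) • v ∈ cyl K v ∧ ι y + (s / ‖v‖) • v ∈ slab v) ↔ (ι y ∈ cyl K v ∧ s ∈ Icc (0 : ℝ) 1)
  rw [pm_cyl, pm_slab hv hι]

private theorem pm_TT_meas {n : ℕ} {K : Set (E n)} (hK : IsCompact K) (v : E n) : MeasurableSet (TT K v) :=
  (isClosed_cyl hK v).measurableSet.inter (pm_closed_slab v).measurableSet

theorem sh_eq {k : ℕ} {K : Set (E (k + 1))} (hK : IsCompact K) {v : E (k + 1)} (hv : v ≠ 0)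
    {ι : E k →ₗᵢ[ℝ] E (k + 1)} (hι : IsDec v ι) : sh K v = volume (ι ⁻¹' cyl K v) := by
  rw [sh, ← (dec_mp hv hι).measure_preimage (pm_TT_meas hK v).nullMeasurableSet, pm_TT K hv hι,
    Measure.prod_prod, Real.volume_Icc, sub_zero, ENNReal.ofReal_one, mul_one]

theorem ft_eq {k : ℕ} {K : Set (E (k + 1))} (hK : IsCompact K) {v : E (k + 1)} (hv : v ≠ 0)
    {ι : E k →ₗᵢ[ℝ] E (k + 1)} (hι : IsDec v ι) (y : E k) :
    ft K v (ι y) = ∫ x in ι ⁻¹' cyl K v, Complex.exp (Complex.I * ((inner ℝ x y : ℝ) : ℂ)) := by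
  have hmp := (dec_mp hv hι).restrict_preimage (pm_TT_meas hK v)
  have hc : Continuous (fun x : E (k + 1) => Complex.exp (Complex.I * ((inner ℝ x (ι y) : ℝ) : ℂ))) := by
    fun_prop
  rw [ft, ← hmp.map_eq, integral_map hmp.aemeasurable hc.aestronglyMeasurable, pm_TT K hv hι]
  have h1 : ∀ p : E k × ℝ, Complex.exp (Complex.I * ((inner ℝ (ι p.1 + (p.2 / ‖v‖) • v) (ι y) : ℝ) : ℂ)) =
      (fun x : E k => Complex.exp (Complex.I * ((inner ℝ x y : ℝ) : ℂ))) p.1 * (fun _ : ℝ => (1 : ℂ)) p.2 := by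
    intro p
    have h2 : inner ℝ v (ι y) = (0 : ℝ) := by rw [real_inner_comm]; exact hι.1 y
    rw [inner_add_left, real_inner_smul_left, h2, mul_zero, add_zero, LinearIsometry.inner_map_map]
    exact (mul_one _).symm
  refine (integral_congr_ae (Eventually.of_forall h1)).trans ?_
  refine (setIntegral_prod_mul (μ := (volume : Measure (E k))) (ν := (volume : Measure ℝ))
    (fun x : E k => Complex.exp (Complex.I * ((inner ℝ x y : ℝ) : ℂ))) (fun _ : ℝ => (1 : ℂ)) (ι ⁻¹' cyl K v)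
    (Icc (0 : ℝ) 1)).trans ?_
  simp

private theorem pm_pre_smul {k : ℕ} (K : Set (E (k + 1))) (v : E (k + 1)) (ι : E k →ₗᵢ[ℝ] E (k + 1))
    {r : ℝ} (hr : 0 < r) : ι ⁻¹' cyl (r • K) v = r • (ι ⁻¹' cyl K v) := by
  ext y
  rw [mem_smul_set_iff_inv_smul_mem₀ hr.ne']
  constructor
  · rintro ⟨s, hs⟩
    refine ⟨r⁻¹ * s, ?_⟩
    rw [mem_smul_set_iff_inv_smul_mem₀ hr.ne'] at hs
    rw [map_smul, mul_smul, ← smul_add]
    exact hs
  · rintro ⟨s, hs⟩
    refine ⟨r * s, ?_⟩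
    rw [mem_smul_set_iff_inv_smul_mem₀ hr.ne', smul_add, smul_smul, ← mul_assoc, inv_mul_cancel₀ hr.ne', one_mul,
      ← map_smul]
    exact hs

theorem sh_smul {k : ℕ} {K : Set (E (k + 1))} (hK : IsCompact K) {v : E (k + 1)} (hv : v ≠ 0)
    {r : ℝ} (hr : 0 < r) : sh (r • K) v = ENNReal.ofReal (r ^ k) * sh K v := by
  obtain ⟨ι, hι⟩ := exists_dec hv
  rw [sh_eq (hK.smul r) hv hι, sh_eq hK hv hι, pm_pre_smul K v ι hr, Measure.addHaar_smul,
    finrank_euclideanSpace_fin, abs_of_nonneg (pow_nonneg hr.le k)]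

private theorem pm_perp_pr {n : ℕ} {v : E n} (hv : v ≠ 0) (x : E n) : inner ℝ (pr v x) v = (0 : ℝ) := by
  have hn : ‖v‖ ^ 2 ≠ 0 := pow_ne_zero 2 (norm_ne_zero_iff.mpr hv)
  rw [pr, inner_sub_left, real_inner_smul_left, real_inner_self_eq_norm_sq, div_mul_cancel₀ _ hn, sub_self]

theorem sh_add {k : ℕ} {K : Set (E (k + 1))} (hK : IsCompact K) {v : E (k + 1)} (hv : v ≠ 0)
    (p : E (k + 1)) : sh ((fun x => p + x) '' K) v = sh K v := by
  obtain ⟨ι, hι⟩ := exists_dec hv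
  obtain ⟨y₀, hy₀⟩ := hι.2 (pr v p) (pm_perp_pr hv p)
  have hp : p = ι y₀ + (inner ℝ p v / ‖v‖ ^ 2) • v := by
    rw [hy₀, pr, sub_add_cancel]
  rw [sh_eq (hK.image (by fun_prop)) hv hι, sh_eq hK hv hι]
  have h1 : ι ⁻¹' cyl ((fun x => p + x) '' K) v = (fun y => y - y₀) ⁻¹' (ι ⁻¹' cyl K v) := by
    ext y
    constructor
    · rintro ⟨s, x, hx, hxs⟩
      have hxs' : p + x = ι y + s • v := hxs
      refine ⟨s - inner ℝ p v / ‖v‖ ^ 2, ?_⟩
      have h2 : ι (y - y₀) + (s - inner ℝ p v / ‖v‖ ^ 2) • v = x := by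
        have h3 : x = ι y + s • v - p := by rw [← hxs', add_sub_cancel_left]
        rw [h3, map_sub, sub_smul]
        generalize inner ℝ p v / ‖v‖ ^ 2 = c at hp ⊢
        rw [hp]
        abel
      change ι (y - y₀) + (s - inner ℝ p v / ‖v‖ ^ 2) • v ∈ K
      rw [h2]
      exact hx
    · rintro ⟨s, hs⟩
      refine ⟨s + inner ℝ p v / ‖v‖ ^ 2, ι (y - y₀) + s • v, hs, ?_⟩
      change p + (ι (y - y₀) + s • v) = ι y + (s + inner ℝ p v / ‖v‖ ^ 2) • v
      rw [map_sub, add_smul]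
      generalize inner ℝ p v / ‖v‖ ^ 2 = c at hp ⊢
      rw [hp]
      abel
  rw [h1]
  simp only [sub_eq_add_neg]
  exact measure_preimage_add_right volume (-y₀) _

theorem pm_perp {k : ℕ} {v : E (k + 1)} (hv : v ≠ 0) : ∀ᵐ y ∂(pm v), inner ℝ y v = (0 : ℝ) := by
  obtain ⟨ι, hι⟩ := exists_dec hv
  have hm : MeasurableSet {y : E (k + 1) | inner ℝ y v = (0 : ℝ)} :=
    (isClosed_eq (by fun_prop) continuous_const).measurableSet
  rw [pm_eq hv hι, ae_map_iff ι.continuous.measurable.aemeasurable hm]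
  exact Eventually.of_forall fun y => hι.1 y

theorem pm_zero {k : ℕ} (hk : 1 ≤ k) {v : E (k + 1)} (hv : v ≠ 0) : pm v {0} = 0 := by
  obtain ⟨ι, hι⟩ := exists_dec hv
  have hnt : Nontrivial (E k) := by
    apply Module.nontrivial_of_finrank_pos (R := ℝ)
    rw [finrank_euclideanSpace_fin]
    exact hk
  rw [pm_eq hv hι, Measure.map_apply ι.continuous.measurable (measurableSet_singleton _)]
  have h1 : ι ⁻¹' {0} = {0} := by
    ext y
    rw [mem_preimage, mem_singleton_iff, mem_singleton_iff]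
    exact ⟨fun h => ι.injective (by rw [h, map_zero]), fun h => by rw [h, map_zero]⟩
  rw [h1]
  exact measure_singleton 0

theorem pm_univ_ne {k : ℕ} {v : E (k + 1)} (hv : v ≠ 0) : pm v univ ≠ 0 := by
  obtain ⟨ι, hι⟩ := exists_dec hv
  rw [pm_eq hv hι, Measure.map_apply ι.continuous.measurable MeasurableSet.univ, preimage_univ]
  exact isOpen_univ.measure_ne_zero volume univ_nonempty

private theorem pm_gam_meas {n : ℕ} : Measurable (fun y : E n => ENNReal.ofReal (gam y)) := by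
  apply Measurable.ennreal_ofReal
  have h1 : Continuous (gam : E n → ℝ) := by
    unfold gam
    fun_prop
  exact h1.measurable

theorem lintegral_gam_pm {k : ℕ} {v : E (k + 1)} (hv : v ≠ 0) :
    ∫⁻ y, ENNReal.ofReal (gam y) ∂(pm v) = ∫⁻ y : E k, ENNReal.ofReal (gam y) := by
  obtain ⟨ι, hι⟩ := exists_dec hv
  rw [pm_eq hv hι, lintegral_map pm_gam_meas ι.continuous.measurable]
  refine lintegral_congr fun y => ?_
  rw [gam, gam, LinearIsometry.norm_map]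

theorem lintegral_gam_lt {k : ℕ} : ∫⁻ y : E k, ENNReal.ofReal (gam y) < ∞ := by
  have h1 := (GaussianFourier.integrable_cexp_neg_mul_sq_norm_add (b := ((1 / 2 : ℝ) : ℂ))
    (by rw [Complex.ofReal_re]; norm_num) 0 (0 : E k)).norm
  have h2 : Integrable (gam : E k → ℝ) := by
    refine (integrable_congr (Eventually.of_forall fun y => ?_)).mp h1
    change ‖Complex.exp (-((1 / 2 : ℝ) : ℂ) * (‖y‖ : ℂ) ^ 2 + 0 * ((inner ℝ (0 : E k) y : ℝ) : ℂ))‖ = gam y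
    rw [Complex.norm_exp, zero_mul, add_zero, gam]
    congr 1
    rw [← Complex.ofReal_neg, ← Complex.ofReal_pow, ← Complex.ofReal_mul, Complex.ofReal_re]
    ring
  exact h2.lintegral_lt_top

end Pool.Agent.MP_c8a077_gtP
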