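import Pool.Agent.Lib.MP_c8a077_gtP.Ms
import Pool.Agent.Lib.MP_c8a077_gtP.Pm

/-!
# JOB Bd (about 180 lines): bounds

(`Ms`, `Dec`, `Pm` may still be unfinished.)
PROOFS.  `TT_subset`: `x + s v ∈ K`: the component of `x` orthogonal to `v` is the one of a point of `K`, so it has norm `≤ R`, and the
component along `v` has norm `≤ 1`: `x = pr v x + (⟪x,v⟫/‖v‖²) v`, `‖pr v (x + s v)‖ ≤ ‖x + s v‖ ≤ R`.
`sh_le`: `R` with `K ⊆ closedBall 0 R`, `C = (volume (closedBall 0 (R+1))).toReal`.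
`sh_pos`: `closedBall z ρ ⊆ K`; move `z` along `v` to `z'` with `⟪z', v⟫ = ‖v‖/2`; then `ball z' (min ρ (1/2)) ⊆ TT K v` (moving a point of
this ball back along `v` gives a point of `ball z ρ ⊆ K`), and open balls have positive volume.
`sh_ne_top`: bounded set.  `norm_ft_le`: `norm_setIntegral_le_of_norm_le_const`, `‖exp (i t)‖ = 1`.
`ofReal_gV`: `ofReal_integral_eq_lintegral_ofReal` for a nonnegative integrable function (bounded by `C * gam`, `lintegral_gam_pm`,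
`lintegral_gam_lt`, `pm_zero` for the point `w = 0`), and `ofReal (toReal (sh K w)) = sh K w` for `w ≠ 0`.
`gV_pos`: the lintegral of a function which is positive for `w ≠ 0` and `pm ξ {0} = 0`, `pm ξ univ ≠ 0` (`lintegral_pos_iff_support`).
`integrable_gf`: bounded by `gam w * (sh K w).toReal`.  `gV_smul`: `pm_smul`.
-/

open MeasureTheory Set Metric Topology Filter
open Pool.Agent.MP_c8a077_gt
open scoped ENNReal NNReal

namespace Pool.Agent.MP_c8a077_gtP

private theorem Bd_pr_add {n : ℕ} {v : E n} (hv : v ≠ 0) (x : E n) (s : ℝ) : pr v (x + s • v) = pr v x := by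
  have h0 : ‖v‖ ^ 2 ≠ 0 := pow_ne_zero 2 (norm_ne_zero_iff.2 hv)
  unfold pr
  rw [inner_add_left, real_inner_smul_left, real_inner_self_eq_norm_sq, add_div, mul_div_cancel_right₀ _ h0, add_smul]
  abel

private theorem Bd_pr_le {n : ℕ} {v : E n} (hv : v ≠ 0) (x : E n) : ‖pr v x‖ ≤ ‖x‖ := by
  have h0 : 0 < ‖v‖ := norm_pos_iff.2 hv
  have h1 : ‖pr v x‖ ^ 2 = ‖x‖ ^ 2 - (inner ℝ x v) ^ 2 / ‖v‖ ^ 2 := by
    unfold pr
    rw [norm_sub_sq_real, real_inner_smul_right, norm_smul, mul_pow, Real.norm_eq_abs, sq_abs]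
    field_simp
    ring
  have h2 : ‖pr v x‖ ^ 2 ≤ ‖x‖ ^ 2 := by
    rw [h1]
    have : 0 ≤ (inner ℝ x v) ^ 2 / ‖v‖ ^ 2 := by positivity
    linarith
  exact (sq_le_sq₀ (norm_nonneg _) (norm_nonneg _)).1 h2

private theorem Bd_ae {k : ℕ} (hk : 1 ≤ k) {ξ : E (k + 1)} (hξ : ξ ≠ 0) : ∀ᵐ w ∂(pm ξ), w ≠ 0 := by
  rw [ae_iff]
  simpa using pm_zero hk hξ

private theorem Bd_gam_pos {n : ℕ} (w : E n) : 0 < gam w := Real.exp_pos _

private theorem Bd_gam {k : ℕ} {ξ : E (k + 1)} (hξ : ξ ≠ 0) : Integrable (fun w => gam w) (pm ξ) := by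
  refine ⟨measurable_gam.aestronglyMeasurable, ?_⟩
  rw [hasFiniteIntegral_iff_ofReal (Eventually.of_forall fun w => (Bd_gam_pos w).le), lintegral_gam_pm hξ]
  exact lintegral_gam_lt

theorem TT_subset {n : ℕ} {K : Set (E n)} {R : ℝ} (hR : K ⊆ closedBall 0 R) {v : E n}
    (hv : v ≠ 0) : TT K v ⊆ closedBall 0 (R + 1) := by
  rintro x ⟨⟨s, hs⟩, h1, h2⟩
  have h0 : 0 < ‖v‖ := norm_pos_iff.2 hv
  have h3 : ‖x + s • v‖ ≤ R := mem_closedBall_zero_iff.1 (hR hs)
  have h4 : ‖pr v x‖ ≤ R := by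
    rw [← Bd_pr_add hv x s]
    exact (Bd_pr_le hv _).trans h3
  have h5 : x = pr v x + (inner ℝ x v / ‖v‖ ^ 2) • v := by
    unfold pr
    rw [sub_add_cancel]
  have h6 : ‖(inner ℝ x v / ‖v‖ ^ 2) • v‖ ≤ 1 := by
    rw [norm_smul, Real.norm_eq_abs, abs_of_nonneg (by positivity), sq, ← div_div, div_mul_cancel₀ _ h0.ne',
      div_le_one h0]
    exact h2
  rw [mem_closedBall_zero_iff]
  calc ‖x‖ = ‖pr v x + (inner ℝ x v / ‖v‖ ^ 2) • v‖ := congrArg norm h5
    _ ≤ ‖pr v x‖ + ‖(inner ℝ x v / ‖v‖ ^ 2) • v‖ := norm_add_le _ _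
    _ ≤ R + 1 := add_le_add h4 h6

theorem measurableSet_TT {n : ℕ} {K : Set (E n)} (hK : IsCompact K) (v : E n) :
    MeasurableSet (TT K v) := by
  refine (isClosed_cyl hK v).measurableSet.inter ?_
  have h1 : Continuous fun x : E n => (inner ℝ x v : ℝ) := continuous_id.inner continuous_const
  exact ((isClosed_le continuous_const h1).inter (isClosed_le h1 continuous_const)).measurableSet

theorem sh_pos {n : ℕ} {K : Set (E n)} (hK : IsBody K) {v : E n} (hv : v ≠ 0) : 0 < sh K v := by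
  obtain ⟨z, hz⟩ := hK.2.2
  obtain ⟨ρ, hρ, hb⟩ := Metric.isOpen_iff.1 isOpen_interior z hz
  have h0 : 0 < ‖v‖ := norm_pos_iff.2 hv
  set t : ℝ := (‖v‖ / 2 - inner ℝ z v) / ‖v‖ ^ 2 with ht
  have hz' : inner ℝ (z + t • v) v = ‖v‖ / 2 := by
    rw [inner_add_left, real_inner_smul_left, real_inner_self_eq_norm_sq, ht, div_mul_cancel₀ _ (pow_ne_zero 2 h0.ne')]
    ring
  have hsub : ball (z + t • v) (min ρ (1 / 2)) ⊆ TT K v := by
    intro y hy
    rw [mem_ball, dist_eq_norm] at hy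
    refine ⟨⟨-t, ?_⟩, ?_⟩
    · refine interior_subset (hb ?_)
      rw [mem_ball, dist_eq_norm]
      have h1 : y + -t • v - z = y - (z + t • v) := by
        rw [neg_smul]
        abel
      rw [h1]
      exact lt_of_lt_of_le hy (min_le_left _ _)
    · have h1 : |inner ℝ (y - (z + t • v)) v| ≤ ‖v‖ / 2 := by
        refine (abs_real_inner_le_norm _ _).trans ?_
        have h2 : ‖y - (z + t • v)‖ ≤ 1 / 2 := (lt_of_lt_of_le hy (min_le_right _ _)).le
        calc ‖y - (z + t • v)‖ * ‖v‖ ≤ 1 / 2 * ‖v‖ := mul_le_mul_of_nonneg_right h2 h0.le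
          _ = ‖v‖ / 2 := by ring
      rw [inner_sub_left, hz', abs_le] at h1
      constructor <;> linarith [h1.1, h1.2]
  refine lt_of_lt_of_le ?_ (measure_mono hsub)
  exact measure_ball_pos _ _ (lt_min hρ (by norm_num))

theorem sh_ne_top {n : ℕ} {K : Set (E n)} (hK : IsBody K) {v : E n} (hv : v ≠ 0) :
    sh K v ≠ ∞ := by
  obtain ⟨R, hR⟩ := hK.2.1.isBounded.subset_closedBall 0
  exact ne_top_of_le_ne_top measure_closedBall_lt_top.ne (measure_mono (TT_subset hR hv))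

theorem sh_le {n : ℕ} {K : Set (E n)} (hK : IsBody K) :
    ∃ C : ℝ, 0 < C ∧ ∀ v : E n, v ≠ 0 → sh K v ≤ ENNReal.ofReal C := by
  obtain ⟨R, hR⟩ := hK.2.1.isBounded.subset_closedBall 0
  refine ⟨(volume (closedBall (0 : E n) (R + 1))).toReal + 1, by positivity, fun v hv => ?_⟩
  refine (measure_mono (TT_subset hR hv)).trans ?_
  refine le_trans (le_of_eq (ENNReal.ofReal_toReal measure_closedBall_lt_top.ne).symm) ?_
  exact ENNReal.ofReal_le_ofReal (by linarith)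

theorem norm_ft_le {n : ℕ} {K : Set (E n)} (hK : IsBody K) {v : E n} (hv : v ≠ 0) (ξ : E n) :
    ‖ft K v ξ‖ ≤ (sh K v).toReal := by
  have h1 := norm_setIntegral_le_of_norm_le_const (μ := volume) (s := TT K v) (C := 1)
    (f := fun x : E n => Complex.exp (Complex.I * ((inner ℝ x ξ : ℝ) : ℂ)))
    (lt_top_iff_ne_top.2 (sh_ne_top hK hv)) (fun x _ => by
      rw [mul_comm]
      exact (Complex.norm_exp_ofReal_mul_I _).le)
  rw [one_mul] at h1
  exact h1

theorem integrable_gV {k : ℕ} (hk : 1 ≤ k) {K : Set (E (k + 1))} (hK : IsBody K)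
    {ξ : E (k + 1)} (hξ : ξ ≠ 0) :
    Integrable (fun w => gam w * (sh K w).toReal) (pm ξ) := by
  obtain ⟨C, hC, hle⟩ := sh_le hK
  refine ((Bd_gam hξ).mul_const C).mono'
    (measurable_gam.mul (measurable_sh hK.2.1).ennreal_toReal).aestronglyMeasurable ?_
  filter_upwards [Bd_ae hk hξ] with w hw
  rw [norm_mul, Real.norm_eq_abs, Real.norm_eq_abs, abs_of_pos (Bd_gam_pos w), abs_of_nonneg ENNReal.toReal_nonneg]
  refine mul_le_mul_of_nonneg_left ?_ (Bd_gam_pos w).le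
  exact ENNReal.toReal_le_of_le_ofReal hC.le (hle w hw)

theorem ofReal_gV {k : ℕ} (hk : 1 ≤ k) {K : Set (E (k + 1))} (hK : IsBody K)
    {ξ : E (k + 1)} (hξ : ξ ≠ 0) :
    ENNReal.ofReal (gV K ξ) = ∫⁻ w, ENNReal.ofReal (gam w) * sh K w ∂(pm ξ) := by
  unfold gV
  rw [ofReal_integral_eq_lintegral_ofReal (integrable_gV hk hK hξ)
    (Eventually.of_forall fun w => mul_nonneg (Bd_gam_pos w).le ENNReal.toReal_nonneg)]
  refine lintegral_congr_ae ?_
  filter_upwards [Bd_ae hk hξ] with w hw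
  rw [ENNReal.ofReal_mul (Bd_gam_pos w).le, ENNReal.ofReal_toReal (sh_ne_top hK hw)]

theorem gV_pos {k : ℕ} (hk : 1 ≤ k) {K : Set (E (k + 1))} (hK : IsBody K)
    {ξ : E (k + 1)} (hξ : ξ ≠ 0) : 0 < gV K ξ := by
  rw [← ENNReal.ofReal_pos, ofReal_gV hk hK hξ, pos_iff_ne_zero]
  intro h
  have hm : Measurable fun w : E (k + 1) => ENNReal.ofReal (gam w) * sh K w :=
    measurable_gam.ennreal_ofReal.mul (measurable_sh hK.2.1)
  rw [lintegral_eq_zero_iff hm] at h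
  have h1 : ∀ᵐ w ∂(pm ξ), False := by
    filter_upwards [h, Bd_ae hk hξ] with w h2 hw
    rcases mul_eq_zero.1 h2 with h3 | h3
    · exact (ENNReal.ofReal_pos.2 (Bd_gam_pos w)).ne' h3
    · exact (sh_pos hK hw).ne' h3
  rw [ae_iff] at h1
  refine pm_univ_ne hξ ?_
  simpa using h1

theorem integrable_gf {k : ℕ} (hk : 1 ≤ k) {K : Set (E (k + 1))} (hK : IsBody K)
    {ξ : E (k + 1)} (hξ : ξ ≠ 0) (η : E (k + 1)) :
    Integrable (fun w => ((gam w : ℝ) : ℂ) * ft K w η) (pm ξ) := by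
  refine (integrable_gV hk hK hξ).mono' ?_ ?_
  · exact ((Complex.measurable_ofReal.comp measurable_gam).mul
      ((measurable_ft hK.2.1).comp (measurable_id.prodMk measurable_const))).aestronglyMeasurable
  · filter_upwards [Bd_ae hk hξ] with w hw
    rw [norm_mul, Complex.norm_real, Real.norm_eq_abs, abs_of_pos (Bd_gam_pos w)]
    exact mul_le_mul_of_nonneg_left (norm_ft_le hK hw η) (Bd_gam_pos w).le

theorem gV_smul {n : ℕ} (K : Set (E n)) (u : E n) {s : ℝ} (hs : 0 < s) :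
    gV K (s • u) = gV K u := by
  unfold gV
  rw [pm_smul u hs]

end Pool.Agent.MP_c8a077_gtP
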