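import Pool.Agent.Lib.MP_c8a077_gtP.Defs

/-!
# JOB Bu (about 220 lines): the radial bump function and its Fourier transform

PROOFS.  `bump r x = smoothTransition (1 - ‖x‖²/r²)` is smooth (`Real.smoothTransition.contDiff`, `contDiff_norm_sq`), with values in `[0,1]`, zero
for `‖x‖ ≥ r` (`Real.smoothTransition.zero_of_nonpos`), positive for `‖x‖ < r` (`pos_of_pos`), so compactly supported.
`ft_bump`: the left side `B y` satisfies `B (g y) = B y` for linear isometries `g` (substitution), and two vectors of the same norm are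
exchanged by one (reflection), so `B y = B (‖y‖ • e₀)`, `e₀ = EuclideanSpace.single 0 1`, and `⟪x, s • e₀⟫ = s * x 0`; the imaginary part
vanishes (`x ↦ -x`).
Decay: `B` is (up to the scaling by `2π`) the Fourier transform of a Schwartz function (`HasCompactSupport.toSchwartzMap`, then
`SchwartzMap.fourier...`): `‖y‖^p * ‖B y‖ ≤ C_p`; `bt m r s = B (s • e₀)` gives `bt_decay`; `bt_integrable`: `(1 + ‖y‖)^p * |bt m r ‖y‖| ≤ C` for
`p = 2 m + 2` and `integrable_one_add_norm`.
`bump_inv`: Fourier inversion (`Continuous.fourierInv_fourier_eq`/`MeasureTheory.Integrable.fourierInv_fourier_eq`, or the Schwartz version),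
substitution `y = 2 π ξ`, factor `(2π)^(2m+1)`; `bump r (-x) = bump r x`.
`mu_smul`: substitution `x = r x'` in `E (2m+1)` (`Measure.integral_comp_smul`).  `mu_odd`: `x ↦ -x`.  `mu_even_pos`: the integrand is
nonnegative, continuous and positive at some points.
-/

open MeasureTheory Set Metric Topology Filter
open Pool.Agent.MP_c8a077_gt
open scoped ENNReal NNReal ContDiff FourierTransform SchwartzMap

namespace Pool.Agent.MP_c8a077_gtP

theorem contDiff_bump {k : ℕ} (r : ℝ) : ContDiff ℝ ∞ (fun x : E k => bump r x) := by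
  unfold bump
  exact Real.smoothTransition.contDiff.comp (contDiff_const.sub ((contDiff_norm_sq ℝ).div_const _))

theorem bump_nonneg {k : ℕ} (r : ℝ) (x : E k) : 0 ≤ bump r x := Real.smoothTransition.nonneg _

theorem bump_le_one {k : ℕ} (r : ℝ) (x : E k) : bump r x ≤ 1 := Real.smoothTransition.le_one _

theorem bump_zero {k : ℕ} {r : ℝ} (hr : 0 < r) {x : E k} (hx : r ≤ ‖x‖) : bump r x = 0 := by
  unfold bump
  refine Real.smoothTransition.zero_of_nonpos ?_
  have h1 : 1 ≤ ‖x‖ ^ 2 / r ^ 2 := by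
    rw [le_div_iff₀ (by positivity), one_mul]
    exact pow_le_pow_left₀ hr.le hx 2
  linarith

private theorem Bu_cont {k : ℕ} (r : ℝ) : Continuous (fun x : E k => bump r x) := (contDiff_bump r).continuous

private theorem Bu_supp {k : ℕ} {r : ℝ} (hr : 0 < r) : HasCompactSupport (fun x : E k => bump r x) :=
  HasCompactSupport.intro (isCompact_closedBall (0 : E k) r) fun x hx => bump_zero hr (by
    rw [mem_closedBall_zero_iff, not_le] at hx
    exact hx.le)

private theorem Bu_pos {k : ℕ} {r : ℝ} (hr : 0 < r) {x : E k} (hx : ‖x‖ < r) : 0 < bump r x := by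
  unfold bump
  refine Real.smoothTransition.pos_of_pos ?_
  have h1 : ‖x‖ ^ 2 / r ^ 2 < 1 := by
    rw [div_lt_one (by positivity)]
    exact pow_lt_pow_left₀ hx (norm_nonneg _) two_ne_zero
  linarith

theorem integrable_bump {k : ℕ} {r : ℝ} (hr : 0 < r) {g : E k → ℝ} (hg : Continuous g) :
    Integrable (fun x : E k => bump r x * g x) :=
  ((Bu_cont r).mul hg).integrable_of_hasCompactSupport ((Bu_supp hr).mul_right)

theorem integral_bump_pos {k : ℕ} {r : ℝ} (hr : 0 < r) : 0 < ∫ x : E k, bump r x := by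
  refine (Bu_cont r).integral_pos_of_hasCompactSupport_nonneg_nonzero (x := 0) (Bu_supp hr)
    (fun x => bump_nonneg r x) (Bu_pos hr ?_).ne'
  rw [norm_zero]
  exact hr

private theorem Bu_neg {k : ℕ} (r : ℝ) (x : E k) : bump r (-x) = bump r x := by
  unfold bump
  rw [norm_neg]

private theorem Bu_odd {k : ℕ} {f : E k → ℝ} (h : ∀ x, f (-x) = -f x) : ∫ x, f x = 0 := by
  have h1 : ∫ x, f (-x) = ∫ x, f x := integral_neg_eq_self f volume
  have h2 : ∫ x, f (-x) = -∫ x, f x := by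
    rw [← integral_neg]
    exact integral_congr_ae (Eventually.of_forall h)
  linarith

private theorem Bu_rot {m : ℕ} (y : E (2 * m + 1)) :
    ∃ A : E (2 * m + 1) ≃ₗᵢ[ℝ] E (2 * m + 1), ∀ x, inner ℝ x y = ‖y‖ * (A x) 0 := by
  have h1 : ‖y‖ = ‖‖y‖ • (EuclideanSpace.single (0 : Fin (2 * m + 1)) (1 : ℝ))‖ := by
    rw [norm_smul, norm_norm, PiLp.norm_single, norm_one, mul_one]
  refine ⟨(Submodule.span ℝ {y - ‖y‖ • (EuclideanSpace.single (0 : Fin (2 * m + 1)) (1 : ℝ))})ᗮ.reflection, fun x => ?_⟩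
  have h2 := Submodule.reflection_sub h1
  rw [← LinearIsometryEquiv.inner_map_map
    (Submodule.span ℝ {y - ‖y‖ • (EuclideanSpace.single (0 : Fin (2 * m + 1)) (1 : ℝ))})ᗮ.reflection x y, h2,
    inner_smul_right, EuclideanSpace.inner_single_right]
  simp

theorem ft_bump {m : ℕ} {r : ℝ} (hr : 0 < r) (y : E (2 * m + 1)) :
    ∫ x : E (2 * m + 1), ((bump r x : ℝ) : ℂ) * Complex.exp (Complex.I * ((inner ℝ x y : ℝ) : ℂ)) =
      ((bt m r ‖y‖ : ℝ) : ℂ) := by
  obtain ⟨A, hA⟩ := Bu_rot y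
  have h1 : ∫ x : E (2 * m + 1), ((bump r x : ℝ) : ℂ) * Complex.exp (Complex.I * ((inner ℝ x y : ℝ) : ℂ)) =
      ∫ x : E (2 * m + 1), ((bump r x : ℝ) : ℂ) * Complex.exp (Complex.I * ((‖y‖ * x 0 : ℝ) : ℂ)) := by
    rw [← MeasurePreserving.integral_comp A.measurePreserving A.toHomeomorph.measurableEmbedding
      (fun x : E (2 * m + 1) => ((bump r x : ℝ) : ℂ) * Complex.exp (Complex.I * ((‖y‖ * x 0 : ℝ) : ℂ)))]
    refine integral_congr_ae (Eventually.of_forall fun x => ?_)
    have h2 : bump r (A x) = bump r x := by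
      unfold bump
      rw [A.norm_map]
    simp only [hA, h2]
  have hc : Continuous fun x : E (2 * m + 1) => Real.cos (‖y‖ * x 0) := by fun_prop
  have hs : Continuous fun x : E (2 * m + 1) => Real.sin (‖y‖ * x 0) := by fun_prop
  have h3 : ∀ x : E (2 * m + 1), ((bump r x : ℝ) : ℂ) * Complex.exp (Complex.I * ((‖y‖ * x 0 : ℝ) : ℂ)) =
      ((bump r x * Real.cos (‖y‖ * x 0) : ℝ) : ℂ) + ((bump r x * Real.sin (‖y‖ * x 0) : ℝ) : ℂ) * Complex.I := by
    intro x
    rw [mul_comm Complex.I, Complex.exp_mul_I, ← Complex.ofReal_cos, ← Complex.ofReal_sin, Complex.ofReal_mul,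
      Complex.ofReal_mul]
    ring
  have h4 : ∫ x : E (2 * m + 1), bump r x * Real.sin (‖y‖ * x 0) = 0 := by
    refine Bu_odd fun x => ?_
    rw [Bu_neg, PiLp.neg_apply, mul_neg, Real.sin_neg, mul_neg]
  rw [h1, integral_congr_ae (Eventually.of_forall h3), integral_add (integrable_bump hr hc).ofReal
    ((integrable_bump hr hs).ofReal.mul_const _), integral_mul_const, integral_complex_ofReal, integral_complex_ofReal, h4,
    Complex.ofReal_zero, zero_mul, add_zero]
  rfl

theorem continuous_bt {m : ℕ} {r : ℝ} (hr : 0 < r) : Continuous (bt m r) := by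
  refine continuous_of_dominated (bound := fun x : E (2 * m + 1) => bump r x) ?_ ?_ ?_ ?_
  · intro s
    have hc : Continuous fun x : E (2 * m + 1) => Real.cos (s * x 0) := by fun_prop
    exact ((Bu_cont r).mul hc).aestronglyMeasurable
  · intro s
    refine Eventually.of_forall fun x => ?_
    rw [norm_mul, Real.norm_of_nonneg (bump_nonneg r x)]
    exact mul_le_of_le_one_right (bump_nonneg r x) (Real.abs_cos_le_one _)
  · exact (Bu_cont r).integrable_of_hasCompactSupport (Bu_supp hr)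
  · refine Eventually.of_forall fun x => ?_
    fun_prop

theorem bt_neg {m : ℕ} (r s : ℝ) : bt m r (-s) = bt m r s := by
  unfold bt
  refine integral_congr_ae (Eventually.of_forall fun x => ?_)
  simp only [neg_mul, Real.cos_neg]

private theorem Bu_abs {m : ℕ} (r s : ℝ) : bt m r |s| = bt m r s := by
  rcases abs_choice s with h | h
  · rw [h]
  · rw [h, bt_neg]

/-- The bump function as a Schwartz function. -/
private noncomputable def Bu_g {m : ℕ} {r : ℝ} (hr : 0 < r) : 𝓢(E (2 * m + 1), ℂ) :=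
  HasCompactSupport.toSchwartzMap (f := fun x : E (2 * m + 1) => ((bump r x : ℝ) : ℂ))
    ((Bu_supp hr).comp_left (g := fun t : ℝ => (t : ℂ)) Complex.ofReal_zero)
    (Complex.ofRealCLM.contDiff.comp (contDiff_bump r))

private theorem Bu_F {m : ℕ} {r : ℝ} (hr : 0 < r) (w : E (2 * m + 1)) :
    (𝓕 (Bu_g (m := m) hr)) w = ((bt m r (2 * Real.pi * ‖w‖) : ℝ) : ℂ) := by
  have h1 : (𝓕 (Bu_g (m := m) hr)) w = 𝓕 (fun x : E (2 * m + 1) => ((bump r x : ℝ) : ℂ)) w := rfl
  rw [h1, Real.fourier_eq']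
  have h2 := ft_bump hr (-(2 * Real.pi) • w)
  have h3 : ‖-(2 * Real.pi) • w‖ = 2 * Real.pi * ‖w‖ := by
    rw [norm_smul, norm_neg, Real.norm_of_nonneg (by positivity)]
  rw [h3] at h2
  rw [← h2]
  refine integral_congr_ae (Eventually.of_forall fun x => ?_)
  have h4 : (inner ℝ x (-(2 * Real.pi) • w) : ℝ) = -2 * Real.pi * inner ℝ x w := by
    rw [inner_smul_right]
    ring
  simp only [smul_eq_mul, h4]
  rw [mul_comm, mul_comm Complex.I]

theorem bt_decay {m : ℕ} {r : ℝ} (hr : 0 < r) (p : ℕ) :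
    ∃ C : ℝ, ∀ s : ℝ, |s| ^ p * |bt m r s| ≤ C := by
  obtain ⟨C, _, hC⟩ := (𝓕 (Bu_g (m := m) hr)).decay p 0
  refine ⟨(2 * Real.pi) ^ p * C, fun s => ?_⟩
  have h1 := hC ((s / (2 * Real.pi)) • (EuclideanSpace.single (0 : Fin (2 * m + 1)) (1 : ℝ)))
  rw [norm_iteratedFDeriv_zero, Bu_F] at h1
  have h2 : ‖(s / (2 * Real.pi)) • (EuclideanSpace.single (0 : Fin (2 * m + 1)) (1 : ℝ))‖ = |s| / (2 * Real.pi) := by
    rw [norm_smul, PiLp.norm_single, norm_one, mul_one, Real.norm_eq_abs, abs_div,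
      abs_of_pos (by positivity : (0 : ℝ) < 2 * Real.pi)]
  have hp : (2 * Real.pi) ≠ 0 := by positivity
  rw [h2, mul_div_cancel₀ _ hp, Bu_abs, Complex.norm_real, Real.norm_eq_abs] at h1
  have h3 : |s| ^ p * |bt m r s| = (2 * Real.pi) ^ p * ((|s| / (2 * Real.pi)) ^ p * |bt m r s|) := by
    rw [← mul_assoc, ← mul_pow, mul_div_cancel₀ _ hp]
  rw [h3]
  exact mul_le_mul_of_nonneg_left h1 (by positivity)

theorem bt_integrable {m : ℕ} {r : ℝ} (hr : 0 < r) :
    Integrable (fun y : E (2 * m + 1) => bt m r ‖y‖) := by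
  have h1 : Integrable (fun w : E (2 * m + 1) => (𝓕 (Bu_g (m := m) hr)) w) := (𝓕 (Bu_g (m := m) hr)).integrable
  have h2 : Integrable (fun w : E (2 * m + 1) => bt m r (2 * Real.pi * ‖w‖)) := by
    refine (h1.re).congr (Eventually.of_forall fun w => ?_)
    simp only [Bu_F]
    exact Complex.ofReal_re _
  have hp : (2 * Real.pi)⁻¹ ≠ 0 := by positivity
  refine (h2.comp_smul hp).congr (Eventually.of_forall fun y => ?_)
  have h3 : 2 * Real.pi * ‖(2 * Real.pi)⁻¹ • y‖ = ‖y‖ := by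
    rw [norm_smul, Real.norm_of_nonneg (by positivity), ← mul_assoc, mul_inv_cancel₀ (by positivity), one_mul]
  simp only [h3]

theorem bt_integrable_pow {m : ℕ} {r : ℝ} (hr : 0 < r) (p : ℕ) :
    Integrable (fun s : ℝ => s ^ p * bt m r s) := by
  obtain ⟨C, hC⟩ := bt_decay (m := m) hr p
  obtain ⟨C', hC'⟩ := bt_decay (m := m) hr (p + 2)
  refine Integrable.mono' (g := fun s => (C + C') * (1 + s ^ 2)⁻¹) (integrable_inv_one_add_sq.const_mul _)
    ((continuous_pow p).mul (continuous_bt hr)).aestronglyMeasurable (Eventually.of_forall fun s => ?_)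
  have h1 := hC s
  have h2 := hC' s
  rw [norm_mul, norm_pow, Real.norm_eq_abs, Real.norm_eq_abs, ← div_eq_mul_inv, le_div_iff₀ (by positivity)]
  have h3 : |s| ^ (p + 2) * |bt m r s| = |s| ^ p * |bt m r s| * s ^ 2 := by
    rw [pow_add, sq_abs]
    ring
  rw [h3] at h2
  linarith

theorem bump_inv {m : ℕ} {r : ℝ} (hr : 0 < r) (x : E (2 * m + 1)) :
    ∫ y : E (2 * m + 1), ((bt m r ‖y‖ : ℝ) : ℂ) * Complex.exp (Complex.I * ((inner ℝ x y : ℝ) : ℂ)) =
      (((2 * Real.pi) ^ (2 * m + 1) * bump r x : ℝ) : ℂ) := by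
  have hf : Integrable (fun x : E (2 * m + 1) => ((bump r x : ℝ) : ℂ)) :=
    ((Bu_cont r).integrable_of_hasCompactSupport (Bu_supp hr)).ofReal
  have h1 : Integrable (𝓕 (fun x : E (2 * m + 1) => ((bump r x : ℝ) : ℂ))) := (𝓕 (Bu_g (m := m) hr)).integrable
  have hcx : Continuous (fun x : E (2 * m + 1) => ((bump r x : ℝ) : ℂ)) := Complex.continuous_ofReal.comp (Bu_cont r)
  have h2 := hf.fourierInv_fourier_eq h1 (v := x) hcx.continuousAt
  rw [Real.fourierInv_eq'] at h2
  have h3 := MeasureTheory.Measure.integral_comp_smul (volume : Measure (E (2 * m + 1)))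
    (fun y : E (2 * m + 1) => ((bt m r ‖y‖ : ℝ) : ℂ) * Complex.exp (Complex.I * ((inner ℝ x y : ℝ) : ℂ)))
    (2 * Real.pi)
  have h4 : ∫ v : E (2 * m + 1), Complex.exp ((((2 * Real.pi * inner ℝ v x : ℝ) : ℂ)) * Complex.I) •
      𝓕 (fun x : E (2 * m + 1) => ((bump r x : ℝ) : ℂ)) v =
      ∫ v : E (2 * m + 1), ((bt m r ‖(2 * Real.pi) • v‖ : ℝ) : ℂ) *
        Complex.exp (Complex.I * ((inner ℝ x ((2 * Real.pi) • v) : ℝ) : ℂ)) := by
    refine integral_congr_ae (Eventually.of_forall fun v => ?_)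
    have h5 : 𝓕 (fun x : E (2 * m + 1) => ((bump r x : ℝ) : ℂ)) v = ((bt m r (2 * Real.pi * ‖v‖) : ℝ) : ℂ) := Bu_F hr v
    have h6 : ‖(2 * Real.pi) • v‖ = 2 * Real.pi * ‖v‖ := by
      rw [norm_smul, Real.norm_of_nonneg (by positivity)]
    have h7 : (inner ℝ x ((2 * Real.pi) • v) : ℝ) = 2 * Real.pi * inner ℝ v x := by
      rw [inner_smul_right, real_inner_comm]
    simp only [h5, h6, h7, smul_eq_mul]
    rw [mul_comm, mul_comm Complex.I]
  rw [h4] at h2
  have h8 : Module.finrank ℝ (E (2 * m + 1)) = 2 * m + 1 := finrank_euclideanSpace_fin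
  have h9 := h3.symm.trans h2
  rw [h8, abs_of_pos (by positivity)] at h9
  have hp : ((2 * Real.pi) ^ (2 * m + 1)) ≠ 0 := by positivity
  have h10 := congrArg (fun z : ℂ => ((2 * Real.pi) ^ (2 * m + 1)) • z) h9
  simp only [smul_smul, mul_inv_cancel₀ hp, one_smul] at h10
  rw [h10, Complex.real_smul, ← Complex.ofReal_mul]

theorem mu_smul {m : ℕ} {r : ℝ} (hr : 0 < r) (i : ℕ) :
    ∫ x : E (2 * m + 1), bump r x * (x 0) ^ i =
      r ^ (2 * m + 1 + i) * ∫ x : E (2 * m + 1), bump 1 x * (x 0) ^ i := by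
  have h3 := MeasureTheory.Measure.integral_comp_smul (volume : Measure (E (2 * m + 1)))
    (fun x : E (2 * m + 1) => bump r x * (x 0) ^ i) r
  have h8 : Module.finrank ℝ (E (2 * m + 1)) = 2 * m + 1 := finrank_euclideanSpace_fin
  rw [h8, abs_of_pos (by positivity)] at h3
  have h4 : ∫ x : E (2 * m + 1), bump r (r • x) * ((r • x) 0) ^ i =
      r ^ i * ∫ x : E (2 * m + 1), bump 1 x * (x 0) ^ i := by
    rw [← integral_const_mul]
    refine integral_congr_ae (Eventually.of_forall fun x => ?_)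
    have h5 : bump r (r • x) = bump 1 x := by
      unfold bump
      rw [norm_smul, Real.norm_of_nonneg hr.le, mul_pow, one_pow, div_one, mul_div_cancel_left₀ _ (by positivity)]
    have h6 : (r • x) 0 = r * x 0 := rfl
    simp only [h5, h6, mul_pow]
    ring
  rw [h4, smul_eq_mul] at h3
  have hp : r ^ (2 * m + 1) ≠ 0 := by positivity
  rw [pow_add, mul_assoc, h3, ← mul_assoc, mul_inv_cancel₀ hp, one_mul]

theorem mu_odd {m : ℕ} (r : ℝ) {i : ℕ} (hi : Odd i) :
    ∫ x : E (2 * m + 1), bump r x * (x 0) ^ i = 0 := by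
  refine Bu_odd fun x => ?_
  rw [Bu_neg, PiLp.neg_apply, hi.neg_pow, mul_neg]

theorem mu_even_pos {m : ℕ} {r : ℝ} (hr : 0 < r) {i : ℕ} (hi : Even i) :
    0 < ∫ x : E (2 * m + 1), bump r x * (x 0) ^ i := by
  have hc : Continuous fun x : E (2 * m + 1) => (x 0) ^ i := by fun_prop
  refine ((Bu_cont r).mul hc).integral_pos_of_hasCompactSupport_nonneg_nonzero
    (x := EuclideanSpace.single (0 : Fin (2 * m + 1)) (r / 2)) ((Bu_supp hr).mul_right)
    (fun x => mul_nonneg (bump_nonneg r x) (hi.pow_nonneg _)) ?_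
  refine mul_ne_zero (Bu_pos hr ?_).ne' ?_
  · rw [PiLp.norm_single, Real.norm_of_nonneg (by positivity)]
    linarith
  · have h1 : (EuclideanSpace.single (0 : Fin (2 * m + 1)) (r / 2) : E (2 * m + 1)) 0 = r / 2 := by simp
    rw [h1]
    positivity

end Pool.Agent.MP_c8a077_gtP
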