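import Mathlib

/-!
# JOB C2a (about 220 lines): square integrability forces zeros at the end points

PROOF.  Write `F s = ∫ t in a..b, P.eval t * exp (i s t)`.  For `s ≠ 0` integration by parts gives
`F_P s = (P b e^{isb} - P a e^{isa}) / (i s) + (i / s) F_{P'} s` (`intervalIntegral.integral_mul_deriv_eq_deriv_mul`).  In particular
`|F_Q s| ≤ C_Q / s` for `s ≥ 1` and every polynomial `Q`.
`vanish_ends`: strong induction on `j < m`: suppose `P^(i) a = P^(i) b = 0` for `i < j`.  Then `F_P s = (i/s)^j F_{P^(j)} s` and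
`i s F_{P^(j)} s = β e^{isb} - α e^{isa} - F_{P^(j+1)} s`, `α = P^(j) a`, `β = P^(j) b`.  So for `s ≥ 1`
`s^(2m) ‖F_P s‖² ≥ s^(2j+2) ‖F_P s‖² = ‖β e^{isb} - α e^{isa} - F_{P^(j+1)} s‖²`, and `‖F_{P^(j+1)} s‖ ≤ C/s` is square integrable on `[1,∞)`;
with `‖x‖² ≤ 2‖x - y‖² + 2‖y‖²` the function `‖β e^{isb} - α e^{isa}‖² = α² + β² - 2αβ cos (s (b-a))` has a finite integral over `[1,∞)`.
But its integral over `[1,T]` is `(α² + β²)(T-1) - 2αβ (sin (T(b-a)) - sin (b-a))/(b-a)`, unbounded unless `α = β = 0`.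
`factor`: `a` and `b` are roots of multiplicity at least `m` (`Polynomial.lt_rootMultiplicity...`/`(X - C a)^m ∣ P` from vanishing derivatives,
`Polynomial.X_sub_C_pow_dvd_iff` or Taylor; coprime powers), so `(X - C a)^m * (X - C b)^m ∣ P` and by `natDegree ≤ 2m` the quotient is a
constant, the coefficient of `X^(2m)`; `(C b - X)^m = (-1)^m (X - C b)^m`.
-/

open MeasureTheory Set Metric Topology Filter
open scoped ENNReal NNReal

namespace Pool.Agent.MP_c8a077_gtP

private noncomputable def C2a_F (a b : ℝ) (Q : Polynomial ℝ) (s : ℝ) : ℂ :=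
  ∫ t in a..b, ((Q.eval t : ℝ) : ℂ) * Complex.exp (Complex.I * ((s * t : ℝ) : ℂ))

private theorem C2a_cont (Q : Polynomial ℝ) :
    Continuous (fun p : ℝ × ℝ => ((Q.eval p.2 : ℝ) : ℂ) * Complex.exp (Complex.I * ((p.1 * p.2 : ℝ) : ℂ))) := by
  have h1 : Continuous fun p : ℝ × ℝ => Q.eval p.2 := Q.continuous.comp continuous_snd
  have h2 : Continuous fun p : ℝ × ℝ => p.1 * p.2 := continuous_fst.mul continuous_snd
  exact (Complex.continuous_ofReal.comp h1).mul
    (Complex.continuous_exp.comp (continuous_const.mul (Complex.continuous_ofReal.comp h2)))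

private theorem C2a_cont1 (Q : Polynomial ℝ) (s : ℝ) :
    Continuous (fun t : ℝ => ((Q.eval t : ℝ) : ℂ) * Complex.exp (Complex.I * ((s * t : ℝ) : ℂ))) :=
  (C2a_cont Q).comp (Continuous.prodMk continuous_const continuous_id)

private theorem C2a_contF (a b : ℝ) (Q : Polynomial ℝ) : Continuous (C2a_F a b Q) := by
  unfold C2a_F
  exact intervalIntegral.continuous_parametric_intervalIntegral_of_continuous' (C2a_cont Q) a b

private theorem C2a_nexp (x : ℝ) : ‖Complex.exp (Complex.I * (x : ℂ))‖ = 1 := by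
  rw [mul_comm]
  exact Complex.norm_exp_ofReal_mul_I x

private theorem C2a_ibp (a b : ℝ) (Q : Polynomial ℝ) (s : ℝ) :
    C2a_F a b (Polynomial.derivative Q) s + Complex.I * (s : ℂ) * C2a_F a b Q s =
      ((Q.eval b : ℝ) : ℂ) * Complex.exp (Complex.I * ((s * b : ℝ) : ℂ)) -
      ((Q.eval a : ℝ) : ℂ) * Complex.exp (Complex.I * ((s * a : ℝ) : ℂ)) := by
  have hd : ∀ t : ℝ, HasDerivAt (fun t : ℝ => ((Q.eval t : ℝ) : ℂ) * Complex.exp (Complex.I * ((s * t : ℝ) : ℂ)))
      ((((Polynomial.derivative Q).eval t : ℝ) : ℂ) * Complex.exp (Complex.I * ((s * t : ℝ) : ℂ)) +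
        Complex.I * (s : ℂ) * (((Q.eval t : ℝ) : ℂ) * Complex.exp (Complex.I * ((s * t : ℝ) : ℂ)))) t := by
    intro t
    have h1 : HasDerivAt (fun t : ℝ => ((Q.eval t : ℝ) : ℂ)) (((Polynomial.derivative Q).eval t : ℝ) : ℂ) t :=
      (Q.hasDerivAt t).ofReal_comp
    have h2 : HasDerivAt (fun t : ℝ => ((s * t : ℝ) : ℂ)) ((s * 1 : ℝ) : ℂ) t :=
      ((hasDerivAt_id t).const_mul s).ofReal_comp
    have h3 := (h2.const_mul Complex.I).cexp
    refine (h1.mul h3).congr_deriv ?_
    rw [mul_one]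
    ring
  have hi := intervalIntegral.integral_eq_sub_of_hasDerivAt (a := a) (b := b) (fun t _ => hd t)
    (((C2a_cont1 (Polynomial.derivative Q) s).add (continuous_const.mul (C2a_cont1 Q s))).intervalIntegrable a b)
  have hadd : ∫ t in a..b, ((((Polynomial.derivative Q).eval t : ℝ) : ℂ) * Complex.exp (Complex.I * ((s * t : ℝ) : ℂ)) +
        Complex.I * (s : ℂ) * (((Q.eval t : ℝ) : ℂ) * Complex.exp (Complex.I * ((s * t : ℝ) : ℂ)))) =
      C2a_F a b (Polynomial.derivative Q) s +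
        ∫ t in a..b, Complex.I * (s : ℂ) * (((Q.eval t : ℝ) : ℂ) * Complex.exp (Complex.I * ((s * t : ℝ) : ℂ))) :=
    intervalIntegral.integral_add ((C2a_cont1 _ s).intervalIntegrable a b)
      ((continuous_const.mul (C2a_cont1 Q s)).intervalIntegrable a b)
  rw [hadd, intervalIntegral.integral_const_mul] at hi
  exact hi

private theorem C2a_bd {a b : ℝ} (hab : a ≤ b) (Q : Polynomial ℝ) : ∃ M : ℝ, ∀ s, ‖C2a_F a b Q s‖ ≤ M := by
  refine ⟨∫ t in a..b, |Q.eval t|, fun s => ?_⟩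
  refine (intervalIntegral.norm_integral_le_integral_norm hab).trans (le_of_eq ?_)
  refine intervalIntegral.integral_congr fun t _ => ?_
  show ‖((Q.eval t : ℝ) : ℂ) * Complex.exp (Complex.I * ((s * t : ℝ) : ℂ))‖ = |Q.eval t|
  rw [norm_mul, C2a_nexp, mul_one, Complex.norm_real, Real.norm_eq_abs]

private theorem C2a_bd1 {a b : ℝ} (hab : a ≤ b) (Q : Polynomial ℝ) :
    ∃ M : ℝ, 0 ≤ M ∧ ∀ s, 1 ≤ s → ‖C2a_F a b Q s‖ ≤ M * s⁻¹ := by
  obtain ⟨M, hM⟩ := C2a_bd hab (Polynomial.derivative Q)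
  have hM0 : 0 ≤ M := (norm_nonneg _).trans (hM 0)
  refine ⟨|Q.eval b| + |Q.eval a| + M, by positivity, fun s hs => ?_⟩
  have hs0 : 0 < s := by linarith
  have h1 : Complex.I * (s : ℂ) * C2a_F a b Q s =
      ((Q.eval b : ℝ) : ℂ) * Complex.exp (Complex.I * ((s * b : ℝ) : ℂ)) -
      ((Q.eval a : ℝ) : ℂ) * Complex.exp (Complex.I * ((s * a : ℝ) : ℂ)) -
      C2a_F a b (Polynomial.derivative Q) s := by
    rw [← C2a_ibp]
    ring
  have h2 : s * ‖C2a_F a b Q s‖ ≤ |Q.eval b| + |Q.eval a| + M := by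
    have h3 : ‖Complex.I * (s : ℂ) * C2a_F a b Q s‖ = s * ‖C2a_F a b Q s‖ := by
      rw [norm_mul, norm_mul, Complex.norm_I, one_mul, Complex.norm_real, Real.norm_eq_abs, abs_of_pos hs0]
    rw [← h3, h1]
    refine (norm_sub_le _ _).trans (add_le_add ((norm_sub_le _ _).trans (add_le_add ?_ ?_)) (hM s))
    · rw [norm_mul, C2a_nexp, mul_one, Complex.norm_real, Real.norm_eq_abs]
    · rw [norm_mul, C2a_nexp, mul_one, Complex.norm_real, Real.norm_eq_abs]
  rw [← div_eq_mul_inv, le_div_iff₀ hs0, mul_comm]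
  exact h2

private theorem C2a_memF {a b : ℝ} (hab : a ≤ b) (Q : Polynomial ℝ) :
    MemLp (C2a_F a b Q) 2 (volume.restrict (Ioi (1 : ℝ))) := by
  obtain ⟨M, hM0, hM⟩ := C2a_bd1 hab Q
  have h1 : MemLp (fun s : ℝ => M * s⁻¹) 2 (volume.restrict (Ioi (1 : ℝ))) := by
    have hmeas : AEStronglyMeasurable (fun s : ℝ => M * s⁻¹) (volume.restrict (Ioi (1 : ℝ))) :=
      (measurable_const.mul measurable_inv).aestronglyMeasurable
    rw [memLp_two_iff_integrable_sq hmeas]
    have h2 : IntegrableOn (fun s : ℝ => s ^ (-2 : ℝ)) (Ioi (1 : ℝ)) :=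
      integrableOn_Ioi_rpow_of_lt (by norm_num) one_pos
    have h3 : IntegrableOn (fun s : ℝ => M ^ 2 * s ^ (-2 : ℝ)) (Ioi (1 : ℝ)) := h2.const_mul (M ^ 2)
    refine IntegrableOn.congr_fun h3 ?_ measurableSet_Ioi
    intro s hs
    have hs0 : 0 < s := lt_trans one_pos hs
    show M ^ 2 * s ^ (-2 : ℝ) = (M * s⁻¹) ^ 2
    rw [mul_pow, Real.rpow_neg hs0.le, inv_pow]
    norm_num
  refine h1.mono (C2a_contF a b Q).aestronglyMeasurable ?_
  refine (ae_restrict_iff' measurableSet_Ioi).2 (Eventually.of_forall fun s hs => ?_)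
  refine (hM s (le_of_lt hs)).trans (le_abs_self _)

private theorem C2a_iter {a b : ℝ} (P : Polynomial ℝ) (s : ℝ) (j : ℕ)
    (h : ∀ i < j, ((Polynomial.derivative^[i]) P).eval a = 0 ∧ ((Polynomial.derivative^[i]) P).eval b = 0) :
    C2a_F a b ((Polynomial.derivative^[j]) P) s = (-(Complex.I * (s : ℂ))) ^ j * C2a_F a b P s := by
  induction j with
  | zero => rw [pow_zero, one_mul]; rfl
  | succ j ih =>
    have h1 := ih fun i hi => h i (by omega)
    have h2 := C2a_ibp a b ((Polynomial.derivative^[j]) P) s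
    rw [(h j (by omega)).1, (h j (by omega)).2, Complex.ofReal_zero, zero_mul, zero_mul, sub_zero] at h2
    rw [Function.iterate_succ_apply', pow_succ', mul_assoc, ← h1]
    linear_combination h2

private theorem C2a_mem {m : ℕ} {P : Polynomial ℝ} {a b : ℝ}
    (hfin : ∫⁻ s in Ioi (0 : ℝ), ENNReal.ofReal (s ^ (2 * m)) * ‖C2a_F a b P s‖ₑ ^ 2 ≠ ∞) (j : ℕ) (hj : j < m)
    (h : ∀ i < j, ((Polynomial.derivative^[i]) P).eval a = 0 ∧ ((Polynomial.derivative^[i]) P).eval b = 0) :
    MemLp (fun s : ℝ => Complex.I * (s : ℂ) * C2a_F a b ((Polynomial.derivative^[j]) P) s) 2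
      (volume.restrict (Ioi (1 : ℝ))) := by
  have hc : Continuous fun s : ℝ => Complex.I * (s : ℂ) * C2a_F a b ((Polynomial.derivative^[j]) P) s :=
    (continuous_const.mul Complex.continuous_ofReal).mul (C2a_contF a b _)
  refine ⟨hc.aestronglyMeasurable, ?_⟩
  rw [eLpNorm_lt_top_iff_lintegral_rpow_enorm_lt_top two_ne_zero ENNReal.ofNat_ne_top]
  refine lt_of_le_of_lt ?_ (lt_top_iff_ne_top.2 hfin)
  refine (lintegral_mono' (Measure.restrict_mono (Ioi_subset_Ioi zero_le_one) le_rfl) le_rfl).trans' ?_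
  refine setLIntegral_mono' measurableSet_Ioi fun s hs => ?_
  have hs1 : (1 : ℝ) < s := hs
  have hs0 : 0 < s := by linarith
  have h1 : ‖Complex.I * (s : ℂ) * C2a_F a b ((Polynomial.derivative^[j]) P) s‖ₑ =
      ENNReal.ofReal (s ^ (j + 1)) * ‖C2a_F a b P s‖ₑ := by
    rw [C2a_iter P s j h, ← ofReal_norm, ← ofReal_norm, ← ENNReal.ofReal_mul (by positivity)]
    congr 1
    rw [norm_mul, norm_mul, norm_mul, norm_pow, norm_neg, norm_mul, Complex.norm_I, one_mul, Complex.norm_real,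
      Real.norm_eq_abs, abs_of_pos hs0]
    ring
  have h2 : (‖Complex.I * (s : ℂ) * C2a_F a b ((Polynomial.derivative^[j]) P) s‖ₑ) ^ (ENNReal.toReal 2) =
      ENNReal.ofReal (s ^ (2 * (j + 1))) * ‖C2a_F a b P s‖ₑ ^ 2 := by
    rw [h1, ENNReal.toReal_ofNat, ENNReal.rpow_ofNat, mul_pow, ← ENNReal.ofReal_pow (by positivity), ← pow_mul,
      mul_comm (j + 1) 2]
  rw [h2]
  refine mul_le_mul_left (ENNReal.ofReal_le_ofReal ?_) _
  exact pow_le_pow_right₀ hs1.le (by omega)

private theorem C2a_normsq (α β x y : ℝ) :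
    ‖(β : ℂ) * Complex.exp (Complex.I * (x : ℂ)) - (α : ℂ) * Complex.exp (Complex.I * (y : ℂ))‖ ^ 2 =
      α ^ 2 + β ^ 2 - 2 * α * β * Real.cos (x - y) := by
  rw [← Complex.normSq_eq_norm_sq, Complex.normSq_apply]
  have hx : Complex.exp (Complex.I * (x : ℂ)) = ⟨Real.cos x, Real.sin x⟩ := by
    rw [mul_comm, Complex.exp_mul_I, ← Complex.ofReal_cos, ← Complex.ofReal_sin]
    apply Complex.ext
    · rw [Complex.add_re, Complex.ofReal_re, Complex.re_ofReal_mul, Complex.I_re, mul_zero, add_zero]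
    · rw [Complex.add_im, Complex.ofReal_im, Complex.im_ofReal_mul, Complex.I_im, mul_one, zero_add]
  have hy : Complex.exp (Complex.I * (y : ℂ)) = ⟨Real.cos y, Real.sin y⟩ := by
    rw [mul_comm, Complex.exp_mul_I, ← Complex.ofReal_cos, ← Complex.ofReal_sin]
    apply Complex.ext
    · rw [Complex.add_re, Complex.ofReal_re, Complex.re_ofReal_mul, Complex.I_re, mul_zero, add_zero]
    · rw [Complex.add_im, Complex.ofReal_im, Complex.im_ofReal_mul, Complex.I_im, mul_one, zero_add]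
  rw [hx, hy, Real.cos_sub]
  simp only [Complex.sub_re, Complex.mul_re, Complex.ofReal_re, Complex.ofReal_im, Complex.sub_im, Complex.mul_im,
    zero_mul, sub_zero, add_zero]
  linear_combination β ^ 2 * Real.sin_sq_add_cos_sq x + α ^ 2 * Real.sin_sq_add_cos_sq y

private theorem C2a_zero {a b : ℝ} (hab : a < b) (α β : ℝ)
    (h : MemLp (fun s : ℝ => (β : ℂ) * Complex.exp (Complex.I * ((s * b : ℝ) : ℂ)) -
      (α : ℂ) * Complex.exp (Complex.I * ((s * a : ℝ) : ℂ))) 2 (volume.restrict (Ioi (1 : ℝ)))) :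
    α = 0 ∧ β = 0 := by
  have h1 := h.integrable_norm_rpow two_ne_zero ENNReal.ofNat_ne_top
  have h2 : IntegrableOn (fun s : ℝ => α ^ 2 + β ^ 2 - 2 * α * β * Real.cos (s * (b - a))) (Ioi (1 : ℝ)) := by
    refine h1.congr (Eventually.of_forall fun s => ?_)
    show ‖(β : ℂ) * Complex.exp (Complex.I * ((s * b : ℝ) : ℂ)) -
      (α : ℂ) * Complex.exp (Complex.I * ((s * a : ℝ) : ℂ))‖ ^ (ENNReal.toReal 2) =
      α ^ 2 + β ^ 2 - 2 * α * β * Real.cos (s * (b - a))
    rw [ENNReal.toReal_ofNat, Real.rpow_ofNat, C2a_normsq, mul_sub]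
  have hc : 0 < b - a := by linarith
  have hnn : ∀ s : ℝ, 0 ≤ α ^ 2 + β ^ 2 - 2 * α * β * Real.cos (s * (b - a)) := by
    intro s
    have h3 := C2a_normsq α β (s * b) (s * a)
    rw [← mul_sub] at h3
    rw [← h3]
    positivity
  have key : ∀ T : ℝ, 1 ≤ T → (α ^ 2 + β ^ 2) * (T - 1) ≤
      (∫ s in Ioi (1 : ℝ), (α ^ 2 + β ^ 2 - 2 * α * β * Real.cos (s * (b - a)))) + 4 * |α * β| / (b - a) := by
    intro T hT
    have h3 : ∫ s in (1 : ℝ)..T, (α ^ 2 + β ^ 2 - 2 * α * β * Real.cos (s * (b - a))) =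
        (α ^ 2 + β ^ 2) * (T - 1) - 2 * α * β * ((b - a)⁻¹ * (Real.sin (T * (b - a)) - Real.sin (1 * (b - a)))) := by
      rw [intervalIntegral.integral_sub (continuous_const.intervalIntegrable _ _)
        ((by fun_prop : Continuous fun s : ℝ => 2 * α * β * Real.cos (s * (b - a))).intervalIntegrable _ _),
        intervalIntegral.integral_const, intervalIntegral.integral_const_mul,
        intervalIntegral.integral_comp_mul_right (fun x => Real.cos x) hc.ne', integral_cos, smul_eq_mul, smul_eq_mul]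
      ring
    have h4 : ∫ s in (1 : ℝ)..T, (α ^ 2 + β ^ 2 - 2 * α * β * Real.cos (s * (b - a))) ≤
        ∫ s in Ioi (1 : ℝ), (α ^ 2 + β ^ 2 - 2 * α * β * Real.cos (s * (b - a))) := by
      rw [intervalIntegral.integral_of_le hT]
      exact setIntegral_mono_set h2 (Eventually.of_forall fun s => hnn s)
        (Eventually.of_forall (Ioc_subset_Ioi_self : Ioc (1 : ℝ) T ⊆ Ioi 1))
    rw [h3] at h4
    have h5 : 2 * α * β * ((b - a)⁻¹ * (Real.sin (T * (b - a)) - Real.sin (1 * (b - a)))) ≤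
        4 * |α * β| / (b - a) := by
      have h6 : 2 * α * β * ((b - a)⁻¹ * (Real.sin (T * (b - a)) - Real.sin (1 * (b - a)))) =
          2 * ((α * β) * (Real.sin (T * (b - a)) - Real.sin (1 * (b - a)))) / (b - a) := by
        field_simp
      rw [h6]
      refine div_le_div_of_nonneg_right ?_ hc.le
      have h7 : (α * β) * (Real.sin (T * (b - a)) - Real.sin (1 * (b - a))) ≤ |α * β| * 2 := by
        refine (le_abs_self _).trans ?_
        rw [abs_mul]
        refine mul_le_mul_of_nonneg_left ?_ (abs_nonneg _)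
        have h8 := Real.sin_le_one (T * (b - a))
        have h9 := Real.neg_one_le_sin (T * (b - a))
        have h10 := Real.sin_le_one (1 * (b - a))
        have h11 := Real.neg_one_le_sin (1 * (b - a))
        rw [abs_le]
        constructor <;> linarith
      linarith
    linarith
  have hz : α ^ 2 + β ^ 2 = 0 := by
    by_contra hne
    have hpos : 0 < α ^ 2 + β ^ 2 := lt_of_le_of_ne (by positivity) (Ne.symm hne)
    set M : ℝ := (∫ s in Ioi (1 : ℝ), (α ^ 2 + β ^ 2 - 2 * α * β * Real.cos (s * (b - a)))) +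
      4 * |α * β| / (b - a) with hM
    have h5 := key (1 + (|M| + 1) / (α ^ 2 + β ^ 2)) (by
      have : 0 ≤ (|M| + 1) / (α ^ 2 + β ^ 2) := by positivity
      linarith)
    rw [add_sub_cancel_left, mul_div_cancel₀ _ hpos.ne'] at h5
    have h6 := le_abs_self M
    linarith
  have ha : α ^ 2 = 0 := by nlinarith [sq_nonneg α, sq_nonneg β]
  have hb : β ^ 2 = 0 := by nlinarith [sq_nonneg α, sq_nonneg β]
  exact ⟨pow_eq_zero_iff two_ne_zero |>.1 ha, pow_eq_zero_iff two_ne_zero |>.1 hb⟩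

theorem vanish_ends {m : ℕ} {P : Polynomial ℝ} {a b : ℝ} (hab : a < b)
    (hfin : ∫⁻ s in Ioi (0 : ℝ), ENNReal.ofReal (s ^ (2 * m)) *
      ‖∫ t in a..b, ((P.eval t : ℝ) : ℂ) * Complex.exp (Complex.I * ((s * t : ℝ) : ℂ))‖ₑ ^ 2 ≠ ∞) :
    ∀ j < m, ((Polynomial.derivative^[j]) P).eval a = 0 ∧
      ((Polynomial.derivative^[j]) P).eval b = 0 := by
  intro j
  induction j using Nat.strong_induction_on with
  | _ j ih =>
    intro hj
    have hv : ∀ i < j, ((Polynomial.derivative^[i]) P).eval a = 0 ∧ ((Polynomial.derivative^[i]) P).eval b = 0 :=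
      fun i hi => ih i hi (by omega)
    have h1 := C2a_mem (m := m) (P := P) (a := a) (b := b) hfin j hj hv
    have h2 := C2a_memF hab.le (Polynomial.derivative ((Polynomial.derivative^[j]) P))
    have h3 := h2.add h1
    refine C2a_zero hab _ _ (h3.congr_norm ?_ (Eventually.of_forall fun s => ?_))
    · exact ((by fun_prop : Continuous fun s : ℝ => ((((Polynomial.derivative^[j]) P).eval b : ℝ) : ℂ) *
        Complex.exp (Complex.I * ((s * b : ℝ) : ℂ)) - ((((Polynomial.derivative^[j]) P).eval a : ℝ) : ℂ) *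
        Complex.exp (Complex.I * ((s * a : ℝ) : ℂ)))).aestronglyMeasurable
    · exact congrArg norm (C2a_ibp a b ((Polynomial.derivative^[j]) P) s)

theorem factor {m : ℕ} {P : Polynomial ℝ} (hP : P.natDegree ≤ 2 * m) {a b : ℝ} (hab : a < b)
    (hv : ∀ j < m, ((Polynomial.derivative^[j]) P).eval a = 0 ∧
      ((Polynomial.derivative^[j]) P).eval b = 0) :
    P = Polynomial.C ((-1) ^ m * P.coeff (2 * m)) * (Polynomial.X - Polynomial.C a) ^ m *
      (Polynomial.C b - Polynomial.X) ^ m := by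
  rcases eq_or_ne P 0 with rfl | hP0
  · simp
  have hdv : ∀ c : ℝ, (∀ j < m, ((Polynomial.derivative^[j]) P).eval c = 0) →
      (Polynomial.X - Polynomial.C c) ^ m ∣ P := by
    intro c hc
    rcases Nat.eq_zero_or_pos m with hm | hm
    · rw [hm, pow_zero]
      exact one_dvd _
    · rw [← Polynomial.le_rootMultiplicity_iff hP0]
      have h1 : m - 1 < P.rootMultiplicity c := by
        rw [Polynomial.lt_rootMultiplicity_iff_isRoot_iterate_derivative hP0]
        intro i hi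
        exact hc i (by omega)
      omega
  have h1 := hdv a fun j hj => (hv j hj).1
  have h2 := hdv b fun j hj => (hv j hj).2
  have hco : IsCoprime ((Polynomial.X - Polynomial.C a) ^ m) ((Polynomial.X - Polynomial.C b) ^ m) := by
    refine IsCoprime.pow ?_
    refine Polynomial.isCoprime_X_sub_C_of_isUnit_sub ?_
    exact (sub_ne_zero.2 hab.ne).isUnit
  obtain ⟨Q, hQ⟩ := hco.mul_dvd h1 h2
  have hmon : ((Polynomial.X - Polynomial.C a) ^ m * (Polynomial.X - Polynomial.C b) ^ m).Monic :=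
    ((Polynomial.monic_X_sub_C a).pow m).mul ((Polynomial.monic_X_sub_C b).pow m)
  have hdeg : ((Polynomial.X - Polynomial.C a) ^ m * (Polynomial.X - Polynomial.C b) ^ m).natDegree = 2 * m := by
    rw [((Polynomial.monic_X_sub_C a).pow m).natDegree_mul ((Polynomial.monic_X_sub_C b).pow m),
      (Polynomial.monic_X_sub_C a).natDegree_pow, (Polynomial.monic_X_sub_C b).natDegree_pow,
      Polynomial.natDegree_X_sub_C, Polynomial.natDegree_X_sub_C]
    ring
  have hQ0 : Q ≠ 0 := by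
    rintro rfl
    rw [mul_zero] at hQ
    exact hP0 hQ
  have hQd : Q.natDegree = 0 := by
    have h3 := congrArg Polynomial.natDegree hQ
    rw [hmon.natDegree_mul' hQ0, hdeg] at h3
    omega
  obtain ⟨q, rfl⟩ := Polynomial.natDegree_eq_zero.1 hQd
  have hq : P.coeff (2 * m) = q := by
    rw [hQ, Polynomial.coeff_mul_C]
    have h3 := hmon.coeff_natDegree
    rw [hdeg] at h3
    rw [h3, one_mul]
  have hneg : (Polynomial.C b - Polynomial.X : Polynomial ℝ) ^ m =
      Polynomial.C ((-1) ^ m) * (Polynomial.X - Polynomial.C b) ^ m := by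
    rw [map_pow, ← mul_pow]
    congr 1
    rw [map_neg, map_one]
    ring
  have hone : (Polynomial.C ((-1) ^ m) : Polynomial ℝ) * Polynomial.C ((-1) ^ m) = 1 := by
    rw [← map_mul, ← mul_pow]
    norm_num
  rw [hq, hneg, map_mul]
  conv_lhs => rw [hQ]
  linear_combination (-(Polynomial.C q * (Polynomial.X - Polynomial.C a) ^ m *
    (Polynomial.X - Polynomial.C b) ^ m)) * hone

end Pool.Agent.MP_c8a077_gtP
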