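import Mathlib

/-!
# JOB C2b (about 180 lines): the energy of `C (t-a)^m (b-t)^m`

PROOF.  `P` vanishes at `a` and `b` to order `m`, so integrating by parts `m` times, for `s > 0`:
`F_P s = (i/s)^m F_{P^(m)} s`, i.e. `s^(2m) ‖F_P s‖² = ‖F_{P^(m)} s‖²`, where `F_Q s = ∫ t in a..b, Q.eval t * exp (i s t)`.
Plancherel for the bounded function `Q 1_{(a,b)}` of compact support, `Q = P^(m)`: `∫ s : ℝ, ‖F_Q s‖² = 2π ∫ t in a..b, (Q.eval t)^2`
(theorem `planchB` in `Pool/Agent/Lib/MP_2a816b_nt/PV/PlanchB.lean`: copy its 100 lines, do not import), and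
`‖F_Q (-s)‖ = ‖F_Q s‖` (conjugation), so `∫⁻ s in Ioi 0, ‖F_Q s‖ₑ^2 = ofReal (π ∫ (Q t)^2)`.
`∫ (P^(m))^2 = (-1)^m ∫ P^(2m) P` (integrate by parts `m` times, boundary terms vanish because `P^(j)` vanishes at `a`, `b` for `j < m`)
and `P^(2m) = (2m)! (-1)^m C` is constant (`P` has degree `2m` and leading coefficient `(-1)^m C`).
-/

open MeasureTheory Set Metric Topology Filter
open scoped ENNReal NNReal

namespace Pool.Agent.MP_c8a077_gtP

open scoped FourierTransform SchwartzMap ContDiff in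
private theorem C2b_pl_ae (u : ℝ → ℂ) (h1 : Integrable u) (h2 : MemLp u 2) :
    ∀ᵐ ξ, FourierTransform.fourier u ξ =
      (FourierTransform.fourier (h2.toLp u) : Lp ℂ 2 (volume : Measure ℝ)) ξ := by
  apply ae_eq_of_integral_contDiff_smul_eq
  · have hc : Continuous (FourierTransform.fourier u) :=
      VectorFourier.fourierIntegral_continuous Real.continuous_fourierChar
        (by exact continuous_inner) h1
    exact hc.locallyIntegrable
  · exact (Lp.memLp _).locallyIntegrable (by norm_num)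
  · intro g g_smooth g_cpt
    have hg₁ : HasCompactSupport (Complex.ofRealCLM ∘ g) := g_cpt.comp_left rfl
    have hg₂ : ContDiff ℝ ∞ (Complex.ofRealCLM ∘ g) := by fun_prop
    set ψ : 𝓢(ℝ, ℂ) := hg₁.toSchwartzMap hg₂ with hψ
    have e1 : ∫ x, g x • (FourierTransform.fourier (h2.toLp u) : Lp ℂ 2 (volume : Measure ℝ)) x =
        Lp.toTemperedDistribution
          (FourierTransform.fourier (h2.toLp u) : Lp ℂ 2 (volume : Measure ℝ)) ψ := by
      rw [Lp.toTemperedDistribution_apply]
      simp [hψ]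
    have e2 : ∫ x, g x • FourierTransform.fourier u x =
        ∫ x, ψ x • FourierTransform.fourier u x := by
      simp [hψ]
    rw [e1, ← Lp.fourier_toTemperedDistribution_eq, TemperedDistribution.fourier_apply,
      Lp.toTemperedDistribution_apply, e2]
    have e3 : ∫ x, (FourierTransform.fourier ψ) x • (h2.toLp u) x =
        ∫ x, (FourierTransform.fourier ψ) x • u x := by
      refine integral_congr_ae ?_
      filter_upwards [h2.coeFn_toLp] with x hx
      rw [hx]
    rw [e3]
    have := VectorFourier.integral_fourierIntegral_smul_eq_flip (L := innerₗ ℝ)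
      (μ := (volume : Measure ℝ)) (ν := (volume : Measure ℝ)) (f := (ψ : ℝ → ℂ)) (g := u)
      Real.continuous_fourierChar continuous_inner ψ.integrable h1
    rw [flip_innerₗ] at this
    exact this.symm

private theorem C2b_pl_norm (g : Lp ℂ 2 (volume : Measure ℝ)) : ∫ x, ‖g x‖ ^ 2 = ‖g‖ ^ 2 := by
  have h : (inner ℂ g g : ℂ) = ∫ x, (inner ℂ (g x) (g x) : ℂ) := L2.inner_def g g
  have hn : ∀ z : ℂ, (inner ℂ z z : ℂ) = ((‖z‖ ^ 2 : ℝ) : ℂ) := by
    intro z
    rw [inner_self_eq_norm_sq_to_K]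
    push_cast
    rfl
  have hg : (inner ℂ g g : ℂ) = ((‖g‖ ^ 2 : ℝ) : ℂ) := by
    rw [inner_self_eq_norm_sq_to_K]
    push_cast
    rfl
  have h2 : ∫ x, (inner ℂ (g x) (g x) : ℂ) = ((∫ x, ‖g x‖ ^ 2 : ℝ) : ℂ) := by
    simp_rw [hn]
    exact integral_ofReal
  rw [hg, h2] at h
  exact (Complex.ofReal_injective h).symm

private theorem C2b_pl_memLp {f : ℝ → ℂ} (hm : AEStronglyMeasurable f volume) {C M : ℝ}
    (hb : ∀ u, ‖f u‖ ≤ C) (hs : ∀ u, M < |u| → f u = 0) (p : ENNReal) : MemLp f p volume := by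
  have hind : Set.indicator (Set.Icc (-M) M) f = f := by
    rw [Set.indicator_eq_self]
    intro u hu
    rw [Function.mem_support] at hu
    rw [Set.mem_Icc, ← abs_le]
    by_contra hc
    exact hu (hs u (not_le.1 hc))
  rw [← hind, memLp_indicator_iff_restrict measurableSet_Icc]
  exact MemLp.of_bound hm.restrict C (Eventually.of_forall hb)

private theorem C2b_planch {f : ℝ → ℂ} (hm : AEStronglyMeasurable f volume) {C M : ℝ} (hb : ∀ u, ‖f u‖ ≤ C)
    (hs : ∀ u, M < |u| → f u = 0) :
    Integrable (fun t : ℝ => ‖∫ u, f u * Complex.exp (((-(t * u) : ℝ) : ℂ) * Complex.I)‖ ^ 2) ∧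
    ∫ t : ℝ, ‖∫ u, f u * Complex.exp (((-(t * u) : ℝ) : ℂ) * Complex.I)‖ ^ 2 = 2 * Real.pi * ∫ u, ‖f u‖ ^ 2 := by
  have hpi : (0 : ℝ) < 2 * Real.pi := by positivity
  have h1 : Integrable f := memLp_one_iff_integrable.mp (C2b_pl_memLp hm hb hs 1)
  have h2 : MemLp f 2 := C2b_pl_memLp hm hb hs 2
  have hae := C2b_pl_ae f h1 h2
  have hΦ : ∀ t : ℝ, ‖∫ u, f u * Complex.exp (((-(t * u) : ℝ) : ℂ) * Complex.I)‖ ^ 2 =
      ‖FourierTransform.fourier f (t / (2 * Real.pi))‖ ^ 2 := by
    intro t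
    congr 2
    rw [Real.fourier_real_eq_integral_exp_smul]
    apply integral_congr_ae
    refine Eventually.of_forall fun u => ?_
    change f u * Complex.exp (((-(t * u) : ℝ) : ℂ) * Complex.I) =
      Complex.exp (((-2 * Real.pi * u * (t / (2 * Real.pi)) : ℝ) : ℂ) * Complex.I) • f u
    rw [smul_eq_mul, mul_comm]
    congr 4
    field_simp
  simp_rw [hΦ]
  set g : Lp ℂ 2 (volume : Measure ℝ) := FourierTransform.fourier (h2.toLp f) with hg
  have hint : Integrable (fun ξ : ℝ => ‖FourierTransform.fourier f ξ‖ ^ 2) := by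
    have h3 : Integrable (fun ξ : ℝ => ‖g ξ‖ ^ 2) :=
      (memLp_two_iff_integrable_sq_norm (Lp.memLp g).1).1 (Lp.memLp g)
    refine h3.congr ?_
    filter_upwards [hae] with ξ hξ
    rw [hξ]
  refine ⟨hint.comp_div hpi.ne', ?_⟩
  rw [Measure.integral_comp_div (fun ξ : ℝ => ‖FourierTransform.fourier f ξ‖ ^ 2) (2 * Real.pi),
    abs_of_pos hpi, smul_eq_mul]
  congr 1
  have h4 : ∫ ξ : ℝ, ‖FourierTransform.fourier f ξ‖ ^ 2 = ∫ ξ : ℝ, ‖g ξ‖ ^ 2 := by
    refine integral_congr_ae ?_
    filter_upwards [hae] with ξ hξ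
    rw [hξ]
  have h5 : ∫ u, ‖f u‖ ^ 2 = ∫ u, ‖(h2.toLp f) u‖ ^ 2 := by
    refine integral_congr_ae ?_
    filter_upwards [h2.coeFn_toLp] with u hu
    rw [hu]
  rw [h4, h5, C2b_pl_norm, C2b_pl_norm, hg, Lp.norm_fourier_eq]


private theorem C2b_even {g : ℝ → ℝ} (he : ∀ x, g (-x) = g x) :
    ∫ x, g x = 2 * ∫ x in Ioi (0 : ℝ), g x := by
  have h := integral_comp_abs (f := g)
  rw [← h]
  refine integral_congr_ae (Eventually.of_forall fun x => ?_)
  rcases abs_cases x with h1 | h1
  · simp only [h1.1]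
  · simp only [h1.1, he]

/-- The Fourier integral of a polynomial. -/
private noncomputable def C2b_F (a b : ℝ) (Q : Polynomial ℝ) (s : ℝ) : ℂ :=
  ∫ t in a..b, ((Q.eval t : ℝ) : ℂ) * Complex.exp (Complex.I * ((s * t : ℝ) : ℂ))

private theorem C2b_conj (a b : ℝ) (Q : Polynomial ℝ) (s : ℝ) :
    ‖C2b_F a b Q (-s)‖ = ‖C2b_F a b Q s‖ := by
  have h : C2b_F a b Q (-s) = (starRingEnd ℂ) (C2b_F a b Q s) := by
    unfold C2b_F
    rw [← intervalIntegral.intervalIntegral_conj]
    refine intervalIntegral.integral_congr fun t _ => ?_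
    simp only [map_mul, Complex.conj_ofReal, ← Complex.exp_conj, Complex.conj_I]
    congr 2
    push_cast
    ring
  rw [h, Complex.norm_conj]

private theorem C2b_step {a b : ℝ} (Q : Polynomial ℝ) (ha : Q.eval a = 0) (hb : Q.eval b = 0) (s : ℝ) :
    C2b_F a b (Polynomial.derivative Q) s = -(Complex.I * (s : ℂ)) * C2b_F a b Q s := by
  have hd : ∀ t : ℝ, HasDerivAt (fun t : ℝ => ((Q.eval t : ℝ) : ℂ) *
      Complex.exp (Complex.I * ((s * t : ℝ) : ℂ)))
      ((((Polynomial.derivative Q).eval t : ℝ) : ℂ) * Complex.exp (Complex.I * ((s * t : ℝ) : ℂ)) +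
        ((Q.eval t : ℝ) : ℂ) * (Complex.exp (Complex.I * ((s * t : ℝ) : ℂ)) * (Complex.I * (s : ℂ)))) t := by
    intro t
    have h1 : HasDerivAt (fun t : ℝ => ((Q.eval t : ℝ) : ℂ))
        (((Polynomial.derivative Q).eval t : ℝ) : ℂ) t := (Q.hasDerivAt t).ofReal_comp
    have h2 : HasDerivAt (fun t : ℝ => ((s * t : ℝ) : ℂ)) (s : ℂ) t := by
      have h3 : HasDerivAt (fun t : ℝ => s * t) s t := by
        have h4 := (hasDerivAt_id t).const_mul s
        rw [mul_one] at h4
        exact h4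
      exact h3.ofReal_comp
    have h5 : HasDerivAt (fun t : ℝ => Complex.exp (Complex.I * ((s * t : ℝ) : ℂ)))
        (Complex.exp (Complex.I * ((s * t : ℝ) : ℂ)) * (Complex.I * (s : ℂ))) t :=
      (h2.const_mul Complex.I).cexp
    exact h1.mul h5
  have hc1 : Continuous fun t : ℝ => (((Polynomial.derivative Q).eval t : ℝ) : ℂ) *
      Complex.exp (Complex.I * ((s * t : ℝ) : ℂ)) := by fun_prop
  have hc2 : Continuous fun t : ℝ => ((Q.eval t : ℝ) : ℂ) *
      (Complex.exp (Complex.I * ((s * t : ℝ) : ℂ)) * (Complex.I * (s : ℂ))) := by fun_prop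
  have hF := intervalIntegral.integral_eq_sub_of_hasDerivAt (a := a) (b := b) (fun t _ => hd t)
    ((hc1.add hc2).intervalIntegrable a b)
  rw [intervalIntegral.integral_add (hc1.intervalIntegrable a b) (hc2.intervalIntegrable a b), ha, hb] at hF
  have e : ∫ t in a..b, ((Q.eval t : ℝ) : ℂ) *
      (Complex.exp (Complex.I * ((s * t : ℝ) : ℂ)) * (Complex.I * (s : ℂ))) =
      (Complex.I * (s : ℂ)) * C2b_F a b Q s := by
    unfold C2b_F
    rw [← intervalIntegral.integral_const_mul]
    refine intervalIntegral.integral_congr fun t _ => ?_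
    change _ = _
    ring
  rw [e] at hF
  simp only [Complex.ofReal_zero, zero_mul, sub_zero] at hF
  unfold C2b_F at hF ⊢
  linear_combination hF

private theorem C2b_real {a b : ℝ} (Q R : Polynomial ℝ) (ha : Q.eval a = 0) (hb : Q.eval b = 0) :
    ∫ t in a..b, Q.eval t * (Polynomial.derivative R).eval t =
      -∫ t in a..b, (Polynomial.derivative Q).eval t * R.eval t := by
  have hd : ∀ t : ℝ, HasDerivAt (fun t : ℝ => Q.eval t * R.eval t)
      ((Polynomial.derivative Q).eval t * R.eval t + Q.eval t * (Polynomial.derivative R).eval t) t :=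
    fun t => (Q.hasDerivAt t).mul (R.hasDerivAt t)
  have hc1 : Continuous fun t : ℝ => (Polynomial.derivative Q).eval t * R.eval t := by fun_prop
  have hc2 : Continuous fun t : ℝ => Q.eval t * (Polynomial.derivative R).eval t := by fun_prop
  have hF := intervalIntegral.integral_eq_sub_of_hasDerivAt (a := a) (b := b) (fun t _ => hd t)
    ((hc1.add hc2).intervalIntegrable a b)
  rw [intervalIntegral.integral_add (hc1.intervalIntegrable a b) (hc2.intervalIntegrable a b), ha, hb] at hF
  linarith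

private theorem C2b_planchQ {a b : ℝ} (hab : a < b) (Q : Polynomial ℝ) :
    Integrable (fun s : ℝ => ‖C2b_F a b Q s‖ ^ 2) ∧
      ∫ s : ℝ, ‖C2b_F a b Q s‖ ^ 2 = 2 * Real.pi * ∫ t in a..b, Q.eval t ^ 2 := by
  have hQ : Continuous fun u : ℝ => ((Q.eval u : ℝ) : ℂ) := by fun_prop
  obtain ⟨B, hB⟩ := (isCompact_Icc (a := a) (b := b)).exists_bound_of_continuousOn hQ.continuousOn
  set f : ℝ → ℂ := (Ioc a b).indicator fun u => ((Q.eval u : ℝ) : ℂ) with hf
  have hm : AEStronglyMeasurable f volume :=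
    (hQ.aestronglyMeasurable.indicator measurableSet_Ioc)
  have hB0 : 0 ≤ B := (norm_nonneg _).trans (hB a ⟨le_refl a, hab.le⟩)
  have hb' : ∀ u, ‖f u‖ ≤ B := by
    intro u
    rw [hf]
    by_cases hu : u ∈ Ioc a b
    · rw [indicator_of_mem hu]
      exact hB u (Ioc_subset_Icc_self hu)
    · rw [indicator_of_notMem hu, norm_zero]
      exact hB0
  have hs : ∀ u, max |a| |b| < |u| → f u = 0 := by
    intro u hu
    rw [hf]
    refine indicator_of_notMem (fun hmem => ?_) _
    have h1 : |u| ≤ max |a| |b| := by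
      rw [abs_le]
      constructor
      · have := neg_abs_le a
        have := le_max_left |a| |b|
        linarith [hmem.1]
      · have := le_abs_self b
        have := le_max_right |a| |b|
        linarith [hmem.2]
    linarith
  have hpl := C2b_planch hm hb' hs
  have e1 : ∀ s : ℝ, ‖∫ u, f u * Complex.exp (((-(s * u) : ℝ) : ℂ) * Complex.I)‖ ^ 2 =
      ‖C2b_F a b Q s‖ ^ 2 := by
    intro s
    rw [← C2b_conj]
    congr 2
    unfold C2b_F
    rw [intervalIntegral.integral_of_le hab.le, ← integral_indicator measurableSet_Ioc]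
    refine integral_congr_ae (Eventually.of_forall fun u => ?_)
    change f u * _ = _
    rw [hf]
    by_cases hu : u ∈ Ioc a b
    · rw [indicator_of_mem hu, indicator_of_mem hu]
      congr 2
      push_cast
      ring
    · rw [indicator_of_notMem hu, indicator_of_notMem hu, zero_mul]
  have e2 : ∫ u, ‖f u‖ ^ 2 = ∫ t in a..b, Q.eval t ^ 2 := by
    rw [intervalIntegral.integral_of_le hab.le, ← integral_indicator measurableSet_Ioc]
    refine integral_congr_ae (Eventually.of_forall fun u => ?_)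
    change ‖f u‖ ^ 2 = _
    rw [hf]
    by_cases hu : u ∈ Ioc a b
    · rw [indicator_of_mem hu, indicator_of_mem hu, Complex.norm_real, Real.norm_eq_abs, sq_abs]
    · rw [indicator_of_notMem hu, indicator_of_notMem hu, norm_zero]
      norm_num
  simp_rw [e1] at hpl
  rw [e2] at hpl
  exact hpl

theorem energy {m : ℕ} {a b : ℝ} (hab : a < b) (C : ℝ) {P : Polynomial ℝ}
    (hP : P = Polynomial.C C * (Polynomial.X - Polynomial.C a) ^ m *
      (Polynomial.C b - Polynomial.X) ^ m) :
    ∫⁻ s in Ioi (0 : ℝ), ENNReal.ofReal (s ^ (2 * m)) *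
      ‖∫ t in a..b, ((P.eval t : ℝ) : ℂ) * Complex.exp (Complex.I * ((s * t : ℝ) : ℂ))‖ₑ ^ 2 =
      ENNReal.ofReal (Real.pi * ((2 * m).factorial * C) * ∫ t in a..b, P.eval t) := by
  -- the derivatives vanish at the end points
  have hva : ∀ j, j < m → ((Polynomial.derivative^[j]) P).eval a = 0 := by
    intro j hj
    have h1 : (Polynomial.X - Polynomial.C a) ^ m ∣ P := by
      rw [hP]
      exact Dvd.dvd.mul_right (Dvd.intro_left _ rfl) _
    have h2 := Polynomial.pow_sub_dvd_iterate_derivative_of_pow_dvd j h1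
    obtain ⟨R, hR⟩ := h2
    rw [hR, Polynomial.eval_mul, Polynomial.eval_pow, Polynomial.eval_sub, Polynomial.eval_X,
      Polynomial.eval_C, sub_self, zero_pow (by omega), zero_mul]
  have hvb : ∀ j, j < m → ((Polynomial.derivative^[j]) P).eval b = 0 := by
    intro j hj
    have h1 : (Polynomial.C b - Polynomial.X) ^ m ∣ P := by
      rw [hP]
      exact Dvd.intro_left _ rfl
    have h2 := Polynomial.pow_sub_dvd_iterate_derivative_of_pow_dvd j h1
    obtain ⟨R, hR⟩ := h2
    rw [hR, Polynomial.eval_mul, Polynomial.eval_pow, Polynomial.eval_sub, Polynomial.eval_X,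
      Polynomial.eval_C, sub_self, zero_pow (by omega), zero_mul]
  have hF : ∀ (s : ℝ) (j : ℕ), j ≤ m → C2b_F a b ((Polynomial.derivative^[j]) P) s =
      (-(Complex.I * (s : ℂ))) ^ j * C2b_F a b P s := by
    intro s j
    induction j with
    | zero =>
      intro _
      rw [pow_zero, one_mul]
      rfl
    | succ j ih =>
      intro hj
      rw [Function.iterate_succ_apply', C2b_step _ (hva j (by omega)) (hvb j (by omega)), ih (by omega),
        pow_succ]
      ring
  set Q : Polynomial ℝ := (Polynomial.derivative^[m]) P with hQ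
  have hnorm : ∀ s : ℝ, ‖C2b_F a b Q s‖ ^ 2 = s ^ (2 * m) * ‖C2b_F a b P s‖ ^ 2 := by
    intro s
    rw [hQ, hF s m (le_refl m), norm_mul, norm_pow, norm_neg, norm_mul, Complex.norm_I, one_mul,
      Complex.norm_real, mul_pow, ← pow_mul, mul_comm m 2, pow_mul, Real.norm_eq_abs, sq_abs, ← pow_mul]
  -- the left side
  have hpl := C2b_planchQ hab Q
  have heven : ∫ s : ℝ, ‖C2b_F a b Q s‖ ^ 2 = 2 * ∫ s in Ioi (0 : ℝ), ‖C2b_F a b Q s‖ ^ 2 :=
    C2b_even (g := fun s => ‖C2b_F a b Q s‖ ^ 2) fun s => by rw [C2b_conj]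
  have hhalf : ∫ s in Ioi (0 : ℝ), ‖C2b_F a b Q s‖ ^ 2 = Real.pi * ∫ t in a..b, Q.eval t ^ 2 := by
    have h1 := hpl.2
    rw [heven] at h1
    linarith
  have hL : ∫⁻ s in Ioi (0 : ℝ), ENNReal.ofReal (s ^ (2 * m)) *
      ‖∫ t in a..b, ((P.eval t : ℝ) : ℂ) * Complex.exp (Complex.I * ((s * t : ℝ) : ℂ))‖ₑ ^ 2 =
      ENNReal.ofReal (∫ s in Ioi (0 : ℝ), ‖C2b_F a b Q s‖ ^ 2) := by
    rw [ofReal_integral_eq_lintegral_ofReal hpl.1.integrableOn
      (Eventually.of_forall fun s => sq_nonneg _)]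
    refine setLIntegral_congr_fun measurableSet_Ioi fun s hs => ?_
    have hs0 : (0 : ℝ) ≤ s ^ (2 * m) := pow_nonneg (le_of_lt hs) _
    change _ = ENNReal.ofReal (‖C2b_F a b Q s‖ ^ 2)
    rw [hnorm, ENNReal.ofReal_mul hs0, ENNReal.ofReal_pow (norm_nonneg _), ofReal_norm]
    rfl
  rw [hL, hhalf]
  congr 1
  -- integrate by parts
  have hI : ∀ j, j ≤ m → ∫ t in a..b, ((Polynomial.derivative^[m - j]) P).eval t *
      ((Polynomial.derivative^[m + j]) P).eval t = (-1) ^ j * ∫ t in a..b, Q.eval t ^ 2 := by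
    intro j
    induction j with
    | zero =>
      intro _
      rw [pow_zero, one_mul]
      refine intervalIntegral.integral_congr fun t _ => ?_
      change ((Polynomial.derivative^[m]) P).eval t * ((Polynomial.derivative^[m]) P).eval t = _
      rw [← hQ]
      change _ = Q.eval t ^ 2
      ring
    | succ j ih =>
      intro hj
      have e1 : m - j = (m - (j + 1)) + 1 := by omega
      have h1 := ih (by omega)
      rw [e1, Function.iterate_succ_apply'] at h1
      have e2 : m + (j + 1) = (m + j) + 1 := by omega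
      rw [e2, Function.iterate_succ_apply',
        C2b_real _ _ (hva _ (by omega)) (hvb _ (by omega)), h1, pow_succ]
      ring
  have hm := hI m (le_refl m)
  rw [Nat.sub_self] at hm
  -- the highest derivative
  have hP2 : P = Polynomial.C (C * (-1) ^ m) * ((Polynomial.X - Polynomial.C a) ^ m *
      (Polynomial.X - Polynomial.C b) ^ m) := by
    have e3 : (Polynomial.C b - Polynomial.X : Polynomial ℝ) ^ m =
        Polynomial.C ((-1 : ℝ) ^ m) * (Polynomial.X - Polynomial.C b) ^ m := by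
      rw [← neg_sub, neg_pow, Polynomial.C_pow, Polynomial.C_neg, Polynomial.C_1]
    rw [hP, e3, Polynomial.C_mul]
    ring
  have hmon : ((Polynomial.X - Polynomial.C a) ^ m * (Polynomial.X - Polynomial.C b) ^ m :
      Polynomial ℝ).Monic :=
    ((Polynomial.monic_X_sub_C a).pow m).mul ((Polynomial.monic_X_sub_C b).pow m)
  have hdeg : ((Polynomial.X - Polynomial.C a) ^ m * (Polynomial.X - Polynomial.C b) ^ m :
      Polynomial ℝ).natDegree = 2 * m := by
    rw [((Polynomial.monic_X_sub_C a).pow m).natDegree_mul ((Polynomial.monic_X_sub_C b).pow m),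
      (Polynomial.monic_X_sub_C a).natDegree_pow, (Polynomial.monic_X_sub_C b).natDegree_pow,
      Polynomial.natDegree_X_sub_C, Polynomial.natDegree_X_sub_C]
    ring
  have hcoe : P.coeff (2 * m) = C * (-1) ^ m := by
    rw [hP2, Polynomial.coeff_C_mul]
    have h1 := hmon.coeff_natDegree
    rw [hdeg] at h1
    rw [h1, mul_one]
  have hhigh : (Polynomial.derivative^[m + m]) P =
      Polynomial.C (((2 * m).factorial : ℝ) * (C * (-1) ^ m)) := by
    ext i
    rw [Polynomial.coeff_iterate_derivative, Polynomial.coeff_C, nsmul_eq_mul]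
    have e4 : m + m = 2 * m := by ring
    rw [e4]
    rcases Nat.eq_zero_or_pos i with rfl | hi
    · rw [if_pos rfl, Nat.zero_add, Nat.descFactorial_self, hcoe]
    · rw [if_neg (by omega), hP2, Polynomial.coeff_C_mul,
        Polynomial.coeff_eq_zero_of_natDegree_lt (by rw [hdeg]; omega), mul_zero, mul_zero]
  rw [hhigh] at hm
  have hfin : ∫ t in a..b, P.eval t * (((2 * m).factorial : ℝ) * (C * (-1) ^ m)) =
      (-1) ^ m * ∫ t in a..b, Q.eval t ^ 2 := by
    rw [← hm]
    refine intervalIntegral.integral_congr fun t _ => ?_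
    change P.eval t * _ = P.eval t * _
    rw [Polynomial.eval_C]
  rw [intervalIntegral.integral_mul_const] at hfin
  have hsq : ((-1 : ℝ) ^ m) * (-1) ^ m = 1 := by
    rw [← mul_pow]
    norm_num
  have h9 : ∫ t in a..b, Q.eval t ^ 2 =
      ((2 * m).factorial : ℝ) * C * ∫ t in a..b, P.eval t := by
    calc ∫ t in a..b, Q.eval t ^ 2 = ((-1) ^ m * (-1) ^ m) * ∫ t in a..b, Q.eval t ^ 2 := by
          rw [hsq, one_mul]
      _ = (-1) ^ m * ((∫ t in a..b, P.eval t) * (((2 * m).factorial : ℝ) * (C * (-1) ^ m))) := by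
          rw [hfin]
          ring
      _ = ((2 * m).factorial : ℝ) * C * (∫ t in a..b, P.eval t) * ((-1) ^ m * (-1) ^ m) := by ring
      _ = _ := by rw [hsq, mul_one]
  rw [h9]
  ring

end Pool.Agent.MP_c8a077_gtP
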