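import Pool.Agent.Lib.MP_c8a077_gtP.Defs

/-!
# JOB C3 (about 120 lines): the Fourier transform of `C (t-a)^m (b-t)^m` and the function `Theta`

PROOF of `ratio`.  Substitute `t = e + ω x`, `e = (a+b)/2`, `ω = (b-a)/2 > 0`: `(t-a)(b-t) = ω²(1-x²)`, so both integrals contain the factor
`C ω^(2m+1)`; `exp (i s t) = exp (i s e) exp (i s ω x)` and the sine part vanishes by symmetry.
`theta_taylor`: `Theta m 0 = 1`, `Theta m` is even and `Theta m w = 1 - β w² + O(w⁴)` with
`β = (∫ x² (1-x²)^m) / (2 ∫ (1-x²)^m) > 0`: `|cos y - 1 + y²/2| ≤ y⁴/24` (or use `Real.cos_bound`/`Real.one_sub_sq_div_two_le_cos`); state below.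
-/

open MeasureTheory Set Metric Topology Filter
open Pool.Agent.MP_c8a077_gt
open scoped ENNReal NNReal

namespace Pool.Agent.MP_c8a077_gtP

private theorem C3_D_pos (m : ℕ) : 0 < ∫ x in (-1 : ℝ)..1, (1 - x ^ 2) ^ m := by
  refine intervalIntegral.intervalIntegral_pos_of_pos_on ?_ ?_ (by norm_num)
  · exact (Continuous.intervalIntegrable (by fun_prop) _ _)
  · intro x hx
    have h1 := hx.1
    have h2 := hx.2
    have : 0 < 1 - x ^ 2 := by nlinarith
    positivity

private theorem C3_odd (m : ℕ) (w : ℝ) :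
    ∫ x in (-1 : ℝ)..1, (1 - x ^ 2) ^ m * Real.sin (w * x) = 0 := by
  have h := intervalIntegral.integral_comp_neg (a := (-1 : ℝ)) (b := 1)
    (fun x : ℝ => (1 - x ^ 2) ^ m * Real.sin (w * x))
  have e : (fun x : ℝ => (1 - (-x) ^ 2) ^ m * Real.sin (w * -x)) =
      fun x : ℝ => -((1 - x ^ 2) ^ m * Real.sin (w * x)) := by
    funext x
    rw [neg_sq, mul_neg, Real.sin_neg]
    ring
  rw [e, neg_neg, intervalIntegral.integral_neg] at h
  linarith

private theorem C3_exp (m : ℕ) (w : ℝ) :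
    ∫ x in (-1 : ℝ)..1, (((1 - x ^ 2) ^ m : ℝ) : ℂ) * Complex.exp (Complex.I * ((w * x : ℝ) : ℂ)) =
      ((∫ x in (-1 : ℝ)..1, (1 - x ^ 2) ^ m * Real.cos (w * x) : ℝ) : ℂ) := by
  have e : ∀ x : ℝ, (((1 - x ^ 2) ^ m : ℝ) : ℂ) * Complex.exp (Complex.I * ((w * x : ℝ) : ℂ)) =
      (((1 - x ^ 2) ^ m * Real.cos (w * x) : ℝ) : ℂ) +
        Complex.I * (((1 - x ^ 2) ^ m * Real.sin (w * x) : ℝ) : ℂ) := by
    intro x
    rw [mul_comm Complex.I, Complex.exp_mul_I, ← Complex.ofReal_cos, ← Complex.ofReal_sin]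
    push_cast
    ring
  have hc : IntervalIntegrable (fun x : ℝ => (((1 - x ^ 2) ^ m * Real.cos (w * x) : ℝ) : ℂ))
      volume (-1) 1 := Continuous.intervalIntegrable (by fun_prop) _ _
  have hs : IntervalIntegrable (fun x : ℝ => Complex.I * (((1 - x ^ 2) ^ m * Real.sin (w * x) : ℝ) : ℂ))
      volume (-1) 1 := Continuous.intervalIntegrable (by fun_prop) _ _
  rw [intervalIntegral.integral_congr (fun x _ => e x), intervalIntegral.integral_add hc hs,
    intervalIntegral.integral_const_mul, intervalIntegral.integral_ofReal,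
    intervalIntegral.integral_ofReal, C3_odd]
  simp

theorem ratio {m : ℕ} {a b : ℝ} (hab : a < b) {C : ℝ} (hC : C ≠ 0) {P : Polynomial ℝ}
    (hP : P = Polynomial.C C * (Polynomial.X - Polynomial.C a) ^ m *
      (Polynomial.C b - Polynomial.X) ^ m) (s : ℝ) :
    (∫ t in a..b, ((P.eval t : ℝ) : ℂ) * Complex.exp (Complex.I * ((s * t : ℝ) : ℂ))) =
      ((∫ t in a..b, P.eval t : ℝ) : ℂ) *
        (Complex.exp (Complex.I * ((s * ((a + b) / 2) : ℝ) : ℂ)) *
          ((Theta m (s * ((b - a) / 2)) : ℝ) : ℂ)) := by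
  set w : ℝ := (b - a) / 2 with hw
  set e : ℝ := (a + b) / 2 with he
  have hw0 : w ≠ 0 := by
    have : 0 < w := by rw [hw]; linarith
    exact this.ne'
  have hev : ∀ t, P.eval t = C * (t - a) ^ m * (b - t) ^ m := by
    intro t
    rw [hP]
    simp
  have hsub : ∀ x : ℝ, P.eval (w * x + e) = C * w ^ (2 * m) * (1 - x ^ 2) ^ m := by
    intro x
    rw [hev]
    have h1 : w * x + e - a = w * (1 + x) := by rw [hw, he]; ring
    have h2 : b - (w * x + e) = w * (1 - x) := by rw [hw, he]; ring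
    rw [h1, h2, mul_pow, mul_pow]
    have h3 : (1 - x ^ 2 : ℝ) = (1 + x) * (1 - x) := by ring
    rw [h3, mul_pow, two_mul, pow_add]
    ring
  have hA : w * -1 + e = a := by rw [hw, he]; ring
  have hB : w * 1 + e = b := by rw [hw, he]; ring
  have hR : ∫ t in a..b, P.eval t = C * w ^ (2 * m) * w * ∫ x in (-1 : ℝ)..1, (1 - x ^ 2) ^ m := by
    have h := intervalIntegral.integral_comp_mul_add (a := (-1 : ℝ)) (b := 1)
      (fun t : ℝ => P.eval t) hw0 e
    rw [hA, hB] at h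
    have h' : ∫ t in a..b, P.eval t = w * ∫ x in (-1 : ℝ)..1, P.eval (w * x + e) := by
      rw [h, smul_eq_mul, ← mul_assoc, mul_inv_cancel₀ hw0, one_mul]
    rw [h', intervalIntegral.integral_congr (fun x _ => hsub x), intervalIntegral.integral_const_mul]
    ring
  have hL : (∫ t in a..b, ((P.eval t : ℝ) : ℂ) * Complex.exp (Complex.I * ((s * t : ℝ) : ℂ))) =
      ((C * w ^ (2 * m) * w : ℝ) : ℂ) * (Complex.exp (Complex.I * ((s * e : ℝ) : ℂ)) *
        ((∫ x in (-1 : ℝ)..1, (1 - x ^ 2) ^ m * Real.cos (s * w * x) : ℝ) : ℂ)) := by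
    have h := intervalIntegral.integral_comp_mul_add (a := (-1 : ℝ)) (b := 1)
      (fun t : ℝ => ((P.eval t : ℝ) : ℂ) * Complex.exp (Complex.I * ((s * t : ℝ) : ℂ))) hw0 e
    rw [hA, hB] at h
    have h' : (∫ t in a..b, ((P.eval t : ℝ) : ℂ) * Complex.exp (Complex.I * ((s * t : ℝ) : ℂ))) =
        (w : ℂ) * ∫ x in (-1 : ℝ)..1, ((P.eval (w * x + e) : ℝ) : ℂ) *
          Complex.exp (Complex.I * ((s * (w * x + e) : ℝ) : ℂ)) := by
      rw [h, Complex.real_smul, ← mul_assoc, ← Complex.ofReal_mul, mul_inv_cancel₀ hw0,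
        Complex.ofReal_one, one_mul]
    have e2 : ∀ x : ℝ, ((P.eval (w * x + e) : ℝ) : ℂ) *
        Complex.exp (Complex.I * ((s * (w * x + e) : ℝ) : ℂ)) =
        (((C * w ^ (2 * m) : ℝ) : ℂ) * Complex.exp (Complex.I * ((s * e : ℝ) : ℂ))) *
          ((((1 - x ^ 2) ^ m : ℝ) : ℂ) * Complex.exp (Complex.I * ((s * w * x : ℝ) : ℂ))) := by
      intro x
      rw [hsub]
      have e3 : Complex.I * ((s * (w * x + e) : ℝ) : ℂ) =
          Complex.I * ((s * e : ℝ) : ℂ) + Complex.I * ((s * w * x : ℝ) : ℂ) := by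
        push_cast
        ring
      rw [e3, Complex.exp_add, Complex.ofReal_mul]
      ring
    rw [h', intervalIntegral.integral_congr (fun x _ => e2 x), intervalIntegral.integral_const_mul,
      C3_exp]
    push_cast
    ring
  rw [hL, hR]
  unfold Theta
  have hD := (C3_D_pos m).ne'
  have hD' : ((∫ x in (-1 : ℝ)..1, (1 - x ^ 2) ^ m : ℝ) : ℂ) ≠ 0 := by exact_mod_cast hD
  rw [Complex.ofReal_mul (C * w ^ (2 * m) * w), Complex.ofReal_div]
  field_simp

theorem continuous_Theta (m : ℕ) : Continuous (Theta m) := by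
  unfold Theta
  refine Continuous.div_const ?_ _
  refine intervalIntegral.continuous_parametric_intervalIntegral_of_continuous' ?_ _ _
  unfold Function.uncurry
  fun_prop

theorem theta_taylor (m : ℕ) : ∃ β : ℝ, 0 < β ∧ Theta m 0 = 1 ∧
    Tendsto (fun w => (1 - Theta m w) / w ^ 2) (𝓝[≠] 0) (𝓝 β) := by
  set D : ℝ := ∫ x in (-1 : ℝ)..1, (1 - x ^ 2) ^ m with hDdef
  have hD : 0 < D := C3_D_pos m
  set N : ℝ := ∫ x in (-1 : ℝ)..1, (1 - x ^ 2) ^ m * x ^ 2 with hNdef
  have hN : 0 < N := by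
    refine intervalIntegral.integral_pos (by norm_num) (by fun_prop) ?_ ⟨1 / 2, ⟨by norm_num, by norm_num⟩, ?_⟩
    · intro x hx
      have h1 := hx.1
      have h2 := hx.2
      have : 0 ≤ 1 - x ^ 2 := by nlinarith
      positivity
    · have : (0 : ℝ) < 1 - (1 / 2) ^ 2 := by norm_num
      positivity
  have hT : ∀ w, Theta m w = (∫ x in (-1 : ℝ)..1, (1 - x ^ 2) ^ m * Real.cos (w * x)) / D := fun w => rfl
  have h0 : Theta m 0 = 1 := by
    rw [hT]
    simp only [zero_mul, Real.cos_zero, mul_one]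
    rw [← hDdef, div_self hD.ne']
  refine ⟨N / (2 * D), by positivity, h0, ?_⟩
  have key : ∀ w : ℝ, w ≠ 0 → |w| ≤ 1 → |(1 - Theta m w) / w ^ 2 - N / (2 * D)| ≤ w ^ 2 := by
    intro w hw hw1
    have i1 : IntervalIntegrable (fun x : ℝ => (1 - x ^ 2) ^ m) volume (-1) 1 :=
      Continuous.intervalIntegrable (by fun_prop) _ _
    have i2 : IntervalIntegrable (fun x : ℝ => (1 - x ^ 2) ^ m * Real.cos (w * x)) volume (-1) 1 :=
      Continuous.intervalIntegrable (by fun_prop) _ _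
    have i3 : IntervalIntegrable (fun x : ℝ => w ^ 2 / 2 * ((1 - x ^ 2) ^ m * x ^ 2)) volume (-1) 1 :=
      Continuous.intervalIntegrable (by fun_prop) _ _
    have e1 : ∫ x in (-1 : ℝ)..1, ((1 - x ^ 2) ^ m - (1 - x ^ 2) ^ m * Real.cos (w * x) -
        w ^ 2 / 2 * ((1 - x ^ 2) ^ m * x ^ 2)) = D - D * Theta m w - w ^ 2 / 2 * N := by
      rw [intervalIntegral.integral_sub (i1.sub i2) i3, intervalIntegral.integral_sub i1 i2,
        intervalIntegral.integral_const_mul, hT, mul_div_cancel₀ _ hD.ne']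
    have e2 : ‖∫ x in (-1 : ℝ)..1, ((1 - x ^ 2) ^ m - (1 - x ^ 2) ^ m * Real.cos (w * x) -
        w ^ 2 / 2 * ((1 - x ^ 2) ^ m * x ^ 2))‖ ≤ ∫ x in (-1 : ℝ)..1, w ^ 4 * (1 - x ^ 2) ^ m := by
      refine intervalIntegral.norm_integral_le_of_norm_le (by norm_num) ?_
        (Continuous.intervalIntegrable (by fun_prop) _ _)
      refine Filter.Eventually.of_forall fun x hx => ?_
      have h1 := hx.1
      have h2 := hx.2
      have hx1 : |x| ≤ 1 := abs_le.2 ⟨h1.le, h2⟩
      have hp : 0 ≤ (1 - x ^ 2) ^ m := by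
        have : 0 ≤ 1 - x ^ 2 := by nlinarith
        positivity
      have hwx : |w * x| ≤ 1 := by
        rw [abs_mul]
        exact mul_le_one₀ hw1 (abs_nonneg _) hx1
      have hb := Real.cos_bound hwx
      have e3 : (1 - x ^ 2) ^ m - (1 - x ^ 2) ^ m * Real.cos (w * x) -
          w ^ 2 / 2 * ((1 - x ^ 2) ^ m * x ^ 2) =
          -((1 - x ^ 2) ^ m * (Real.cos (w * x) - (1 - (w * x) ^ 2 / 2))) := by ring
      rw [e3, norm_neg, norm_mul, Real.norm_of_nonneg hp, Real.norm_eq_abs, mul_comm]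
      refine mul_le_mul_of_nonneg_right (hb.trans ?_) hp
      have h4 : |w * x| ^ 4 ≤ w ^ 4 := by
        rw [abs_mul, mul_pow]
        have e5 : |w| ^ 4 = w ^ 4 := by
          rw [show (4 : ℕ) = 2 * 2 by norm_num, pow_mul, pow_mul, sq_abs]
        rw [e5]
        have h6 : |x| ^ 4 ≤ 1 := pow_le_one₀ (abs_nonneg _) hx1
        have h7 : 0 ≤ w ^ 4 := by positivity
        nlinarith
      have h8 : 0 ≤ |w * x| ^ 4 := by positivity
      linarith
    rw [e1, intervalIntegral.integral_const_mul, Real.norm_eq_abs] at e2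
    have hw2 : 0 < w ^ 2 := by positivity
    have e4 : (1 - Theta m w) / w ^ 2 - N / (2 * D) =
        (D - D * Theta m w - w ^ 2 / 2 * N) / (D * w ^ 2) := by
      field_simp
    rw [e4, abs_div, abs_of_pos (mul_pos hD hw2), div_le_iff₀ (mul_pos hD hw2)]
    refine e2.trans (le_of_eq ?_)
    rw [← hDdef]
    ring
  rw [tendsto_iff_norm_sub_tendsto_zero]
  have hlim : Tendsto (fun w : ℝ => w ^ 2) (𝓝[≠] 0) (𝓝 0) := by
    have h : Tendsto (fun w : ℝ => w ^ 2) (𝓝 0) (𝓝 (0 ^ 2)) := (continuous_pow 2).tendsto 0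
    have e : (0 : ℝ) ^ 2 = 0 := by norm_num
    rw [e] at h
    exact h.mono_left nhdsWithin_le_nhds
  refine squeeze_zero' (Filter.Eventually.of_forall fun w => norm_nonneg _) ?_ hlim
  have hev : ∀ᶠ w : ℝ in 𝓝[≠] 0, |w| ≤ 1 := by
    refine nhdsWithin_le_nhds ?_
    have := Metric.ball_mem_nhds (0 : ℝ) one_pos
    filter_upwards [this] with w hw
    rw [Metric.mem_ball, dist_zero_right, Real.norm_eq_abs] at hw
    exact hw.le
  filter_upwards [hev, self_mem_nhdsWithin] with w h1 h2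
  rw [Real.norm_eq_abs]
  exact key w h2 h1

end Pool.Agent.MP_c8a077_gtP
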