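import Mathlib

/-!
# JOB Du (about 120 lines): the coefficients of a polynomial as integrals

PROOF.  On the polynomials of degree `≤ N` the form `⟨p,q⟩ = ∫ t in (-r)..r, p t q t` is an inner product (positive definite: a polynomial
whose square has integral 0 on `[-r,r]` vanishes there, so it is 0); the Gram matrix `G i j = ∫ t^(i+j)`, `i, j ≤ N`, is invertible: if
`∑_j G i j x_j = 0` for all `i` then `⟨p,p⟩ = 0` for `p = ∑ x_j X^j`, so `x = 0`.  With `G⁻¹` put `θ j t = ∑_i (G⁻¹) i j t^i`; then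
`∫ t^l θ_j t = (G G⁻¹) l j = δ_{lj}`.
-/

open MeasureTheory Set Metric Topology Filter

namespace Pool.Agent.MP_c8a077_gtP

/-- The Gram matrix of the monomials. -/
noncomputable def duGram (r : ℝ) (N : ℕ) : Matrix (Fin (N + 1)) (Fin (N + 1)) ℝ :=
  fun i j => ∫ t in (-r)..r, t ^ ((i : ℕ) + (j : ℕ))

theorem duGram_quad (r : ℝ) (N : ℕ) (v : Fin (N + 1) → ℝ) :
    ∫ t in (-r)..r, (∑ j : Fin (N + 1), v j * t ^ (j : ℕ)) ^ 2 = ∑ i, v i * (Matrix.mulVec (duGram r N) v) i := by
  have h1 : ∀ t : ℝ, (∑ j : Fin (N + 1), v j * t ^ (j : ℕ)) ^ 2 =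
      ∑ i : Fin (N + 1), ∑ j : Fin (N + 1), (v i * v j) * t ^ ((i : ℕ) + (j : ℕ)) := by
    intro t
    rw [sq, Finset.sum_mul_sum]
    refine Finset.sum_congr rfl fun i _ => Finset.sum_congr rfl fun j _ => ?_
    rw [pow_add]
    ring
  simp_rw [h1]
  rw [intervalIntegral.integral_finsetSum fun l _ => (Continuous.intervalIntegrable (by fun_prop) _ _)]
  refine Finset.sum_congr rfl fun i _ => ?_
  rw [intervalIntegral.integral_finsetSum fun i _ => (Continuous.intervalIntegrable (by fun_prop) _ _)]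
  unfold Matrix.mulVec dotProduct
  rw [Finset.mul_sum]
  refine Finset.sum_congr rfl fun j _ => ?_
  rw [intervalIntegral.integral_const_mul]
  change _ = v i * ((∫ t in (-r)..r, t ^ ((i : ℕ) + (j : ℕ))) * v j)
  ring

theorem duGram_det {r : ℝ} (hr : 0 < r) (N : ℕ) : (duGram r N).det ≠ 0 := by
  intro h
  obtain ⟨v, hv, h0⟩ := Matrix.exists_mulVec_eq_zero_iff.2 h
  apply hv
  have h1 := duGram_quad r N v
  rw [h0] at h1
  simp only [Pi.zero_apply, mul_zero, Finset.sum_const_zero] at h1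
  set p : Polynomial ℝ := ∑ j : Fin (N + 1), Polynomial.monomial (j : ℕ) (v j) with hp
  have he : ∀ t : ℝ, p.eval t = ∑ j : Fin (N + 1), v j * t ^ (j : ℕ) := by
    intro t
    rw [hp, Polynomial.eval_finsetSum]
    exact Finset.sum_congr rfl fun j _ => Polynomial.eval_monomial
  have hz : ∀ t ∈ Icc (-r) r, p.eval t = 0 := by
    intro t ht
    by_contra hne
    have h2 : 0 < ∫ t in (-r)..r, (∑ j : Fin (N + 1), v j * t ^ (j : ℕ)) ^ 2 := by
      refine intervalIntegral.integral_pos (by linarith) (Continuous.continuousOn (by fun_prop))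
        (fun x _ => sq_nonneg _) ⟨t, ht, ?_⟩
      rw [← he]
      positivity
    rw [h1] at h2
    exact lt_irrefl _ h2
  have hp0 : p = 0 := by
    apply Polynomial.eq_zero_of_infinite_isRoot
    exact (Set.Icc_infinite (by linarith : -r < r)).mono fun t ht => hz t ht
  ext i
  have h3 : p.coeff i = v i := by
    rw [hp, Polynomial.finsetSum_coeff, Finset.sum_eq_single i]
    · rw [Polynomial.coeff_monomial, if_pos rfl]
    · intro j _ hj
      rw [Polynomial.coeff_monomial, if_neg]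
      intro h
      exact hj (Fin.ext h)
    · intro h
      exact absurd (Finset.mem_univ _) h
  rw [← h3, hp0, Polynomial.coeff_zero, Pi.zero_apply]

theorem exists_dual {r : ℝ} (hr : 0 < r) (N : ℕ) : ∃ θ : ℕ → ℝ → ℝ, (∀ j, Continuous (θ j)) ∧
    ∀ P : Polynomial ℝ, P.natDegree ≤ N → ∀ j ≤ N,
      ∫ t in (-r)..r, P.eval t * θ j t = P.coeff j := by
  set G := duGram r N with hG
  have hdet : IsUnit G.det := isUnit_iff_ne_zero.2 (duGram_det hr N)
  refine ⟨fun j t => if h : j < N + 1 then ∑ i : Fin (N + 1), G⁻¹ i ⟨j, h⟩ * t ^ (i : ℕ) else 0, ?_, ?_⟩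
  · intro j
    by_cases h : j < N + 1
    · simp only [dif_pos h]
      fun_prop
    · simp only [dif_neg h]
      exact continuous_const
  · intro P hP j hj
    have hj' : j < N + 1 := Nat.lt_succ_of_le hj
    simp only [dif_pos hj']
    have h1 : ∀ t : ℝ, P.eval t * ∑ i : Fin (N + 1), G⁻¹ i ⟨j, hj'⟩ * t ^ (i : ℕ) =
        ∑ l : Fin (N + 1), ∑ i : Fin (N + 1), (P.coeff l * G⁻¹ i ⟨j, hj'⟩) * t ^ ((l : ℕ) + (i : ℕ)) := by
      intro t
      rw [Polynomial.eval_eq_sum_range' (Nat.lt_succ_of_le hP), Finset.sum_range, Finset.sum_mul]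
      refine Finset.sum_congr rfl fun l _ => ?_
      rw [Finset.mul_sum]
      refine Finset.sum_congr rfl fun i _ => ?_
      rw [pow_add]
      ring
    simp_rw [h1]
    rw [intervalIntegral.integral_finsetSum fun l _ => (Continuous.intervalIntegrable (by fun_prop) _ _)]
    have h2 : ∀ l : Fin (N + 1), ∫ t in (-r)..r, ∑ i : Fin (N + 1), (P.coeff l * G⁻¹ i ⟨j, hj'⟩) * t ^ ((l : ℕ) + (i : ℕ)) =
        P.coeff l * (G * G⁻¹) l ⟨j, hj'⟩ := by
      intro l
      rw [intervalIntegral.integral_finsetSum fun i _ => (Continuous.intervalIntegrable (by fun_prop) _ _),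
        Matrix.mul_apply, Finset.mul_sum]
      refine Finset.sum_congr rfl fun i _ => ?_
      rw [intervalIntegral.integral_const_mul]
      change _ = P.coeff l * ((∫ t in (-r)..r, t ^ ((l : ℕ) + (i : ℕ))) * G⁻¹ i ⟨j, hj'⟩)
      ring
    rw [Finset.sum_congr rfl fun l _ => h2 l, Matrix.mul_nonsing_inv G hdet, Finset.sum_eq_single (⟨j, hj'⟩ : Fin (N + 1))]
    · rw [Matrix.one_apply_eq, mul_one]
    · intro l _ hl
      rw [Matrix.one_apply_ne hl, mul_zero]
    · intro h
      exact absurd (Finset.mem_univ _) h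

end Pool.Agent.MP_c8a077_gtP
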