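import Pool.Agent.Lib.MP_c8a077_gtP.UP
import Pool.Agent.Lib.MP_c8a077_gtP.Du

/-!
# JOB Co (about 250 lines): the averages of the higher coefficients vanish


PROOF of `coeff_integrable`.  `j > N`: the coefficient is `0`.  `j ≤ N`: `θ` from `exists_dual`, `g t = θ j t` for `|t| ≤ r`, `0` otherwise,
bounded and measurable.  `[-r,r] ⊆ [a,b]` (`ball_hs`), so by the second property of `hc`
`(P u).coeff j = ∫ t in a..b, (P u) t * g t = c * ∫ v, gam v * (∫ x in TT K v, g ⟪x,u⟫) ∂(pm u)` for a.e. `u`.  The right side is a measurable function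
of `u ∈ E n` (`measurable_integral_pm` with the complex valued version, or its proof; joint measurability of
`(u, v) ↦ ∫ x in TT K v, g ⟪x,u⟫` with `measurableSet_cyl`, `measurableSet_slab`) and bounded by `c * M * C * ∫ gam` (`sh_le`, `lintegral_gam_pm`);
`sg` is a finite measure.
PROOF of `coeff_avg`.  For `ρ ∈ (0,r]` apply `U_poly` with `ρ`.  `(derivative^[2m] P).eval t = ∑_{i ≤ N} ((i+2m)!/i!) (P.coeff (i+2m)) t^i`
(`Polynomial.coeff_iterate_derivative`, `descFactorial`), `∫ x, bump ρ x * (x 0)^i = ρ^(2m+1+i) μ_i` (`mu_smul`), integrate over `u` termwise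
(`coeff_integrable`): with `A_i = π (-1)^m ((i+2m)!/i!) μ_i ∫ u, (P u).coeff (i+2m)`,
`c (2π)^(2m+1) W μ_0 ρ^(2m+1) = ∑_{i ≤ N} A_i ρ^(2m+1+i)`.  Divide by `ρ^(2m+1)`: the polynomial `∑ A_i X^i - c (2π)^(2m+1) W μ_0` vanishes on `(0,r]`
(infinitely many zeros), so `A_i = 0` for `i ≥ 1`; for even `i`, `μ_i > 0` (`mu_even_pos`).
-/

open MeasureTheory Set Metric Topology Filter
open Pool.Agent.MP_c8a077_gt
open scoped ENNReal NNReal

namespace Pool.Agent.MP_c8a077_gtP

/-- the inner integral is measurable -/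
private theorem co_meas_inner {n : ℕ} {K : Set (E n)} (hK : IsCompact K) {g : ℝ → ℝ} (hg : Measurable g) :
    Measurable (fun p : E n × E n => ∫ x in TT K p.2, g (inner ℝ x p.1)) := by
  classical
  have hS : MeasurableSet {q : (E n × E n) × E n | q.2 ∈ TT K q.1.2} := by
    have h1 : MeasurableSet {q : (E n × E n) × E n | q.2 ∈ cyl K q.1.2} := by
      have h2 : Measurable fun q : (E n × E n) × E n => (q.1.2, q.2) := by fun_prop
      exact h2 (measurableSet_cyl hK)
    have h3 : MeasurableSet {q : (E n × E n) × E n | q.2 ∈ slab q.1.2} := by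
      have h2 : Measurable fun q : (E n × E n) × E n => (q.1.2, q.2) := by fun_prop
      exact h2 measurableSet_slab
    exact h1.inter h3
  have hf : Measurable fun q : (E n × E n) × E n => g (inner ℝ q.2 q.1.1) := by
    refine hg.comp ?_
    fun_prop
  have h4 : StronglyMeasurable (({q : (E n × E n) × E n | q.2 ∈ TT K q.1.2}).indicator
      fun q => g (inner ℝ q.2 q.1.1)) := (hf.indicator hS).stronglyMeasurable
  have h5 : (fun p : E n × E n => ∫ x in TT K p.2, g (inner ℝ x p.1)) = fun p => ∫ x,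
      ({q : (E n × E n) × E n | q.2 ∈ TT K q.1.2}).indicator (fun q => g (inner ℝ q.2 q.1.1)) (p, x) := by
    funext p
    rw [← integral_indicator (measurableSet_TT hK p.2)]
    rfl
  rw [h5]
  exact (StronglyMeasurable.integral_prod_right' h4).measurable

/-- the outer integral is measurable -/
private theorem co_meas_outer {n : ℕ} {K : Set (E n)} (hK : IsCompact K) {g : ℝ → ℝ} (hg : Measurable g) :
    Measurable (fun u : E n => ∫ v, gam v * (∫ x in TT K v, g (inner ℝ x u)) ∂(pm u)) := by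
  have h1 : Measurable (fun p : E n × E n => ((gam p.2 * (∫ x in TT K p.2, g (inner ℝ x p.1)) : ℝ) : ℂ)) := by
    refine Complex.measurable_ofReal.comp ?_
    exact (measurable_gam.comp measurable_snd).mul (co_meas_inner hK hg)
  have h2 := measurable_integral_pm h1
  have h3 : (fun u : E n => ∫ v, gam v * (∫ x in TT K v, g (inner ℝ x u)) ∂(pm u)) =
      fun u : E n => (∫ v, ((gam v * (∫ x in TT K v, g (inner ℝ x u)) : ℝ) : ℂ) ∂(pm u)).re := by
    funext u
    rw [integral_complex_ofReal, Complex.ofReal_re]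
  rw [h3]
  exact Complex.measurable_re.comp h2

/-- a uniform bound -/
private theorem co_gV_le {k : ℕ} (hk : 1 ≤ k) {K : Set (E (k + 1))} (hK : IsBody K) :
    ∃ D : ℝ, ∀ u : E (k + 1), u ≠ 0 → gV K u ≤ D := by
  obtain ⟨C, hC, hsh⟩ := sh_le hK
  refine ⟨((∫⁻ y : E k, ENNReal.ofReal (gam y)) * ENNReal.ofReal C).toReal, fun u hu => ?_⟩
  have h1 : ENNReal.ofReal (gV K u) ≤ (∫⁻ y : E k, ENNReal.ofReal (gam y)) * ENNReal.ofReal C := by
    rw [ofReal_gV hk hK hu, ← lintegral_gam_pm hu, ← lintegral_mul_const _ measurable_gam.ennreal_ofReal]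
    refine lintegral_mono_ae ?_
    have h2 : ∀ᵐ w ∂(pm u), w ∉ ({0} : Set (E (k + 1))) := measure_eq_zero_iff_ae_notMem.1 (pm_zero hk hu)
    filter_upwards [h2] with w hw
    gcongr
    exact hsh w hw
  have h3 : (∫⁻ y : E k, ENNReal.ofReal (gam y)) * ENNReal.ofReal C ≠ ∞ :=
    ENNReal.mul_ne_top lintegral_gam_lt.ne ENNReal.ofReal_ne_top
  exact (ENNReal.ofReal_le_iff_le_toReal h3).1 h1

/-- the coefficient as an integral over the large interval -/
private theorem co_coeff {r a b : ℝ} (hr : 0 < r) (ha : a ≤ -r) (hb : r ≤ b) (P : Polynomial ℝ) (θ : ℝ → ℝ) :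
    ∫ t in a..b, P.eval t * (Ioc (-r) r).indicator θ t = ∫ t in (-r)..r, P.eval t * θ t := by
  rw [intervalIntegral.integral_of_le (by linarith), intervalIntegral.integral_of_le (by linarith)]
  have h1 : (fun t => P.eval t * (Ioc (-r) r).indicator θ t) =
      (Ioc (-r) r).indicator fun t => P.eval t * θ t := by
    funext t
    by_cases ht : t ∈ Ioc (-r) r
    · rw [indicator_of_mem ht, indicator_of_mem ht]
    · rw [indicator_of_notMem ht, indicator_of_notMem ht, mul_zero]
  rw [h1, setIntegral_indicator measurableSet_Ioc]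
  have h2 : Ioc a b ∩ Ioc (-r) r = Ioc (-r) r := by
    rw [inter_eq_right]
    exact Ioc_subset_Ioc ha hb
  rw [h2]

theorem coeff_integrable {m N : ℕ} {c : ℝ} (hc : SFC (2 * m + 1) c)
    {K : Set (E (2 * m + 1 + 1))} (hK : IsBody K) {r : ℝ} (hr : 0 < r) (hrK : closedBall 0 r ⊆ K)
    {P : Sph (2 * m + 1 + 1) → Polynomial ℝ}
    (hP : ∀ᵐ u : Sph (2 * m + 1 + 1) ∂(sg (2 * m + 1 + 1)),
      Rep K (u : E (2 * m + 1 + 1)) (P u) ∧ (P u).natDegree ≤ N) (j : ℕ) :
    Integrable (fun u => (P u).coeff j) (sg (2 * m + 1 + 1)) := by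
  classical
  by_cases hj : j ≤ N
  · obtain ⟨θ, hθc, hθ⟩ := exists_dual hr N
    obtain ⟨M, hM⟩ := isCompact_Icc.exists_bound_of_continuousOn (s := Icc (-r) r) (hθc j).continuousOn
    have hM0 : 0 ≤ M := (norm_nonneg _).trans (hM 0 ⟨by linarith, hr.le⟩)
    have hgm : Measurable ((Ioc (-r) r).indicator (θ j)) := (hθc j).measurable.indicator measurableSet_Ioc
    have hgb : ∀ t, |(Ioc (-r) r).indicator (θ j) t| ≤ M := by
      intro t
      by_cases ht : t ∈ Ioc (-r) r
      · rw [indicator_of_mem ht]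
        exact hM t (Ioc_subset_Icc_self ht)
      · rw [indicator_of_notMem ht, abs_zero]
        exact hM0
    obtain ⟨D, hD⟩ := co_gV_le (k := 2 * m + 1) (by omega) hK
    have hae : ∀ᵐ u : Sph (2 * m + 1 + 1) ∂(sg (2 * m + 1 + 1)), c * ∫ v, gam v * (∫ x in TT K v,
        (Ioc (-r) r).indicator (θ j) (inner ℝ x (u : E (2 * m + 1 + 1)))) ∂(pm (u : E (2 * m + 1 + 1))) = (P u).coeff j := by
      filter_upwards [hP] with u hu
      have hu1 : ‖(u : E (2 * m + 1 + 1))‖ = 1 := norm_eq_of_mem_sphere u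
      have h1 := (hc.2 K hK (u : E (2 * m + 1 + 1)) hu1 (P u) hu.1).2.1 _ hgm ⟨M, hgb⟩
      rw [← h1]
      have h2 : r ≤ hs K (u : E (2 * m + 1 + 1)) := ball_hs hK hr.le hrK hu1
      have h3 : r ≤ hs K (-(u : E (2 * m + 1 + 1))) := ball_hs hK hr.le hrK (by rw [norm_neg, hu1])
      rw [co_coeff hr (by linarith) h2]
      exact hθ (P u) hu.2 j hj
    refine Integrable.congr (f := fun u : Sph (2 * m + 1 + 1) => c * ∫ v, gam v * (∫ x in TT K v,
        (Ioc (-r) r).indicator (θ j) (inner ℝ x (u : E (2 * m + 1 + 1)))) ∂(pm (u : E (2 * m + 1 + 1)))) ?_ hae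
    refine Integrable.of_bound (C := c * (M * D)) ?_ (Filter.Eventually.of_forall fun u => ?_)
    · refine Measurable.aestronglyMeasurable ?_
      exact ((co_meas_outer hK.2.1 hgm).comp measurable_subtype_coe).const_mul c
    · have hu1 : ‖(u : E (2 * m + 1 + 1))‖ = 1 := norm_eq_of_mem_sphere u
      have hu0 : (u : E (2 * m + 1 + 1)) ≠ 0 := by
        intro h
        rw [h, norm_zero] at hu1
        exact zero_ne_one hu1
      rw [norm_mul, Real.norm_of_nonneg hc.1.le]
      refine mul_le_mul_of_nonneg_left ?_ hc.1.le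
      have hint := (integrable_gV (k := 2 * m + 1) (by omega) hK hu0).const_mul M
      have h2 : ∀ᵐ w ∂(pm (u : E (2 * m + 1 + 1))), w ∉ ({0} : Set (E (2 * m + 1 + 1))) :=
        measure_eq_zero_iff_ae_notMem.1 (pm_zero (k := 2 * m + 1) (by omega) hu0)
      have h3 := norm_integral_le_of_norm_le (f := fun v => gam v * (∫ x in TT K v,
        (Ioc (-r) r).indicator (θ j) (inner ℝ x (u : E (2 * m + 1 + 1))))) hint (by
        filter_upwards [h2] with w hw
        have hg0 : 0 ≤ gam w := (Real.exp_pos _).le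
        rw [norm_mul, Real.norm_of_nonneg hg0]
        have h4 := norm_setIntegral_le_of_norm_le_const (μ := volume) (s := TT K w)
          (f := fun x => (Ioc (-r) r).indicator (θ j) (inner ℝ x (u : E (2 * m + 1 + 1)))) (C := M)
          (lt_top_iff_ne_top.2 (sh_ne_top hK hw)) fun x _ => hgb _
        have h5 : (volume.real (TT K w)) = (sh K w).toReal := rfl
        rw [h5] at h4
        calc gam w * ‖∫ x in TT K w, (Ioc (-r) r).indicator (θ j) (inner ℝ x (u : E (2 * m + 1 + 1)))‖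
            ≤ gam w * (M * (sh K w).toReal) := mul_le_mul_of_nonneg_left h4 hg0
          _ = M * (gam w * (sh K w).toReal) := by ring)
      refine h3.trans ?_
      rw [integral_const_mul]
      exact mul_le_mul_of_nonneg_left (hD _ hu0) hM0
  · refine (integrable_zero _ _ _).congr ?_
    filter_upwards [hP] with u hu
    exact (Polynomial.coeff_eq_zero_of_natDegree_lt (by omega)).symm

/-- the iterated derivative -/
private theorem co_eval {N l : ℕ} {P : Polynomial ℝ} (hP : P.natDegree ≤ N) (t : ℝ) :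
    (Polynomial.derivative^[l] P).eval t =
      ∑ i ∈ Finset.range (N + 1), ((i + l).descFactorial l : ℝ) * P.coeff (i + l) * t ^ i := by
  have h1 : (Polynomial.derivative^[l] P).natDegree < N + 1 := by
    have h2 := Polynomial.natDegree_iterate_derivative P l
    omega
  rw [Polynomial.eval_eq_sum_range' h1]
  refine Finset.sum_congr rfl fun i _ => ?_
  rw [Polynomial.coeff_iterate_derivative, nsmul_eq_mul]

/-- the inner integral -/
private theorem co_inner {m N l : ℕ} {P : Polynomial ℝ} (hP : P.natDegree ≤ N) {ρ : ℝ} (hρ : 0 < ρ) :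
    ∫ x : E (2 * m + 1), bump ρ x * (Polynomial.derivative^[l] P).eval (x 0) =
      ∑ i ∈ Finset.range (N + 1), (((i + l).descFactorial l : ℝ) * (ρ ^ (2 * m + 1 + i) *
        ∫ x : E (2 * m + 1), bump 1 x * (x 0) ^ i)) * P.coeff (i + l) := by
  have h1 : ∀ x : E (2 * m + 1), bump ρ x * (Polynomial.derivative^[l] P).eval (x 0) =
      ∑ i ∈ Finset.range (N + 1), (((i + l).descFactorial l : ℝ) * P.coeff (i + l)) * (bump ρ x * (x 0) ^ i) := by
    intro x
    rw [co_eval hP, Finset.mul_sum]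
    exact Finset.sum_congr rfl fun i _ => by ring
  rw [integral_congr_ae (Filter.Eventually.of_forall h1), integral_finsetSum]
  · refine Finset.sum_congr rfl fun i _ => ?_
    rw [integral_const_mul, mu_smul hρ]
    ring
  · intro i _
    refine Integrable.const_mul ?_ _
    refine integrable_bump hρ (g := fun x : E (2 * m + 1) => (x 0) ^ i) ?_
    fun_prop

/-- comparison of the powers of `ρ` -/
private theorem co_poly {N : ℕ} {r L : ℝ} (hr : 0 < r) (A : ℕ → ℝ) (l : ℕ)
    (h : ∀ ρ : ℝ, 0 < ρ → ρ ≤ r → L * ρ ^ l = ∑ i ∈ Finset.range (N + 1), A i * ρ ^ (l + i)) {i : ℕ} (hi : 1 ≤ i)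
    (hiN : i ≤ N) : A i = 0 := by
  classical
  obtain ⟨Q, hQ⟩ : ∃ Q : Polynomial ℝ, Q = (∑ i ∈ Finset.range (N + 1), Polynomial.C (A i) * Polynomial.X ^ i) -
      Polynomial.C L := ⟨_, rfl⟩
  have h0 : Q = 0 := by
    refine Polynomial.eq_zero_of_infinite_isRoot Q ?_
    refine (Ioc_infinite hr).mono fun ρ hρ => ?_
    have h1 := h ρ hρ.1 hρ.2
    have h2 : ρ ^ l ≠ 0 := pow_ne_zero _ hρ.1.ne'
    have h3 : ∑ i ∈ Finset.range (N + 1), A i * ρ ^ (l + i) = (∑ i ∈ Finset.range (N + 1), A i * ρ ^ i) * ρ ^ l := by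
      rw [Finset.sum_mul]
      refine Finset.sum_congr rfl fun i _ => ?_
      rw [pow_add]
      ring
    rw [h3] at h1
    have h4 := mul_right_cancel₀ h2 h1
    show Q.eval ρ = 0
    rw [hQ, Polynomial.eval_sub, Polynomial.eval_C, Polynomial.eval_finsetSum, h4, sub_eq_zero]
    refine Finset.sum_congr rfl fun i _ => ?_
    rw [Polynomial.eval_mul, Polynomial.eval_C, Polynomial.eval_pow, Polynomial.eval_X]
  have h5 := congrArg (fun q => Polynomial.coeff q i) h0
  have h6 : Q.coeff i = A i := by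
    rw [hQ, Polynomial.coeff_sub, Polynomial.coeff_C, if_neg (by omega), sub_zero, Polynomial.finsetSum_coeff,
      Finset.sum_eq_single i]
    · rw [Polynomial.coeff_C_mul, Polynomial.coeff_X_pow, if_pos rfl, mul_one]
    · intro b _ hb
      rw [Polynomial.coeff_C_mul, Polynomial.coeff_X_pow, if_neg (Ne.symm hb), mul_zero]
    · intro h7
      exact absurd (Finset.mem_range.2 (by omega)) h7
  rw [← h6]
  exact h5

theorem coeff_avg {m N : ℕ} {c : ℝ} (hc : SFC (2 * m + 1) c)
    {K : Set (E (2 * m + 1 + 1))} (hK : IsBody K) {r : ℝ} (hr : 0 < r) (hrK : closedBall 0 r ⊆ K)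
    {P : Sph (2 * m + 1 + 1) → Polynomial ℝ}
    (hP : ∀ᵐ u : Sph (2 * m + 1 + 1) ∂(sg (2 * m + 1 + 1)),
      Rep K (u : E (2 * m + 1 + 1)) (P u) ∧ (P u).natDegree ≤ N) {j : ℕ} (hj : 2 * m < j)
    (hje : Even j) : ∫ u, (P u).coeff j ∂(sg (2 * m + 1 + 1)) = 0 := by
  classical
  by_cases hjN : j ≤ N
  · obtain ⟨i₀, hi₀⟩ : ∃ i₀, j = i₀ + 2 * m := ⟨j - 2 * m, by omega⟩
    have hi1 : 1 ≤ i₀ := by omega
    have hie : Even i₀ := by
      rw [hi₀, Nat.even_add] at hje
      exact hje.2 (even_two_mul m)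
    subst hi₀
    have key := co_poly (N := N) (r := r) (L := c * ((2 * Real.pi) ^ (2 * m + 1) *
      (∫ x : E (2 * m + 1), bump 1 x * (x 0) ^ 0) * (∫ v : E (2 * m + 1 + 1), ‖v‖⁻¹ * gam v))) hr
      (fun i => Real.pi * (-1) ^ m * (((i + 2 * m).descFactorial (2 * m) : ℝ) *
        ∫ x : E (2 * m + 1), bump 1 x * (x 0) ^ i) * ∫ u, (P u).coeff (i + 2 * m) ∂(sg (2 * m + 1 + 1))) (2 * m + 1)
      (by
        intro ρ hρ hρr
        have h1 := U_poly hc hK hρ ((closedBall_subset_closedBall hρr).trans hrK) (hP.mono fun u hu => hu.1)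
        have h2 : ∫ x : E (2 * m + 1), bump ρ x = ρ ^ (2 * m + 1) * ∫ x : E (2 * m + 1), bump 1 x * (x 0) ^ 0 := by
          have h3 := mu_smul (m := m) hρ 0
          rw [add_zero] at h3
          rw [← h3]
          refine integral_congr_ae (Filter.Eventually.of_forall fun x => ?_)
          show bump ρ x = bump ρ x * (x 0) ^ 0
          rw [pow_zero, mul_one]
        rw [h2] at h1
        have h4 : ∫ u : Sph (2 * m + 1 + 1), (Real.pi * (-1) ^ m * ∫ x : E (2 * m + 1),
            bump ρ x * ((Polynomial.derivative^[2 * m]) (P u)).eval (x 0)) ∂(sg (2 * m + 1 + 1)) =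
            ∫ u : Sph (2 * m + 1 + 1), (∑ i ∈ Finset.range (N + 1), (Real.pi * (-1) ^ m *
              (((i + 2 * m).descFactorial (2 * m) : ℝ) * (ρ ^ (2 * m + 1 + i) *
        ∫ x : E (2 * m + 1), bump 1 x * (x 0) ^ i))) * (P u).coeff (i + 2 * m)) ∂(sg (2 * m + 1 + 1)) := by
          refine integral_congr_ae ?_
          filter_upwards [hP] with u hu
          rw [co_inner hu.2 hρ, Finset.mul_sum]
          exact Finset.sum_congr rfl fun i _ => by ring
        rw [h4, integral_finsetSum] at h1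
        · have h5 : c * ((2 * Real.pi) ^ (2 * m + 1) *
            (∫ x : E (2 * m + 1), bump 1 x * (x 0) ^ 0) * (∫ v : E (2 * m + 1 + 1), ‖v‖⁻¹ * gam v)) * ρ ^ (2 * m + 1) =
            c * ((2 * Real.pi) ^ (2 * m + 1) * (ρ ^ (2 * m + 1) * ∫ x : E (2 * m + 1), bump 1 x * (x 0) ^ 0) *
            (∫ v : E (2 * m + 1 + 1), ‖v‖⁻¹ * gam v)) := by ring
          rw [h5, h1]
          refine Finset.sum_congr rfl fun i _ => ?_
          rw [integral_const_mul]
          ring
        · intro i _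
          exact (coeff_integrable hc hK hr hrK hP (i + 2 * m)).const_mul _) hi1 (by omega)
    have hmu : 0 < ∫ x : E (2 * m + 1), bump 1 x * (x 0) ^ i₀ := mu_even_pos one_pos hie
    have hdf : (0 : ℝ) < ((i₀ + 2 * m).descFactorial (2 * m) : ℝ) := by
      exact_mod_cast Nat.descFactorial_pos.2 (by omega)
    have hsgn : ((-1 : ℝ)) ^ m ≠ 0 := pow_ne_zero _ (by norm_num)
    exact (mul_eq_zero.1 key).resolve_left
      (mul_ne_zero (mul_ne_zero Real.pi_ne_zero hsgn) (mul_ne_zero hdf.ne' hmu.ne'))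
  · rw [← integral_zero (Sph (2 * m + 1 + 1)) ℝ (μ := sg (2 * m + 1 + 1))]
    refine integral_congr_ae ?_
    filter_upwards [hP] with u hu
    exact Polynomial.coeff_eq_zero_of_natDegree_lt (by omega)

end Pool.Agent.MP_c8a077_gtP
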