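import Pool.Agent.Lib.MP_c8a077_gtP.Dec

/-!
# JOB Sec (about 220 lines): the sections of a convex body in coordinates

(`Dec` may still contain sorry; you need the definition of `IsDec` only.)
PROOFS.  `hs`: `K` compact nonempty: `⟪x,u⟫ ≤ hs K u` for `x ∈ K` and the supremum is attained (`IsCompact.exists_isMaxOn`); elementary
facts `hs_le`, `exists_hs`; `hs_smul` for `r ≥ 0`; `continuous_hs`: `|hs K u - hs K u'| ≤ R ‖u - u'‖` if `K ⊆ closedBall 0 R`.
`nonempty_iff`: the set of values of `⟪·,u⟫` on the convex compact set `K` is an interval containing its maximum `hs K u` and its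
minimum `-hs K (-u)`.
`surfSec_eq`: the map `y ↦ t • u + ι y` is an isometry of `E k` onto the subtype `hyper u t`: for `x` with `⟪x,u⟫ = t`, `x - t • u ⊥ u`
(`‖u‖ = 1`), so it is `ι y`.  Build the `IsometryEquiv` (or a homeomorphism which is an isometry) `e : E k ≃ᵢ hyper u t`; it maps
`secT K ι u t` to the preimage of `K`; frontiers correspond (`Homeomorph.preimage_frontier`, `IsometryEquiv.toHomeomorph`) and `μHE` is
invariant (see how `Pool/Agent/Lib/MP_c8a077_gt/A4.lean` does this; `Isometry.euclideanHausdorffMeasure_image` or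
`IsometryEquiv.hausdorffMeasure_image` with `euclideanHausdorffMeasure_def`).  `k + 1 - 2` and `k - 1` are definitionally equal.
`sec_body`: convex, compact (closed and bounded: `‖ι y‖ = ‖y‖`); interior: there are `p ∈ K` with `⟪p,u⟫ = hs K u > t` and `q ∈ K` with
`⟪q,u⟫ = -hs K (-u) < t`; let `z` be an interior point of `K`.  If `⟪z,u⟫ ≤ t` move from `z` towards `p` (open segment `[z,p)` consists of
interior points, `Convex.combo_interior_self_mem_interior`), otherwise towards `q`; some point `x` of the segment has `⟪x,u⟫ = t` and is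
interior to `K`; `x = t • u + ι y` and `y` is interior to `secT` (continuity of `y ↦ t • u + ι y`).
`ball_hs`: if `closedBall 0 r ⊆ K` and `‖u‖ = 1` then `r ≤ hs K u` (the point `r • u`).
-/

open MeasureTheory Set Metric Topology Filter
open Pool.Agent.MP_c8a077_gt
open scoped ENNReal NNReal

namespace Pool.Agent.MP_c8a077_gtP

theorem le_hs {n : ℕ} {K : Set (E n)} (hK : IsBody K) (u : E n) {x : E n} (hx : x ∈ K) :
    inner ℝ x u ≤ hs K u := by
  have hc : ContinuousOn (fun x : E n => (inner ℝ x u : ℝ)) K := by fun_prop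
  exact le_csSup (hK.2.1.image_of_continuousOn hc).bddAbove (mem_image_of_mem _ hx)

private theorem Sec_ne {n : ℕ} {K : Set (E n)} (hK : IsBody K) : K.Nonempty := hK.2.2.mono interior_subset

theorem exists_hs {n : ℕ} {K : Set (E n)} (hK : IsBody K) (u : E n) :
    ∃ x ∈ K, inner ℝ x u = hs K u := by
  have hc : ContinuousOn (fun x : E n => (inner ℝ x u : ℝ)) K := by fun_prop
  obtain ⟨x, hx, h⟩ := hK.2.1.exists_sSup_image_eq (Sec_ne hK) hc
  exact ⟨x, hx, h.symm⟩

theorem hs_smul {n : ℕ} {K : Set (E n)} (hK : IsBody K) (u : E n) {r : ℝ} (hr : 0 ≤ r) :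
    hs K (r • u) = r * hs K u := by
  apply le_antisymm
  · obtain ⟨x, hx, h⟩ := exists_hs hK (r • u)
    rw [← h, inner_smul_right]
    exact mul_le_mul_of_nonneg_left (le_hs hK u hx) hr
  · obtain ⟨x, hx, h⟩ := exists_hs hK u
    rw [← h]
    have h1 := le_hs hK (r • u) hx
    rwa [inner_smul_right] at h1

theorem continuous_hs {n : ℕ} {K : Set (E n)} (hK : IsBody K) : Continuous (hs K) := by
  obtain ⟨R, hR⟩ := hK.2.1.isBounded.exists_norm_le
  have h1 : LipschitzWith (Real.toNNReal R) (hs K) := by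
    refine LipschitzWith.of_le_add_mul _ fun u u' => ?_
    obtain ⟨x, hx, h⟩ := exists_hs hK u
    have h2 := le_hs hK u' hx
    have h3 : (inner ℝ x (u - u') : ℝ) ≤ ‖x‖ * ‖u - u'‖ := real_inner_le_norm _ _
    have h4 : ‖x‖ ≤ (Real.toNNReal R : ℝ) := (hR x hx).trans (Real.le_coe_toNNReal R)
    have h5 : ‖x‖ * ‖u - u'‖ ≤ (Real.toNNReal R : ℝ) * ‖u - u'‖ := mul_le_mul_of_nonneg_right h4 (norm_nonneg _)
    rw [inner_sub_right] at h3
    rw [dist_eq_norm, ← h]
    linarith
  exact h1.continuous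

theorem neg_hs_lt {n : ℕ} {K : Set (E n)} (hK : IsBody K) {u : E n} (hu : u ≠ 0) :
    -hs K (-u) < hs K u := by
  obtain ⟨z, hz⟩ := hK.2.2
  have hc1 : ContinuousAt (fun ε : ℝ => z + ε • u) 0 := by fun_prop
  have hc2 : ContinuousAt (fun ε : ℝ => z - ε • u) 0 := by fun_prop
  have hz1 : ∀ᶠ ε : ℝ in 𝓝 0, z + ε • u ∈ K := by
    apply hc1
    simp only [zero_smul, add_zero]
    exact mem_interior_iff_mem_nhds.mp hz
  have hz2 : ∀ᶠ ε : ℝ in 𝓝 0, z - ε • u ∈ K := by
    apply hc2
    simp only [zero_smul, sub_zero]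
    exact mem_interior_iff_mem_nhds.mp hz
  obtain ⟨ε, ⟨h1, h2⟩, h3⟩ := (((hz1.and hz2).filter_mono nhdsWithin_le_nhds).and (self_mem_nhdsWithin (s := Ioi (0 : ℝ)))).exists
  have h3' : 0 < ε := h3
  have h4 := le_hs hK u h1
  have h5 := le_hs hK (-u) h2
  rw [inner_add_left, inner_smul_left] at h4
  rw [inner_sub_left, inner_smul_left, inner_neg_right, inner_neg_right] at h5
  simp only [conj_trivial] at h4 h5
  have h6 : 0 < (inner ℝ u u : ℝ) := real_inner_self_pos.mpr hu
  have h7 : 0 < ε * (inner ℝ u u : ℝ) := mul_pos h3' h6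
  linarith

theorem ball_hs {n : ℕ} {K : Set (E n)} (hK : IsBody K) {r : ℝ} (hr : 0 ≤ r)
    (hrK : closedBall 0 r ⊆ K) {u : E n} (hu : ‖u‖ = 1) : r ≤ hs K u := by
  have h1 : r • u ∈ K := by
    apply hrK
    rw [mem_closedBall_zero_iff, norm_smul, hu, mul_one, Real.norm_of_nonneg hr]
  have h2 := le_hs hK u h1
  rw [inner_smul_left, real_inner_self_eq_norm_sq, hu] at h2
  simpa using h2

theorem nonempty_iff {n : ℕ} {K : Set (E n)} (hK : IsBody K) (u : E n) (t : ℝ) :
    (K ∩ hyper u t).Nonempty ↔ -hs K (-u) ≤ t ∧ t ≤ hs K u := by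
  constructor
  · rintro ⟨x, hx, ht⟩
    have ht' : inner ℝ x u = t := ht
    have h1 := le_hs hK u hx
    have h2 := le_hs hK (-u) hx
    rw [inner_neg_right] at h2
    constructor <;> linarith
  · rintro ⟨h1, h2⟩
    obtain ⟨p, hp, hpu⟩ := exists_hs hK u
    obtain ⟨q, hq, hqu⟩ := exists_hs hK (-u)
    have hc : ContinuousOn (fun x : E n => (inner ℝ x u : ℝ)) K := by fun_prop
    have h3 := hK.1.isPreconnected.intermediate_value hq hp hc
    rw [inner_neg_right] at hqu
    have h4 : t ∈ (fun x : E n => (inner ℝ x u : ℝ)) '' K := by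
      apply h3
      constructor
      · change inner ℝ q u ≤ t
        linarith
      · change t ≤ inner ℝ p u
        linarith
    obtain ⟨x, hx, hxt⟩ := h4
    exact ⟨x, hx, hxt⟩

private theorem Sec_inner {k : ℕ} {u : E (k + 1)} (hu : ‖u‖ = 1) {ι : E k →ₗᵢ[ℝ] E (k + 1)} (hι : IsDec u ι) (t : ℝ)
    (y : E k) : inner ℝ (t • u + ι y) u = t := by
  rw [inner_add_left, inner_smul_left, hι.1, real_inner_self_eq_norm_sq, hu]
  simp

private theorem Sec_ex {k : ℕ} {u : E (k + 1)} (hu : ‖u‖ = 1) {ι : E k →ₗᵢ[ℝ] E (k + 1)} (hι : IsDec u ι) {t : ℝ}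
    {x : E (k + 1)} (hx : inner ℝ x u = t) : ∃ y, t • u + ι y = x := by
  obtain ⟨y, hy⟩ := hι.2 (x - t • u) (by
    rw [inner_sub_left, inner_smul_left, hx, real_inner_self_eq_norm_sq, hu]
    simp)
  exact ⟨y, by rw [hy, add_sub_cancel]⟩

theorem surfSec_eq {k : ℕ} (K : Set (E (k + 1))) {u : E (k + 1)} (hu : ‖u‖ = 1)
    {ι : E k →ₗᵢ[ℝ] E (k + 1)} (hι : IsDec u ι) (t : ℝ) :
    surfSec K u t = μHE[k - 1] (frontier (secT K ι u t)) := by
  let f : E k → hyper u t := fun y => ⟨t • u + ι y, Sec_inner hu hι t y⟩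
  have hf : Isometry f := by
    refine Isometry.of_dist_eq fun y y' => ?_
    rw [Subtype.dist_eq]
    change dist (t • u + ι y) (t • u + ι y') = dist y y'
    rw [dist_add_left, ι.dist_map]
  have hg : ∀ x : hyper u t, ∃ y, f y = x := by
    intro x
    obtain ⟨y, hy⟩ := Sec_ex hu hι x.2
    exact ⟨y, Subtype.ext hy⟩
  choose g hg using hg
  let e : E k ≃ᵢ hyper u t := IsometryEquiv.mk' f g hg hf
  have h1 : (e.toHomeomorph : E k → hyper u t) ⁻¹' ((↑) ⁻¹' K : Set (hyper u t)) = secT K ι u t := rfl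
  have h2 : frontier ((↑) ⁻¹' K : Set (hyper u t)) = f '' (frontier (secT K ι u t)) := by
    rw [← h1, ← Homeomorph.preimage_frontier]
    have h3 : f '' ((e.toHomeomorph : E k → hyper u t) ⁻¹' frontier ((↑) ⁻¹' K : Set (hyper u t))) =
        frontier ((↑) ⁻¹' K : Set (hyper u t)) :=
      image_preimage_eq _ (fun x => ⟨g x, hg x⟩)
    exact h3.symm
  unfold surfSec
  rw [h2, hf.euclideanHausdorffMeasure_image]
  rfl

theorem sec_body {k : ℕ} {K : Set (E (k + 1))} (hK : IsBody K) {u : E (k + 1)} (hu : ‖u‖ = 1)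
    {ι : E k →ₗᵢ[ℝ] E (k + 1)} (hι : IsDec u ι) {t : ℝ} (h1 : -hs K (-u) < t)
    (h2 : t < hs K u) : IsBody (secT K ι u t) := by
  have hcont : Continuous fun y : E k => t • u + ι y := continuous_const.add ι.continuous
  refine ⟨?_, ?_, ?_⟩
  · intro y hy y' hy' a b ha hb hab
    change t • u + ι (a • y + b • y') ∈ K
    have h3 : t • u + ι (a • y + b • y') = a • (t • u + ι y) + b • (t • u + ι y') := by
      rw [map_add, map_smul, map_smul, smul_add, smul_add, add_add_add_comm, ← add_smul, hab, one_smul]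
    rw [h3]
    exact hK.1 hy hy' ha hb hab
  · refine isCompact_of_isClosed_isBounded (hK.2.1.isClosed.preimage hcont) ?_
    obtain ⟨R, hR⟩ := hK.2.1.isBounded.exists_norm_le
    refine isBounded_iff_forall_norm_le.mpr ⟨R + ‖t • u‖, fun y hy => ?_⟩
    have h3 := hR _ hy
    have h4 : ι y = (t • u + ι y) - t • u := by rw [add_sub_cancel_left]
    rw [← ι.norm_map, h4]
    exact (norm_sub_le _ _).trans (add_le_add_left h3 _)
  · obtain ⟨p, hp, hpu⟩ := exists_hs hK u
    obtain ⟨q, hq, hqu⟩ := exists_hs hK (-u)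
    rw [inner_neg_right] at hqu
    obtain ⟨z, hz⟩ := hK.2.2
    have key : ∃ x ∈ interior K, inner ℝ x u = t := by
      have hgen : ∀ w ∈ K, ∀ b : ℝ, 0 ≤ b → b < 1 → (1 - b) * inner ℝ z u + b * inner ℝ w u = t →
          ∃ x ∈ interior K, inner ℝ x u = t := by
        intro w hw b hb0 hb1 hb
        refine ⟨(1 - b) • z + b • w, hK.1.combo_interior_self_mem_interior hz hw (by linarith) hb0 (by ring), ?_⟩
        rw [inner_add_left, inner_smul_left, inner_smul_left]
        simpa using hb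
      rcases le_or_gt (inner ℝ z u) t with hc | hc
      · have hd : 0 < inner ℝ p u - (inner ℝ z u : ℝ) := by linarith
        refine hgen p hp ((t - inner ℝ z u) / (inner ℝ p u - inner ℝ z u)) (div_nonneg (by linarith) hd.le) ?_ ?_
        · rw [div_lt_one hd]
          linarith
        · field_simp
          ring
      · have hd : 0 < (inner ℝ z u : ℝ) - inner ℝ q u := by linarith
        refine hgen q hq ((inner ℝ z u - t) / (inner ℝ z u - inner ℝ q u)) (div_nonneg (by linarith) hd.le) ?_ ?_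
        · rw [div_lt_one hd]
          linarith
        · field_simp
          ring
    obtain ⟨x, hx, hxt⟩ := key
    obtain ⟨y, hy⟩ := Sec_ex hu hι hxt
    refine ⟨y, ?_⟩
    have h3 : (fun y : E k => t • u + ι y) ⁻¹' interior K ⊆ interior (secT K ι u t) :=
      interior_maximal (fun y' hy' => by
        have h4 : t • u + ι y' ∈ interior K := hy'
        have h5 : t • u + ι y' ∈ K := interior_subset h4
        exact h5) (isOpen_interior.preimage hcont)
    apply h3
    change t • u + ι y ∈ interior K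
    rwa [hy]

theorem secT_empty {k : ℕ} {K : Set (E (k + 1))} (hK : IsBody K) {u : E (k + 1)} (hu : ‖u‖ = 1)
    {ι : E k →ₗᵢ[ℝ] E (k + 1)} (hι : IsDec u ι) {t : ℝ} (h : t < -hs K (-u) ∨ hs K u < t) :
    secT K ι u t = ∅ := by
  rw [eq_empty_iff_forall_notMem]
  intro y hy
  have h1 := (nonempty_iff hK u t).mp ⟨t • u + ι y, hy, Sec_inner hu hι t y⟩
  rcases h with h | h
  · exact absurd h1.1 (not_le.mpr h)
  · exact absurd h1.2 (not_le.mpr h)

end Pool.Agent.MP_c8a077_gtP
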