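import Pool.Agent.Lib.MP_c8a077_gtP.C3
import Pool.Agent.Lib.MP_c8a077_gtP.Sec
import Pool.Agent.Lib.MP_c8a077_gtP.Bd

/-!
# JOB D1 (about 300 lines): a good direction `v` makes the support function special on `v^⊥`


PROOF of `flagEq_all`.  `pm v = map ι volume` (`pm_eq`, `exists_dec`), so `FlagEq m K v (ι x)` for a.e. `x : E k`; both sides of `FlagEq` are
continuous in `y` (`ft K v` is continuous by dominated convergence over the bounded set `TT K v`; `continuous_hs`, `continuous_Theta`), the set of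
good `x` is closed and dense (complement of a null set), hence everything; every `y ⊥ v` is `ι x`.
PROOF of `special`.  Let `y ⊥ v`, `V = (sh K v).toReal > 0`, `e = ek K y`, `ω = wk K y`; for `τ > 0`, `ek K (τ • y) = τ e`, `wk K (τ • y) = τ ω`
(`hs_smul`, and `-(τ • y) = τ • (-y)`).  `FlagEq` at `τ • y`: imaginary part `∫ x in TT K v, sin (τ ⟪x,y⟫) = V sin (τ e) Theta (τ ω)`, real part
`∫ x in TT K v, cos (τ ⟪x,y⟫) = V cos (τ e) Theta (τ ω)`.
Divide the first by `τ` and let `τ → 0+` (`|sin z - z| ≤ |z|^3`, bounded set; `theta_taylor`): `∫ x in TT K v, ⟪x,y⟫ = V e`.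
Subtract the second from `V`, divide by `τ²`: `(1/2) ∫ x in TT K v, ⟪x,y⟫² = V (e²/2 + β ω²)` (`|1 - cos z - z²/2| ≤ z^4`).
So on `v^⊥`: `ek K` is additive, and `β (wk K y)^2 = (2V)⁻¹ ∫ ⟪x,y⟫² - (ek K y)²/2` satisfies the identity (the integral of the square of
a linear function of `y`, and the square of an additive function satisfy it pointwise: `ring`).
-/

open MeasureTheory Set Metric Topology Filter
open Pool.Agent.MP_c8a077_gt
open scoped ENNReal NNReal

namespace Pool.Agent.MP_c8a077_gtP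

/-- additivity of `ek` and the quadratic identity for `wk ^ 2` at three vectors -/
def Spec {n : ℕ} (K : Set (E n)) (x y z : E n) : Prop :=
  ek K (x + y) = ek K x + ek K y ∧
  wk K (x + y + z) ^ 2 + wk K x ^ 2 + wk K y ^ 2 + wk K z ^ 2 =
    wk K (x + y) ^ 2 + wk K (y + z) ^ 2 + wk K (x + z) ^ 2

section D1aux

theorem D1_finite {n : ℕ} {K : Set (E n)} (hK : IsBody K) {v : E n} (hv : v ≠ 0) :
    IsFiniteMeasure ((volume : Measure (E n)).restrict (TT K v)) :=
  ⟨by rw [Measure.restrict_apply_univ]; exact (sh_ne_top hK hv).lt_top⟩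

theorem D1_integrableOn {n : ℕ} {K : Set (E n)} (hK : IsBody K) {v : E n} (hv : v ≠ 0)
    {G : Type*} [NormedAddCommGroup G] {f : E n → G} (hf : Continuous f) :
    Integrable f ((volume : Measure (E n)).restrict (TT K v)) := by
  obtain ⟨R, hR⟩ := hK.2.1.isBounded.subset_closedBall (0 : E n)
  have h1 : IntegrableOn f (closedBall (0 : E n) (R + 1)) volume :=
    hf.continuousOn.integrableOn_compact (isCompact_closedBall _ _)
  exact h1.mono_set (TT_subset hR hv)

theorem D1_cont_ft {n : ℕ} {K : Set (E n)} (hK : IsBody K) {v : E n} (hv : v ≠ 0) :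
    Continuous (ft K v) := by
  have := D1_finite hK hv
  unfold ft
  refine continuous_of_dominated (bound := fun _ => (1 : ℝ)) ?_ ?_ (integrable_const 1) ?_
  · intro x
    exact (Continuous.aestronglyMeasurable (by fun_prop))
  · intro x
    refine Filter.Eventually.of_forall fun a => ?_
    rw [mul_comm, Complex.norm_exp_ofReal_mul_I]
  · refine Filter.Eventually.of_forall fun a => ?_
    fun_prop

theorem D1_ek_smul {n : ℕ} {K : Set (E n)} (hK : IsBody K) (y : E n) {τ : ℝ} (hτ : 0 ≤ τ) :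
    ek K (τ • y) = τ * ek K y := by
  unfold ek
  rw [← smul_neg, hs_smul hK y hτ, hs_smul hK (-y) hτ]
  ring

theorem D1_wk_smul {n : ℕ} {K : Set (E n)} (hK : IsBody K) (y : E n) {τ : ℝ} (hτ : 0 ≤ τ) :
    wk K (τ • y) = τ * wk K y := by
  unfold wk
  rw [← smul_neg, hs_smul hK y hτ, hs_smul hK (-y) hτ]
  ring

theorem D1_cont_ek {n : ℕ} {K : Set (E n)} (hK : IsBody K) : Continuous (ek K) := by
  unfold ek
  have h := continuous_hs hK
  fun_prop

theorem D1_cont_wk {n : ℕ} {K : Set (E n)} (hK : IsBody K) : Continuous (wk K) := by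
  unfold wk
  have h := continuous_hs hK
  fun_prop

theorem D1_cos_sin {m n : ℕ} {K : Set (E n)} (hK : IsBody K) {v : E n} (hv : v ≠ 0) {y : E n}
    {τ : ℝ} (hτ : 0 ≤ τ) (h : FlagEq m K v (τ • y)) :
    (∫ x in TT K v, Real.cos (τ * inner ℝ x y)) =
      (sh K v).toReal * (Real.cos (τ * ek K y) * Theta m (τ * wk K y)) ∧
    (∫ x in TT K v, Real.sin (τ * inner ℝ x y)) =
      (sh K v).toReal * (Real.sin (τ * ek K y) * Theta m (τ * wk K y)) := by
  unfold FlagEq ft at h
  rw [D1_ek_smul hK y hτ, D1_wk_smul hK y hτ] at h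
  have hint : Integrable (fun x : E n => Complex.exp (Complex.I * ((inner ℝ x (τ • y) : ℝ) : ℂ)))
      ((volume : Measure (E n)).restrict (TT K v)) := D1_integrableOn hK hv (by fun_prop)
  have e1 : ∀ t : ℝ, Complex.exp (Complex.I * (t : ℂ)) =
      ((Real.cos t : ℝ) : ℂ) + ((Real.sin t : ℝ) : ℂ) * Complex.I := by
    intro t
    rw [mul_comm, Complex.exp_mul_I, Complex.ofReal_cos, Complex.ofReal_sin]
  have ere : ∀ t : ℝ, (Complex.exp (Complex.I * (t : ℂ))).re = Real.cos t := by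
    intro t
    rw [e1]
    simp only [Complex.add_re, Complex.ofReal_re, Complex.mul_re, Complex.I_re, Complex.ofReal_im,
      Complex.I_im]
    ring
  have eim : ∀ t : ℝ, (Complex.exp (Complex.I * (t : ℂ))).im = Real.sin t := by
    intro t
    rw [e1]
    simp only [Complex.add_im, Complex.ofReal_re, Complex.mul_im, Complex.I_re, Complex.ofReal_im,
      Complex.I_im]
    ring
  have hre := congrArg Complex.re h
  have him := congrArg Complex.im h
  have c1 := Complex.reCLM.integral_comp_comm hint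
  have c2 := Complex.imCLM.integral_comp_comm hint
  simp only [Complex.reCLM_apply, Complex.imCLM_apply] at c1 c2
  rw [← c1] at hre
  rw [← c2] at him
  simp only [ere, eim, inner_smul_right, Complex.mul_re, Complex.mul_im, Complex.ofReal_re,
    Complex.ofReal_im, mul_zero, zero_mul, sub_zero, add_zero, zero_add] at hre him
  exact ⟨hre, him⟩

theorem D1_sin_lim (a : ℝ) :
    Tendsto (fun τ : ℝ => Real.sin (τ * a) / τ) (𝓝[>] 0) (𝓝 a) := by
  have h : HasDerivAt (fun τ : ℝ => Real.sin (τ * a)) (Real.cos (0 * a) * (1 * a)) 0 :=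
    ((hasDerivAt_id (0 : ℝ)).mul_const a).sin
  rw [hasDerivAt_iff_tendsto_slope_zero] at h
  have h2 := h.mono_left (nhdsWithin_mono (0 : ℝ)
    (show Ioi (0 : ℝ) ⊆ {0}ᶜ from fun x hx => (ne_of_gt hx)))
  have e : Real.cos (0 * a) * (1 * a) = a := by
    rw [zero_mul, Real.cos_zero, one_mul, one_mul]
  rw [e] at h2
  refine h2.congr fun τ => ?_
  rw [zero_add, zero_mul, Real.sin_zero, sub_zero, smul_eq_mul]
  rw [div_eq_inv_mul]

theorem D1_cos_id (a τ : ℝ) :
    (1 - Real.cos (τ * a)) / τ ^ 2 = 2 * (Real.sin (τ * (a / 2)) / τ) ^ 2 := by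
  have h : Real.cos (τ * a) = 1 - 2 * Real.sin (τ * (a / 2)) ^ 2 := by
    have e : τ * a = 2 * (τ * (a / 2)) := by ring
    rw [e, Real.cos_two_mul, Real.cos_sq']
    ring
  rw [h, div_pow]
  ring

theorem D1_cos_lim (a : ℝ) :
    Tendsto (fun τ : ℝ => (1 - Real.cos (τ * a)) / τ ^ 2) (𝓝[>] 0) (𝓝 (a ^ 2 / 2)) := by
  have h := ((D1_sin_lim (a / 2)).pow 2).const_mul 2
  have e : (2 : ℝ) * (a / 2) ^ 2 = a ^ 2 / 2 := by ring
  rw [e] at h
  exact h.congr fun τ => (D1_cos_id a τ).symm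

theorem D1_sin_bound (a τ : ℝ) (hτ : 0 < τ) : |Real.sin (τ * a) / τ| ≤ |a| := by
  rw [abs_div, abs_of_pos hτ, div_le_iff₀ hτ]
  calc |Real.sin (τ * a)| ≤ |τ * a| := Real.abs_sin_le_abs
    _ = |a| * τ := by rw [abs_mul, abs_of_pos hτ, mul_comm]

theorem D1_cos_bound (a τ : ℝ) (hτ : 0 < τ) : |(1 - Real.cos (τ * a)) / τ ^ 2| ≤ a ^ 2 := by
  rw [D1_cos_id, abs_of_nonneg (by positivity)]
  have h := D1_sin_bound (a / 2) τ hτ
  have h2 : (Real.sin (τ * (a / 2)) / τ) ^ 2 ≤ (a / 2) ^ 2 := sq_le_sq.mpr h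
  nlinarith [sq_nonneg a]

theorem D1_lim1 {n : ℕ} {K : Set (E n)} (hK : IsBody K) {v : E n} (hv : v ≠ 0) (y : E n) :
    Tendsto (fun τ : ℝ => (∫ x in TT K v, Real.sin (τ * inner ℝ x y)) / τ) (𝓝[>] 0)
      (𝓝 (∫ x in TT K v, inner ℝ x y)) := by
  have h : Tendsto (fun τ : ℝ => ∫ x in TT K v, Real.sin (τ * inner ℝ x y) / τ) (𝓝[>] 0)
      (𝓝 (∫ x in TT K v, inner ℝ x y)) := by
    refine tendsto_integral_filter_of_dominated_convergence (fun x => |inner ℝ x y|) ?_ ?_ ?_ ?_
    · exact Filter.Eventually.of_forall fun τ => Continuous.aestronglyMeasurable (by fun_prop)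
    · filter_upwards [self_mem_nhdsWithin] with τ hτ
      exact Filter.Eventually.of_forall fun x => by
        rw [Real.norm_eq_abs]
        exact D1_sin_bound _ τ hτ
    · exact D1_integrableOn hK hv (by fun_prop)
    · exact Filter.Eventually.of_forall fun x => D1_sin_lim _
  refine h.congr fun τ => ?_
  rw [integral_div]

theorem D1_lim2 {n : ℕ} {K : Set (E n)} (hK : IsBody K) {v : E n} (hv : v ≠ 0) (y : E n) :
    Tendsto (fun τ : ℝ => ((sh K v).toReal - ∫ x in TT K v, Real.cos (τ * inner ℝ x y)) / τ ^ 2)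
      (𝓝[>] 0) (𝓝 ((∫ x in TT K v, (inner ℝ x y) ^ 2) / 2)) := by
  have := D1_finite hK hv
  have h : Tendsto (fun τ : ℝ => ∫ x in TT K v, (1 - Real.cos (τ * inner ℝ x y)) / τ ^ 2)
      (𝓝[>] 0) (𝓝 (∫ x in TT K v, (inner ℝ x y) ^ 2 / 2)) := by
    refine tendsto_integral_filter_of_dominated_convergence (fun x => (inner ℝ x y) ^ 2) ?_ ?_ ?_ ?_
    · exact Filter.Eventually.of_forall fun τ => Continuous.aestronglyMeasurable (by fun_prop)
    · filter_upwards [self_mem_nhdsWithin] with τ hτ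
      exact Filter.Eventually.of_forall fun x => by
        rw [Real.norm_eq_abs]
        exact D1_cos_bound _ τ hτ
    · exact D1_integrableOn hK hv (by fun_prop)
    · exact Filter.Eventually.of_forall fun x => D1_cos_lim _
  rw [integral_div] at h
  refine h.congr fun τ => ?_
  rw [integral_div, integral_sub (integrable_const 1) (D1_integrableOn hK hv (by fun_prop))]
  congr 2
  rw [integral_const, smul_eq_mul, mul_one, Measure.real, Measure.restrict_apply_univ]
  rfl

theorem D1_theta_lim {m : ℕ} {β : ℝ} (h0 : Theta m 0 = 1)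
    (hβ : Tendsto (fun w => (1 - Theta m w) / w ^ 2) (𝓝[≠] 0) (𝓝 β)) (ω : ℝ) :
    Tendsto (fun τ : ℝ => (1 - Theta m (τ * ω)) / τ ^ 2) (𝓝[>] 0) (𝓝 (β * ω ^ 2)) := by
  by_cases hω : ω = 0
  · subst hω
    simp only [mul_zero, h0, sub_self, zero_div, ne_eq, OfNat.ofNat_ne_zero, not_false_eq_true,
      zero_pow]
    exact tendsto_const_nhds
  · have h1 : Tendsto (fun τ : ℝ => τ * ω) (𝓝[>] 0) (𝓝[≠] 0) := by
      rw [tendsto_nhdsWithin_iff]
      refine ⟨?_, ?_⟩
      · have : Tendsto (fun τ : ℝ => τ * ω) (𝓝 0) (𝓝 (0 * ω)) :=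
          (continuous_id.mul continuous_const).tendsto 0
        rw [zero_mul] at this
        exact this.mono_left nhdsWithin_le_nhds
      · filter_upwards [self_mem_nhdsWithin] with τ hτ
        exact mul_ne_zero (ne_of_gt hτ) hω
    have h2 := (hβ.comp h1).mul_const (ω ^ 2)
    refine h2.congr' ?_
    filter_upwards [self_mem_nhdsWithin] with τ hτ
    have hτ' : τ ≠ 0 := ne_of_gt hτ
    simp only [Function.comp_apply]
    rw [mul_pow]
    field_simp

theorem D1_moments {m k : ℕ} {K : Set (E (k + 1))} (hK : IsBody K) {v : E (k + 1)} (hv : v ≠ 0)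
    (h : ∀ y, inner ℝ y v = (0 : ℝ) → FlagEq m K v y) {β : ℝ} (h0 : Theta m 0 = 1)
    (hβ : Tendsto (fun w => (1 - Theta m w) / w ^ 2) (𝓝[≠] 0) (𝓝 β)) {y : E (k + 1)}
    (hy : inner ℝ y v = (0 : ℝ)) :
    (∫ x in TT K v, inner ℝ x y) = (sh K v).toReal * ek K y ∧
    (∫ x in TT K v, (inner ℝ x y) ^ 2) =
      (sh K v).toReal * ek K y ^ 2 + 2 * (sh K v).toReal * (β * wk K y ^ 2) := by
  have hfl : ∀ τ : ℝ, 0 ≤ τ → FlagEq m K v (τ • y) := by
    intro τ _
    apply h
    rw [inner_smul_left, hy, mul_zero]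
  have hθ := D1_theta_lim h0 hβ (wk K y)
  have hθ1 : Tendsto (fun τ : ℝ => Theta m (τ * wk K y)) (𝓝[>] 0) (𝓝 1) := by
    have : Tendsto (fun τ : ℝ => Theta m (τ * wk K y)) (𝓝 0) (𝓝 (Theta m (0 * wk K y))) :=
      ((continuous_Theta m).comp (continuous_id.mul continuous_const)).tendsto 0
    rw [zero_mul, h0] at this
    exact this.mono_left nhdsWithin_le_nhds
  have hcos1 : Tendsto (fun τ : ℝ => Real.cos (τ * ek K y)) (𝓝[>] 0) (𝓝 1) := by
    have : Tendsto (fun τ : ℝ => Real.cos (τ * ek K y)) (𝓝 0) (𝓝 (Real.cos (0 * ek K y))) :=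
      (Real.continuous_cos.comp (continuous_id.mul continuous_const)).tendsto 0
    rw [zero_mul, Real.cos_zero] at this
    exact this.mono_left nhdsWithin_le_nhds
  constructor
  · refine tendsto_nhds_unique (D1_lim1 hK hv y) ?_
    have h1 := ((D1_sin_lim (ek K y)).mul hθ1).const_mul (sh K v).toReal
    rw [mul_one] at h1
    refine h1.congr' ?_
    filter_upwards [self_mem_nhdsWithin] with τ hτ
    rw [(D1_cos_sin hK hv (le_of_lt hτ) (hfl τ (le_of_lt hτ))).2]
    ring
  · have h2 : Tendsto (fun τ : ℝ => ((sh K v).toReal -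
        ∫ x in TT K v, Real.cos (τ * inner ℝ x y)) / τ ^ 2) (𝓝[>] 0)
        (𝓝 ((sh K v).toReal * (ek K y ^ 2 / 2 + 1 * (β * wk K y ^ 2)))) := by
      have h3 := ((D1_cos_lim (ek K y)).add (hcos1.mul hθ)).const_mul (sh K v).toReal
      refine h3.congr' ?_
      filter_upwards [self_mem_nhdsWithin] with τ hτ
      rw [(D1_cos_sin hK hv (le_of_lt hτ) (hfl τ (le_of_lt hτ))).1]
      ring
    have h4 := tendsto_nhds_unique (D1_lim2 hK hv y) h2
    linarith

theorem D1_add3 {α : Type*} [MeasurableSpace α] {μ : Measure α} {f g l : α → ℝ}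
    (hf : Integrable f μ) (hg : Integrable g μ) (hl : Integrable l μ) :
    (∫ t, (f t + g t + l t) ∂μ) = (∫ t, f t ∂μ) + (∫ t, g t ∂μ) + ∫ t, l t ∂μ := by
  rw [integral_add (f := fun t => f t + g t) (hf.add hg) hl, integral_add hf hg]

theorem D1_add4 {α : Type*} [MeasurableSpace α] {μ : Measure α} {f g l r : α → ℝ}
    (hf : Integrable f μ) (hg : Integrable g μ) (hl : Integrable l μ) (hr : Integrable r μ) :
    (∫ t, (f t + g t + l t + r t) ∂μ) =
      (∫ t, f t ∂μ) + (∫ t, g t ∂μ) + (∫ t, l t ∂μ) + ∫ t, r t ∂μ := by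
  rw [integral_add (f := fun t => f t + g t + l t) ((hf.add hg).add hl) hr, D1_add3 hf hg hl]

end D1aux

theorem flagEq_all {m k : ℕ} {K : Set (E (k + 1))} (hK : IsBody K) {v : E (k + 1)} (hv : v ≠ 0)
    (h : ∀ᵐ y ∂(pm v), FlagEq m K v y) : ∀ y, inner ℝ y v = (0 : ℝ) → FlagEq m K v y := by
  obtain ⟨ι, hι⟩ := exists_dec hv
  rw [pm_eq hv hι] at h
  have h1 : ∀ᵐ x : E k, FlagEq m K v (ι x) :=
    ae_of_ae_map ι.continuous.measurable.aemeasurable h
  have c1 : Continuous (fun x : E k => ft K v (ι x)) := (D1_cont_ft hK hv).comp ι.continuous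
  have c2 : Continuous (fun x : E k => ((sh K v).toReal : ℂ) *
      (Complex.exp (Complex.I * ((ek K (ι x) : ℝ) : ℂ)) * ((Theta m (wk K (ι x)) : ℝ) : ℂ))) := by
    have a1 : Continuous (fun x : E k => ((ek K (ι x) : ℝ) : ℂ)) :=
      Complex.continuous_ofReal.comp ((D1_cont_ek hK).comp ι.continuous)
    have a2 : Continuous (fun x : E k => ((Theta m (wk K (ι x)) : ℝ) : ℂ)) :=
      Complex.continuous_ofReal.comp ((continuous_Theta m).comp
        ((D1_cont_wk hK).comp ι.continuous))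
    exact continuous_const.mul ((Complex.continuous_exp.comp (continuous_const.mul a1)).mul a2)
  have h2 := (Continuous.ae_eq_iff_eq (volume : Measure (E k)) c1 c2).mp h1
  intro y hy
  obtain ⟨x, rfl⟩ := hι.2 y hy
  exact congrFun h2 x

theorem special {m k : ℕ} {K : Set (E (k + 1))} (hK : IsBody K) {v : E (k + 1)} (hv : v ≠ 0)
    (h : ∀ y, inner ℝ y v = (0 : ℝ) → FlagEq m K v y) {x y z : E (k + 1)}
    (hx : inner ℝ x v = (0 : ℝ)) (hy : inner ℝ y v = (0 : ℝ)) (hz : inner ℝ z v = (0 : ℝ)) :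
    Spec K x y z := by
  obtain ⟨β, hβ0, hT0, hβ⟩ := theta_taylor m
  have hV : 0 < (sh K v).toReal := ENNReal.toReal_pos (sh_pos hK hv).ne' (sh_ne_top hK hv)
  have hm := fun (w : E (k + 1)) (hw : inner ℝ w v = (0 : ℝ)) => D1_moments hK hv h hT0 hβ hw
  have add_perp : ∀ {a b : E (k + 1)}, inner ℝ a v = (0 : ℝ) → inner ℝ b v = (0 : ℝ) →
      inner ℝ (a + b) v = (0 : ℝ) := by
    intro a b ha hb
    rw [inner_add_left, ha, hb, add_zero]
  have hek : ∀ a b : E (k + 1), inner ℝ a v = (0 : ℝ) → inner ℝ b v = (0 : ℝ) →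
      ek K (a + b) = ek K a + ek K b := by
    intro a b ha hb
    have e1 := (hm _ (add_perp ha hb)).1
    have e2 := (hm _ ha).1
    have e3 := (hm _ hb).1
    have e4 : (∫ t in TT K v, inner ℝ t (a + b)) =
        (∫ t in TT K v, inner ℝ t a) + ∫ t in TT K v, inner ℝ t b := by
      rw [← integral_add (D1_integrableOn hK hv (by fun_prop)) (D1_integrableOn hK hv (by fun_prop))]
      refine integral_congr_ae (Filter.Eventually.of_forall fun t => ?_)
      exact inner_add_right t a b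
    rw [e1, e2, e3, ← mul_add] at e4
    exact mul_left_cancel₀ hV.ne' e4
  refine ⟨hek x y hx hy, ?_⟩
  have hxy := add_perp hx hy
  have hyz := add_perp hy hz
  have hxz := add_perp hx hz
  have hxyz := add_perp hxy hz
  have q : ∀ w : E (k + 1), Integrable (fun t : E (k + 1) => (inner ℝ t w : ℝ) ^ 2)
      ((volume : Measure (E (k + 1))).restrict (TT K v)) := fun w =>
    D1_integrableOn hK hv (by fun_prop)
  have I1 : (∫ t in TT K v, (inner ℝ t (x + y + z)) ^ 2) + (∫ t in TT K v, (inner ℝ t x) ^ 2) +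
      (∫ t in TT K v, (inner ℝ t y) ^ 2) + (∫ t in TT K v, (inner ℝ t z) ^ 2) =
      (∫ t in TT K v, (inner ℝ t (x + y)) ^ 2) + (∫ t in TT K v, (inner ℝ t (y + z)) ^ 2) +
      (∫ t in TT K v, (inner ℝ t (x + z)) ^ 2) := by
    rw [← D1_add4 (q _) (q _) (q _) (q _), ← D1_add3 (q _) (q _) (q _)]
    refine integral_congr_ae (Filter.Eventually.of_forall fun t => ?_)
    simp only [inner_add_right]
    ring
  rw [(hm _ hxyz).2, (hm _ hx).2, (hm _ hy).2, (hm _ hz).2, (hm _ hxy).2, (hm _ hyz).2,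
    (hm _ hxz).2, hek _ _ hxy hz, hek _ _ hx hy, hek _ _ hy hz, hek _ _ hx hz] at I1
  have hc : 2 * (sh K v).toReal * β ≠ 0 := by positivity
  apply mul_left_cancel₀ hc
  linear_combination I1

end Pool.Agent.MP_c8a077_gtP
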