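import Pool.Agent.Lib.MP_c8a077_gtP.D1

/-!
# JOB D2 (about 100 lines): from almost all hyperplanes to the whole space

(All imports may still contain sorry.)
PROOF.  Let `x y z : E (k+1)`, `k ≥ 3`.  The span of `x, y, z` has dimension at most 3 `< k + 1`, so there is `v₀ ≠ 0` orthogonal to all
three.  The set of good `v` (complement of a null set) is dense, so there is a sequence of good `v_i → v₀` (`v_i ≠ 0`).  `pr v_i x → pr v₀ x = x`
(`v ↦ pr v x` is continuous at `v₀ ≠ 0`), and `⟪pr v_i x, v_i⟫ = 0`.  `Spec K (pr v_i x) (pr v_i y) (pr v_i z)` passes to the limit by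
`continuous_hs` (`ek`, `wk` are continuous; `pr v_i x + pr v_i y → x + y`).
-/

open MeasureTheory Set Metric Topology Filter
open Pool.Agent.MP_c8a077_gt
open scoped ENNReal NNReal

namespace Pool.Agent.MP_c8a077_gtP

theorem D2_pr_inner {n : ℕ} (v x : E n) : inner ℝ (pr v x) v = (0 : ℝ) := by
  unfold pr
  rcases eq_or_ne v 0 with rfl | hv
  · exact inner_zero_right _
  · rw [inner_sub_left, inner_smul_left, real_inner_self_eq_norm_sq]
    have h1 : ‖v‖ ^ 2 ≠ 0 := pow_ne_zero 2 (norm_ne_zero_iff.2 hv)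
    have h2 : (starRingEnd ℝ) (inner ℝ x v / ‖v‖ ^ 2) = inner ℝ x v / ‖v‖ ^ 2 := rfl
    rw [h2, div_mul_cancel₀ _ h1, sub_self]

theorem D2_pr_of {n : ℕ} {v x : E n} (h : inner ℝ x v = (0 : ℝ)) : pr v x = x := by
  unfold pr
  rw [h, zero_div, zero_smul, sub_zero]

theorem D2_pr_tendsto {n : ℕ} {v₀ : E n} (hv : v₀ ≠ 0) (x : E n) {v : ℕ → E n} (h : Tendsto v atTop (𝓝 v₀)) :
    Tendsto (fun i => pr (v i) x) atTop (𝓝 (pr v₀ x)) := by
  unfold pr
  have h1 : Tendsto (fun i => (inner ℝ x (v i) : ℝ)) atTop (𝓝 (inner ℝ x v₀)) :=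
    tendsto_const_nhds.inner h
  have h2 : Tendsto (fun i => ‖v i‖ ^ 2) atTop (𝓝 (‖v₀‖ ^ 2)) := (h.norm).pow 2
  exact tendsto_const_nhds.sub ((h1.div h2 (pow_ne_zero 2 (norm_ne_zero_iff.2 hv))).smul h)

theorem D2_exists_orth {k : ℕ} (hk : 3 ≤ k) (x y z : E (k + 1)) :
    ∃ v : E (k + 1), v ≠ 0 ∧ inner ℝ x v = (0 : ℝ) ∧ inner ℝ y v = (0 : ℝ) ∧ inner ℝ z v = (0 : ℝ) := by
  let f : E (k + 1) →ₗ[ℝ] (Fin 3 → ℝ) :=
    LinearMap.pi ![innerₗ (E (k + 1)) x, innerₗ (E (k + 1)) y, innerₗ (E (k + 1)) z]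
  have h1 : LinearMap.ker f ≠ ⊥ := by
    refine LinearMap.ker_ne_bot_of_finrank_lt ?_
    have h2 : Module.finrank ℝ (Fin 3 → ℝ) = 3 := by simp
    have h3 : Module.finrank ℝ (E (k + 1)) = k + 1 := by simp [E]
    rw [h2, h3]
    omega
  obtain ⟨v, hv, hv0⟩ := (Submodule.ne_bot_iff _).1 h1
  rw [LinearMap.mem_ker] at hv
  exact ⟨v, hv0, congrFun hv 0, congrFun hv 1, congrFun hv 2⟩

theorem spec_all {k : ℕ} (hk : 3 ≤ k) {K : Set (E (k + 1))} (hK : IsBody K)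
    (h : ∀ᵐ v : E (k + 1), ∀ x y z : E (k + 1), inner ℝ x v = (0 : ℝ) →
      inner ℝ y v = (0 : ℝ) → inner ℝ z v = (0 : ℝ) → Spec K x y z) (x y z : E (k + 1)) :
    Spec K x y z := by
  obtain ⟨v₀, hv₀, hx, hy, hz⟩ := D2_exists_orth hk x y z
  have hd := Measure.dense_of_ae h
  obtain ⟨v, hv1, hv2⟩ := mem_closure_iff_seq_limit.1 (hd v₀)
  have hS : ∀ i, Spec K (pr (v i) x) (pr (v i) y) (pr (v i) z) := fun i =>
    hv1 i _ _ _ (D2_pr_inner _ _) (D2_pr_inner _ _) (D2_pr_inner _ _)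
  have tx := D2_pr_tendsto hv₀ x hv2
  have ty := D2_pr_tendsto hv₀ y hv2
  have tz := D2_pr_tendsto hv₀ z hv2
  rw [D2_pr_of hx] at tx
  rw [D2_pr_of hy] at ty
  rw [D2_pr_of hz] at tz
  have hc := continuous_hs hK
  have he : Continuous (ek K) := by
    unfold ek
    exact (hc.sub (hc.comp continuous_neg)).div_const 2
  have hw : Continuous (wk K) := by
    unfold wk
    exact (hc.add (hc.comp continuous_neg)).div_const 2
  have te : ∀ {a : ℕ → E (k + 1)} {b : E (k + 1)}, Tendsto a atTop (𝓝 b) →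
      Tendsto (fun i => ek K (a i)) atTop (𝓝 (ek K b)) := fun ha => (he.tendsto _).comp ha
  have tw : ∀ {a : ℕ → E (k + 1)} {b : E (k + 1)}, Tendsto a atTop (𝓝 b) →
      Tendsto (fun i => wk K (a i) ^ 2) atTop (𝓝 (wk K b ^ 2)) := fun ha => ((hw.tendsto _).comp ha).pow 2
  refine ⟨tendsto_nhds_unique (te (tx.add ty)) ?_, tendsto_nhds_unique
    ((((tw ((tx.add ty).add tz)).add (tw tx)).add (tw ty)).add (tw tz)) ?_⟩
  · have h1 := (te tx).add (te ty)
    have h2 : (fun i => ek K (pr (v i) x) + ek K (pr (v i) y)) = fun i => ek K (pr (v i) x + pr (v i) y) :=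
      funext fun i => ((hS i).1).symm
    rw [h2] at h1
    exact h1
  · have h1 := ((tw (tx.add ty)).add (tw (ty.add tz))).add (tw (tx.add tz))
    have h2 : (fun i => wk K (pr (v i) x + pr (v i) y) ^ 2 + wk K (pr (v i) y + pr (v i) z) ^ 2 +
        wk K (pr (v i) x + pr (v i) z) ^ 2) = fun i => wk K (pr (v i) x + pr (v i) y + pr (v i) z) ^ 2 +
        wk K (pr (v i) x) ^ 2 + wk K (pr (v i) y) ^ 2 + wk K (pr (v i) z) ^ 2 :=
      funext fun i => ((hS i).2).symm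
    rw [h2] at h1
    exact h1

end Pool.Agent.MP_c8a077_gtP
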