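import Pool.Agent.Lib.MP_c8a077_gtP.D1

/-!
# JOB D3 (about 250 lines): the body with this support function is an ellipsoid

(All imports may still contain sorry; you need `hs_smul`, `continuous_hs`, `le_hs`, `exists_hs`, `neg_hs_lt`.)
PROOF.  `e = ek K` is additive (`Spec`), `e (r • x) = r e x` for `r ≥ 0` (`hs_smul`) and `e (-x) = -e x`; so it is a linear functional on `E n`,
`e y = ⟪c, y⟫` (Riesz, `InnerProductSpace.toDual`, or coordinates).  `q = wk K ^ 2`: `q (r • x) = r² q x`, `q` is continuous, `q x > 0` for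
`x ≠ 0` (`neg_hs_lt`).  `B x y = (q (x + y) - q x - q y)/2` is symmetric, additive in `x` (this is the identity in `Spec`), continuous, so
`B (r • x) y = r * B x y` (`AddMonoidHom.toRealLinearMap`/`map_real_smul` for continuous additive maps), `B x x = q x` (`q (2x) = 4 q x`).
So `B` is an inner product on `ℝⁿ`: with `InnerProductSpace.Core` on a type synonym, or with a positive definite matrix
(`Matrix.PosDef`, square root / Cholesky), or `LinearMap.BilinForm` with an orthonormal basis, get a linear equivalence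
`T : E n ≃ₗ[ℝ] E n` with `‖T y‖ ^ 2 = q y`.  Then `hs K y = e y + wk K y = ⟪c, y⟫ + ‖T y‖`.
Let `L = adjoint of T`, a linear equivalence, `K' = (fun x => c + L x) '' closedBall 0 1`: `⟪c + L x, y⟫ = ⟪c,y⟫ + ⟪x, T y⟫`.
`K' ⊆ K`: if `p = c + L x ∉ K` then separation (`geometric_hahn_banach_closed_point`, `K` closed convex) gives `y` with `hs K y < ⟪p,y⟫`
(`exists_hs`), but `⟪p,y⟫ = ⟪c,y⟫ + ⟪x,T y⟫ ≤ ⟪c,y⟫ + ‖T y‖ = hs K y`.  `K ⊆ K'`: `K'` is compact convex; if `p ∈ K`, `p ∉ K'`, then there is `y`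
with `⟪p', y⟫ < ⟪p, y⟫` for all `p' ∈ K'`; take `x = T y/‖T y‖` (or `y = 0` impossible): `hs K y = ⟪c,y⟫ + ‖T y‖ < ⟪p,y⟫ ≤ hs K y`, a contradiction.
-/

open MeasureTheory Set Metric Topology Filter
open Pool.Agent.MP_c8a077_gt
open scoped ENNReal NNReal

namespace Pool.Agent.MP_c8a077_gtP

/-- an inner product on a finite-dimensional space in coordinates -/
private theorem d3_core {V : Type*} [AddCommGroup V] [Module ℝ V] [FiniteDimensional ℝ V] {n : ℕ}
    (hn : Module.finrank ℝ V = n) (B : V → V → ℝ) (hsymm : ∀ x y, B x y = B y x)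
    (hadd : ∀ x y z, B (x + y) z = B x z + B y z) (hsmul : ∀ (r : ℝ) x y, B (r • x) y = r * B x y)
    (hpos : ∀ x, x ≠ 0 → 0 < B x x) :
    ∃ T : V ≃ₗ[ℝ] EuclideanSpace ℝ (Fin n), ∀ y, ‖T y‖ ^ 2 = B y y := by
  have h0 : ∀ y, B 0 y = 0 := by
    intro y
    have h := hsmul 0 0 y
    rwa [zero_smul, zero_mul] at h
  let core : InnerProductSpace.Core ℝ V :=
    { inner := B
      conj_inner_symm := fun x y => by
        simpa using hsymm y x
      re_inner_nonneg := fun x => by
        by_cases hx : x = 0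
        · subst hx
          simp [h0]
        · simpa using (hpos x hx).le
      add_left := fun x y z => hadd x y z
      smul_left := fun x y r => by
        simpa using hsmul r x y
      definite := fun x hx => by
        by_contra h
        exact (hpos x h).ne' hx }
  let _ : NormedAddCommGroup V := core.toNormedAddCommGroup
  let _ : InnerProductSpace ℝ V := InnerProductSpace.ofCore core.toCore
  subst hn
  refine ⟨(stdOrthonormalBasis ℝ V).repr.toLinearEquiv, fun y => ?_⟩
  have h1 : ‖(stdOrthonormalBasis ℝ V).repr y‖ = ‖y‖ := LinearIsometryEquiv.norm_map _ _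
  have h2 : ‖(stdOrthonormalBasis ℝ V).repr.toLinearEquiv y‖ = ‖y‖ := h1
  rw [h2, ← real_inner_self_eq_norm_sq y]
  rfl

theorem ellipsoid_of_spec {n : ℕ} {K : Set (E n)} (hK : IsBody K)
    (h : ∀ x y z : E n, Spec K x y z) : IsEllipsoid K := by
  have hcont := continuous_hs hK
  have hcont' : Continuous fun y => hs K (-y) := hcont.comp continuous_neg
  have hce : Continuous (ek K) := by
    have h1 : Continuous fun y => (hs K y - hs K (-y)) / 2 := (hcont.sub hcont').div_const 2
    exact h1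
  have hcw : Continuous (wk K) := by
    have h1 : Continuous fun y => (hs K y + hs K (-y)) / 2 := (hcont.add hcont').div_const 2
    exact h1
  -- the linear part
  let ea : E n →+ ℝ := AddMonoidHom.mk' (ek K) fun x y => (h x y 0).1
  let el : E n →L[ℝ] ℝ := ea.toRealLinearMap hce
  obtain ⟨c, hc⟩ : ∃ c : E n, c = (InnerProductSpace.toDual ℝ (E n)).symm el := ⟨_, rfl⟩
  have hek : ∀ y, inner ℝ c y = ek K y := by
    intro y
    rw [hc, InnerProductSpace.toDual_symm_apply]
    rfl
  -- the quadratic part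
  have hq : ∀ x y z : E n, wk K (x + y + z) ^ 2 + wk K x ^ 2 + wk K y ^ 2 + wk K z ^ 2 =
    wk K (x + y) ^ 2 + wk K (y + z) ^ 2 + wk K (x + z) ^ 2 := fun x y z => (h x y z).2
  have hs0 : hs K 0 = 0 := by
    have h1 := hs_smul hK (0 : E n) (le_refl (0 : ℝ))
    rwa [zero_smul, zero_mul] at h1
  have hw0 : wk K 0 = 0 := by
    unfold wk
    rw [neg_zero, hs0]
    norm_num
  have hwpos : ∀ y, y ≠ 0 → 0 < wk K y := by
    intro y hy
    have h1 := neg_hs_lt hK hy
    unfold wk
    linarith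
  have hwnn : ∀ y, 0 ≤ wk K y := by
    intro y
    by_cases hy : y = 0
    · rw [hy, hw0]
    · exact (hwpos y hy).le
  have hw2 : ∀ x, wk K ((2 : ℝ) • x) = 2 * wk K x := by
    intro x
    unfold wk
    have h1 : -((2 : ℝ) • x) = (2 : ℝ) • (-x) := by rw [smul_neg]
    rw [h1, hs_smul hK x zero_le_two, hs_smul hK (-x) zero_le_two]
    ring
  let B : E n → E n → ℝ := fun x y => (wk K (x + y) ^ 2 - wk K x ^ 2 - wk K y ^ 2) / 2
  have hBadd : ∀ x y z, B (x + y) z = B x z + B y z := by
    intro x y z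
    have h1 := hq x y z
    show (wk K (x + y + z) ^ 2 - wk K (x + y) ^ 2 - wk K z ^ 2) / 2 =
      (wk K (x + z) ^ 2 - wk K x ^ 2 - wk K z ^ 2) / 2 + (wk K (y + z) ^ 2 - wk K y ^ 2 - wk K z ^ 2) / 2
    linarith
  have hBsymm : ∀ x y, B x y = B y x := by
    intro x y
    show (wk K (x + y) ^ 2 - wk K x ^ 2 - wk K y ^ 2) / 2 = (wk K (y + x) ^ 2 - wk K y ^ 2 - wk K x ^ 2) / 2
    rw [add_comm y x]
    ring
  have hBcont : ∀ y, Continuous fun x => B x y := by
    intro y
    have h1 : Continuous fun x : E n => (wk K (x + y) ^ 2 - wk K x ^ 2 - wk K y ^ 2) / 2 :=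
      (((hcw.comp (continuous_id.add continuous_const)).pow 2).sub (hcw.pow 2)).sub continuous_const |>.div_const 2
    exact h1
  have hBsmul : ∀ (r : ℝ) x y, B (r • x) y = r * B x y := by
    intro r x y
    let f : E n →+ ℝ := AddMonoidHom.mk' (fun x => B x y) fun a b => hBadd a b y
    have h1 := (f.toRealLinearMap (hBcont y)).map_smul r x
    exact h1
  have hBself : ∀ x, B x x = wk K x ^ 2 := by
    intro x
    show (wk K (x + x) ^ 2 - wk K x ^ 2 - wk K x ^ 2) / 2 = wk K x ^ 2
    rw [← two_smul ℝ x, hw2]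
    ring
  obtain ⟨T, hT⟩ := d3_core (V := E n) (n := n) (by simp) B hBsymm hBadd hBsmul fun x hx => by
    rw [hBself]
    exact pow_pos (hwpos x hx) 2
  have hTw : ∀ y, ‖T y‖ = wk K y := by
    intro y
    have h1 := hT y
    rw [hBself] at h1
    exact (pow_left_inj₀ (norm_nonneg _) (hwnn y) two_ne_zero).1 h1
  have hhs : ∀ y, hs K y = inner ℝ c y + ‖T y‖ := by
    intro y
    rw [hek, hTw]
    unfold ek wk
    ring
  -- the adjoint
  obtain ⟨L0, hL0⟩ : ∃ L0 : E n →ₗ[ℝ] E n, ∀ x y, inner ℝ (L0 x) y = inner ℝ x (T y) :=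
    ⟨LinearMap.adjoint (T : E n →ₗ[ℝ] E n), fun x y => LinearMap.adjoint_inner_left _ _ _⟩
  have hinj : Function.Injective L0 := by
    rw [injective_iff_map_eq_zero]
    intro x hx
    have h1 := hL0 x (T.symm x)
    rw [hx, inner_zero_left, LinearEquiv.apply_symm_apply] at h1
    exact inner_self_eq_zero.1 h1.symm
  obtain ⟨L, hL⟩ : ∃ L : E n ≃ₗ[ℝ] E n, ∀ x, L x = L0 x :=
    ⟨LinearEquiv.ofInjectiveEndo L0 hinj, fun x => rfl⟩
  have hLin : ∀ x y, inner ℝ (c + L x) y = inner ℝ c y + inner ℝ x (T y) := by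
    intro x y
    rw [inner_add_left, hL, hL0]
  refine ⟨L, c, Subset.antisymm ?_ ?_⟩
  · intro p hp
    by_contra hpn
    have hLc : Continuous fun x => c + L x := by
      have h1 : Continuous L := (L : E n →ₗ[ℝ] E n).continuous_of_finiteDimensional
      exact continuous_const.add h1
    have hK'c : IsCompact ((fun x => c + L x) '' closedBall (0 : E n) 1) :=
      (isCompact_closedBall 0 1).image hLc
    have hK'v : Convex ℝ ((fun x => c + L x) '' closedBall (0 : E n) 1) := by
      have h1 : (fun x => c + L x) '' closedBall (0 : E n) 1 =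
          (fun x => c + x) '' ((L : E n →ₗ[ℝ] E n) '' closedBall (0 : E n) 1) := by
        rw [image_image]
        rfl
      rw [h1]
      exact ((convex_closedBall (0 : E n) 1).linear_image (L : E n →ₗ[ℝ] E n)).translate c
    obtain ⟨f, u, hf1, hf2⟩ := geometric_hahn_banach_closed_point hK'v hK'c.isClosed hpn
    obtain ⟨y, hy⟩ : ∃ y : E n, ∀ x, f x = inner ℝ x y :=
      ⟨(InnerProductSpace.toDual ℝ (E n)).symm f, fun x => by
        rw [real_inner_comm, InnerProductSpace.toDual_symm_apply]⟩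
    have h1 := hf1 (c + L (‖T y‖⁻¹ • T y)) ⟨_, by
      rw [mem_closedBall_zero_iff, norm_smul, norm_inv, norm_norm]
      exact inv_mul_le_one, rfl⟩
    rw [hy, hLin, real_inner_smul_left, real_inner_self_eq_norm_sq] at h1
    have h2 : ‖T y‖⁻¹ * ‖T y‖ ^ 2 = ‖T y‖ := by
      by_cases h0 : ‖T y‖ = 0
      · rw [h0]
        norm_num
      · field_simp
    rw [h2, ← hhs] at h1
    rw [hy] at hf2
    have h3 := le_hs hK y hp
    linarith
  · rintro p ⟨x, hx, rfl⟩
    by_contra hpn
    obtain ⟨f, u, hf1, hf2⟩ := geometric_hahn_banach_closed_point hK.1 hK.2.1.isClosed hpn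
    obtain ⟨y, hy⟩ : ∃ y : E n, ∀ x, f x = inner ℝ x y :=
      ⟨(InnerProductSpace.toDual ℝ (E n)).symm f, fun x => by
        rw [real_inner_comm, InnerProductSpace.toDual_symm_apply]⟩
    obtain ⟨a, ha, hae⟩ := exists_hs hK y
    have h1 := hf1 a ha
    rw [hy, hae] at h1
    have h2 : u < inner ℝ (c + L x) y := by
      rw [← hy]
      exact hf2
    rw [hLin] at h2
    have h3 : inner ℝ x (T y) ≤ ‖x‖ * ‖T y‖ := real_inner_le_norm _ _
    have h4 : ‖x‖ ≤ 1 := mem_closedBall_zero_iff.1 hx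
    have h5 : ‖x‖ * ‖T y‖ ≤ ‖T y‖ := by
      have := mul_le_mul_of_nonneg_right h4 (norm_nonneg (T y))
      linarith
    rw [hhs] at h1
    linarith

end Pool.Agent.MP_c8a077_gtP
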