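import Pool.Agent.Lib.MP_c8a077_gtP.Defs

/-!
# JOB Dec (about 150 lines): coordinates on the hyperplane `v^⊥`

PROOF.  `exists_dec`: the orthogonal complement of `ℝ v` has dimension `k` (`Submodule.finrank_orthogonal_span_singleton`, needs
`Fact (finrank ℝ (E (k+1)) = k + 1)`); take the isometry of `E k` given by its standard orthonormal basis
(`(stdOrthonormalBasis ℝ _).repr.symm`, reindexed: `LinearIsometryEquiv.ofInnerProductSpace` or
`OrthonormalBasis.repr` after `finCongr`) and compose with `Submodule.subtypeₗᵢ`; membership in the complement is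
`Submodule.mem_orthogonal_singleton_iff_inner_left`/`right`.
`dec_mp`: with `e = v / ‖v‖` the map `(y, s) ↦ ι y + s e` is the composition of a linear isometry equivalence
`WithLp 2 (E k × ℝ) ≃ₗᵢ E (k + 1)` (it preserves the norm by Pythagoras and is onto because
`x = (x - ⟪x,e⟫ e) + ⟪x,e⟫ e`; `LinearIsometryEquiv.measurePreserving`) with the volume preserving map
`WithLp.toLp 2` (`WithLp.volume_preserving_toLp` or the current name); see `Pool/Agent/Lib/MP_605763_gt/XRay*.lean` and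
`Pool/Agent/Lib/MP_c8a077_gt/A4.lean` for existing versions.
-/

open MeasureTheory Set Metric Topology Filter
open Pool.Agent.MP_c8a077_gt
open scoped ENNReal NNReal

namespace Pool.Agent.MP_c8a077_gtP

theorem exists_dec {k : ℕ} {v : E (k + 1)} (hv : v ≠ 0) :
    ∃ ι : E k →ₗᵢ[ℝ] E (k + 1), IsDec v ι := by
  have hfact : Fact (Module.finrank ℝ (E (k + 1)) = k + 1) := ⟨finrank_euclideanSpace_fin⟩
  have hf : Module.finrank ℝ (Submodule.span ℝ {v})ᗮ = k :=
    Submodule.finrank_orthogonal_span_singleton hv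
  let b := (stdOrthonormalBasis ℝ (Submodule.span ℝ {v})ᗮ).reindex (finCongr hf)
  refine ⟨(Submodule.span ℝ {v})ᗮ.subtypeₗᵢ.comp b.repr.symm.toLinearIsometry, ?_, ?_⟩
  · intro y
    exact (Submodule.mem_orthogonal_singleton_iff_inner_left).1 (b.repr.symm y).2
  · intro x hx
    have hx' : x ∈ (Submodule.span ℝ {v})ᗮ := (Submodule.mem_orthogonal_singleton_iff_inner_left).2 hx
    refine ⟨b.repr ⟨x, hx'⟩, ?_⟩
    change ((b.repr.symm (b.repr ⟨x, hx'⟩) : (Submodule.span ℝ {v})ᗮ) : E (k + 1)) = x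
    rw [LinearIsometryEquiv.symm_apply_apply]

/-- The linear isometry `(y, s) ↦ ι y + s v / ‖v‖`. -/
private noncomputable def Dec_li {k : ℕ} {v : E (k + 1)} (hv : v ≠ 0) {ι : E k →ₗᵢ[ℝ] E (k + 1)}
    (hι : IsDec v ι) : WithLp 2 (E k × ℝ) →ₗᵢ[ℝ] E (k + 1) where
  toFun p := ι p.fst + (p.snd / ‖v‖) • v
  map_add' := by
    intro p q
    rw [WithLp.add_fst, WithLp.add_snd, map_add, add_div, add_smul]
    abel
  map_smul' := by
    intro c p
    rw [WithLp.smul_fst, WithLp.smul_snd, map_smul, RingHom.id_apply, smul_add, smul_smul,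
      smul_eq_mul, mul_div_assoc]
  norm_map' := by
    intro p
    change ‖ι p.fst + (p.snd / ‖v‖) • v‖ = ‖p‖
    have hv' : ‖v‖ ≠ 0 := norm_ne_zero_iff.2 hv
    have h1 : inner ℝ (ι p.fst) ((p.snd / ‖v‖) • v) = 0 := by
      rw [inner_smul_right, hι.1, mul_zero]
    have h2 := norm_add_sq_eq_norm_sq_add_norm_sq_real h1
    have h3 : ‖(p.snd / ‖v‖) • v‖ = ‖p.snd‖ := by
      rw [norm_smul, norm_div, norm_norm, div_mul_cancel₀ _ hv']
    have h4 : ‖p‖ ^ 2 = ‖p.fst‖ ^ 2 + ‖p.snd‖ ^ 2 := WithLp.prod_norm_sq_eq_of_L2 p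
    rw [h3, LinearIsometry.norm_map] at h2
    have h5 : ‖ι p.fst + (p.snd / ‖v‖) • v‖ ^ 2 = ‖p‖ ^ 2 := by
      rw [h4, sq, h2]
      ring
    exact (sq_eq_sq₀ (norm_nonneg _) (norm_nonneg _)).1 h5

private theorem Dec_finrank (k : ℕ) :
    Module.finrank ℝ (WithLp 2 (E k × ℝ)) = Module.finrank ℝ (E (k + 1)) := by
  rw [(WithLp.linearEquiv 2 ℝ (E k × ℝ)).finrank_eq, Module.finrank_prod, finrank_euclideanSpace_fin,
    finrank_euclideanSpace_fin, Module.finrank_self]

theorem dec_mp {k : ℕ} {v : E (k + 1)} (hv : v ≠ 0) {ι : E k →ₗᵢ[ℝ] E (k + 1)}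
    (hι : IsDec v ι) :
    MeasurePreserving (fun p : E k × ℝ => ι p.1 + (p.2 / ‖v‖) • v) (volume.prod volume)
      volume := by
  have h1 := ((Dec_li hv hι).toLinearIsometryEquiv (Dec_finrank k)).measurePreserving
  have h2 := h1.comp (WithLp.volume_preserving_toLp (E k) ℝ)
  exact h2

end Pool.Agent.MP_c8a077_gtP
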