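import Pool.Agent.Lib.MP_c8a077_gt.Defs

/-!
# MP_c8a077_gt, bodies with section surface areas of degree at most `n - 2`: definitions

`v` and `ξ` are vectors of `ℝⁿ`; integrals over the hyperplane `v^⊥` are integrals with respect
to the measure `pm v`, the `(n-1)`-dimensional Lebesgue measure of `v^⊥`, regarded as a measure
on `ℝⁿ`.
-/

open MeasureTheory Set Metric Topology Filter
open Pool.Agent.MP_c8a077_gt

namespace Pool.Agent.MP_c8a077_gtP

noncomputable section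

/-- Convex bodies. -/
def IsBody {d : ℕ} (K : Set (E d)) : Prop := Convex ℝ K ∧ IsCompact K ∧ (interior K).Nonempty

/-- The orthogonal projection to `v^⊥`. -/
def pr {n : ℕ} (v x : E n) : E n := x - (inner ℝ x v / ‖v‖ ^ 2) • v

/-- The slab `0 ≤ ⟨x,v⟩ ≤ ‖v‖` (it has width one). -/
def slab {n : ℕ} (v : E n) : Set (E n) := {x | 0 ≤ inner ℝ x v ∧ inner ℝ x v ≤ ‖v‖}

/-- The cylinder `K + ℝ v`. -/
def cyl {n : ℕ} (K : Set (E n)) (v : E n) : Set (E n) := {x | ∃ s : ℝ, x + s • v ∈ K}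

/-- The cylinder cut to width one: its volume is the volume of the projection `K | v^⊥`. -/
def TT {n : ℕ} (K : Set (E n)) (v : E n) : Set (E n) := cyl K v ∩ slab v

/-- The volume of the projection of `K` to `v^⊥`. -/
def sh {n : ℕ} (K : Set (E n)) (v : E n) : ENNReal := volume (TT K v)

/-- The Gaussian weight. -/
def gam {n : ℕ} (v : E n) : ℝ := Real.exp (-‖v‖ ^ 2 / 2)

/-- The Lebesgue measure of the hyperplane `v^⊥`. -/
def pm {n : ℕ} (v : E n) : Measure (E n) := (volume.restrict (slab v)).map (pr v)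

/-- The Fourier transform of the indicator function of `K | v^⊥` (for `ξ ⊥ v`). -/
def ft {n : ℕ} (K : Set (E n)) (v ξ : E n) : ℂ :=
  ∫ x in TT K v, Complex.exp (Complex.I * ((inner ℝ x ξ : ℝ) : ℂ))

/-- `∫_{ξ^⊥} γ(w) f_w(ξ) dw`. -/
def gf {n : ℕ} (K : Set (E n)) (ξ : E n) : ℂ := ∫ w, ((gam w : ℝ) : ℂ) * ft K w ξ ∂(pm ξ)

/-- `∫_{ξ^⊥} γ(w) V(w) dw`. -/
def gV {n : ℕ} (K : Set (E n)) (ξ : E n) : ℝ := ∫ w, gam w * (sh K w).toReal ∂(pm ξ)

/-- The support function. -/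
def hs {n : ℕ} (K : Set (E n)) (u : E n) : ℝ := sSup ((fun x => inner ℝ x u) '' K)

/-- The midpoint of the projection of `K` to the line of `y` (odd part of the support function). -/
def ek {n : ℕ} (K : Set (E n)) (y : E n) : ℝ := (hs K y - hs K (-y)) / 2

/-- The half width (even part of the support function). -/
def wk {n : ℕ} (K : Set (E n)) (y : E n) : ℝ := (hs K y + hs K (-y)) / 2

/-- The normalised Fourier transform of `(1-x²)^m` on `[-1,1]`. -/
def Theta (m : ℕ) (w : ℝ) : ℝ :=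
  (∫ x in (-1 : ℝ)..1, (1 - x ^ 2) ^ m * Real.cos (w * x)) / ∫ x in (-1 : ℝ)..1, (1 - x ^ 2) ^ m

/-- A radial bump function supported in the ball of radius `r`. -/
def bump {k : ℕ} (r : ℝ) (x : E k) : ℝ := Real.smoothTransition (1 - ‖x‖ ^ 2 / r ^ 2)

/-- The (radial) Fourier transform of the bump function in dimension `2 m + 1`. -/
def bt (m : ℕ) (r s : ℝ) : ℝ := ∫ x : E (2 * m + 1), bump r x * Real.cos (s * x 0)

/-- `ι` is a linear isometry of `ℝ^k` onto `v^⊥`. -/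
def IsDec {k : ℕ} (v : E (k + 1)) (ι : E k →ₗᵢ[ℝ] E (k + 1)) : Prop :=
  (∀ y, inner ℝ (ι y) v = 0) ∧ ∀ x : E (k + 1), inner ℝ x v = 0 → ∃ y, ι y = x

/-- The section of `K` by the hyperplane `⟨x,u⟩ = t` in the coordinates `ι`. -/
def secT {k : ℕ} (K : Set (E (k + 1))) (ι : E k →ₗᵢ[ℝ] E (k + 1)) (u : E (k + 1)) (t : ℝ) :
    Set (E k) := {y | t • u + ι y ∈ K}

/-- The polytope `{x | ⟨x,ν⟩ ≤ b for all (ν,b) ∈ s}`. -/
def poly {d : ℕ} (s : Finset (E d × ℝ)) : Set (E d) := {x | ∀ q ∈ s, inner ℝ x q.1 ≤ q.2}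

/-- The facet of `poly s` belonging to `q`. -/
def facet {d : ℕ} (s : Finset (E d × ℝ)) (q : E d × ℝ) : Set (E d) :=
  {x | x ∈ poly s ∧ inner ℝ x q.1 = q.2}

/-- Bounded polytopes with `0` in the interior, given by unit normals. -/
def Good {d : ℕ} (s : Finset (E d × ℝ)) : Prop :=
  (∀ q ∈ s, ‖q.1‖ = 1 ∧ 0 < q.2) ∧ Bornology.IsBounded (poly s)

/-- The unit sphere. -/
abbrev Sph (n : ℕ) : Set (E n) := sphere (0 : E n) 1

/-- The surface measure of the unit sphere. -/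
abbrev sg (n : ℕ) : Measure (Sph n) := (volume : Measure (E n)).toSphere

/-- The good flags: `f_v(y) = V(v) e^{i e(y)} Θ(ω(y))`. -/
def FlagEq {n : ℕ} (m : ℕ) (K : Set (E n)) (v y : E n) : Prop :=
  ft K v y = ((sh K v).toReal : ℂ) * (Complex.exp (Complex.I * ((ek K y : ℝ) : ℂ)) *
    ((Theta m (wk K y) : ℝ) : ℂ))

end

end Pool.Agent.MP_c8a077_gtP
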