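import Pool.Agent.Lib.MP_c8a077_gtP.Bd

/-!
# JOB Pl (about 100 lines): Plancherel on `v^⊥`

(All imports may still contain sorry.)
PROOF.  Coordinates `ι` with `IsDec v ι`; `pm v = map ι volume` (`pm_eq`), `ft K v (ι y) = ∫ x in M, exp (i ⟪x,y⟫)` with `M = ι ⁻¹' cyl K v`
(`ft_eq`), `volume M = sh K v < ∞` (`sh_eq`).  The statement is Plancherel for the indicator function of `M` in `E k`:
`∫⁻ y : E k, ‖∫ x in M, exp (i ⟪x,y⟫)‖ₑ ^ 2 ≤ (2 π)^k * volume M`.  Use `planch_le` of `Pool/Agent/Lib/MP_40a0b6_an/S_Planch.lean` (Fourier kernel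
`exp (2 π i ⟪x,ξ⟫)`; copy the 100 lines of that file, do not import) and substitute `y = 2 π ξ` (`Measure.lintegral_comp_smul`/
`addHaar_preimage_smul`, factor `(2 π)^k`).
-/

open MeasureTheory Set Metric Topology Filter
open Pool.Agent.MP_c8a077_gt
open scoped ENNReal NNReal

namespace Pool.Agent.MP_c8a077_gtP

open scoped ContDiff SchwartzMap FourierTransform in
private theorem Pl_ae {V : Type*} [NormedAddCommGroup V] [InnerProductSpace ℝ V]
    [FiniteDimensional ℝ V] [MeasurableSpace V] [BorelSpace V] (u : V → ℂ)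
    (h1 : Integrable u) (h2 : MemLp u 2) :
    ∀ᵐ ξ, FourierTransform.fourier u ξ = (FourierTransform.fourier (h2.toLp u) : Lp ℂ 2 (volume : Measure V)) ξ := by
  apply ae_eq_of_integral_contDiff_smul_eq
  · have hc : Continuous (FourierTransform.fourier u) :=
      VectorFourier.fourierIntegral_continuous Real.continuous_fourierChar
        (by exact continuous_inner) h1
    exact hc.locallyIntegrable
  · exact (Lp.memLp _).locallyIntegrable (by norm_num)
  · intro g g_smooth g_cpt
    have hg₁ : HasCompactSupport (Complex.ofRealCLM ∘ g) := g_cpt.comp_left rfl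
    have hg₂ : ContDiff ℝ ∞ (Complex.ofRealCLM ∘ g) := by fun_prop
    set ψ : 𝓢(V, ℂ) := hg₁.toSchwartzMap hg₂ with hψ
    have e1 : ∫ x, g x • (FourierTransform.fourier (h2.toLp u) : Lp ℂ 2 (volume : Measure V)) x =
        Lp.toTemperedDistribution (FourierTransform.fourier (h2.toLp u) : Lp ℂ 2 (volume : Measure V)) ψ := by
      rw [Lp.toTemperedDistribution_apply]
      simp [hψ]
    have e2 : ∫ x, g x • FourierTransform.fourier u x = ∫ x, ψ x • FourierTransform.fourier u x := by
      simp [hψ]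
    rw [e1, ← Lp.fourier_toTemperedDistribution_eq, TemperedDistribution.fourier_apply,
      Lp.toTemperedDistribution_apply, e2]
    have e3 : ∫ x, (FourierTransform.fourier ψ) x • (h2.toLp u) x = ∫ x, (FourierTransform.fourier ψ) x • u x := by
      refine integral_congr_ae ?_
      filter_upwards [h2.coeFn_toLp] with x hx
      rw [hx]
    rw [e3]
    have := VectorFourier.integral_fourierIntegral_smul_eq_flip (L := innerₗ V) (μ := (volume : Measure V))
      (ν := (volume : Measure V)) (f := (ψ : V → ℂ)) (g := u)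
      Real.continuous_fourierChar continuous_inner ψ.integrable h1
    rw [flip_innerₗ] at this
    exact this.symm

private theorem Pl_lint {X : Type*} [MeasurableSpace X] (μ : Measure X) (f : X → ℂ) :
    ∫⁻ x, ‖f x‖ₑ ^ 2 ∂μ = eLpNorm f 2 μ ^ (2 : ℝ) := by
  rw [eLpNorm_eq_lintegral_rpow_enorm_toReal (by norm_num) (by norm_num), ENNReal.toReal_ofNat,
    ← ENNReal.rpow_mul]
  norm_num

private theorem Pl_smul {V : Type*} [NormedAddCommGroup V] [InnerProductSpace ℝ V]
    [FiniteDimensional ℝ V] [MeasurableSpace V] [BorelSpace V] {c : ℝ} (hc : c ≠ 0)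
    {F : V → ℝ≥0∞} (hF : Measurable F) :
    ∫⁻ y, F (c • y) = ENNReal.ofReal |(c ^ Module.finrank ℝ V)⁻¹| * ∫⁻ y, F y := by
  have h1 : ∫⁻ y, F (c • y) = ∫⁻ y, F y ∂(Measure.map (fun y : V => c • y) volume) :=
    (lintegral_map hF (measurable_const_smul c)).symm
  rw [h1, Measure.map_addHaar_smul _ hc, lintegral_smul_measure, smul_eq_mul]

theorem planch_set {k : ℕ} {M : Set (E k)} (hM : MeasurableSet M) (hfin : volume M ≠ ∞) :
    ∫⁻ y : E k, ‖∫ x in M, Complex.exp (Complex.I * ((inner ℝ x y : ℝ) : ℂ))‖ₑ ^ 2 ≤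
      ENNReal.ofReal ((2 * Real.pi) ^ k) * volume M := by
  obtain ⟨u, hu⟩ : ∃ u : E k → ℂ, u = M.indicator (fun _ => (1 : ℂ)) := ⟨_, rfl⟩
  have h1 : Integrable u := by
    rw [hu, integrable_indicator_iff hM]
    exact integrableOn_const hfin
  have h2 : MemLp u 2 := by
    rw [hu]
    exact memLp_indicator_const 2 hM 1 (Or.inr hfin)
  have hpi : (0 : ℝ) < 2 * Real.pi := by positivity
  obtain ⟨c, hc⟩ : ∃ c : ℝ, c = -(2 * Real.pi)⁻¹ := ⟨_, rfl⟩
  have hc0 : c ≠ 0 := by
    rw [hc]
    exact neg_ne_zero.mpr (inv_ne_zero hpi.ne')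
  have hF : ∀ y : E k, ∫ x in M, Complex.exp (Complex.I * ((inner ℝ x y : ℝ) : ℂ)) =
      FourierTransform.fourier u (c • y) := by
    intro y
    rw [Real.fourier_eq', ← integral_indicator hM]
    refine integral_congr_ae (Filter.Eventually.of_forall fun x => ?_)
    simp only [hu, smul_eq_mul]
    by_cases hx : x ∈ M
    · rw [indicator_of_mem hx, indicator_of_mem hx, mul_one]
      congr 1
      rw [inner_smul_right, hc]
      have h3 : -2 * Real.pi * (-(2 * Real.pi)⁻¹ * inner ℝ x y) = inner ℝ x y := by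
        field_simp
      rw [h3]
      ring
    · rw [indicator_of_notMem hx, indicator_of_notMem hx, mul_zero]
  have hcont : Continuous (FourierTransform.fourier u) :=
    VectorFourier.fourierIntegral_continuous Real.continuous_fourierChar
      (by exact continuous_inner) h1
  simp only [hF]
  rw [Pl_smul (F := fun ξ => ‖FourierTransform.fourier u ξ‖ₑ ^ 2) hc0
    (hcont.measurable.enorm.pow_const 2)]
  have h4 : ∫⁻ ξ, ‖FourierTransform.fourier u ξ‖ₑ ^ 2 = volume M := by
    rw [Pl_lint, eLpNorm_congr_ae (Pl_ae u h1 h2), ← Lp.enorm_def]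
    have h3 : ‖(FourierTransform.fourier (h2.toLp u) : Lp ℂ 2 (volume : Measure (E k)))‖ₑ =
        ‖h2.toLp u‖ₑ := by
      rw [← ofReal_norm, ← ofReal_norm, Lp.norm_fourier_eq]
    rw [h3, Lp.enorm_toLp, ← Pl_lint, hu]
    have h5 : (fun x => ‖M.indicator (fun _ => (1 : ℂ)) x‖ₑ ^ 2) =
        M.indicator (fun _ => (1 : ℝ≥0∞)) := by
      funext x
      by_cases hx : x ∈ M
      · rw [indicator_of_mem hx, indicator_of_mem hx, enorm_one, one_pow]
      · rw [indicator_of_notMem hx, indicator_of_notMem hx, enorm_zero]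
        norm_num
    rw [h5, lintegral_indicator_const hM, one_mul]
  rw [h4]
  have h6 : |(c ^ Module.finrank ℝ (E k))⁻¹| = (2 * Real.pi) ^ k := by
    rw [hc, abs_inv, abs_pow, abs_neg, abs_inv, abs_of_pos hpi, inv_pow, inv_inv]
    congr 1
    exact finrank_euclideanSpace_fin
  rw [h6]

theorem planch_ft {k : ℕ} {K : Set (E (k + 1))} (hK : IsBody K) {v : E (k + 1)} (hv : v ≠ 0) :
    ∫⁻ y, ‖ft K v y‖ₑ ^ 2 ∂(pm v) ≤ ENNReal.ofReal ((2 * Real.pi) ^ k) * sh K v := by
  obtain ⟨ι, hι⟩ := exists_dec hv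
  have hmeas : Measurable (fun y => ‖ft K v y‖ₑ ^ 2) :=
    ((measurable_ft hK.2.1).comp (measurable_const.prodMk measurable_id)).enorm.pow_const 2
  have hM : MeasurableSet (ι ⁻¹' cyl K v) :=
    (isClosed_cyl hK.2.1 v).measurableSet.preimage ι.continuous.measurable
  rw [pm_eq hv hι, lintegral_map hmeas ι.continuous.measurable, sh_eq hK.2.1 hv hι]
  simp only [ft_eq hK.2.1 hv hι]
  apply planch_set hM
  rw [← sh_eq hK.2.1 hv hι]
  exact sh_ne_top hK hv

end Pool.Agent.MP_c8a077_gtP
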