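import Pool.Agent.Lib.MP_c8a077_gtP.Bd

/-!
# JOB Var (about 150 lines): the variance identity

(All imports may still contain sorry.)
PROOF of `var_identity`.  `g` is bounded and `μ` finite, so everything is integrable.  With `N = μ.real univ > 0`, `I = ∫ g dμ`:
`‖g - I/N‖² = ‖g‖² - 2 re (conj (I/N) g) + ‖I‖²/N²`, integrate: `∫ ‖g - I/N‖² = ∫ ‖g‖² - ‖I‖²/N`.  Convert to lintegrals
(`ofReal_integral_eq_lintegral_ofReal`, `‖z‖ₑ ^ 2 = ofReal (‖z‖ ^ 2)`).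
PROOF of `var_flag`.  For `ξ ≠ 0` apply `var_identity` to `μ = (pm ξ).withDensity (fun w => ofReal (gam w) * sh K w)` (finite: `ofReal_gV`) and
`g w = ft K w ξ / (sh K w).toReal` (norm at most one for `w ≠ 0`, `norm_ft_le`; redefine as `0` at `w = 0` or use `min`; `pm ξ {0} = 0`):
`∫ g dμ = ∫ gam w * ft K w ξ ∂pm ξ = gf K ξ`, `μ univ = ofReal (gV K ξ)`, and `gam w * sh K w * ‖g w‖² = gam w * ‖ft‖²/ sh K w` for `w ≠ 0`
(`0 < sh K w < ∞`).
-/

open MeasureTheory Set Metric Topology Filter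
open Pool.Agent.MP_c8a077_gt
open scoped ENNReal NNReal

namespace Pool.Agent.MP_c8a077_gtP

theorem var_identity {α : Type*} [MeasurableSpace α] (μ : Measure α) [IsFiniteMeasure μ]
    (hμ : μ univ ≠ 0) {g : α → ℂ} (hg : Measurable g) {C : ℝ} (hC : ∀ x, ‖g x‖ ≤ C) :
    ∫⁻ x, ‖g x‖ₑ ^ 2 ∂μ =
      ∫⁻ x, ‖g x - (∫ y, g y ∂μ) / ((μ univ).toReal : ℂ)‖ₑ ^ 2 ∂μ +
        ‖∫ y, g y ∂μ‖ₑ ^ 2 / μ univ := by
  have hT : μ univ ≠ ∞ := measure_ne_top μ univ
  have hN : 0 < (μ univ).toReal := ENNReal.toReal_pos hμ hT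
  have hint : Integrable g μ :=
    Integrable.of_bound hg.aestronglyMeasurable C (Filter.Eventually.of_forall hC)
  have hC0 : ∀ x, ‖g x‖ ≤ |C| := fun x => (hC x).trans (le_abs_self C)
  -- conversion
  have hconv : ∀ h : α → ℂ, Measurable h → (∃ B, ∀ x, ‖h x‖ ≤ B) →
      ∫⁻ x, ‖h x‖ₑ ^ 2 ∂μ = ENNReal.ofReal (∫ x, ‖h x‖ ^ 2 ∂μ) ∧ Integrable (fun x => ‖h x‖ ^ 2) μ := by
    intro h hh hB
    obtain ⟨B, hB⟩ := hB
    have h1 : Integrable (fun x => ‖h x‖ ^ 2) μ := by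
      refine Integrable.of_bound ((hh.norm.pow_const 2).aestronglyMeasurable) (|B| ^ 2)
        (Filter.Eventually.of_forall fun x => ?_)
      rw [Real.norm_eq_abs, abs_of_nonneg (sq_nonneg _)]
      exact pow_le_pow_left₀ (norm_nonneg _) ((hB x).trans (le_abs_self B)) 2
    refine ⟨?_, h1⟩
    rw [ofReal_integral_eq_lintegral_ofReal h1 (Filter.Eventually.of_forall fun x => sq_nonneg _)]
    refine lintegral_congr fun x => ?_
    rw [ENNReal.ofReal_pow (norm_nonneg _), ofReal_norm]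
  set I : ℂ := ∫ y, g y ∂μ with hI
  set N : ℝ := (μ univ).toReal with hNdef
  have hg2 := hconv g hg ⟨C, hC⟩
  have hgc := hconv (fun x => g x - I / (N : ℂ)) (hg.sub_const _) ⟨|C| + ‖I / (N : ℂ)‖, fun x =>
    (norm_sub_le _ _).trans (by linarith [hC0 x])⟩
  rw [hg2.1, hgc.1]
  have hlast : ‖I‖ₑ ^ 2 / μ univ = ENNReal.ofReal (‖I‖ ^ 2 / N) := by
    rw [ENNReal.ofReal_div_of_pos hN, ENNReal.ofReal_pow (norm_nonneg _), ofReal_norm, hNdef,
      ENNReal.ofReal_toReal hT]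
  rw [hlast, ← ENNReal.ofReal_add (integral_nonneg fun x => sq_nonneg _) (by positivity)]
  congr 1
  have hpt : ∀ x, ‖g x - I / (N : ℂ)‖ ^ 2 = ‖g x‖ ^ 2 + ‖I / (N : ℂ)‖ ^ 2 -
      2 * (g x * (starRingEnd ℂ) (I / (N : ℂ))).re := by
    intro x
    rw [Complex.sq_norm, Complex.sq_norm, Complex.sq_norm, Complex.normSq_sub]
  have hre : Integrable (fun x => (g x * (starRingEnd ℂ) (I / (N : ℂ))).re) μ :=
    (hint.mul_const _).re
  have hreI : ∫ x, (g x * (starRingEnd ℂ) (I / (N : ℂ))).re ∂μ = (I * (starRingEnd ℂ) (I / (N : ℂ))).re := by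
    have h1 := Complex.reCLM.integral_comp_comm (hint.mul_const ((starRingEnd ℂ) (I / (N : ℂ))))
    have h2 : ∫ x, g x * (starRingEnd ℂ) (I / (N : ℂ)) ∂μ = I * (starRingEnd ℂ) (I / (N : ℂ)) :=
      integral_mul_const _ _
    rw [h2] at h1
    exact h1
  have hsum : ∫ x, ‖g x - I / (N : ℂ)‖ ^ 2 ∂μ = ∫ x, ‖g x‖ ^ 2 ∂μ + N * ‖I / (N : ℂ)‖ ^ 2 -
      2 * (I * (starRingEnd ℂ) (I / (N : ℂ))).re := by
    have h1 : ∫ x, ‖g x - I / (N : ℂ)‖ ^ 2 ∂μ = ∫ x, ((‖g x‖ ^ 2 + ‖I / (N : ℂ)‖ ^ 2) -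
        2 * (g x * (starRingEnd ℂ) (I / (N : ℂ))).re) ∂μ := integral_congr_ae
          (Filter.Eventually.of_forall fun x => hpt x)
    have h2 : Integrable (fun x => ‖g x‖ ^ 2 + ‖I / (N : ℂ)‖ ^ 2) μ := hg2.2.add (integrable_const _)
    have h3 : Integrable (fun x => 2 * (g x * (starRingEnd ℂ) (I / (N : ℂ))).re) μ := hre.const_mul 2
    have h4 : ∫ _x, ‖I / (N : ℂ)‖ ^ 2 ∂μ = N * ‖I / (N : ℂ)‖ ^ 2 := by
      rw [integral_const, smul_eq_mul]
      rfl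
    rw [h1, integral_sub h2 h3, integral_add hg2.2 (integrable_const _), integral_const_mul, hreI, h4]
  have hval : (I * (starRingEnd ℂ) (I / (N : ℂ))).re = ‖I‖ ^ 2 / N := by
    rw [map_div₀, Complex.conj_ofReal, ← mul_div_assoc, Complex.mul_conj, ← Complex.ofReal_div, Complex.ofReal_re,
      Complex.normSq_eq_norm_sq]
  have hval2 : N * ‖I / (N : ℂ)‖ ^ 2 = ‖I‖ ^ 2 / N := by
    rw [norm_div, Complex.norm_real, Real.norm_eq_abs, abs_of_pos hN]
    field_simp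
  rw [hsum, hval, hval2]
  ring

theorem var_flag {k : ℕ} (hk : 1 ≤ k) {K : Set (E (k + 1))} (hK : IsBody K) {ξ : E (k + 1)}
    (hξ : ξ ≠ 0) :
    ∫⁻ w, ENNReal.ofReal (gam w) * (‖ft K w ξ‖ₑ ^ 2 / sh K w) ∂(pm ξ) =
      ∫⁻ w, ENNReal.ofReal (gam w) * (sh K w *
        ‖ft K w ξ / ((sh K w).toReal : ℂ) - gf K ξ / ((gV K ξ : ℝ) : ℂ)‖ₑ ^ 2) ∂(pm ξ) +
        ‖gf K ξ‖ₑ ^ 2 / ENNReal.ofReal (gV K ξ) := by
  classical
  have hKc : IsCompact K := hK.2.1
  have hne : ∀ᵐ w ∂(pm ξ), w ≠ 0 := by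
    rw [ae_iff]
    have h1 : {a : E (k + 1) | ¬ a ≠ 0} = {0} := by
      ext a
      simp
    rw [h1]
    exact pm_zero hk hξ
  have hgm : Measurable fun w : E (k + 1) => ENNReal.ofReal (gam w) := measurable_gam.ennreal_ofReal
  have hsm : Measurable fun w : E (k + 1) => sh K w := measurable_sh hKc
  have hpm : Measurable fun w : E (k + 1) => (w, ξ) := measurable_prodMk_right
  have hfm0 := (measurable_ft hKc).comp hpm
  have hfm : Measurable fun w : E (k + 1) => ft K w ξ := hfm0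
  let D : E (k + 1) → ℝ≥0∞ := fun w => ENNReal.ofReal (gam w) * sh K w
  have hD : Measurable D := hgm.mul hsm
  have hV : ENNReal.ofReal (gV K ξ) = ∫⁻ w, D w ∂(pm ξ) := ofReal_gV hk hK hξ
  have hVpos : 0 < gV K ξ := gV_pos hk hK hξ
  let μ : Measure (E (k + 1)) := (pm ξ).withDensity D
  have hμ : μ univ = ENNReal.ofReal (gV K ξ) := by
    rw [withDensity_apply _ MeasurableSet.univ, Measure.restrict_univ, hV]
  have hfin : IsFiniteMeasure μ := ⟨by
    rw [hμ]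
    exact ENNReal.ofReal_lt_top⟩
  have hμ0 : μ univ ≠ 0 := by
    rw [hμ]
    exact (ENNReal.ofReal_pos.2 hVpos).ne'
  have hμr : (μ univ).toReal = gV K ξ := by
    rw [hμ, ENNReal.toReal_ofReal hVpos.le]
  let g : E (k + 1) → ℂ := fun w => if w = 0 then 0 else ft K w ξ / ((sh K w).toReal : ℂ)
  have hg : Measurable g := by
    have h1 : MeasurableSet {w : E (k + 1) | w = 0} := measurableSet_singleton 0
    have h2 : Measurable fun w : E (k + 1) => ft K w ξ / ((sh K w).toReal : ℂ) :=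
      hfm.div (Complex.measurable_ofReal.comp hsm.ennreal_toReal)
    exact Measurable.ite h1 measurable_const h2
  have hg0 : ∀ w, w ≠ 0 → g w = ft K w ξ / ((sh K w).toReal : ℂ) := fun w hw => if_neg hw
  have hspos : ∀ w : E (k + 1), w ≠ 0 → 0 < (sh K w).toReal := fun w hw =>
    ENNReal.toReal_pos (sh_pos hK hw).ne' (sh_ne_top hK hw)
  have hgC : ∀ w, ‖g w‖ ≤ 1 := by
    intro w
    by_cases hw : w = 0
    · rw [show g w = 0 from if_pos hw, norm_zero]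
      exact zero_le_one
    · rw [hg0 w hw, norm_div, Complex.norm_real, Real.norm_eq_abs, abs_of_pos (hspos w hw)]
      exact (div_le_one (hspos w hw)).2 (norm_ft_le hK hw ξ)
  have hint : ∫ w, g w ∂μ = gf K ξ := by
    rw [integral_withDensity_eq_integral_toReal_smul hD]
    · unfold gf
      refine integral_congr_ae ?_
      filter_upwards [hne] with w hw
      rw [hg0 w hw]
      have h0 : 0 ≤ gam w := (Real.exp_pos _).le
      have h1 : (D w).toReal = gam w * (sh K w).toReal := by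
        rw [ENNReal.toReal_mul, ENNReal.toReal_ofReal h0]
      have h2 : ((sh K w).toReal : ℂ) ≠ 0 := Complex.ofReal_ne_zero.2 (hspos w hw).ne'
      rw [h1, Complex.real_smul, Complex.ofReal_mul, mul_assoc, mul_div_cancel₀ _ h2]
    · filter_upwards [hne] with w hw
      exact ENNReal.mul_lt_top ENNReal.ofReal_lt_top (sh_ne_top hK hw).lt_top
  have hmain := var_identity μ hμ0 hg hgC
  rw [hint, hμr, hμ] at hmain
  have hL : ∫⁻ w, ‖g w‖ₑ ^ 2 ∂μ =
      ∫⁻ w, ENNReal.ofReal (gam w) * (‖ft K w ξ‖ₑ ^ 2 / sh K w) ∂(pm ξ) := by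
    rw [lintegral_withDensity_eq_lintegral_mul _ hD (hg.enorm.pow_const 2)]
    refine lintegral_congr_ae ?_
    filter_upwards [hne] with w hw
    rw [Pi.mul_apply, hg0 w hw]
    have h1 : ‖ft K w ξ / ((sh K w).toReal : ℂ)‖ₑ = ‖ft K w ξ‖ₑ / sh K w := by
      rw [← ofReal_norm, norm_div, Complex.norm_real, Real.norm_eq_abs, abs_of_pos (hspos w hw),
        ENNReal.ofReal_div_of_pos (hspos w hw), ofReal_norm, ENNReal.ofReal_toReal (sh_ne_top hK hw)]
    rw [h1]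
    change ENNReal.ofReal (gam w) * sh K w * (‖ft K w ξ‖ₑ / sh K w) ^ 2 = _
    rw [mul_assoc]
    congr 1
    have h2 : sh K w ≠ 0 := (sh_pos hK hw).ne'
    have h3 := sh_ne_top hK hw
    rw [div_eq_mul_inv, div_eq_mul_inv, mul_pow, ← mul_assoc, mul_comm (sh K w), mul_assoc, sq (sh K w)⁻¹,
      ← mul_assoc (sh K w), ENNReal.mul_inv_cancel h2 h3, one_mul]
  have hR : ∫⁻ w, ‖g w - gf K ξ / ((gV K ξ : ℝ) : ℂ)‖ₑ ^ 2 ∂μ =
      ∫⁻ w, ENNReal.ofReal (gam w) * (sh K w *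
        ‖ft K w ξ / ((sh K w).toReal : ℂ) - gf K ξ / ((gV K ξ : ℝ) : ℂ)‖ₑ ^ 2) ∂(pm ξ) := by
    rw [lintegral_withDensity_eq_lintegral_mul _ hD ((hg.sub_const _).enorm.pow_const 2)]
    refine lintegral_congr_ae ?_
    filter_upwards [hne] with w hw
    rw [Pi.mul_apply, hg0 w hw]
    change ENNReal.ofReal (gam w) * sh K w * _ = _
    rw [mul_assoc]
  rw [hL, hR] at hmain
  exact hmain

end Pool.Agent.MP_c8a077_gtP
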