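import Pool.Agent.Lib.MP_c8a077_gtP.FF
import Pool.Agent.Lib.MP_c8a077_gtP.Pl
import Pool.Agent.Lib.MP_c8a077_gtP.Var

/-!
# L2: the basic inequality

PROOF.  For `v ≠ 0`, `planch_ft` and `0 < sh K v < ∞` give `∫⁻ y, ‖ft K v y‖ₑ ^ 2 / sh K v ∂(pm v) ≤ ofReal ((2π)^k)`; multiply with
`ofReal ‖v‖⁻¹ * ofReal (gam v)` and integrate: `∫⁻ v, ofReal ‖v‖⁻¹ * ∫⁻ y, ofReal (gam v) * (‖ft K v y‖ₑ ^ 2 / sh K v) ∂(pm v) ≤ ofReal ((2π)^k * W)`,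
`W = ∫ ‖v‖⁻¹ * gam v` (`integrable_W`, `ofReal_integral_eq_lintegral_ofReal`).  `flag_fubini` with
`F (v, y) = ofReal (gam v) * (‖ft K v y‖ₑ ^ 2 / sh K v)` (measurable: `measurable_ft`, `measurable_sh`) turns the left side into
`∫⁻ ξ, ofReal ‖ξ‖⁻¹ * ∫⁻ w, ofReal (gam w) * (‖ft K w ξ‖ₑ ^ 2 / sh K w) ∂(pm ξ)`; insert `var_flag` (for `ξ ≠ 0`) and split the lintegral
(`lintegral_add_right`/`left`: measurability of `ξ ↦ ofReal ‖ξ‖⁻¹ * (‖gf K ξ‖ₑ ^ 2 / ofReal (gV K ξ))` from `measurable_gf`, `measurable_gV`).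
-/

open MeasureTheory Set Metric Topology Filter
open Pool.Agent.MP_c8a077_gt
open scoped ENNReal NNReal

namespace Pool.Agent.MP_c8a077_gtP

theorem l2_bound {k : ℕ} (hk : 1 ≤ k) {K : Set (E (k + 1))} (hK : IsBody K) :
    (∫⁻ ξ, ENNReal.ofReal ‖ξ‖⁻¹ * (∫⁻ w, ENNReal.ofReal (gam w) * (sh K w *
        ‖ft K w ξ / ((sh K w).toReal : ℂ) - gf K ξ / ((gV K ξ : ℝ) : ℂ)‖ₑ ^ 2) ∂(pm ξ))) +
      ∫⁻ ξ, ENNReal.ofReal ‖ξ‖⁻¹ * (‖gf K ξ‖ₑ ^ 2 / ENNReal.ofReal (gV K ξ)) ≤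
      ENNReal.ofReal ((2 * Real.pi) ^ k * ∫ v : E (k + 1), ‖v‖⁻¹ * gam v) := by
  have hKc := hK.2.1
  have hft := measurable_ft hKc
  have hsh := measurable_sh hKc
  have hgf := measurable_gf hKc
  have hgV := measurable_gV hKc
  have hFm : Measurable (fun p : E (k + 1) × E (k + 1) =>
      ENNReal.ofReal (gam p.1) * (‖ft K p.1 p.2‖ₑ ^ 2 / sh K p.1)) :=
    ((measurable_gam.comp measurable_fst).ennreal_ofReal).mul
      ((hft.enorm.pow_const 2).div (hsh.comp measurable_fst))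
  have hfub := flag_fubini hk hFm
  have h0 : ∀ᵐ v : E (k + 1), v ≠ 0 := Measure.ae_ne volume 0
  have hleft : ∫⁻ v, ENNReal.ofReal ‖v‖⁻¹ * ∫⁻ y, (ENNReal.ofReal (gam v) *
      (‖ft K v y‖ₑ ^ 2 / sh K v)) ∂(pm v) ≤
      ENNReal.ofReal ((2 * Real.pi) ^ k * ∫ v : E (k + 1), ‖v‖⁻¹ * gam v) := by
    have hW : ENNReal.ofReal (∫ v : E (k + 1), ‖v‖⁻¹ * gam v) =
        ∫⁻ v : E (k + 1), ENNReal.ofReal (‖v‖⁻¹ * gam v) :=
      ofReal_integral_eq_lintegral_ofReal (integrable_W (by omega))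
        (ae_of_all _ fun v => by unfold gam; positivity)
    have hmW : Measurable (fun v : E (k + 1) => ENNReal.ofReal (‖v‖⁻¹ * gam v)) :=
      (measurable_norm.inv.mul measurable_gam).ennreal_ofReal
    rw [ENNReal.ofReal_mul (by positivity), hW, ← lintegral_const_mul _ hmW]
    refine lintegral_mono_ae ?_
    filter_upwards [h0] with v hv
    have hs0 := sh_pos hK hv
    have hst := sh_ne_top hK hv
    have hpl := planch_ft hK hv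
    have hftv : Measurable (fun y : E (k + 1) => ‖ft K v y‖ₑ ^ 2) :=
      ((hft.comp measurable_prodMk_left).enorm).pow_const 2
    have e1 : ∫⁻ y, (ENNReal.ofReal (gam v) * (‖ft K v y‖ₑ ^ 2 / sh K v)) ∂(pm v) =
        ENNReal.ofReal (gam v) * ((∫⁻ y, ‖ft K v y‖ₑ ^ 2 ∂(pm v)) / sh K v) := by
      simp only [div_eq_mul_inv]
      rw [lintegral_const_mul _ (hftv.mul_const _), lintegral_mul_const _ hftv]
    rw [e1]
    have e2 : (∫⁻ y, ‖ft K v y‖ₑ ^ 2 ∂(pm v)) / sh K v ≤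
        ENNReal.ofReal ((2 * Real.pi) ^ k) :=
      ENNReal.div_le_of_le_mul hpl
    have e3 : ENNReal.ofReal (‖v‖⁻¹ * gam v) =
        ENNReal.ofReal ‖v‖⁻¹ * ENNReal.ofReal (gam v) := ENNReal.ofReal_mul (by positivity)
    rw [e3]
    calc ENNReal.ofReal ‖v‖⁻¹ * (ENNReal.ofReal (gam v) *
          ((∫⁻ y, ‖ft K v y‖ₑ ^ 2 ∂(pm v)) / sh K v))
        ≤ ENNReal.ofReal ‖v‖⁻¹ * (ENNReal.ofReal (gam v) *
          ENNReal.ofReal ((2 * Real.pi) ^ k)) := by gcongr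
      _ = ENNReal.ofReal ((2 * Real.pi) ^ k) *
          (ENNReal.ofReal ‖v‖⁻¹ * ENNReal.ofReal (gam v)) := by ring
  have hB : Measurable (fun ξ : E (k + 1) => ENNReal.ofReal ‖ξ‖⁻¹ *
      (‖gf K ξ‖ₑ ^ 2 / ENNReal.ofReal (gV K ξ))) :=
    (measurable_norm.inv.ennreal_ofReal).mul ((hgf.enorm.pow_const 2).div hgV.ennreal_ofReal)
  have hright : ∫⁻ ξ, ENNReal.ofReal ‖ξ‖⁻¹ * ∫⁻ w, (ENNReal.ofReal (gam w) *
      (‖ft K w ξ‖ₑ ^ 2 / sh K w)) ∂(pm ξ) =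
      (∫⁻ ξ, ENNReal.ofReal ‖ξ‖⁻¹ * (∫⁻ w, ENNReal.ofReal (gam w) * (sh K w *
        ‖ft K w ξ / ((sh K w).toReal : ℂ) - gf K ξ / ((gV K ξ : ℝ) : ℂ)‖ₑ ^ 2) ∂(pm ξ))) +
      ∫⁻ ξ, ENNReal.ofReal ‖ξ‖⁻¹ * (‖gf K ξ‖ₑ ^ 2 / ENNReal.ofReal (gV K ξ)) := by
    rw [← lintegral_add_right _ hB]
    refine lintegral_congr_ae ?_
    filter_upwards [h0] with ξ hξ
    rw [var_flag hk hK hξ, mul_add]
  rw [← hright, ← hfub]
  exact hleft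

end Pool.Agent.MP_c8a077_gtP
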