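import Pool.Agent.Lib.MP_c8a077_gtP.UP
import Pool.Agent.Lib.MP_c8a077_gtP.L2
import Pool.Agent.Lib.MP_c8a077_gtP.C2a
import Pool.Agent.Lib.MP_c8a077_gtP.C2b

/-!
# Eqa: equality in the basic inequality

`n = 2 m + 2`, `k = 2 m + 1`, `W = ∫ ‖v‖⁻¹ gam v`, `a = -hs K (-u)`, `b = hs K u`.
PROOF of `polar_second`.  `lintegral_polar` for `F ξ = ofReal ‖ξ‖⁻¹ * (‖gf K ξ‖ₑ^2 / ofReal (gV K ξ))`; for `‖u‖ = 1`, `s > 0`: `‖s • u‖ = s`,
`gV K (s • u) = gV K u` (`gV_smul`), `ofReal (s^(2m+1)) * ofReal s⁻¹ = ofReal (s^(2m))`; pull the constant `1/ofReal (gV K u)` out of the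
integral over `s`.
PROOF of `poly_form`.  By `l2_bound` and `polar_second`, `∫⁻ u, Q u / ofReal (gV K u) < ∞`, `Q u = ∫⁻ s in Ioi 0, ofReal (s^(2m)) * ‖gf K (s • u)‖ₑ^2`,
so `Q u < ∞` for a.e. `u` (`ofReal (gV K u) ≠ ∞`).  By `hc`, `∫ t in a..b, P t exp (i s t) = c * gf K (s • u)` for `s > 0`, so the hypothesis of
`vanish_ends` is `ofReal (c^2) * Q u ≠ ∞`; `factor`.
PROOF of `second_eq`.  For a.e. `u`, with `C_u = (-1)^m * (P u).coeff (2m)`: `energy` gives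
`ofReal (c^2) * Q u = ofReal (π * ((2m)! * C_u) * (c * gV K u))`, i.e. `Q u / ofReal (gV K u) = ofReal (π (2m)! C_u / c)` (`gV_pos`), and
`0 ≤ C_u` (`P > 0` on `(a,b)`).  So `f u = π (2m)! C_u / c` is a.e. equal to the `toReal` of a measurable function, nonnegative, with
finite lintegral (by `l2_bound`), hence integrable, and the second integral is `ofReal (∫ f)`.  `U_poly`: the `2m`-th derivative of `P u` is the
constant polynomial `(2m)! (P u).coeff (2m)` (`natDegree ≤ 2m`), so the right side of `U_poly` is `∫ u, π (2m)! C_u * I`,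
`I = ∫ bump r > 0` (`integral_bump_pos`); hence `∫ f = (2π)^k W`.
PROOF of `variance_zero`.  `l2_bound`, `second_eq` and cancellation of a finite term in `ℝ≥0∞`.
-/

open MeasureTheory Set Metric Topology Filter
open Pool.Agent.MP_c8a077_gt
open scoped ENNReal NNReal

namespace Pool.Agent.MP_c8a077_gtP

private theorem eqa_measF {n : ℕ} {K : Set (E n)} (hK : IsBody K) :
    Measurable (fun ξ : E n => ENNReal.ofReal ‖ξ‖⁻¹ *
      (‖gf K ξ‖ₑ ^ 2 / ENNReal.ofReal (gV K ξ))) := by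
  have h1 := measurable_gf hK.2.1
  have h2 := measurable_gV hK.2.1
  exact (measurable_norm.inv.ennreal_ofReal).mul ((h1.enorm.pow_const 2).div h2.ennreal_ofReal)

private theorem eqa_measG {m n : ℕ} {K : Set (E n)} (hK : IsBody K) :
    Measurable (fun p : Sph n × ℝ => ENNReal.ofReal (p.2 ^ (2 * m)) *
      ‖gf K (p.2 • (p.1 : E n))‖ₑ ^ 2) := by
  have h1 := measurable_gf hK.2.1
  have h3 : Measurable (fun p : Sph n × ℝ => p.2 • (p.1 : E n)) := by fun_prop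
  have h4 : Measurable (fun p : Sph n × ℝ => ENNReal.ofReal (p.2 ^ (2 * m))) := by fun_prop
  exact h4.mul (((h1.comp h3).enorm).pow_const 2)

theorem polar_second {m : ℕ} {K : Set (E (2 * m + 1 + 1))} (hK : IsBody K) :
    ∫⁻ ξ, ENNReal.ofReal ‖ξ‖⁻¹ * (‖gf K ξ‖ₑ ^ 2 / ENNReal.ofReal (gV K ξ)) =
      ∫⁻ u : Sph (2 * m + 1 + 1), ((∫⁻ s in Ioi (0 : ℝ), ENNReal.ofReal (s ^ (2 * m)) *
        ‖gf K (s • (u : E (2 * m + 1 + 1)))‖ₑ ^ 2) /
          ENNReal.ofReal (gV K (u : E (2 * m + 1 + 1)))) ∂(sg (2 * m + 1 + 1)) := by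
  rw [lintegral_polar (by omega) (eqa_measF hK)]
  refine lintegral_congr fun u => ?_
  have hG : Measurable (fun s : ℝ => ENNReal.ofReal (s ^ (2 * m)) *
      ‖gf K (s • (u : E (2 * m + 1 + 1)))‖ₑ ^ 2) :=
    (eqa_measG (m := m) hK).comp (measurable_prodMk_left (x := u))
  rw [div_eq_mul_inv, ← lintegral_mul_const _ hG]
  refine setLIntegral_congr_fun measurableSet_Ioi fun s hs => ?_
  have hs' : (0 : ℝ) < s := hs
  have hu : ‖(u : E (2 * m + 1 + 1))‖ = 1 := mem_sphere_zero_iff_norm.1 u.2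
  have key : ENNReal.ofReal (s ^ (2 * m)) =
      ENNReal.ofReal (s ^ (2 * m + 1 + 1 - 1)) * ENNReal.ofReal s⁻¹ := by
    rw [← ENNReal.ofReal_mul (by positivity)]
    congr 1
    rw [show 2 * m + 1 + 1 - 1 = 2 * m + 1 from rfl, pow_succ, mul_assoc,
      mul_inv_cancel₀ hs'.ne', mul_one]
  simp only [gV_smul K _ hs', norm_smul, hu, mul_one, Real.norm_of_nonneg hs'.le, div_eq_mul_inv]
  rw [key]
  ring

private theorem eqa_Qfin {m : ℕ} {K : Set (E (2 * m + 1 + 1))} (hK : IsBody K) :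
    (∫⁻ u : Sph (2 * m + 1 + 1), ((∫⁻ s in Ioi (0 : ℝ), ENNReal.ofReal (s ^ (2 * m)) *
        ‖gf K (s • (u : E (2 * m + 1 + 1)))‖ₑ ^ 2) /
          ENNReal.ofReal (gV K (u : E (2 * m + 1 + 1)))) ∂(sg (2 * m + 1 + 1))) ≠ ∞ := by
  rw [← polar_second hK]
  have h := l2_bound (k := 2 * m + 1) (by omega) hK
  exact ne_top_of_le_ne_top ENNReal.ofReal_ne_top (le_trans le_add_self h)

private theorem eqa_measQ {m : ℕ} {K : Set (E (2 * m + 1 + 1))} (hK : IsBody K) :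
    Measurable (fun u : Sph (2 * m + 1 + 1) =>
      (∫⁻ s in Ioi (0 : ℝ), ENNReal.ofReal (s ^ (2 * m)) *
        ‖gf K (s • (u : E (2 * m + 1 + 1)))‖ₑ ^ 2) /
          ENNReal.ofReal (gV K (u : E (2 * m + 1 + 1)))) := by
  have h2 := measurable_gV hK.2.1
  have h3 : Measurable (fun u : Sph (2 * m + 1 + 1) => gV K (u : E (2 * m + 1 + 1))) :=
    h2.comp measurable_subtype_coe
  exact ((eqa_measG (m := m) hK).lintegral_prod_right').div h3.ennreal_ofReal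

private theorem eqa_Q_lt {m : ℕ} {K : Set (E (2 * m + 1 + 1))} (hK : IsBody K) :
    ∀ᵐ u : Sph (2 * m + 1 + 1) ∂(sg (2 * m + 1 + 1)),
      (∫⁻ s in Ioi (0 : ℝ), ENNReal.ofReal (s ^ (2 * m)) *
        ‖gf K (s • (u : E (2 * m + 1 + 1)))‖ₑ ^ 2) ≠ ∞ := by
  filter_upwards [ae_lt_top (eqa_measQ hK) (eqa_Qfin hK)] with u hu h
  rw [h, ENNReal.top_div_of_ne_top ENNReal.ofReal_ne_top] at hu
  exact lt_irrefl _ hu

private theorem eqa_energy {m : ℕ} {c : ℝ} (hc : SFC (2 * m + 1) c) {K : Set (E (2 * m + 1 + 1))}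
    (hK : IsBody K) {u : E (2 * m + 1 + 1)} (hu : ‖u‖ = 1) {P : Polynomial ℝ} (hP : Rep K u P) :
    ∫⁻ s in Ioi (0 : ℝ), ENNReal.ofReal (s ^ (2 * m)) *
      ‖∫ t in (-hs K (-u))..(hs K u), ((P.eval t : ℝ) : ℂ) *
        Complex.exp (Complex.I * ((s * t : ℝ) : ℂ))‖ₑ ^ 2 =
      ENNReal.ofReal (c ^ 2) * ∫⁻ s in Ioi (0 : ℝ), ENNReal.ofReal (s ^ (2 * m)) *
        ‖gf K (s • u)‖ₑ ^ 2 := by
  have h := (hc.2 K hK u hu P hP).2.2.1
  have h1 := measurable_gf hK.2.1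
  have hm : Measurable (fun s : ℝ => ENNReal.ofReal (s ^ (2 * m)) * ‖gf K (s • u)‖ₑ ^ 2) := by
    have h3 : Measurable (fun s : ℝ => s • u) := by fun_prop
    have h4 : Measurable (fun s : ℝ => ENNReal.ofReal (s ^ (2 * m))) := by fun_prop
    exact h4.mul (((h1.comp h3).enorm).pow_const 2)
  rw [← lintegral_const_mul _ hm]
  refine setLIntegral_congr_fun measurableSet_Ioi fun s hs => ?_
  have hs' : (0 : ℝ) < s := hs
  beta_reduce
  rw [← h s hs', enorm_mul, mul_pow]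
  have hcc : ‖(c : ℂ)‖ₑ ^ 2 = ENNReal.ofReal (c ^ 2) := by
    rw [← ofReal_norm, Complex.norm_real, Real.norm_of_nonneg hc.1.le,
      ENNReal.ofReal_pow hc.1.le]
  rw [hcc]
  ring

theorem poly_form {m : ℕ} {c : ℝ} (hc : SFC (2 * m + 1) c) {K : Set (E (2 * m + 1 + 1))}
    (hK : IsBody K) {P : Sph (2 * m + 1 + 1) → Polynomial ℝ}
    (hP : ∀ᵐ u : Sph (2 * m + 1 + 1) ∂(sg (2 * m + 1 + 1)),
      Rep K (u : E (2 * m + 1 + 1)) (P u) ∧ (P u).natDegree ≤ 2 * m) :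
    ∀ᵐ u : Sph (2 * m + 1 + 1) ∂(sg (2 * m + 1 + 1)),
      P u = Polynomial.C ((-1) ^ m * (P u).coeff (2 * m)) *
        (Polynomial.X - Polynomial.C (-hs K (-(u : E (2 * m + 1 + 1))))) ^ m *
        (Polynomial.C (hs K (u : E (2 * m + 1 + 1))) - Polynomial.X) ^ m := by
  filter_upwards [hP, eqa_Q_lt hK] with u hu hQ
  have hn : ‖(u : E (2 * m + 1 + 1))‖ = 1 := mem_sphere_zero_iff_norm.1 u.2
  have h0 : (u : E (2 * m + 1 + 1)) ≠ 0 := by
    intro h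
    rw [h, norm_zero] at hn
    exact zero_ne_one hn
  have hab := neg_hs_lt hK h0
  refine factor hu.2 hab (vanish_ends hab ?_)
  rw [eqa_energy hc hK hn hu.1]
  exact ENNReal.mul_ne_top ENNReal.ofReal_ne_top hQ

private theorem eqa_deriv {N : ℕ} {P : Polynomial ℝ} (hP : P.natDegree ≤ N) :
    (Polynomial.derivative^[N]) P = Polynomial.C (N.factorial * P.coeff N) := by
  ext j
  rw [Polynomial.coeff_iterate_derivative, Polynomial.coeff_C]
  rcases Nat.eq_zero_or_pos j with rfl | hj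
  · simp [Nat.descFactorial_self]
  · rw [Polynomial.coeff_eq_zero_of_natDegree_lt (by omega), if_neg (by omega), smul_zero]

private theorem eqa_ratio {m : ℕ} {c : ℝ} (hc : SFC (2 * m + 1) c)
    {K : Set (E (2 * m + 1 + 1))} (hK : IsBody K) {P : Sph (2 * m + 1 + 1) → Polynomial ℝ}
    (hP : ∀ᵐ u : Sph (2 * m + 1 + 1) ∂(sg (2 * m + 1 + 1)),
      Rep K (u : E (2 * m + 1 + 1)) (P u) ∧ (P u).natDegree ≤ 2 * m) :
    ∀ᵐ u : Sph (2 * m + 1 + 1) ∂(sg (2 * m + 1 + 1)),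
      0 ≤ Real.pi * ((2 * m).factorial * ((-1) ^ m * (P u).coeff (2 * m))) / c ∧
      (∫⁻ s in Ioi (0 : ℝ), ENNReal.ofReal (s ^ (2 * m)) *
        ‖gf K (s • (u : E (2 * m + 1 + 1)))‖ₑ ^ 2) /
          ENNReal.ofReal (gV K (u : E (2 * m + 1 + 1))) =
        ENNReal.ofReal (Real.pi * ((2 * m).factorial * ((-1) ^ m * (P u).coeff (2 * m))) / c) := by
  filter_upwards [hP, poly_form hc hK hP] with u hu hform
  have hn : ‖(u : E (2 * m + 1 + 1))‖ = 1 := mem_sphere_zero_iff_norm.1 u.2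
  have h0 : (u : E (2 * m + 1 + 1)) ≠ 0 := by
    intro h
    rw [h, norm_zero] at hn
    exact zero_ne_one hn
  have hab := neg_hs_lt hK h0
  have hg : 0 < gV K (u : E (2 * m + 1 + 1)) := gV_pos (by omega) hK h0
  have hS := hc.2 K hK (u : E (2 * m + 1 + 1)) hn (P u) hu.1
  have hE := energy hab ((-1) ^ m * (P u).coeff (2 * m)) hform
  rw [eqa_energy hc hK hn hu.1, ← hS.2.2.2] at hE
  have hC : 0 < (-1) ^ m * (P u).coeff (2 * m) := by
    have hmid := hS.1 ((-hs K (-(u : E (2 * m + 1 + 1))) + hs K (u : E (2 * m + 1 + 1))) / 2)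
      ⟨by linarith, by linarith⟩
    rw [hform] at hmid
    simp only [Polynomial.eval_mul, Polynomial.eval_pow, Polynomial.eval_sub,
      Polynomial.eval_X, Polynomial.eval_C] at hmid
    have e1 : 0 < ((-hs K (-(u : E (2 * m + 1 + 1))) + hs K (u : E (2 * m + 1 + 1))) / 2 -
        -hs K (-(u : E (2 * m + 1 + 1)))) ^ m := pow_pos (by linarith) _
    have e2 : 0 < (hs K (u : E (2 * m + 1 + 1)) -
        (-hs K (-(u : E (2 * m + 1 + 1))) + hs K (u : E (2 * m + 1 + 1))) / 2) ^ m :=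
      pow_pos (by linarith) _
    have h3 := (mul_pos_iff_of_pos_right e2).1 hmid
    exact (mul_pos_iff_of_pos_right e1).1 h3
  set Cu := (-1) ^ m * (P u).coeff (2 * m) with hCu
  have hc0 := hc.1
  have hpi := Real.pi_pos
  have hf : 0 ≤ Real.pi * ((2 * m).factorial * Cu) / c := by positivity
  refine ⟨hf, ?_⟩
  have hgE : ENNReal.ofReal (gV K (u : E (2 * m + 1 + 1))) ≠ 0 := by
    simpa using hg
  have hcE : ENNReal.ofReal (c ^ 2) ≠ 0 := by
    have : 0 < c ^ 2 := by positivity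
    simpa using this.ne'
  symm
  rw [ENNReal.eq_div_iff hgE ENNReal.ofReal_ne_top]
  have hmul : ENNReal.ofReal (c ^ 2) * (∫⁻ s in Ioi (0 : ℝ), ENNReal.ofReal (s ^ (2 * m)) *
        ‖gf K (s • (u : E (2 * m + 1 + 1)))‖ₑ ^ 2) = ENNReal.ofReal (c ^ 2) *
        (ENNReal.ofReal (gV K (u : E (2 * m + 1 + 1))) *
          ENNReal.ofReal (Real.pi * ((2 * m).factorial * Cu) / c)) := by
    rw [hE, ← ENNReal.ofReal_mul hg.le, ← ENNReal.ofReal_mul (by positivity)]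
    congr 1
    field_simp
  exact ((ENNReal.mul_right_inj hcE ENNReal.ofReal_ne_top).1 hmul).symm

theorem second_eq {m : ℕ} {c : ℝ} (hc : SFC (2 * m + 1) c) {K : Set (E (2 * m + 1 + 1))}
    (hK : IsBody K) {r : ℝ} (hr : 0 < r) (hrK : closedBall 0 r ⊆ K)
    {P : Sph (2 * m + 1 + 1) → Polynomial ℝ}
    (hP : ∀ᵐ u : Sph (2 * m + 1 + 1) ∂(sg (2 * m + 1 + 1)),
      Rep K (u : E (2 * m + 1 + 1)) (P u) ∧ (P u).natDegree ≤ 2 * m) :
    ∫⁻ ξ, ENNReal.ofReal ‖ξ‖⁻¹ * (‖gf K ξ‖ₑ ^ 2 / ENNReal.ofReal (gV K ξ)) =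
      ENNReal.ofReal ((2 * Real.pi) ^ (2 * m + 1) *
        ∫ v : E (2 * m + 1 + 1), ‖v‖⁻¹ * gam v) := by
  have hR := eqa_ratio hc hK hP
  have hc0 := hc.1
  have hI : 0 < ∫ x : E (2 * m + 1), bump r x := integral_bump_pos hr
  have hfin := eqa_Qfin (m := m) hK
  have hcongr : (∫⁻ u : Sph (2 * m + 1 + 1), ((∫⁻ s in Ioi (0 : ℝ), ENNReal.ofReal (s ^ (2 * m)) *
        ‖gf K (s • (u : E (2 * m + 1 + 1)))‖ₑ ^ 2) /
          ENNReal.ofReal (gV K (u : E (2 * m + 1 + 1)))) ∂(sg (2 * m + 1 + 1))) =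
      ∫⁻ u : Sph (2 * m + 1 + 1), ENNReal.ofReal
        (Real.pi * ((2 * m).factorial * ((-1) ^ m * (P u).coeff (2 * m))) / c)
          ∂(sg (2 * m + 1 + 1)) :=
    lintegral_congr_ae (hR.mono fun u hu => hu.2)
  have hnn : 0 ≤ᵐ[sg (2 * m + 1 + 1)] (fun u : Sph (2 * m + 1 + 1) =>
      Real.pi * ((2 * m).factorial * ((-1) ^ m * (P u).coeff (2 * m))) / c) :=
    hR.mono fun u hu => hu.1
  have hmeas : AEStronglyMeasurable (fun u : Sph (2 * m + 1 + 1) =>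
      Real.pi * ((2 * m).factorial * ((-1) ^ m * (P u).coeff (2 * m))) / c)
      (sg (2 * m + 1 + 1)) := by
    have h1 : AEMeasurable (fun u : Sph (2 * m + 1 + 1) =>
      ((∫⁻ s in Ioi (0 : ℝ), ENNReal.ofReal (s ^ (2 * m)) *
        ‖gf K (s • (u : E (2 * m + 1 + 1)))‖ₑ ^ 2) /
          ENNReal.ofReal (gV K (u : E (2 * m + 1 + 1)))).toReal) (sg (2 * m + 1 + 1)) :=
      (eqa_measQ hK).ennreal_toReal.aemeasurable
    refine (h1.congr ?_).aestronglyMeasurable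
    filter_upwards [hR] with u hu
    simp only [hu.2, ENNReal.toReal_ofReal hu.1]
  have hint : Integrable (fun u : Sph (2 * m + 1 + 1) =>
      Real.pi * ((2 * m).factorial * ((-1) ^ m * (P u).coeff (2 * m))) / c)
      (sg (2 * m + 1 + 1)) := by
    refine (lintegral_ofReal_ne_top_iff_integrable hmeas hnn).1 ?_
    rw [← hcongr]
    exact hfin
  rw [polar_second hK, hcongr, ← ofReal_integral_eq_lintegral_ofReal hint hnn]
  congr 1
  have hU := U_poly hc hK hr hrK (hP.mono fun u hu => hu.1)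
  have hRHS : (∫ u : Sph (2 * m + 1 + 1), (Real.pi * (-1) ^ m * ∫ x : E (2 * m + 1),
        bump r x * ((Polynomial.derivative^[2 * m]) (P u)).eval (x 0)) ∂(sg (2 * m + 1 + 1))) =
      (c * ∫ x : E (2 * m + 1), bump r x) * ∫ u : Sph (2 * m + 1 + 1),
        Real.pi * ((2 * m).factorial * ((-1) ^ m * (P u).coeff (2 * m))) / c
          ∂(sg (2 * m + 1 + 1)) := by
    rw [← integral_const_mul]
    refine integral_congr_ae ?_
    filter_upwards [hP] with u hu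
    rw [eqa_deriv hu.2]
    simp only [Polynomial.eval_C]
    rw [integral_mul_const]
    field_simp
  rw [hRHS] at hU
  have hne : (c * ∫ x : E (2 * m + 1), bump r x) ≠ 0 := (mul_pos hc0 hI).ne'
  have h2 : (c * ∫ x : E (2 * m + 1), bump r x) * (∫ u : Sph (2 * m + 1 + 1),
        Real.pi * ((2 * m).factorial * ((-1) ^ m * (P u).coeff (2 * m))) / c
          ∂(sg (2 * m + 1 + 1))) =
      (c * ∫ x : E (2 * m + 1), bump r x) * ((2 * Real.pi) ^ (2 * m + 1) *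
        ∫ v : E (2 * m + 1 + 1), ‖v‖⁻¹ * gam v) := by
    rw [← hU]
    ring
  exact mul_left_cancel₀ hne h2

theorem variance_zero {m : ℕ} {c : ℝ} (hc : SFC (2 * m + 1) c) {K : Set (E (2 * m + 1 + 1))}
    (hK : IsBody K) {r : ℝ} (hr : 0 < r) (hrK : closedBall 0 r ⊆ K)
    {P : Sph (2 * m + 1 + 1) → Polynomial ℝ}
    (hP : ∀ᵐ u : Sph (2 * m + 1 + 1) ∂(sg (2 * m + 1 + 1)),
      Rep K (u : E (2 * m + 1 + 1)) (P u) ∧ (P u).natDegree ≤ 2 * m) :
    ∫⁻ ξ, ENNReal.ofReal ‖ξ‖⁻¹ * (∫⁻ w, ENNReal.ofReal (gam w) * (sh K w *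
        ‖ft K w ξ / ((sh K w).toReal : ℂ) - gf K ξ / ((gV K ξ : ℝ) : ℂ)‖ₑ ^ 2) ∂(pm ξ)) = 0 := by
  have h := l2_bound (k := 2 * m + 1) (by omega) hK
  rw [second_eq hc hK hr hrK hP] at h
  have h2 : (∫⁻ ξ, ENNReal.ofReal ‖ξ‖⁻¹ * (∫⁻ w, ENNReal.ofReal (gam w) * (sh K w *
        ‖ft K w ξ / ((sh K w).toReal : ℂ) - gf K ξ / ((gV K ξ : ℝ) : ℂ)‖ₑ ^ 2) ∂(pm ξ))) +
      ENNReal.ofReal ((2 * Real.pi) ^ (2 * m + 1) *
        ∫ v : E (2 * m + 1 + 1), ‖v‖⁻¹ * gam v) ≤ 0 + ENNReal.ofReal ((2 * Real.pi) ^ (2 * m + 1) *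
        ∫ v : E (2 * m + 1 + 1), ‖v‖⁻¹ * gam v) := by
    rw [zero_add]
    exact h
  exact le_antisymm ((ENNReal.add_le_add_iff_right ENNReal.ofReal_ne_top).1 h2) zero_le

end Pool.Agent.MP_c8a077_gtP
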