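import Pool.Agent.Lib.MP_c8a077_gtP.Defs

/-!
# JOB Po (about 200 lines): polar coordinates
-/

open MeasureTheory Set Metric Topology Filter
open Pool.Agent.MP_c8a077_gt
open scoped ENNReal NNReal

namespace Pool.Agent.MP_c8a077_gtP

private theorem po_nontrivial {n : ℕ} (hn : 1 ≤ n) : Nontrivial (E n) := by
  apply Module.nontrivial_of_finrank_pos (R := ℝ)
  rw [finrank_euclideanSpace_fin]
  exact hn

/-- Polar coordinates, first form. -/
private theorem po_mp {n : ℕ} :
    MeasurePreserving (homeomorphUnitSphereProd (E n)) ((volume : Measure (E n)).comap (↑))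
      ((sg n).prod (Measure.volumeIoiPow (n - 1))) := by
  have h := (volume : Measure (E n)).measurePreserving_homeomorphUnitSphereProd
  rw [finrank_euclideanSpace_fin] at h
  exact h

private theorem po_inv {n : ℕ} (x : ({0}ᶜ : Set (E n))) :
    (((homeomorphUnitSphereProd (E n) x).2 : ℝ) • ((homeomorphUnitSphereProd (E n) x).1 : E n)) = (x : E n) := by
  have h := (homeomorphUnitSphereProd_symm_apply_coe (E n) (homeomorphUnitSphereProd (E n) x))
  rw [Homeomorph.symm_apply_apply] at h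
  exact h.symm

theorem lintegral_polar {n : ℕ} (hn : 1 ≤ n) {F : E n → ℝ≥0∞} (hF : Measurable F) :
    ∫⁻ x, F x = ∫⁻ u : Sph n, (∫⁻ s in Ioi (0 : ℝ),
      ENNReal.ofReal (s ^ (n - 1)) * F (s • (u : E n))) ∂(sg n) := by
  have hnt := po_nontrivial hn
  have h1 : ∫⁻ x, F x = ∫⁻ x : ({0}ᶜ : Set (E n)), F x ∂((volume : Measure (E n)).comap (↑)) := by
    rw [lintegral_subtype_comap (measurableSet_singleton (0 : E n)).compl F, restrict_compl_singleton]
  have h2 : ∫⁻ x : ({0}ᶜ : Set (E n)), F x ∂((volume : Measure (E n)).comap (↑)) =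
      ∫⁻ q : Sph n × Ioi (0 : ℝ), F ((q.2 : ℝ) • (q.1 : E n)) ∂((sg n).prod (Measure.volumeIoiPow (n - 1))) := by
    rw [← po_mp.lintegral_comp_emb (Homeomorph.measurableEmbedding _)
      (fun q : Sph n × Ioi (0 : ℝ) => F ((q.2 : ℝ) • (q.1 : E n)))]
    exact lintegral_congr fun x => by rw [po_inv]
  have hm : Measurable (fun q : Sph n × Ioi (0 : ℝ) => F ((q.2 : ℝ) • (q.1 : E n))) := by
    apply hF.comp
    exact (continuous_subtype_val.comp continuous_snd).measurable.smul
      (continuous_subtype_val.comp continuous_fst).measurable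
  rw [h1, h2, lintegral_prod _ hm.aemeasurable]
  refine lintegral_congr fun u => ?_
  have hmu : Measurable (fun s : Ioi (0 : ℝ) => F ((s : ℝ) • (u : E n))) :=
    hm.comp (measurable_const.prodMk measurable_id)
  rw [Measure.volumeIoiPow, lintegral_withDensity_eq_lintegral_mul _ _ hmu]
  · rw [← lintegral_subtype_comap measurableSet_Ioi
      (fun s : ℝ => ENNReal.ofReal (s ^ (n - 1)) * F (s • (u : E n)))]
    rfl
  · exact (measurable_subtype_coe.pow_const _).ennreal_ofReal

theorem integral_polar {n : ℕ} (hn : 1 ≤ n) {F : E n → ℝ} (hF : Integrable F) :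
    ∫ x, F x = ∫ u : Sph n, (∫ s in Ioi (0 : ℝ), s ^ (n - 1) * F (s • (u : E n))) ∂(sg n) := by
  have hnt := po_nontrivial hn
  have h1 : ∫ x, F x = ∫ x : ({0}ᶜ : Set (E n)), F x ∂((volume : Measure (E n)).comap (↑)) := by
    rw [integral_subtype_comap (measurableSet_singleton (0 : E n)).compl F, restrict_compl_singleton]
  have hFc : (fun x : ({0}ᶜ : Set (E n)) => F x) =
      (fun q : Sph n × Ioi (0 : ℝ) => F ((q.2 : ℝ) • (q.1 : E n))) ∘ (homeomorphUnitSphereProd (E n)) := by
    funext x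
    rw [Function.comp_apply, po_inv]
  have h2 : ∫ x : ({0}ᶜ : Set (E n)), F x ∂((volume : Measure (E n)).comap (↑)) =
      ∫ q : Sph n × Ioi (0 : ℝ), F ((q.2 : ℝ) • (q.1 : E n)) ∂((sg n).prod (Measure.volumeIoiPow (n - 1))) := by
    rw [← po_mp.integral_comp (Homeomorph.measurableEmbedding _)
      (fun q : Sph n × Ioi (0 : ℝ) => F ((q.2 : ℝ) • (q.1 : E n)))]
    exact integral_congr_ae (Eventually.of_forall fun x => by
      change F x = F _
      rw [po_inv])
  have hi : Integrable (fun q : Sph n × Ioi (0 : ℝ) => F ((q.2 : ℝ) • (q.1 : E n)))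
      ((sg n).prod (Measure.volumeIoiPow (n - 1))) := by
    rw [← po_mp.integrable_comp_emb (Homeomorph.measurableEmbedding _), ← hFc]
    have h3 : Integrable F (volume.restrict ({0}ᶜ : Set (E n))) := by
      rw [restrict_compl_singleton]; exact hF
    exact (integrableOn_iff_comap_subtypeVal (measurableSet_singleton (0 : E n)).compl).mp h3
  rw [h1, h2, integral_prod _ hi]
  refine integral_congr_ae (Eventually.of_forall fun u => ?_)
  change ∫ y : Ioi (0 : ℝ), F ((y : ℝ) • (u : E n)) ∂(Measure.volumeIoiPow (n - 1)) = _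
  simp only [Measure.volumeIoiPow, ENNReal.ofReal]
  rw [integral_withDensity_eq_integral_smul,
    integral_subtype_comap measurableSet_Ioi (fun a : ℝ => Real.toNNReal (a ^ (n - 1)) • F (a • (u : E n))),
    setIntegral_congr_fun measurableSet_Ioi fun x hx => ?_]
  · rw [NNReal.smul_def, Real.coe_toNNReal _ (pow_nonneg (le_of_lt hx) _), smul_eq_mul]
  · exact (measurable_subtype_coe.pow_const _).real_toNNReal

theorem sphere_of_ae {n : ℕ} (hn : 1 ≤ n) {p : E n → Prop} (h : ∀ᵐ x : E n, p (‖x‖⁻¹ • x)) :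
    ∀ᵐ u : Sph n ∂(sg n), p u := by
  rw [ae_iff] at h
  obtain ⟨N, hsub, hNm, hN0⟩ := exists_measurable_superset_of_null h
  have h1 := lintegral_polar hn (measurable_const.indicator hNm : Measurable (N.indicator (fun _ : E n => (1 : ℝ≥0∞))))
  rw [lintegral_indicator hNm, setLIntegral_one, hN0] at h1
  have hmeas : Measurable (fun q : Sph n × ℝ => ENNReal.ofReal (q.2 ^ (n - 1)) *
      N.indicator (fun _ : E n => (1 : ℝ≥0∞)) (q.2 • (q.1 : E n))) := by
    apply Measurable.mul
    · exact (measurable_snd.pow_const _).ennreal_ofReal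
    · apply (measurable_const.indicator hNm).comp
      exact measurable_snd.smul (measurable_subtype_coe.comp measurable_fst)
  have h2 := (lintegral_eq_zero_iff (hmeas.lintegral_prod_right' (ν := volume.restrict (Ioi (0 : ℝ))))).mp h1.symm
  filter_upwards [h2] with u hu
  have hu' : ∫⁻ s in Ioi (0 : ℝ), ENNReal.ofReal (s ^ (n - 1)) *
      N.indicator (fun _ : E n => (1 : ℝ≥0∞)) (s • (u : E n)) = 0 := hu
  have hmu : Measurable (fun s : ℝ => ENNReal.ofReal (s ^ (n - 1)) *
      N.indicator (fun _ : E n => (1 : ℝ≥0∞)) (s • (u : E n))) :=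
    hmeas.comp (measurable_const.prodMk measurable_id)
  have h3 := (lintegral_eq_zero_iff hmu).mp hu'
  have h4 : ∃ s : ℝ, 0 < s ∧ (s • (u : E n)) ∉ N := by
    have h5 : ∀ᵐ s : ℝ ∂(volume.restrict (Ioi (0 : ℝ))), 0 < s ∧ (s • (u : E n)) ∉ N := by
      filter_upwards [h3, ae_restrict_mem measurableSet_Ioi] with s hs hs0
      refine ⟨hs0, fun hmem => ?_⟩
      have h6 : ENNReal.ofReal (s ^ (n - 1)) * N.indicator (fun _ : E n => (1 : ℝ≥0∞)) (s • (u : E n)) = 0 := hs
      rw [indicator_of_mem hmem, mul_one, ENNReal.ofReal_eq_zero] at h6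
      exact absurd h6 (not_le.mpr (pow_pos hs0 _))
    have h7 : (ae (volume.restrict (Ioi (0 : ℝ)))).NeBot := by
      rw [ae_neBot]
      intro h8
      rw [Measure.restrict_eq_zero, Real.volume_Ioi] at h8
      exact ENNReal.top_ne_zero h8
    exact h5.exists
  obtain ⟨s, hs0, hs⟩ := h4
  by_contra hp
  apply hs
  apply hsub
  change ¬ p (‖s • (u : E n)‖⁻¹ • (s • (u : E n)))
  have hnorm : ‖(u : E n)‖ = 1 := mem_sphere_zero_iff_norm.mp u.2
  rw [norm_smul, hnorm, mul_one, Real.norm_of_nonneg hs0.le, smul_smul, inv_mul_cancel₀ hs0.ne', one_smul]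
  exact hp

theorem ae_of_sphere {n : ℕ} (hn : 1 ≤ n) {p : E n → Prop}
    (h : ∀ᵐ u : Sph n ∂(sg n), p u) :
    ∀ᵐ x : E n, p (‖x‖⁻¹ • x) := by
  have hnt := po_nontrivial hn
  rw [ae_iff] at h
  obtain ⟨Z, hsub, hZm, hZ0⟩ := exists_measurable_superset_of_null h
  -- the cone over `Z`
  have hZ' : MeasurableSet ((↑) '' Z : Set (E n)) :=
    (MeasurableEmbedding.subtype_coe (isClosed_sphere (x := (0 : E n)) (ε := 1)).measurableSet).measurableSet_image.mpr hZm
  have hmn : Measurable (fun x : E n => ‖x‖⁻¹ • x) := measurable_norm.inv.smul measurable_id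
  have hN : MeasurableSet {x : E n | ‖x‖⁻¹ • x ∈ ((↑) '' Z : Set (E n))} := hmn hZ'
  have h1 : (volume : Measure (E n)) {x : E n | ‖x‖⁻¹ • x ∈ ((↑) '' Z : Set (E n))} = 0 := by
    have h2 := lintegral_polar hn (measurable_const.indicator hN : Measurable
      ({x : E n | ‖x‖⁻¹ • x ∈ ((↑) '' Z : Set (E n))}.indicator (fun _ : E n => (1 : ℝ≥0∞))))
    rw [lintegral_indicator hN, setLIntegral_one] at h2
    rw [h2]
    have h3 : ∀ᵐ u : Sph n ∂(sg n), u ∉ Z := by
      rw [ae_iff]
      simp only [not_not]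
      exact hZ0
    rw [lintegral_congr_ae (g := fun _ => 0), lintegral_zero]
    filter_upwards [h3] with u hu
    rw [setLIntegral_congr_fun (g := fun _ => 0) measurableSet_Ioi, lintegral_zero]
    intro s hs
    have hs0 : 0 < s := hs
    have hnorm : ‖(u : E n)‖ = 1 := mem_sphere_zero_iff_norm.mp u.2
    have h4 : s • (u : E n) ∉ {x : E n | ‖x‖⁻¹ • x ∈ ((↑) '' Z : Set (E n))} := by
      intro h5
      have h6 : ‖s • (u : E n)‖⁻¹ • (s • (u : E n)) ∈ ((↑) '' Z : Set (E n)) := h5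
      rw [norm_smul, hnorm, mul_one, Real.norm_of_nonneg hs0.le, smul_smul, inv_mul_cancel₀ hs0.ne', one_smul] at h6
      obtain ⟨v, hv, hvu⟩ := h6
      exact hu (Subtype.ext hvu ▸ hv)
    change ENNReal.ofReal (s ^ (n - 1)) * _ = 0
    rw [indicator_of_notMem h4, mul_zero]
  have h2 : ∀ᵐ x : E n, x ≠ 0 := by
    rw [ae_iff]
    simp only [not_not, ne_eq]
    exact measure_singleton 0
  filter_upwards [measure_eq_zero_iff_ae_notMem.mp h1, h2] with x hx hx0
  by_contra hp
  apply hx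
  have hnx : ‖x‖⁻¹ • x ∈ Sph n := by
    rw [mem_sphere_zero_iff_norm, norm_smul, norm_inv, norm_norm, inv_mul_cancel₀ (norm_ne_zero_iff.mpr hx0)]
  exact ⟨⟨‖x‖⁻¹ • x, hnx⟩, hsub hp, rfl⟩

theorem integrable_W {n : ℕ} (hn : 2 ≤ n) : Integrable (fun v : E n => ‖v‖⁻¹ * gam v) := by
  have hnt := po_nontrivial (n := n) (by omega)
  have h := (integrable_fun_norm_addHaar (volume : Measure (E n)) (f := fun r : ℝ => r⁻¹ * Real.exp (-r ^ 2 / 2)))
  refine h.mpr ?_
  rw [finrank_euclideanSpace_fin]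
  have h1 := integrableOn_rpow_mul_exp_neg_mul_sq (b := 1 / 2) (by norm_num) (s := ((n - 2 : ℕ) : ℝ))
    (lt_of_lt_of_le (by norm_num) (Nat.cast_nonneg _))
  refine (integrableOn_congr_fun ?_ measurableSet_Ioi).mp h1
  intro y hy
  have hy0 : 0 < y := hy
  change y ^ ((n - 2 : ℕ) : ℝ) * Real.exp (-(1 / 2) * y ^ 2) = y ^ (n - 1) • (y⁻¹ * Real.exp (-y ^ 2 / 2))
  have hpow : y ^ (n - 1) = y ^ (n - 2) * y := by
    rw [← pow_succ]; congr 1; omega
  rw [Real.rpow_natCast, smul_eq_mul, hpow, ← mul_assoc, mul_assoc (y ^ (n - 2)) y y⁻¹, mul_inv_cancel₀ hy0.ne', mul_one]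
  congr 2
  ring

theorem W_pos {n : ℕ} (hn : 2 ≤ n) : 0 < ∫ v : E n, ‖v‖⁻¹ * gam v := by
  have hnt := po_nontrivial (n := n) (by omega)
  rw [integral_pos_iff_support_of_nonneg _ (integrable_W hn)]
  · have h1 : ({0}ᶜ : Set (E n)) ⊆ Function.support (fun v : E n => ‖v‖⁻¹ * gam v) := by
      intro x hx
      rw [Function.mem_support]
      exact (mul_pos (inv_pos.mpr (norm_pos_iff.mpr hx)) (Real.exp_pos _)).ne'
    refine lt_of_lt_of_le ?_ (measure_mono h1)
    exact isOpen_compl_singleton.measure_pos _ (by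
      obtain ⟨x, hx⟩ := exists_ne (0 : E n)
      exact ⟨x, hx⟩)
  · intro x
    exact mul_nonneg (inv_nonneg.mpr (norm_nonneg _)) (Real.exp_pos _).le

end Pool.Agent.MP_c8a077_gtP
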