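import Pool.Agent.Lib.MP_c8a077_gtP.FFa
import Pool.Agent.Lib.MP_c8a077_gtP.Po

/-!
# JOB FF (about 250 lines): the flag Fubini theorem

(`Ms`, `Dec`, `Pm`, `FFa`, `Po` may still contain sorry.)
PROOF.  Let `G : E n × E n → ℝ` be continuous, `0 ≤ G ≤ M`.  Put
`J δ = ofReal δ⁻¹ * ∫⁻ p : E n × E n in {p | 0 ≤ ⟪p.1,p.2⟫ ≤ δ}, ofReal (G p * gam p.1 * gam p.2)`.
By Tonelli `J δ = ∫⁻ v, ofReal (gam v) * (ofReal δ⁻¹ * ∫⁻ ξ in {0 ≤ ⟪v,ξ⟫ ≤ δ}, ofReal (G (v,ξ) * gam ξ))`; by `slab_limit`, `slab_bound`,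
dominated convergence (bound `ofReal (gam v ‖v‖⁻¹) * const`, integrable by `integrable_W`; `lintegral_gam_pm` shows that the constant
does not depend on `v`), `J δ → ∫⁻ v, ofReal (‖v‖⁻¹ gam v) * ∫⁻ y, ofReal (G (v,y) gam y) ∂pm v` as `δ → 0+`.
Integrating first over the other variable (`⟪v,ξ⟫ = ⟪ξ,v⟫`, Tonelli in the other order) gives the limit
`∫⁻ ξ, ofReal (‖ξ‖⁻¹ gam ξ) * ∫⁻ w, ofReal (G (w,ξ) gam w) ∂pm ξ`.
So the two finite measures `M1 A = ∫⁻ v, ofReal (‖v‖⁻¹ gam v) * ∫⁻ y, ofReal (gam y) * indicator A 1 (v,y) ∂pm v` and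
`M2 A = ∫⁻ ξ, ofReal (‖ξ‖⁻¹ gam ξ) * ∫⁻ w, ofReal (gam w) * indicator A 1 (w,ξ) ∂pm ξ` on `E n × E n` (construct them as maps of measures with
density on `E n × E n`, with `lintegral_pm`) give the same integral to every bounded continuous function
(`MeasureTheory.ext_of_forall_lintegral_eq_of_IsFiniteMeasure`), so `M1 = M2`, and `lintegral` of
`F (v,y) / (gam v * gam y)` (measurable) gives `flag_fubini`.  (`v = 0` is a null set; `ofReal ‖0‖⁻¹ = 0`.)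
`flag_integral`: for real `F ≥ 0` it follows from `flag_fubini` by `toReal` (`integral_eq_lintegral_of_nonneg_ae`, the inner integrals are finite
a.e.); general real `F`: positive and negative parts (integrable inner integrals a.e.); or use the equality of the two (sigma-finite)
measures `map ...` and `integral_map`, `integral_withDensity_eq_integral_smul`, `integral_prod`.
-/

open MeasureTheory Set Metric Topology Filter
open Pool.Agent.MP_c8a077_gt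
open scoped ENNReal NNReal

namespace Pool.Agent.MP_c8a077_gtP

private noncomputable def FFd (n : ℕ) (p : E n × E n) : ℝ≥0∞ :=
  ENNReal.ofReal (‖p.1‖⁻¹ * gam p.1) *
    ({p : E n × E n | p.2 ∈ slab p.1}.indicator (fun p => ENNReal.ofReal (gam (pr p.1 p.2))) p)

private theorem FFd_meas (n : ℕ) : Measurable (FFd n) := by
  have h1 : Measurable fun p : E n × E n => ENNReal.ofReal (‖p.1‖⁻¹ * gam p.1) :=
    ENNReal.measurable_ofReal.comp ((measurable_fst.norm.inv).mul (measurable_gam.comp measurable_fst))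
  have h2 : Measurable fun p : E n × E n => ENNReal.ofReal (gam (pr p.1 p.2)) :=
    ENNReal.measurable_ofReal.comp (measurable_gam.comp measurable_pr)
  exact h1.mul (h2.indicator measurableSet_slab)

private noncomputable def FFm (n : ℕ) : Measure (E n × E n) :=
  (((volume : Measure (E n)).prod volume).withDensity (FFd n)).map fun p => (p.1, pr p.1 p.2)

private theorem FFm_map (n : ℕ) : Measurable fun p : E n × E n => (p.1, pr p.1 p.2) :=
  measurable_fst.prodMk measurable_pr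

private theorem FFm_lint {n : ℕ} {F : E n × E n → ℝ≥0∞} (hF : Measurable F) :
    ∫⁻ p, F p ∂(FFm n) = ∫⁻ v, ENNReal.ofReal (‖v‖⁻¹ * gam v) * ∫⁻ y, ENNReal.ofReal (gam y) * F (v, y) ∂(pm v) := by
  have h0 : Measurable fun p : E n × E n => FFd n p * F (p.1, pr p.1 p.2) :=
    (FFd_meas n).mul (hF.comp (FFm_map n))
  unfold FFm
  have hc : Measurable fun p : E n × E n => F (p.1, pr p.1 p.2) := hF.comp (FFm_map n)
  rw [lintegral_map hF (FFm_map n), lintegral_withDensity_eq_lintegral_mul _ (FFd_meas n) hc]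
  have h1 : (fun p : E n × E n => (FFd n * fun p : E n × E n => F (p.1, pr p.1 p.2)) p) =
      fun p => FFd n p * F (p.1, pr p.1 p.2) := rfl
  have h2 : ∫⁻ p, (FFd n * fun p : E n × E n => F (p.1, pr p.1 p.2)) p ∂((volume : Measure (E n)).prod volume) =
      ∫⁻ v : E n, ∫⁻ x : E n, FFd n (v, x) * F (v, pr v x) :=
    lintegral_prod _ h0.aemeasurable
  refine h2.trans (lintegral_congr fun v => ?_)
  have hG : Measurable fun y : E n => ENNReal.ofReal (gam y) * F (v, y) :=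
    (ENNReal.measurable_ofReal.comp measurable_gam).mul (hF.comp measurable_prodMk_left)
  have hsl : MeasurableSet (slab v) := measurable_prodMk_left (x := v) measurableSet_slab
  have hprv : Measurable (pr v) := measurable_pr.comp measurable_prodMk_left
  have hi : Measurable ((slab v).indicator fun x : E n => ENNReal.ofReal (gam (pr v x)) * F (v, pr v x)) :=
    (hG.comp hprv).indicator hsl
  rw [lintegral_pm v hG, ← lintegral_indicator hsl, ← lintegral_const_mul _ hi]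
  refine lintegral_congr fun x => ?_
  unfold FFd
  by_cases hx : x ∈ slab v
  · have hx' : (v, x) ∈ {p : E n × E n | p.2 ∈ slab p.1} := hx
    rw [indicator_of_mem hx, indicator_of_mem hx', mul_assoc]
  · have hx' : (v, x) ∉ {p : E n × E n | p.2 ∈ slab p.1} := hx
    rw [indicator_of_notMem hx, indicator_of_notMem hx', mul_zero, zero_mul]

private theorem FF_gam_pos {n : ℕ} (v : E n) : 0 < gam v := Real.exp_pos _

private theorem FF_ae_ne (k : ℕ) : ∀ᵐ v : E (k + 1), v ≠ 0 := by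
  rw [ae_iff]
  simp

private theorem FF_C (k : ℕ) {v : E (k + 1)} (hv : v ≠ 0) :
    ∫⁻ y, ENNReal.ofReal (gam y) ∂(pm v) = ∫⁻ y : E k, ENNReal.ofReal (gam y) := lintegral_gam_pm hv

private theorem FF_W {k : ℕ} (hk : 1 ≤ k) : ∫⁻ v : E (k + 1), ENNReal.ofReal (‖v‖⁻¹ * gam v) < ∞ :=
  (integrable_W (n := k + 1) (by omega)).lintegral_lt_top

private noncomputable def FFJ {n : ℕ} (G : E n × E n → ℝ) (δ : ℝ) (v : E n) : ℝ≥0∞ :=
  ENNReal.ofReal (gam v) * (ENNReal.ofReal δ⁻¹ *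
    ∫⁻ ξ in {ξ : E n | 0 ≤ inner ℝ v ξ ∧ inner ℝ v ξ ≤ δ}, ENNReal.ofReal (G (v, ξ) * gam ξ))

private theorem FF_set {n : ℕ} (δ : ℝ) : MeasurableSet {p : E n × E n | 0 ≤ inner ℝ p.1 p.2 ∧ inner ℝ p.1 p.2 ≤ δ} := by
  have h1 : Measurable fun p : E n × E n => (inner ℝ p.1 p.2 : ℝ) := (continuous_fst.inner continuous_snd).measurable
  exact (measurableSet_le measurable_const h1).inter (measurableSet_le h1 measurable_const)

private theorem FFJ_eq {n : ℕ} {G : E n × E n → ℝ} (δ : ℝ) (v : E n) :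
    FFJ G δ v = ENNReal.ofReal δ⁻¹ * ∫⁻ ξ, ENNReal.ofReal (gam v) *
      {p : E n × E n | 0 ≤ inner ℝ p.1 p.2 ∧ inner ℝ p.1 p.2 ≤ δ}.indicator
        (fun p => ENNReal.ofReal (G p * gam p.2)) (v, ξ) := by
  have hs : MeasurableSet {ξ : E n | 0 ≤ inner ℝ v ξ ∧ inner ℝ v ξ ≤ δ} :=
    measurable_prodMk_left (x := v) (FF_set δ)
  unfold FFJ
  rw [← lintegral_indicator hs, lintegral_const_mul' _ _ ENNReal.ofReal_ne_top, mul_left_comm]
  rfl

private theorem FFJ_meas {n : ℕ} {G : E n × E n → ℝ} (hG : Continuous G) (δ : ℝ) : Measurable (FFJ G δ) := by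
  have h1 : Measurable fun p : E n × E n => ENNReal.ofReal (gam p.1) *
      {p : E n × E n | 0 ≤ inner ℝ p.1 p.2 ∧ inner ℝ p.1 p.2 ≤ δ}.indicator
        (fun p => ENNReal.ofReal (G p * gam p.2)) p := by
    refine (ENNReal.measurable_ofReal.comp (measurable_gam.comp measurable_fst)).mul (Measurable.indicator ?_ (FF_set δ))
    exact ENNReal.measurable_ofReal.comp (hG.measurable.mul (measurable_gam.comp measurable_snd))
  have h2 := (h1.lintegral_prod_right' (ν := volume)).const_mul (ENNReal.ofReal δ⁻¹)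
  rw [funext fun v => FFJ_eq (G := G) δ v]
  exact h2

private theorem FFJ_swap {n : ℕ} {G : E n × E n → ℝ} (hG : Continuous G) (hG0 : ∀ p, 0 ≤ G p) (δ : ℝ) :
    ∫⁻ v, FFJ G δ v = ∫⁻ v, FFJ (G ∘ Prod.swap) δ v := by
  have hm : ∀ G : E n × E n → ℝ, Continuous G → Measurable fun p : E n × E n => ENNReal.ofReal (gam p.1) *
      {p : E n × E n | 0 ≤ inner ℝ p.1 p.2 ∧ inner ℝ p.1 p.2 ≤ δ}.indicator
        (fun p => ENNReal.ofReal (G p * gam p.2)) p := by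
    intro G hG
    refine (ENNReal.measurable_ofReal.comp (measurable_gam.comp measurable_fst)).mul (Measurable.indicator ?_ (FF_set δ))
    exact ENNReal.measurable_ofReal.comp (hG.measurable.mul (measurable_gam.comp measurable_snd))
  rw [lintegral_congr fun v => FFJ_eq (G := G) δ v, lintegral_congr fun v => FFJ_eq (G := G ∘ Prod.swap) δ v,
    lintegral_const_mul' _ _ ENNReal.ofReal_ne_top, lintegral_const_mul' _ _ ENNReal.ofReal_ne_top,
    lintegral_lintegral_swap (hm G hG).aemeasurable]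
  congr 1
  refine lintegral_congr fun ξ => lintegral_congr fun v => ?_
  by_cases h : 0 ≤ (inner ℝ v ξ : ℝ) ∧ inner ℝ v ξ ≤ δ
  · have h1 : (v, ξ) ∈ {p : E n × E n | 0 ≤ inner ℝ p.1 p.2 ∧ inner ℝ p.1 p.2 ≤ δ} := h
    have h2 : (ξ, v) ∈ {p : E n × E n | 0 ≤ inner ℝ p.1 p.2 ∧ inner ℝ p.1 p.2 ≤ δ} := by
      change 0 ≤ (inner ℝ ξ v : ℝ) ∧ inner ℝ ξ v ≤ δ
      rw [real_inner_comm v ξ]
      exact h
    rw [indicator_of_mem h1, indicator_of_mem h2]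
    change ENNReal.ofReal (gam v) * ENNReal.ofReal (G (v, ξ) * gam ξ) =
      ENNReal.ofReal (gam ξ) * ENNReal.ofReal (G (v, ξ) * gam v)
    rw [ENNReal.ofReal_mul (hG0 _), ENNReal.ofReal_mul (hG0 _)]
    ring
  · have h1 : (v, ξ) ∉ {p : E n × E n | 0 ≤ inner ℝ p.1 p.2 ∧ inner ℝ p.1 p.2 ≤ δ} := h
    have h2 : (ξ, v) ∉ {p : E n × E n | 0 ≤ inner ℝ p.1 p.2 ∧ inner ℝ p.1 p.2 ≤ δ} := by
      change ¬(0 ≤ (inner ℝ ξ v : ℝ) ∧ inner ℝ ξ v ≤ δ)
      rw [real_inner_comm v ξ]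
      exact h
    rw [indicator_of_notMem h1, indicator_of_notMem h2, mul_zero, mul_zero]

private theorem FFJ_lim {k : ℕ} (hk : 1 ≤ k) {G : E (k + 1) × E (k + 1) → ℝ} (hG : Continuous G) (hG0 : ∀ p, 0 ≤ G p)
    {M : ℝ} (hM : ∀ p, |G p| ≤ M) :
    Tendsto (fun δ : ℝ => ∫⁻ v, FFJ G δ v) (𝓝[>] 0) (𝓝 (∫⁻ p, ENNReal.ofReal (G p) ∂(FFm (k + 1)))) := by
  have hGm : Measurable fun p => ENNReal.ofReal (G p) := ENNReal.measurable_ofReal.comp hG.measurable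
  rw [FFm_lint hGm]
  set C : ℝ≥0∞ := ∫⁻ y : E k, ENNReal.ofReal (gam y) with hC
  have hCt : C < ∞ := lintegral_gam_lt
  refine tendsto_lintegral_filter_of_dominated_convergence
    (fun v => ENNReal.ofReal (‖v‖⁻¹ * gam v) * (ENNReal.ofReal M * C))
    (Filter.Eventually.of_forall fun δ => FFJ_meas hG δ) ?_ ?_ ?_
  · filter_upwards [self_mem_nhdsWithin] with δ hδ
    filter_upwards [FF_ae_ne k] with v hv
    have h1 := slab_bound hv hδ (G := fun ξ => G (v, ξ)) (by fun_prop) (M := M) fun x => hM _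
    rw [FF_C k hv] at h1
    unfold FFJ
    refine (mul_le_mul_right h1 _).trans_eq ?_
    rw [mul_comm ‖v‖⁻¹ (gam v), ENNReal.ofReal_mul (FF_gam_pos v).le, mul_assoc]
  · rw [lintegral_mul_const' _ _ (ENNReal.mul_lt_top ENNReal.ofReal_lt_top hCt).ne]
    exact (ENNReal.mul_lt_top (FF_W hk) (ENNReal.mul_lt_top ENNReal.ofReal_lt_top hCt)).ne
  · filter_upwards [FF_ae_ne k] with v hv
    have h1 := slab_limit hv (G := fun ξ => G (v, ξ)) (by fun_prop) (fun x => hG0 _) (M := M) fun x => hM _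
    have h2 := ENNReal.Tendsto.const_mul (a := ENNReal.ofReal (gam v)) h1 (Or.inr ENNReal.ofReal_ne_top)
    have h3 : ENNReal.ofReal (gam v) * (ENNReal.ofReal ‖v‖⁻¹ * ∫⁻ y, ENNReal.ofReal (G (v, y) * gam y) ∂(pm v)) =
        ENNReal.ofReal (‖v‖⁻¹ * gam v) * ∫⁻ y, ENNReal.ofReal (gam y) * ENNReal.ofReal (G (v, y)) ∂(pm v) := by
      rw [mul_comm ‖v‖⁻¹ (gam v), ENNReal.ofReal_mul (FF_gam_pos v).le, mul_assoc]
      congr 2
      refine lintegral_congr fun y => ?_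
      rw [mul_comm (G (v, y)), ENNReal.ofReal_mul (FF_gam_pos y).le]
    rw [h3] at h2
    exact h2

private theorem FFm_fin {k : ℕ} (hk : 1 ≤ k) : IsFiniteMeasure (FFm (k + 1)) := by
  refine ⟨?_⟩
  have h1 : FFm (k + 1) univ = ∫⁻ p, (fun _ => (1 : ℝ≥0∞)) p ∂(FFm (k + 1)) := by
    rw [lintegral_const, one_mul]
  rw [h1, FFm_lint measurable_const]
  have hCt : (∫⁻ y : E k, ENNReal.ofReal (gam y)) < ∞ := lintegral_gam_lt
  have h2 : ∫⁻ v : E (k + 1), ENNReal.ofReal (‖v‖⁻¹ * gam v) * ∫⁻ y, ENNReal.ofReal (gam y) * 1 ∂(pm v) =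
      ∫⁻ v : E (k + 1), ENNReal.ofReal (‖v‖⁻¹ * gam v) * ∫⁻ y : E k, ENNReal.ofReal (gam y) := by
    refine lintegral_congr_ae ?_
    filter_upwards [FF_ae_ne k] with v hv
    simp only [mul_one]
    rw [FF_C k hv]
  rw [h2, lintegral_mul_const' _ _ hCt.ne]
  exact ENNReal.mul_lt_top (FF_W hk) hCt

private theorem FFm_swap {k : ℕ} (hk : 1 ≤ k) : FFm (k + 1) = (FFm (k + 1)).map Prod.swap := by
  have hfin := FFm_fin hk
  have hfin2 : IsFiniteMeasure ((FFm (k + 1)).map Prod.swap) := Measure.isFiniteMeasure_map _ _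
  refine ext_of_forall_lintegral_eq_of_IsFiniteMeasure fun f => ?_
  have hfm : Measurable fun p : E (k + 1) × E (k + 1) => (f p : ℝ≥0∞) := (ENNReal.continuous_coe.comp f.continuous).measurable
  rw [lintegral_map hfm measurable_swap]
  set G : E (k + 1) × E (k + 1) → ℝ := fun p => (f p : ℝ) with hG
  have hGc : Continuous G := NNReal.continuous_coe.comp f.continuous
  have hG0 : ∀ p, 0 ≤ G p := fun p => NNReal.coe_nonneg _
  obtain ⟨M, hM⟩ : ∃ M : ℝ, ∀ p, |G p| ≤ M := by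
    refine ⟨(nndist f 0 : ℝ), fun p => ?_⟩
    rw [abs_of_nonneg (hG0 p)]
    exact NNReal.coe_le_coe.mpr (BoundedContinuousFunction.NNReal.upper_bound f p)
  have h1 := FFJ_lim hk hGc hG0 hM
  have h2 := FFJ_lim hk (G := G ∘ Prod.swap) (hGc.comp continuous_swap) (fun p => hG0 _) (M := M) fun p => hM _
  have h3 : (fun δ : ℝ => ∫⁻ v, FFJ G δ v) = fun δ => ∫⁻ v, FFJ (G ∘ Prod.swap) δ v :=
    funext fun δ => FFJ_swap hGc hG0 δ
  rw [h3] at h1
  have h4 := tendsto_nhds_unique h1 h2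
  have h5 : ∀ p, ENNReal.ofReal (G p) = (f p : ℝ≥0∞) := fun p => ENNReal.ofReal_coe_nnreal
  have h6 : ∀ p, ENNReal.ofReal ((G ∘ Prod.swap) p) = (f p.swap : ℝ≥0∞) := fun p => ENNReal.ofReal_coe_nnreal
  rw [lintegral_congr h5, lintegral_congr h6] at h4
  exact h4

private theorem FF_div {n : ℕ} {F : E n × E n → ℝ≥0∞} (hF : Measurable F) :
    ∫⁻ p, F p * (ENNReal.ofReal (gam p.1 * gam p.2))⁻¹ ∂(FFm n) =
      ∫⁻ v, ENNReal.ofReal ‖v‖⁻¹ * ∫⁻ y, F (v, y) ∂(pm v) := by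
  have hm : Measurable fun p : E n × E n => F p * (ENNReal.ofReal (gam p.1 * gam p.2))⁻¹ :=
    hF.mul (ENNReal.measurable_ofReal.comp ((measurable_gam.comp measurable_fst).mul
      (measurable_gam.comp measurable_snd))).inv
  rw [FFm_lint hm]
  refine lintegral_congr fun v => ?_
  have hg : ENNReal.ofReal (gam v) ≠ 0 := by
    rw [Ne, ENNReal.ofReal_eq_zero, not_le]
    exact FF_gam_pos v
  have h1 : ∀ y : E n, ENNReal.ofReal (gam y) * (F (v, y) * (ENNReal.ofReal (gam v * gam y))⁻¹) =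
      (ENNReal.ofReal (gam v))⁻¹ * F (v, y) := by
    intro y
    have hy : ENNReal.ofReal (gam y) ≠ 0 := by
      rw [Ne, ENNReal.ofReal_eq_zero, not_le]
      exact FF_gam_pos y
    rw [ENNReal.ofReal_mul (FF_gam_pos v).le, ENNReal.mul_inv (Or.inl hg) (Or.inl ENNReal.ofReal_ne_top)]
    calc ENNReal.ofReal (gam y) * (F (v, y) * ((ENNReal.ofReal (gam v))⁻¹ * (ENNReal.ofReal (gam y))⁻¹))
        = (ENNReal.ofReal (gam y) * (ENNReal.ofReal (gam y))⁻¹) * ((ENNReal.ofReal (gam v))⁻¹ * F (v, y)) := by ring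
      _ = _ := by rw [ENNReal.mul_inv_cancel hy ENNReal.ofReal_ne_top, one_mul]
  rw [lintegral_congr h1, lintegral_const_mul' _ _ (ENNReal.inv_ne_top.mpr hg), ENNReal.ofReal_mul (inv_nonneg.mpr (norm_nonneg v))]
  calc ENNReal.ofReal ‖v‖⁻¹ * ENNReal.ofReal (gam v) * ((ENNReal.ofReal (gam v))⁻¹ * ∫⁻ y, F (v, y) ∂(pm v))
      = (ENNReal.ofReal (gam v) * (ENNReal.ofReal (gam v))⁻¹) * (ENNReal.ofReal ‖v‖⁻¹ * ∫⁻ y, F (v, y) ∂(pm v)) := by ring
    _ = _ := by rw [ENNReal.mul_inv_cancel hg ENNReal.ofReal_ne_top, one_mul]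

theorem flag_fubini {k : ℕ} (hk : 1 ≤ k) {F : E (k + 1) × E (k + 1) → ℝ≥0∞}
    (hF : Measurable F) :
    ∫⁻ v, ENNReal.ofReal ‖v‖⁻¹ * ∫⁻ y, F (v, y) ∂(pm v) =
      ∫⁻ ξ, ENNReal.ofReal ‖ξ‖⁻¹ * ∫⁻ w, F (w, ξ) ∂(pm ξ) := by
  have hm : Measurable fun p : E (k + 1) × E (k + 1) => F p * (ENNReal.ofReal (gam p.1 * gam p.2))⁻¹ :=
    hF.mul (ENNReal.measurable_ofReal.comp ((measurable_gam.comp measurable_fst).mul
      (measurable_gam.comp measurable_snd))).inv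
  have h1 := FF_div hF
  have h2 := FF_div (F := F ∘ Prod.swap) (hF.comp measurable_swap)
  rw [← h1]
  refine Eq.trans ?_ h2
  conv_lhs => rw [FFm_swap hk]
  rw [lintegral_map hm measurable_swap]
  refine lintegral_congr fun p => ?_
  change F p.swap * (ENNReal.ofReal (gam p.2 * gam p.1))⁻¹ = F p.swap * (ENNReal.ofReal (gam p.1 * gam p.2))⁻¹
  rw [mul_comm (gam p.2)]

private theorem FF_int {k : ℕ} {F : E (k + 1) × E (k + 1) → ℝ} (hF : Measurable F)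
    (hfin : ∫⁻ v, ENNReal.ofReal ‖v‖⁻¹ * ∫⁻ y, ‖F (v, y)‖ₑ ∂(pm v) ≠ ∞) :
    ∫ v, ‖v‖⁻¹ * ∫ y, F (v, y) ∂(pm v) =
      (∫⁻ v, ENNReal.ofReal ‖v‖⁻¹ * ∫⁻ y, ENNReal.ofReal (F (v, y)) ∂(pm v)).toReal -
      (∫⁻ v, ENNReal.ofReal ‖v‖⁻¹ * ∫⁻ y, ENNReal.ofReal (-F (v, y)) ∂(pm v)).toReal := by
  have hnm : Measurable fun v : E (k + 1) => ENNReal.ofReal ‖v‖⁻¹ := ENNReal.measurable_ofReal.comp measurable_norm.inv
  have hm0 : ∀ H : E (k + 1) × E (k + 1) → ℝ≥0∞, Measurable H →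
      Measurable fun v => ENNReal.ofReal ‖v‖⁻¹ * ∫⁻ y, H (v, y) ∂(pm v) := fun H hH => hnm.mul (measurable_lintegral_pm hH)
  have hHe : Measurable fun p => ‖F p‖ₑ := hF.enorm
  have hHp : Measurable fun p => ENNReal.ofReal (F p) := ENNReal.measurable_ofReal.comp hF
  have hHn : Measurable fun p => ENNReal.ofReal (-F p) := ENNReal.measurable_ofReal.comp hF.neg
  have hfinae := ae_lt_top (hm0 _ hHe) hfin
  have hle : ∀ (H : E (k + 1) × E (k + 1) → ℝ≥0∞), (∀ p, H p ≤ ‖F p‖ₑ) → ∀ v : E (k + 1),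
      ENNReal.ofReal ‖v‖⁻¹ * ∫⁻ y, H (v, y) ∂(pm v) ≤ ENNReal.ofReal ‖v‖⁻¹ * ∫⁻ y, ‖F (v, y)‖ₑ ∂(pm v) :=
    fun H hH v => mul_le_mul_right (lintegral_mono fun y => hH _) _
  have hlp : ∀ p, ENNReal.ofReal (F p) ≤ ‖F p‖ₑ := fun p => by
    rw [← ofReal_norm]
    exact ENNReal.ofReal_le_ofReal (le_abs_self _)
  have hln : ∀ p, ENNReal.ofReal (-F p) ≤ ‖F p‖ₑ := fun p => by
    rw [← ofReal_norm]
    exact ENNReal.ofReal_le_ofReal (neg_le_abs _)
  have hint : ∀ H : E (k + 1) × E (k + 1) → ℝ≥0∞, Measurable H → (∀ p, H p ≤ ‖F p‖ₑ) →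
      Integrable (fun v => (ENNReal.ofReal ‖v‖⁻¹ * ∫⁻ y, H (v, y) ∂(pm v)).toReal) ∧
      ∫ v, (ENNReal.ofReal ‖v‖⁻¹ * ∫⁻ y, H (v, y) ∂(pm v)).toReal =
        (∫⁻ v, ENNReal.ofReal ‖v‖⁻¹ * ∫⁻ y, H (v, y) ∂(pm v)).toReal := by
    intro H hH hHF
    have h1 : ∫⁻ v, ENNReal.ofReal ‖v‖⁻¹ * ∫⁻ y, H (v, y) ∂(pm v) ≠ ∞ :=
      ne_top_of_le_ne_top hfin (lintegral_mono (hle H hHF))
    exact ⟨integrable_toReal_of_lintegral_ne_top (hm0 H hH).aemeasurable h1,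
      integral_toReal (hm0 H hH).aemeasurable (ae_lt_top (hm0 H hH) h1)⟩
  have hp := hint _ hHp hlp
  have hn := hint _ hHn hln
  rw [← hp.2, ← hn.2, ← integral_sub hp.1 hn.1]
  refine integral_congr_ae ?_
  filter_upwards [hfinae, FF_ae_ne k] with v hv hv0
  have hvp : 0 < ‖v‖⁻¹ := inv_pos.mpr (norm_pos_iff.mpr hv0)
  have h2 : ∫⁻ y, ‖F (v, y)‖ₑ ∂(pm v) < ∞ := by
    by_contra h
    rw [not_lt, top_le_iff] at h
    rw [h, ENNReal.mul_top (by rw [Ne, ENNReal.ofReal_eq_zero, not_le]; exact hvp)] at hv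
    exact lt_irrefl _ hv
  have hFv : Measurable fun y => F (v, y) := hF.comp measurable_prodMk_left
  have h3 : Integrable (fun y => F (v, y)) (pm v) := ⟨hFv.aestronglyMeasurable, h2⟩
  rw [integral_eq_lintegral_pos_part_sub_lintegral_neg_part h3, ENNReal.toReal_mul, ENNReal.toReal_mul,
    ENNReal.toReal_ofReal hvp.le, mul_sub]

theorem flag_integral {k : ℕ} (hk : 1 ≤ k) {F : E (k + 1) × E (k + 1) → ℝ} (hF : Measurable F)
    (hfin : ∫⁻ v, ENNReal.ofReal ‖v‖⁻¹ * ∫⁻ y, ‖F (v, y)‖ₑ ∂(pm v) ≠ ∞) :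
    ∫ v, ‖v‖⁻¹ * ∫ y, F (v, y) ∂(pm v) = ∫ ξ, ‖ξ‖⁻¹ * ∫ w, F (w, ξ) ∂(pm ξ) := by
  have hfin2 : ∫⁻ v, ENNReal.ofReal ‖v‖⁻¹ * ∫⁻ y, ‖(F ∘ Prod.swap) (v, y)‖ₑ ∂(pm v) ≠ ∞ := by
    have h1 := flag_fubini hk (F := fun p => ‖F p‖ₑ) hF.enorm
    rw [h1] at hfin
    exact hfin
  have h2 := FF_int (F := F ∘ Prod.swap) (hF.comp measurable_swap) hfin2
  refine (FF_int hF hfin).trans (Eq.trans ?_ h2.symm)
  rw [flag_fubini hk (F := fun p => ENNReal.ofReal (F p)) (ENNReal.measurable_ofReal.comp hF),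
    flag_fubini hk (F := fun p => ENNReal.ofReal (-F p)) (ENNReal.measurable_ofReal.comp hF.neg)]
  rfl

private theorem FF_ae {k : ℕ} {A : Set (E (k + 1) × E (k + 1))} (hA : MeasurableSet A) :
    (∀ᵐ v, ∀ᵐ y ∂(pm v), (v, y) ∈ A) ↔
      ∫⁻ v, ENNReal.ofReal ‖v‖⁻¹ * ∫⁻ y, Aᶜ.indicator (1 : E (k + 1) × E (k + 1) → ℝ≥0∞) (v, y) ∂(pm v) = 0 := by
  have hnm : Measurable fun v : E (k + 1) => ENNReal.ofReal ‖v‖⁻¹ := ENNReal.measurable_ofReal.comp measurable_norm.inv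
  have hi : Measurable (Aᶜ.indicator (1 : E (k + 1) × E (k + 1) → ℝ≥0∞)) := measurable_one.indicator hA.compl
  have hpm : ∀ v : E (k + 1), ∫⁻ y, Aᶜ.indicator (1 : E (k + 1) × E (k + 1) → ℝ≥0∞) (v, y) ∂(pm v) =
      pm v {y | (v, y) ∉ A} := by
    intro v
    have hs : MeasurableSet {y : E (k + 1) | (v, y) ∉ A} := measurable_prodMk_left hA.compl
    rw [← lintegral_indicator_one hs]
    rfl
  have hmm : Measurable fun v => ENNReal.ofReal ‖v‖⁻¹ *
      ∫⁻ y, Aᶜ.indicator (1 : E (k + 1) × E (k + 1) → ℝ≥0∞) (v, y) ∂(pm v) := hnm.mul (measurable_lintegral_pm hi)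
  rw [lintegral_eq_zero_iff hmm]
  constructor
  · intro h
    filter_upwards [h] with v hv
    change ENNReal.ofReal ‖v‖⁻¹ * _ = 0
    rw [hpm, ae_iff.mp hv, mul_zero]
  · intro h
    filter_upwards [h, FF_ae_ne k] with v hv hv0
    have hv' : ENNReal.ofReal ‖v‖⁻¹ * ∫⁻ y, Aᶜ.indicator (1 : E (k + 1) × E (k + 1) → ℝ≥0∞) (v, y) ∂(pm v) = 0 := hv
    rw [hpm] at hv'
    rcases mul_eq_zero.mp hv' with h1 | h1
    · rw [ENNReal.ofReal_eq_zero] at h1
      exact absurd h1 (not_le.mpr (inv_pos.mpr (norm_pos_iff.mpr hv0)))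
    · exact ae_iff.mpr h1

/-- almost all flags, both ways -/
theorem flag_ae {k : ℕ} (hk : 1 ≤ k) {A : Set (E (k + 1) × E (k + 1))} (hA : MeasurableSet A) :
    (∀ᵐ v, ∀ᵐ y ∂(pm v), (v, y) ∈ A) ↔ ∀ᵐ ξ, ∀ᵐ w ∂(pm ξ), (w, ξ) ∈ A := by
  have h1 := FF_ae hA
  have h2 := FF_ae (A := Prod.swap ⁻¹' A) (measurable_swap hA)
  have h3 := flag_fubini hk (F := Aᶜ.indicator (1 : E (k + 1) × E (k + 1) → ℝ≥0∞)) (measurable_one.indicator hA.compl)
  rw [h1, h3]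
  exact h2.symm

end Pool.Agent.MP_c8a077_gtP
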