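import Pool.Agent.Lib.MP_c8a077_gtP.Ms
import Pool.Agent.Lib.MP_c8a077_gtP.Pm

/-!
# JOB FFa (about 220 lines): the hyperplane `v^⊥` as a limit of slabs

(`Ms`, `Dec`, `Pm` may still contain sorry.)
PROOF of `slab_subst`.  Let `e = v / ‖v‖`, `τ = δ / ‖v‖ > 0` and `A x = pr v x + τ ⟪x, e⟫ e`, a linear bijection of `E n`, which is the identity
on `v^⊥` and `e ↦ τ e`; `|det A| = τ`.  `⟪v, A x⟫ = τ ⟪x,e⟫ ‖v‖ = δ ⟪x,e⟫`, so `A ⁻¹' {0 ≤ ⟪v,ξ⟫ ≤ δ} = slab v`.  Instead of the determinant use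
the coordinates `Φ (y, s) = ι y + s e` of `dec_mp` (`n = k + 1`; `n = 0` is impossible as `v ≠ 0`): the left side is
`∫⁻ y, ∫⁻ s, F (ι y + s e) 1[0 ≤ s ≤ δ/‖v‖]`, substitute `s = τ s'`, `0 ≤ s' ≤ 1` (`Measure.lintegral_comp_mul_left` or
`lintegral_comp_smul`, in the current Mathlib `MeasureTheory.Measure.addHaar_preimage_smul`/`Real.map_volume_mul_left`).
Note `τ ⟪x,e⟫ e = (δ ⟪x,v⟫ / ‖v‖^3) v`.
PROOF of `slab_limit`.  `‖pr v x + c v‖² = ‖pr v x‖² + c²‖v‖² ≥ ‖pr v x‖²`, so `gam (pr v x + c v) ≤ gam (pr v x)`.  By `slab_subst` the expression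
equals `ofReal ‖v‖⁻¹ * ∫⁻ x in slab v, ofReal (G (v, pr v x + c_δ v) * gam (pr v x + c_δ v))` with `c_δ = δ ⟪x,v⟫/‖v‖^3 → 0`; dominated
convergence (`tendsto_lintegral_filter_of_dominated_convergence`, bound `ofReal (M * gam (pr v x))` on `slab v`, whose integral is
`M * ∫⁻ ofReal (gam y) ∂pm v < ∞`).  The bound `slab_bound` is the same estimate.
-/

open MeasureTheory Set Metric Topology Filter
open Pool.Agent.MP_c8a077_gt
open scoped ENNReal NNReal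

namespace Pool.Agent.MP_c8a077_gtP

theorem fFa_inner_pr {n : ℕ} {v : E n} (hv : v ≠ 0) (x : E n) : inner ℝ (pr v x) v = (0 : ℝ) := by
  have hv' : ‖v‖ ≠ 0 := norm_ne_zero_iff.2 hv
  unfold pr
  rw [inner_sub_left, real_inner_smul_left, real_inner_self_eq_norm_sq]
  field_simp
  ring

theorem fFa_cont_pr {n : ℕ} (v : E n) : Continuous (pr v) := by
  unfold pr
  fun_prop

theorem fFa_meas {n : ℕ} (v : E n) (b : ℝ) :
    MeasurableSet {ξ : E n | 0 ≤ inner ℝ ξ v ∧ inner ℝ ξ v ≤ b} := by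
  have hc : Continuous fun ξ : E n => (inner ℝ ξ v : ℝ) := by fun_prop
  have h1 : IsClosed {ξ : E n | (0 : ℝ) ≤ inner ℝ ξ v} := isClosed_le continuous_const hc
  have h2 : IsClosed {ξ : E n | inner ℝ ξ v ≤ b} := isClosed_le hc continuous_const
  exact h1.measurableSet.inter h2.measurableSet

theorem fFa_gam_le {n : ℕ} {v : E n} (hv : v ≠ 0) (x : E n) (c : ℝ) :
    gam (pr v x + c • v) ≤ gam (pr v x) := by
  unfold gam
  refine Real.exp_le_exp.2 ?_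
  have h1 : ‖pr v x + c • v‖ ^ 2 = ‖pr v x‖ ^ 2 + c ^ 2 * ‖v‖ ^ 2 := by
    rw [norm_add_sq_real, real_inner_smul_right, fFa_inner_pr hv, norm_smul, mul_pow,
      Real.norm_eq_abs, sq_abs]
    ring
  have h2 : 0 ≤ c ^ 2 * ‖v‖ ^ 2 := by positivity
  rw [h1]
  linarith

/-- Integrals over slabs in coordinates. -/
theorem fFa_slab {k : ℕ} {v : E (k + 1)} (hv : v ≠ 0) (a : ℝ) {F : E (k + 1) → ℝ≥0∞}
    (hF : Measurable F) :
    ∫⁻ ξ in {ξ : E (k + 1) | 0 ≤ inner ℝ ξ v ∧ inner ℝ ξ v ≤ a * ‖v‖}, F ξ =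
      ∫⁻ s in Icc (0 : ℝ) a, ∫⁻ y, F (y + (s / ‖v‖) • v) ∂(pm v) := by
  have hv' : 0 < ‖v‖ := norm_pos_iff.2 hv
  have hm : MeasurableSet {ξ : E (k + 1) | 0 ≤ inner ℝ ξ v ∧ inner ℝ ξ v ≤ a * ‖v‖} :=
    fFa_meas v _
  rw [← lintegral_indicator hm, lintegral_slice hv (hF.indicator hm),
    ← lintegral_indicator measurableSet_Icc]
  refine lintegral_congr fun s => ?_
  by_cases hs : s ∈ Icc (0 : ℝ) a
  · rw [indicator_of_mem hs]
    refine lintegral_congr_ae ?_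
    filter_upwards [pm_perp hv] with y hy
    refine indicator_of_mem ?_ F
    have h1 : inner ℝ (y + (s / ‖v‖) • v) v = s * ‖v‖ := by
      rw [inner_add_left, hy, real_inner_smul_left, real_inner_self_eq_norm_sq]
      field_simp
      ring
    show 0 ≤ inner ℝ (y + (s / ‖v‖) • v) v ∧ inner ℝ (y + (s / ‖v‖) • v) v ≤ a * ‖v‖
    rw [h1]
    exact ⟨mul_nonneg hs.1 hv'.le, mul_le_mul_of_nonneg_right hs.2 hv'.le⟩
  · rw [indicator_of_notMem hs]
    have h2 : (fun y => {ξ : E (k + 1) | 0 ≤ inner ℝ ξ v ∧ inner ℝ ξ v ≤ a * ‖v‖}.indicator F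
        (y + (s / ‖v‖) • v)) =ᵐ[pm v] fun _ => 0 := by
      filter_upwards [pm_perp hv] with y hy
      refine indicator_of_notMem ?_ F
      have h1 : inner ℝ (y + (s / ‖v‖) • v) v = s * ‖v‖ := by
        rw [inner_add_left, hy, real_inner_smul_left, real_inner_self_eq_norm_sq]
        field_simp
        ring
      intro h3
      have h4 : 0 ≤ inner ℝ (y + (s / ‖v‖) • v) v ∧
        inner ℝ (y + (s / ‖v‖) • v) v ≤ a * ‖v‖ := h3
      rw [h1] at h4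
      exact hs ⟨nonneg_of_mul_nonneg_left h4.1 hv', le_of_mul_le_mul_right h4.2 hv'⟩
    rw [lintegral_congr_ae h2, lintegral_zero]

/-- Scaling. -/
theorem fFa_scale {τ : ℝ} (hτ : 0 < τ) (G : ℝ → ℝ≥0∞) :
    ∫⁻ s in Icc (0 : ℝ) τ, G s = ENNReal.ofReal τ * ∫⁻ s in Icc (0 : ℝ) 1, G (τ * s) := by
  obtain ⟨g, hg⟩ : ∃ g : ℝ ≃ᵐ ℝ, ∀ s, g s = τ * s :=
    ⟨(Homeomorph.mulLeft₀ τ hτ.ne').toMeasurableEquiv, fun s => rfl⟩
  have hg' : (g : ℝ → ℝ) = fun s => τ * s := funext hg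
  have h1 : (volume : Measure ℝ) = ENNReal.ofReal τ • Measure.map g volume := by
    have h2 := Real.smul_map_volume_mul_left hτ.ne'
    rw [abs_of_pos hτ] at h2
    rw [hg']
    exact h2.symm
  rw [← lintegral_indicator measurableSet_Icc, ← lintegral_indicator measurableSet_Icc]
  conv_lhs => rw [h1]
  rw [lintegral_smul_measure, lintegral_map_equiv, smul_eq_mul]
  congr 1
  refine lintegral_congr fun s => ?_
  rw [hg]
  by_cases hs : s ∈ Icc (0 : ℝ) 1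
  · rw [indicator_of_mem hs, indicator_of_mem]
    exact ⟨mul_nonneg hτ.le hs.1, by nlinarith [hs.2]⟩
  · rw [indicator_of_notMem hs, indicator_of_notMem]
    intro h3
    refine hs ⟨nonneg_of_mul_nonneg_right h3.1 hτ, ?_⟩
    by_contra h4
    push Not at h4
    nlinarith [h3.2]

theorem slab_subst {n : ℕ} {v : E n} (hv : v ≠ 0) {δ : ℝ} (hδ : 0 < δ) {F : E n → ℝ≥0∞}
    (hF : Measurable F) :
    ∫⁻ ξ in {ξ : E n | 0 ≤ inner ℝ v ξ ∧ inner ℝ v ξ ≤ δ}, F ξ =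
      ENNReal.ofReal (δ / ‖v‖) *
        ∫⁻ x in slab v, F (pr v x + (δ * inner ℝ x v / ‖v‖ ^ 3) • v) := by
  rcases n with _ | k
  · exact absurd (Subsingleton.elim v 0) hv
  have hv' : 0 < ‖v‖ := norm_pos_iff.2 hv
  have h1 : {ξ : E (k + 1) | 0 ≤ inner ℝ v ξ ∧ inner ℝ v ξ ≤ δ} =
      {ξ : E (k + 1) | 0 ≤ inner ℝ ξ v ∧ inner ℝ ξ v ≤ δ / ‖v‖ * ‖v‖} := by
    ext ξ
    show (0 ≤ inner ℝ v ξ ∧ inner ℝ v ξ ≤ δ) ↔ _
    rw [real_inner_comm, div_mul_cancel₀ _ hv'.ne']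
    rfl
  have h2 : slab v = {ξ : E (k + 1) | 0 ≤ inner ℝ ξ v ∧ inner ℝ ξ v ≤ 1 * ‖v‖} := by
    unfold slab
    rw [one_mul]
  have hG : Measurable fun x : E (k + 1) => F (pr v x + (δ * inner ℝ x v / ‖v‖ ^ 3) • v) := by
    refine hF.comp ?_
    refine (fFa_cont_pr v).measurable.add ?_
    exact Continuous.measurable (by fun_prop)
  rw [h1, h2, fFa_slab hv _ hF, fFa_slab hv _ hG, fFa_scale (div_pos hδ hv')]
  congr 1
  refine setLIntegral_congr_fun measurableSet_Icc fun s _ => ?_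
  refine lintegral_congr_ae ?_
  filter_upwards [pm_perp hv] with y hy
  have e1 : inner ℝ (y + (s / ‖v‖) • v) v = s * ‖v‖ := by
    rw [inner_add_left, hy, real_inner_smul_left, real_inner_self_eq_norm_sq]
    field_simp
    ring
  have e2 : pr v (y + (s / ‖v‖) • v) = y := by
    unfold pr
    rw [e1]
    have e3 : s * ‖v‖ / ‖v‖ ^ 2 = s / ‖v‖ := by
      field_simp
    rw [e3, add_sub_cancel_right]
  rw [e1, e2]
  have e4 : δ * (s * ‖v‖) / ‖v‖ ^ 3 = δ / ‖v‖ * s / ‖v‖ := by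
    field_simp
  rw [e4]

theorem fFa_eq {n : ℕ} {v : E n} (hv : v ≠ 0) {δ : ℝ} (hδ : 0 < δ) {G : E n → ℝ}
    (hG : Continuous G) :
    ENNReal.ofReal δ⁻¹ * ∫⁻ ξ in {ξ : E n | 0 ≤ inner ℝ v ξ ∧ inner ℝ v ξ ≤ δ},
      ENNReal.ofReal (G ξ * gam ξ) =
      ENNReal.ofReal ‖v‖⁻¹ * ∫⁻ x in slab v,
        ENNReal.ofReal (G (pr v x + (δ * inner ℝ x v / ‖v‖ ^ 3) • v) *
          gam (pr v x + (δ * inner ℝ x v / ‖v‖ ^ 3) • v)) := by
  have hm : Measurable fun ξ : E n => ENNReal.ofReal (G ξ * gam ξ) :=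
    (hG.measurable.mul measurable_gam).ennreal_ofReal
  rw [slab_subst hv hδ hm, ← mul_assoc, ← ENNReal.ofReal_mul (inv_nonneg.2 hδ.le)]
  congr 2
  field_simp

theorem fFa_le {n : ℕ} {v : E n} (hv : v ≠ 0) {G : E n → ℝ} {M : ℝ} (hM : ∀ x, |G x| ≤ M)
    (x : E n) (c : ℝ) :
    ENNReal.ofReal (G (pr v x + c • v) * gam (pr v x + c • v)) ≤
      ENNReal.ofReal M * ENNReal.ofReal (gam (pr v x)) := by
  have h0 : 0 ≤ M := (abs_nonneg _).trans (hM 0)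
  rw [← ENNReal.ofReal_mul h0]
  refine ENNReal.ofReal_le_ofReal ?_
  refine mul_le_mul ((le_abs_self _).trans (hM _)) (fFa_gam_le hv x c) (Real.exp_pos _).le h0

theorem fFa_int {n : ℕ} (v : E n) (M : ℝ) :
    ∫⁻ x in slab v, ENNReal.ofReal M * ENNReal.ofReal (gam (pr v x)) =
      ENNReal.ofReal M * ∫⁻ y, ENNReal.ofReal (gam y) ∂(pm v) := by
  rw [lintegral_const_mul' _ _ ENNReal.ofReal_ne_top,
    lintegral_pm v (measurable_gam.ennreal_ofReal)]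

theorem slab_bound {n : ℕ} {v : E n} (hv : v ≠ 0) {δ : ℝ} (hδ : 0 < δ) {G : E n → ℝ}
    (hG : Continuous G) {M : ℝ} (hM : ∀ x, |G x| ≤ M) :
    ENNReal.ofReal δ⁻¹ * ∫⁻ ξ in {ξ : E n | 0 ≤ inner ℝ v ξ ∧ inner ℝ v ξ ≤ δ},
      ENNReal.ofReal (G ξ * gam ξ) ≤
      ENNReal.ofReal ‖v‖⁻¹ * (ENNReal.ofReal M * ∫⁻ y, ENNReal.ofReal (gam y) ∂(pm v)) := by
  rw [fFa_eq hv hδ hG, ← fFa_int]
  exact mul_le_mul_right (lintegral_mono fun x => fFa_le hv hM x _) _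

theorem slab_limit {n : ℕ} {v : E n} (hv : v ≠ 0) {G : E n → ℝ} (hG : Continuous G)
    (hG0 : ∀ x, 0 ≤ G x) {M : ℝ} (hM : ∀ x, |G x| ≤ M) :
    Tendsto (fun δ : ℝ => ENNReal.ofReal δ⁻¹ *
      ∫⁻ ξ in {ξ : E n | 0 ≤ inner ℝ v ξ ∧ inner ℝ v ξ ≤ δ}, ENNReal.ofReal (G ξ * gam ξ))
      (𝓝[>] 0) (𝓝 (ENNReal.ofReal ‖v‖⁻¹ * ∫⁻ y, ENNReal.ofReal (G y * gam y) ∂(pm v))) := by
  have hgc : Continuous fun v : E n => gam v := by
    unfold gam
    fun_prop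
  have hm : Measurable fun ξ : E n => ENNReal.ofReal (G ξ * gam ξ) :=
    (hG.mul hgc).measurable.ennreal_ofReal
  have hfin : ∫⁻ y, ENNReal.ofReal (gam y) ∂(pm v) < ∞ := by
    rcases n with _ | k
    · exact absurd (Subsingleton.elim v 0) hv
    · rw [lintegral_gam_pm hv]
      exact lintegral_gam_lt
  rw [lintegral_pm v hm]
  have h1 : Tendsto (fun δ : ℝ => ENNReal.ofReal ‖v‖⁻¹ * ∫⁻ x in slab v,
        ENNReal.ofReal (G (pr v x + (δ * inner ℝ x v / ‖v‖ ^ 3) • v) *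
          gam (pr v x + (δ * inner ℝ x v / ‖v‖ ^ 3) • v))) (𝓝[>] 0)
      (𝓝 (ENNReal.ofReal ‖v‖⁻¹ * ∫⁻ x in slab v, ENNReal.ofReal (G (pr v x) * gam (pr v x)))) := by
    refine ENNReal.Tendsto.const_mul ?_ (Or.inr ENNReal.ofReal_ne_top)
    refine tendsto_lintegral_filter_of_dominated_convergence
      (fun x => ENNReal.ofReal M * ENNReal.ofReal (gam (pr v x))) ?_ ?_ ?_ ?_
    · refine Eventually.of_forall fun δ => ?_
      refine hm.comp ?_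
      refine (fFa_cont_pr v).measurable.add ?_
      exact Continuous.measurable (by fun_prop)
    · exact Eventually.of_forall fun δ => Eventually.of_forall fun x => fFa_le hv hM x _
    · rw [fFa_int]
      exact ENNReal.mul_ne_top ENNReal.ofReal_ne_top hfin.ne
    · refine Eventually.of_forall fun x => ?_
      have h2 : Continuous fun δ : ℝ =>
          ENNReal.ofReal (G (pr v x + (δ * inner ℝ x v / ‖v‖ ^ 3) • v) *
            gam (pr v x + (δ * inner ℝ x v / ‖v‖ ^ 3) • v)) := by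
        refine ENNReal.continuous_ofReal.comp ?_
        have h3 : Continuous fun δ : ℝ => pr v x + (δ * inner ℝ x v / ‖v‖ ^ 3) • v := by
          fun_prop
        exact (hG.comp h3).mul (hgc.comp h3)
      have h4 := (h2.tendsto 0).mono_left (nhdsWithin_le_nhds (s := Ioi (0 : ℝ)))
      simp only [zero_mul, zero_div, zero_smul, add_zero] at h4
      exact h4
  refine h1.congr' ?_
  filter_upwards [self_mem_nhdsWithin] with δ hδ
  exact (fFa_eq hv hδ hG).symm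

end Pool.Agent.MP_c8a077_gtP
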