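import Pool.Agent.Lib.MP_c8a077_gtP.Eqa
import Pool.Agent.Lib.MP_c8a077_gtP.C3

/-!
# JOB Fl (about 200 lines): the equation for almost all flags

(All imports may still contain sorry.)
PROOF.  By `variance_zero` (`lintegral_eq_zero_iff`; the inner function is measurable in `(w, ξ)` by `measurable_ft`, `measurable_gf`, `measurable_gV`,
`measurable_sh`, `measurable_lintegral_pm`): for a.e. `ξ` (`≠ 0`), for `pm ξ`-a.e. `w` (`≠ 0` by `pm_zero`),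
`ft K w ξ / V(w) = gf K ξ / gV K ξ`, because `0 < gam w`, `0 < sh K w`.
By `poly_form`, `hP` and `ae_of_sphere`, for a.e. `ξ` the direction `u = ξ/‖ξ‖` has `P u = C (t-a)^m (b-t)^m`; `C ≠ 0` as `P > 0` on `(a,b)`.  With
`s = ‖ξ‖`: `ratio` and `hc` (`c gf K (s • u) = ∫ P exp (i s t)`, `c gV K u = ∫ P`) give
`gf K ξ / gV K ξ = exp (i s (a+b)/2) * Theta m (s (b-a)/2) = exp (i ek K ξ) * Theta m (wk K ξ)` (`hs_smul`; `gV K ξ = gV K u` by `gV_smul`).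
So `FlagEq m K w ξ` for a.e. `ξ`, `pm ξ`-a.e. `w`; the set `{(v, y) | FlagEq m K v y}` is measurable (`measurable_ft`, `measurable_sh`,
`continuous_hs`, `continuous_Theta`), and `flag_ae` exchanges the roles.
-/

open MeasureTheory Set Metric Topology Filter
open Pool.Agent.MP_c8a077_gt
open scoped ENNReal NNReal

namespace Pool.Agent.MP_c8a077_gtP

theorem Fl_meas {n m : ℕ} {K : Set (E n)} (hK : IsBody K) : MeasurableSet {p : E n × E n | FlagEq m K p.1 p.2} := by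
  unfold FlagEq
  have h1 : Measurable (fun p : E n × E n => ft K p.1 p.2) := measurable_ft hK.2.1
  have h2 : Measurable (fun p : E n × E n => (((sh K p.1).toReal : ℝ) : ℂ)) :=
    Complex.measurable_ofReal.comp ((measurable_sh hK.2.1).comp measurable_fst).ennreal_toReal
  have hc1 : Continuous (ek K) := by
    unfold ek
    exact ((continuous_hs hK).sub ((continuous_hs hK).comp continuous_neg)).div_const 2
  have hc2 : Continuous (wk K) := by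
    unfold wk
    exact ((continuous_hs hK).add ((continuous_hs hK).comp continuous_neg)).div_const 2
  have hc3 := continuous_Theta m
  have h3c : Continuous (fun y : E n => Complex.exp (Complex.I * ((ek K y : ℝ) : ℂ)) * ((Theta m (wk K y) : ℝ) : ℂ)) :=
    (Complex.continuous_exp.comp (continuous_const.mul (Complex.continuous_ofReal.comp hc1))).mul
      (Complex.continuous_ofReal.comp (hc3.comp hc2))
  have h3 : Measurable (fun p : E n × E n => Complex.exp (Complex.I * ((ek K p.2 : ℝ) : ℂ)) *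
      ((Theta m (wk K p.2) : ℝ) : ℂ)) := h3c.measurable.comp measurable_snd
  exact measurableSet_eq_fun h1 (h2.mul h3)

theorem Fl_sphere {m : ℕ} {c : ℝ} (hc : SFC (2 * m + 1) c) {K : Set (E (2 * m + 1 + 1))}
    (hK : IsBody K) {P : Sph (2 * m + 1 + 1) → Polynomial ℝ}
    (hP : ∀ᵐ u : Sph (2 * m + 1 + 1) ∂(sg (2 * m + 1 + 1)),
      Rep K (u : E (2 * m + 1 + 1)) (P u) ∧ (P u).natDegree ≤ 2 * m) :
    ∀ᵐ u : Sph (2 * m + 1 + 1) ∂(sg (2 * m + 1 + 1)), ∀ s : ℝ, 0 < s →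
      gf K (s • (u : E (2 * m + 1 + 1))) / ((gV K (u : E (2 * m + 1 + 1)) : ℝ) : ℂ) =
        Complex.exp (Complex.I * ((s * ((-hs K (-(u : E (2 * m + 1 + 1))) + hs K (u : E (2 * m + 1 + 1))) / 2) : ℝ) : ℂ)) *
          ((Theta m (s * ((hs K (u : E (2 * m + 1 + 1)) - -hs K (-(u : E (2 * m + 1 + 1)))) / 2)) : ℝ) : ℂ) := by
  filter_upwards [hP, poly_form hc hK hP] with u hu1 hu2 s hs0
  have hun : ‖(u : E (2 * m + 1 + 1))‖ = 1 := by
    have := u.2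
    rwa [mem_sphere_zero_iff_norm] at this
  have hu0 : (u : E (2 * m + 1 + 1)) ≠ 0 := by
    intro h
    rw [h, norm_zero] at hun
    exact zero_ne_one hun
  obtain ⟨hpos, -, hgf, hgV⟩ := hc.2 K hK u hun (P u) hu1.1
  have hab : -hs K (-(u : E (2 * m + 1 + 1))) < hs K (u : E (2 * m + 1 + 1)) := neg_hs_lt hK hu0
  have hC : (-1 : ℝ) ^ m * (P u).coeff (2 * m) ≠ 0 := by
    intro h0
    rw [h0, Polynomial.C_0, zero_mul, zero_mul] at hu2
    obtain ⟨t, ht⟩ := exists_between hab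
    have h1 := hpos t ht
    rw [hu2, Polynomial.eval_zero] at h1
    exact lt_irrefl _ h1
  have h2 := hgf s hs0
  rw [ratio hab hC hu2 s, ← hgV] at h2
  have hg0 : ((gV K (u : E (2 * m + 1 + 1)) : ℝ) : ℂ) ≠ 0 := Complex.ofReal_ne_zero.2 (gV_pos (by omega) hK hu0).ne'
  have hc0 : (c : ℂ) ≠ 0 := Complex.ofReal_ne_zero.2 hc.1.ne'
  rw [div_eq_iff hg0]
  apply mul_left_cancel₀ hc0
  rw [h2, Complex.ofReal_mul]
  ring

theorem Fl_ratio {m : ℕ} {c : ℝ} (hc : SFC (2 * m + 1) c) {K : Set (E (2 * m + 1 + 1))}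
    (hK : IsBody K) {P : Sph (2 * m + 1 + 1) → Polynomial ℝ}
    (hP : ∀ᵐ u : Sph (2 * m + 1 + 1) ∂(sg (2 * m + 1 + 1)),
      Rep K (u : E (2 * m + 1 + 1)) (P u) ∧ (P u).natDegree ≤ 2 * m) :
    ∀ᵐ ξ : E (2 * m + 1 + 1), ξ ≠ 0 → gf K ξ / ((gV K ξ : ℝ) : ℂ) =
        Complex.exp (Complex.I * ((ek K ξ : ℝ) : ℂ)) * ((Theta m (wk K ξ) : ℝ) : ℂ) := by
  have h1 := ae_of_sphere (n := 2 * m + 1 + 1) (by omega)
    (p := fun x => ∀ s : ℝ, 0 < s → gf K (s • x) / ((gV K x : ℝ) : ℂ) =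
        Complex.exp (Complex.I * ((s * ((-hs K (-x) + hs K x) / 2) : ℝ) : ℂ)) *
          ((Theta m (s * ((hs K x - -hs K (-x)) / 2)) : ℝ) : ℂ)) (Fl_sphere hc hK hP)
  filter_upwards [h1] with ξ hξ hξ0
  have hn : 0 < ‖ξ‖ := norm_pos_iff.2 hξ0
  have h2 := hξ ‖ξ‖ hn
  have e1 : ‖ξ‖ • (‖ξ‖⁻¹ • ξ) = ξ := by
    rw [smul_smul, mul_inv_cancel₀ hn.ne', one_smul]
  have e2 : gV K (‖ξ‖⁻¹ • ξ) = gV K ξ := gV_smul K ξ (inv_pos.2 hn)
  have e3 : hs K (‖ξ‖⁻¹ • ξ) = ‖ξ‖⁻¹ * hs K ξ := hs_smul hK ξ (inv_nonneg.2 hn.le)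
  have e4 : hs K (-(‖ξ‖⁻¹ • ξ)) = ‖ξ‖⁻¹ * hs K (-ξ) := by
    rw [← smul_neg]
    exact hs_smul hK (-ξ) (inv_nonneg.2 hn.le)
  rw [e1, e2, e3, e4] at h2
  have e5 : ‖ξ‖ * ((-(‖ξ‖⁻¹ * hs K (-ξ)) + ‖ξ‖⁻¹ * hs K ξ) / 2) = ek K ξ := by
    unfold ek
    field_simp
    ring
  have e6 : ‖ξ‖ * ((‖ξ‖⁻¹ * hs K ξ - -(‖ξ‖⁻¹ * hs K (-ξ))) / 2) = wk K ξ := by
    unfold wk
    field_simp
    ring
  rw [e5, e6] at h2
  exact h2

theorem Fl_F0 {Y : Type*} [MeasurableSpace Y] (a b : Y → ℝ≥0∞) (c d e f : Y → ℂ) (h1 : Measurable a) (h2 : Measurable b)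
    (h3 : Measurable c) (h4 : Measurable d) (h5 : Measurable e) (h6 : Measurable f) :
    Measurable (fun p => a p * (b p * ‖c p / d p - e p / f p‖ₑ ^ 2)) := by
  have h7 : Measurable (fun p => c p / d p) := h3.div h4
  have h8 : Measurable (fun p => e p / f p) := h5.div h6
  have h9 : Measurable (fun p => c p / d p - e p / f p) := h7.sub h8
  have h10 : Measurable (fun p => ‖c p / d p - e p / f p‖ₑ) := h9.enorm
  have h11 : Measurable (fun p => ‖c p / d p - e p / f p‖ₑ ^ 2) := h10.pow_const 2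
  exact h1.mul (h2.mul h11)

theorem Fl_F {n : ℕ} {K : Set (E n)} (hK : IsBody K) :
    Measurable (fun p : E n × E n => ENNReal.ofReal (gam p.2) * (sh K p.2 *
        ‖ft K p.2 p.1 / ((sh K p.2).toReal : ℂ) - gf K p.1 / ((gV K p.1 : ℝ) : ℂ)‖ₑ ^ 2)) := by
  have h1 : Measurable (fun p : E n × E n => ENNReal.ofReal (gam p.2)) :=
    (measurable_gam.comp measurable_snd).ennreal_ofReal
  have h2 : Measurable (fun p : E n × E n => sh K p.2) :=
    (measurable_sh hK.2.1).comp measurable_snd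
  have h3a : Measurable (fun p : E n × E n => ft K p.1 p.2) := measurable_ft hK.2.1
  have h3b : Measurable (fun p : E n × E n => Prod.swap p) := measurable_swap
  have h3 : Measurable (fun p : E n × E n => ft K p.2 p.1) :=
    Measurable.comp (g := fun p : E n × E n => ft K p.1 p.2) (f := fun p : E n × E n => (p.2, p.1)) h3a h3b
  have h4 : Measurable (fun p : E n × E n => gf K p.1) :=
    (measurable_gf hK.2.1).comp measurable_fst
  have h5 : Measurable (fun p : E n × E n => ((gV K p.1 : ℝ) : ℂ)) :=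
    Complex.measurable_ofReal.comp ((measurable_gV hK.2.1).comp measurable_fst)
  have h6 : Measurable (fun p : E n × E n => (((sh K p.2).toReal : ℝ) : ℂ)) :=
    Complex.measurable_ofReal.comp h2.ennreal_toReal
  exact Fl_F0 _ _ _ _ _ _ h1 h2 h3 h6 h4 h5

theorem Fl_zero {n : ℕ} {F : E n × E n → ℝ≥0∞} (hF : Measurable F)
    (hvar : ∫⁻ ξ, ENNReal.ofReal ‖ξ‖⁻¹ * (∫⁻ w, F (ξ, w) ∂(pm ξ)) = 0) :
    ∀ᵐ ξ : E n, ξ ≠ 0 → ∀ᵐ w ∂(pm ξ), F (ξ, w) = 0 := by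
  have hmi : Measurable (fun ξ : E n => ∫⁻ w, F (ξ, w) ∂(pm ξ)) := measurable_lintegral_pm hF
  have hmn : Measurable (fun ξ : E n => ENNReal.ofReal ‖ξ‖⁻¹) :=
    (measurable_norm.inv).ennreal_ofReal
  have hmo : Measurable (fun ξ : E n => ENNReal.ofReal ‖ξ‖⁻¹ * ∫⁻ w, F (ξ, w) ∂(pm ξ)) := hmn.mul hmi
  rw [lintegral_eq_zero_iff hmo] at hvar
  filter_upwards [hvar] with ξ h1 hξ0
  have h4 : ENNReal.ofReal ‖ξ‖⁻¹ ≠ 0 := by
    rw [Ne, ENNReal.ofReal_eq_zero, not_le]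
    exact inv_pos.2 (norm_pos_iff.2 hξ0)
  have h5 := (mul_eq_zero.1 h1).resolve_left h4
  have hms : Measurable (fun w : E n => F (ξ, w)) := hF.comp (measurable_prodMk_left (x := ξ))
  rw [lintegral_eq_zero_iff hms] at h5
  filter_upwards [h5] with w hw
  exact hw

theorem Fl_ne {n : ℕ} (hn : 1 ≤ n) : ∀ᵐ ξ : E n, ξ ≠ 0 := by
  have : Nonempty (Fin n) := ⟨⟨0, hn⟩⟩
  rw [ae_iff]
  have h1 : {a : E n | ¬ a ≠ 0} = {0} := by
    ext a
    simp
  rw [h1]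
  exact measure_singleton 0

theorem Fl_pt {n : ℕ} {K : Set (E n)} (hK : IsBody K) {ξ w : E n} (hw0 : w ≠ 0) {g : ℂ}
    (hw1 : ENNReal.ofReal (gam w) * (sh K w * ‖ft K w ξ / ((sh K w).toReal : ℂ) - g‖ₑ ^ 2) = 0) :
    ft K w ξ = ((sh K w).toReal : ℂ) * g := by
  have h7 : ENNReal.ofReal (gam w) ≠ 0 := by
    rw [Ne, ENNReal.ofReal_eq_zero, not_le]
    exact Real.exp_pos _
  have h8 := (mul_eq_zero.1 hw1).resolve_left h7
  have h9 := (mul_eq_zero.1 h8).resolve_left (sh_pos hK hw0).ne'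
  have h11 := (pow_eq_zero_iff two_ne_zero).1 h9
  have h10 : ft K w ξ / ((sh K w).toReal : ℂ) - g = 0 := enorm_eq_zero.1 h11
  have h12 : ((sh K w).toReal : ℂ) ≠ 0 :=
    Complex.ofReal_ne_zero.2 (ENNReal.toReal_pos (sh_pos hK hw0).ne' (sh_ne_top hK hw0)).ne'
  rw [← sub_eq_zero.1 h10, mul_div_cancel₀ _ h12]

theorem flagEq_ae {m : ℕ} {c : ℝ} (hc : SFC (2 * m + 1) c) {K : Set (E (2 * m + 1 + 1))}
    (hK : IsBody K) {r : ℝ} (hr : 0 < r) (hrK : closedBall 0 r ⊆ K)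
    {P : Sph (2 * m + 1 + 1) → Polynomial ℝ}
    (hP : ∀ᵐ u : Sph (2 * m + 1 + 1) ∂(sg (2 * m + 1 + 1)),
      Rep K (u : E (2 * m + 1 + 1)) (P u) ∧ (P u).natDegree ≤ 2 * m) :
    ∀ᵐ v : E (2 * m + 1 + 1), ∀ᵐ y ∂(pm v), FlagEq m K v y := by
  have hvar := variance_zero hc hK hr hrK hP
  have hz := Fl_zero (n := 2 * m + 1 + 1) (Fl_F hK) hvar
  have hms0 : MeasurableSet {p : E (2 * m + 1 + 1) × E (2 * m + 1 + 1) | FlagEq m K p.1 p.2} := Fl_meas hK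
  have hflag := flag_ae (k := 2 * m + 1) (by omega) hms0
  suffices hgoal : ∀ᵐ ξ : E (2 * m + 1 + 1), ∀ᵐ w ∂(pm ξ), (w, ξ) ∈ {p : E (2 * m + 1 + 1) × E (2 * m + 1 + 1) | FlagEq m K p.1 p.2} from
    hflag.2 hgoal
  have hne : ∀ᵐ ξ : E (2 * m + 1 + 1), ξ ≠ 0 := Fl_ne (by omega)
  filter_upwards [hz, Fl_ratio hc hK hP, hne] with ξ h1 h2 hξ0
  have h3 := h2 hξ0
  have h6 : ∀ᵐ w ∂(pm ξ), w ≠ 0 := by
    rw [ae_iff]
    have h7 : {a : E (2 * m + 1 + 1) | ¬ a ≠ 0} = {0} := by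
      ext a
      simp
    rw [h7]
    exact pm_zero (by omega) hξ0
  filter_upwards [h1 hξ0, h6] with w hw1 hw0
  have h4 := Fl_pt hK hw0 hw1
  rw [h3] at h4
  exact h4

end Pool.Agent.MP_c8a077_gtP
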