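import Pool.Agent.Lib.MP_c8a077_gtP.Defs

/-!
# JOB Pz (about 120 lines): polarisation on the sphere

PROOF.  `⟪q,u⟫^i = (∑ l, u l * q l)^i = ∑_{α} multinomial(α) ∏ (q l)^(α l) ∏ (u l)^(α l)`, the sum over `α : Fin n →₀ ℕ` of degree `i`
(`Finset.sum_pow_of_commute`/`Finset.sum_pow`, or expand the power of the polynomial `∑ l, C (u l) * X l` in `MvPolynomial (Fin n) ℝ`:
the coefficient of `X^α` in `(∑ l, C (u l) * X l)^i` is `multinomial(α) ∏ (u l)^(α l)` for `|α| = i`).  Integrate with `s u`: every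
`s u * ∏ (u l)^(α l)` is integrable (`|u l| ≤ 1`, bounded continuous factor).  So the polynomial
`Φ = ∑_{|α| = i} C (multinomial(α) * ∫ u, s u * ∏ (u l)^(α l)) * X^α` satisfies `eval q Φ = ∫ u, s u * ⟪q,u⟫^i = 0` for all `q`, hence `Φ = 0`
(`MvPolynomial.funext`), so `∫ u, s u * ∏ (u l)^(α l) = 0` for all `|α| = i`, and `g` is a linear combination of these monomials
(`MvPolynomial.eval_eq'`, homogeneous: the support of `g` consists of `α` with `|α| = i`).
-/

open MeasureTheory Set Metric Topology Filter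
open Pool.Agent.MP_c8a077_gt
open scoped ENNReal NNReal

namespace Pool.Agent.MP_c8a077_gtP

/-- Continuous functions on the sphere are bounded multipliers. -/
theorem integrable_mul_of_cont_sph {n : ℕ} {s : Sph n → ℝ} (hs : Integrable s (sg n)) {f : Sph n → ℝ}
    (hf : Continuous f) : Integrable (fun u : Sph n => s u * f u) (sg n) := by
  obtain ⟨C, hC⟩ := (isCompact_univ (X := Sph n)).exists_bound_of_continuousOn hf.continuousOn
  exact hs.mul_bdd hf.aestronglyMeasurable (Filter.Eventually.of_forall fun u => hC u (Set.mem_univ u))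

/-- The monomial functions on the sphere are continuous. -/
theorem cont_mono_sph {n : ℕ} (k : Fin n → ℕ) : Continuous fun u : Sph n => ∏ l, (u : E n) l ^ k l := by
  refine continuous_finset_prod _ fun l _ => Continuous.pow ?_ _
  have h1 : Continuous fun x : E n => x l := by fun_prop
  exact h1.comp continuous_subtype_val

/-- The monomials on the sphere. -/
theorem polar_mono {n i : ℕ} {s : Sph n → ℝ} (hs : Integrable s (sg n))
    (h : ∀ q : E n, ∫ u : Sph n, s u * (inner ℝ q (u : E n)) ^ i ∂(sg n) = 0)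
    (k : Fin n → ℕ) (hk : ∑ l, k l = i) : ∫ u : Sph n, s u * ∏ l, (u : E n) l ^ k l ∂(sg n) = 0 := by
  classical
  obtain ⟨M, hM⟩ : ∃ M : (Fin n → ℕ) → ℝ, ∀ k, M k = ∫ u : Sph n, s u * ∏ l, (u : E n) l ^ k l ∂(sg n) :=
    ⟨_, fun _ => rfl⟩
  obtain ⟨Φ, hΦ⟩ : ∃ Φ : MvPolynomial (Fin n) ℝ, Φ = ∑ k ∈ Finset.piAntidiag Finset.univ i,
      MvPolynomial.monomial (Finsupp.equivFunOnFinite.symm k) ((Nat.multinomial Finset.univ k : ℝ) * M k) :=
    ⟨_, rfl⟩
  have hint : ∀ k : Fin n → ℕ, Integrable (fun u : Sph n => s u * ∏ l, (u : E n) l ^ k l) (sg n) :=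
    fun k => integrable_mul_of_cont_sph hs (cont_mono_sph k)
  have heval : ∀ q : Fin n → ℝ, MvPolynomial.eval q Φ = 0 := by
    intro q
    have h1 := h (WithLp.toLp 2 q)
    have h2 : ∀ u : Sph n, s u * (inner ℝ (WithLp.toLp 2 q : E n) (u : E n)) ^ i =
        ∑ k ∈ Finset.piAntidiag Finset.univ i, ((Nat.multinomial Finset.univ k : ℝ) * ∏ l, q l ^ k l) *
          (s u * ∏ l, (u : E n) l ^ k l) := by
      intro u
      have h3 : inner ℝ (WithLp.toLp 2 q : E n) (u : E n) = ∑ l, q l * (u : E n) l := by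
        rw [PiLp.inner_apply]
        refine Finset.sum_congr rfl fun l _ => ?_
        rw [RCLike.inner_apply, conj_trivial, mul_comm]
      rw [h3, Finset.sum_pow_eq_sum_piAntidiag, Finset.mul_sum]
      refine Finset.sum_congr rfl fun k _ => ?_
      have h4 : ∏ l, (q l * (u : E n) l) ^ k l = (∏ l, q l ^ k l) * ∏ l, (u : E n) l ^ k l := by
        rw [← Finset.prod_mul_distrib]
        exact Finset.prod_congr rfl fun l _ => mul_pow _ _ _
      rw [h4]
      ring
    simp only [h2] at h1
    rw [integral_finsetSum _ fun k _ => (hint k).const_mul _] at h1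
    simp only [integral_const_mul] at h1
    rw [hΦ, map_sum, ← h1]
    refine Finset.sum_congr rfl fun k _ => ?_
    rw [MvPolynomial.eval_monomial, hM, Finsupp.prod_fintype _ _ fun _ => pow_zero _]
    simp only [Finsupp.equivFunOnFinite_symm_apply_apply]
    ring
  have hzero : Φ = 0 := MvPolynomial.funext fun q => by rw [heval, map_zero]
  have hk' : k ∈ Finset.piAntidiag Finset.univ i := by
    rw [Finset.mem_piAntidiag]
    exact ⟨hk, fun _ _ => Finset.mem_univ _⟩
  have hc : MvPolynomial.coeff (Finsupp.equivFunOnFinite.symm k) Φ = (Nat.multinomial Finset.univ k : ℝ) * M k := by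
    rw [hΦ, MvPolynomial.coeff_sum, Finset.sum_eq_single_of_mem k hk']
    · rw [MvPolynomial.coeff_monomial, if_pos rfl]
    · intro k' _ hne
      rw [MvPolynomial.coeff_monomial, if_neg]
      intro h5
      exact hne (Finsupp.equivFunOnFinite.symm.injective h5)
  rw [hzero, MvPolynomial.coeff_zero] at hc
  rw [← hM]
  have hpos : (0 : ℝ) < (Nat.multinomial Finset.univ k : ℝ) := by
    exact_mod_cast Nat.multinomial_pos Finset.univ k
  exact (mul_eq_zero.1 hc.symm).resolve_left hpos.ne'

theorem polar_zero {n i : ℕ} {s : Sph n → ℝ} (hs : Integrable s (sg n))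
    (h : ∀ q : E n, ∫ u : Sph n, s u * (inner ℝ q (u : E n)) ^ i ∂(sg n) = 0)
    {g : MvPolynomial (Fin n) ℝ} (hg : g.IsHomogeneous i) :
    ∫ u : Sph n, s u * MvPolynomial.eval (fun l => (u : E n) l) g ∂(sg n) = 0 := by
  have h1 : ∀ u : Sph n, s u * MvPolynomial.eval (fun l => (u : E n) l) g =
      ∑ d ∈ g.support, MvPolynomial.coeff d g * (s u * ∏ l, (u : E n) l ^ d l) := by
    intro u
    rw [MvPolynomial.eval_eq', Finset.mul_sum]
    refine Finset.sum_congr rfl fun d _ => ?_
    ring
  simp only [h1]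
  rw [integral_finsetSum _ fun d _ => (integrable_mul_of_cont_sph hs (cont_mono_sph fun l => d l)).const_mul _]
  simp only [integral_const_mul]
  refine Finset.sum_eq_zero fun d hd => ?_
  have h2 : ∑ l, d l = i := by
    by_contra hne
    rw [← Finsupp.degree_eq_sum] at hne
    exact (MvPolynomial.mem_support_iff.1 hd) (hg.coeff_eq_zero hne)
  rw [polar_mono hs h (fun l => d l) h2, mul_zero]

theorem integrable_mul_eval {n : ℕ} {s : Sph n → ℝ} (hs : Integrable s (sg n))
    (g : MvPolynomial (Fin n) ℝ) :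
    Integrable (fun u : Sph n => s u * MvPolynomial.eval (fun l => (u : E n) l) g) (sg n) := by
  refine integrable_mul_of_cont_sph hs ?_
  refine (MvPolynomial.continuous_eval g).comp ?_
  refine continuous_pi fun l => ?_
  have h1 : Continuous fun x : E n => x l := by fun_prop
  exact h1.comp continuous_subtype_val

end Pool.Agent.MP_c8a077_gtP
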