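import Pool.Agent.Lib.MP_c8a077_gtP.SF

/-!
# JOB Tr (about 120 lines): translations

(All imports may still contain sorry; you need only the definitions.)
PROOF of `surfSec_translate`.  `K' = (fun x => x - z) '' K`.  The map `x ↦ x - z` is an isometry of `hyper u (t + ⟪z,u⟫)` onto `hyper u t` which maps
the preimage of `K` to the preimage of `K'`; frontiers and `μHE` are preserved (`IsometryEquiv`; as in `surfSec_eq`).
`rep_translate`: `(K' ∩ hyper u t).Nonempty ↔ (K ∩ hyper u (t + ⟪z,u⟫)).Nonempty`.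
`ellipsoid_translate`: `K = (fun x => x + z) '' K'`.
`ball_translate`: `z ∈ interior K`: a small closed ball around `z` is in `K`.
-/

open MeasureTheory Set Metric Topology Filter
open Pool.Agent.MP_c8a077_gt
open scoped ENNReal NNReal

namespace Pool.Agent.MP_c8a077_gtP

theorem body_translate {n : ℕ} {K : Set (E n)} (hK : IsBody K) (z : E n) :
    IsBody ((fun x => x - z) '' K) := by
  obtain ⟨h1, h2, h3⟩ := hK
  refine ⟨?_, h2.image (continuous_id.sub continuous_const), ?_⟩
  · rintro _ ⟨x, hx, rfl⟩ _ ⟨y, hy, rfl⟩ a b ha hb hab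
    refine ⟨a • x + b • y, h1 hx hy ha hb hab, ?_⟩
    change a • x + b • y - z = a • (x - z) + b • (y - z)
    have h4 : a • (x - z) + b • (y - z) = a • x + b • y - (a + b) • z := by
      rw [smul_sub, smul_sub, add_smul]
      abel
    rw [h4, hab, one_smul]
  · have h5 := (Homeomorph.subRight z).image_interior K
    change (interior ((Homeomorph.subRight z) '' K)).Nonempty
    rw [← h5]
    exact h3.image _

private theorem Tr_mem1 {n : ℕ} {z u : E n} {t : ℝ} (x : hyper u (t + inner ℝ z u)) :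
    x.1 - z ∈ hyper u t := by
  have h1 : inner ℝ x.1 u = t + inner ℝ z u := x.2
  change inner ℝ (x.1 - z) u = t
  rw [inner_sub_left, h1]
  ring

private theorem Tr_mem2 {n : ℕ} {z u : E n} {t : ℝ} (x : hyper u t) :
    x.1 + z ∈ hyper u (t + inner ℝ z u) := by
  have h1 : inner ℝ x.1 u = t := x.2
  change inner ℝ (x.1 + z) u = t + inner ℝ z u
  rw [inner_add_left, h1]

private def Tr_e {n : ℕ} (z u : E n) (t : ℝ) : hyper u (t + inner ℝ z u) ≃ᵢ hyper u t :=
  IsometryEquiv.mk
    { toFun := fun x => ⟨x.1 - z, Tr_mem1 x⟩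
      invFun := fun x => ⟨x.1 + z, Tr_mem2 x⟩
      left_inv := fun x => Subtype.ext (sub_add_cancel x.1 z)
      right_inv := fun x => Subtype.ext (add_sub_cancel_right x.1 z) }
    (by
      refine Isometry.of_dist_eq fun x y => ?_
      change dist (x.1 - z) (y.1 - z) = dist x.1 y.1
      exact dist_sub_right x.1 y.1 z)

theorem surfSec_translate {n : ℕ} (K : Set (E n)) (z u : E n) (t : ℝ) :
    surfSec ((fun x => x - z) '' K) u t = surfSec K u (t + inner ℝ z u) := by
  have h1 : ((↑) ⁻¹' ((fun x => x - z) '' K) : Set (hyper u t)) =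
      Tr_e z u t '' ((↑) ⁻¹' K : Set (hyper u (t + inner ℝ z u))) := by
    ext y
    constructor
    · rintro ⟨x, hx, hxy⟩
      have hxy' : x - z = y.1 := hxy
      have h2 : x = y.1 + z := by
        rw [← hxy']
        exact (sub_add_cancel x z).symm
      refine ⟨⟨x, h2 ▸ Tr_mem2 y⟩, hx, Subtype.ext hxy'⟩
    · rintro ⟨x, hx, rfl⟩
      exact ⟨x.1, hx, rfl⟩
  unfold surfSec
  rw [h1]
  have h2 := (Tr_e z u t).toHomeomorph.image_frontier
    ((↑) ⁻¹' K : Set (hyper u (t + inner ℝ z u)))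
  have h3 := (Tr_e z u t).isometry.euclideanHausdorffMeasure_image (d := n - 2)
    (frontier ((↑) ⁻¹' K : Set (hyper u (t + inner ℝ z u))))
  rw [← h3]
  exact congrArg _ h2.symm

theorem rep_translate {n : ℕ} {K : Set (E n)} (z u : E n) {P Q : Polynomial ℝ}
    (h : ∀ t : ℝ, (K ∩ hyper u t).Nonempty → surfSec K u t = ENNReal.ofReal (P.eval t))
    (hQ : ∀ t : ℝ, Q.eval t = P.eval (t + inner ℝ z u)) : Rep ((fun x => x - z) '' K) u Q := by
  intro t ht
  rw [surfSec_translate, hQ]
  refine h _ ?_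
  obtain ⟨_, ⟨x, hx, rfl⟩, hxt⟩ := ht
  refine ⟨x, hx, ?_⟩
  have h1 : inner ℝ (x - z) u = t := hxt
  rw [inner_sub_left] at h1
  change inner ℝ x u = t + inner ℝ z u
  linarith

theorem ellipsoid_translate {n : ℕ} {K : Set (E n)} (z : E n)
    (h : IsEllipsoid ((fun x => x - z) '' K)) : IsEllipsoid K := by
  obtain ⟨L, c, hL⟩ := h
  refine ⟨L, c + z, ?_⟩
  ext x
  have h1 : x - z ∈ (fun x => x - z) '' K ↔ x ∈ K := by
    constructor
    · rintro ⟨y, hy, hyx⟩
      have h2 : y - z = x - z := hyx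
      rwa [sub_left_inj.1 h2] at hy
    · intro hx
      exact ⟨x, hx, rfl⟩
  rw [← h1, hL]
  constructor
  · rintro ⟨y, hy, hyx⟩
    have h2 : c + L y = x - z := hyx
    refine ⟨y, hy, ?_⟩
    change c + z + L y = x
    rw [add_right_comm, h2, sub_add_cancel]
  · rintro ⟨y, hy, hyx⟩
    have h2 : c + z + L y = x := hyx
    refine ⟨y, hy, ?_⟩
    change c + L y = x - z
    rw [← h2, add_right_comm, add_sub_cancel_right]

theorem ball_translate {n : ℕ} {K : Set (E n)} {z : E n} (hz : z ∈ interior K) :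
    ∃ r : ℝ, 0 < r ∧ closedBall 0 r ⊆ (fun x => x - z) '' K := by
  obtain ⟨ε, hε, hb⟩ := Metric.isOpen_iff.1 isOpen_interior z hz
  refine ⟨ε / 2, by linarith, fun x hx => ⟨x + z, interior_subset (hb ?_), ?_⟩⟩
  · rw [mem_ball, dist_eq_norm, add_sub_cancel_right]
    rw [mem_closedBall, dist_zero_right] at hx
    linarith
  · change x + z - z = x
    exact add_sub_cancel_right x z

end Pool.Agent.MP_c8a077_gtP
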