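import Pool.Agent.Lib.MP_c8a077_gtP.Co
import Pool.Agent.Lib.MP_c8a077_gtP.Tr

/-!
# JOB Sh (about 250 lines): translations and the orthogonality relations of the coefficients

(`Co` and `Tr` are complete.)
PROOF of `coeff_avg_two`.  As in the proof of `coeff_avg` (file Co): for `0 < ρ ≤ r`,
`c (2π)^(2m+1) W μ_0 ρ^(2m+1) = ∑_{i ≤ N} A_i ρ^(2m+1+i)`, `A_i = π (-1)^m ((i+2m)!/i!) μ_i ∫ u, (P u).coeff (i+2m)`; the constant coefficient gives
`c (2π)^(2m+1) W μ_0 = A_0 = π (-1)^m (2m)! μ_0 ∫ u, (P u).coeff (2m)`, and `μ_0 > 0`.  (Repeat the proof with `co_poly` extended to `i = 0`: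
`A_0 = L`.)
PROOF of `shift_sum`.  Let `‖p‖ ≤ r/2`, `K' = (fun x => x - p) '' K` (`body_translate`), `closedBall 0 (r/2) ⊆ K'`,
`Q u = (P u).comp (X + C ⟪p,u⟫)`, `Rep K' u (Q u)` (`rep_translate`), `natDegree (Q u) ≤ N`.  `coeff_avg_two` for `K'` and for `K`: the averages of
`(Q u).coeff (2m)` and `(P u).coeff (2m)` agree.  `(Q u).coeff (2m) = ∑_{i ≤ N} choose (i+2m) (2m) * (P u).coeff (i+2m) * ⟪p,u⟫^i`
(`Polynomial.taylor_coeff`, `Polynomial.hasseDeriv`, or `Polynomial.comp` by hand).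
PROOF of `coeff_orth`.  Let `i ≥ 1`, `q ≠ 0` (`q = 0` is trivial), by homogeneity `‖q‖ = r/2`; apply `shift_sum` with `p = l • q`, `0 < l ≤ 1`
(`⟪l • q,u⟫^i = l^i ⟪q,u⟫^i`); all terms are integrable (`coeff_integrable`, bounded continuous factor); a polynomial in `l` that is constant on
`(0,1]` (the lemma `co_poly` of Co with its exponent `l = 0`): the coefficient of `l^i` vanishes: `choose (i+2m) (2m) ∫ (P u).coeff (i+2m) ⟪q,u⟫^i = 0`.
-/

open MeasureTheory Set Metric Topology Filter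
open Pool.Agent.MP_c8a077_gt
open scoped ENNReal NNReal

namespace Pool.Agent.MP_c8a077_gtP

/-- the iterated derivative -/
private theorem sh_eval {N l : ℕ} {P : Polynomial ℝ} (hP : P.natDegree ≤ N) (t : ℝ) :
    (Polynomial.derivative^[l] P).eval t =
      ∑ i ∈ Finset.range (N + 1), ((i + l).descFactorial l : ℝ) * P.coeff (i + l) * t ^ i := by
  have h1 : (Polynomial.derivative^[l] P).natDegree < N + 1 := by
    have h2 := Polynomial.natDegree_iterate_derivative P l
    omega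
  rw [Polynomial.eval_eq_sum_range' h1]
  refine Finset.sum_congr rfl fun i _ => ?_
  rw [Polynomial.coeff_iterate_derivative, nsmul_eq_mul]

/-- the inner integral -/
private theorem sh_inner {m N l : ℕ} {P : Polynomial ℝ} (hP : P.natDegree ≤ N) {ρ : ℝ} (hρ : 0 < ρ) :
    ∫ x : E (2 * m + 1), bump ρ x * (Polynomial.derivative^[l] P).eval (x 0) =
      ∑ i ∈ Finset.range (N + 1), (((i + l).descFactorial l : ℝ) * (ρ ^ (2 * m + 1 + i) *
        ∫ x : E (2 * m + 1), bump 1 x * (x 0) ^ i)) * P.coeff (i + l) := by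
  have h1 : ∀ x : E (2 * m + 1), bump ρ x * (Polynomial.derivative^[l] P).eval (x 0) =
      ∑ i ∈ Finset.range (N + 1), (((i + l).descFactorial l : ℝ) * P.coeff (i + l)) * (bump ρ x * (x 0) ^ i) := by
    intro x
    rw [sh_eval hP, Finset.mul_sum]
    exact Finset.sum_congr rfl fun i _ => by ring
  rw [integral_congr_ae (Filter.Eventually.of_forall h1), integral_finsetSum]
  · refine Finset.sum_congr rfl fun i _ => ?_
    rw [integral_const_mul, mu_smul hρ]
    ring
  · intro i _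
    refine Integrable.const_mul ?_ _
    refine integrable_bump hρ (g := fun x : E (2 * m + 1) => (x 0) ^ i) ?_
    fun_prop

/-- comparison of the powers of `ρ` -/
private theorem sh_poly {N : ℕ} {r L : ℝ} (hr : 0 < r) (A : ℕ → ℝ) (l : ℕ)
    (h : ∀ ρ : ℝ, 0 < ρ → ρ ≤ r → L * ρ ^ l = ∑ i ∈ Finset.range (N + 1), A i * ρ ^ (l + i)) :
    A 0 = L ∧ ∀ i : ℕ, 1 ≤ i → i ≤ N → A i = 0 := by
  classical
  obtain ⟨Q, hQ⟩ : ∃ Q : Polynomial ℝ, Q = (∑ i ∈ Finset.range (N + 1), Polynomial.C (A i) * Polynomial.X ^ i) -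
      Polynomial.C L := ⟨_, rfl⟩
  have h0 : Q = 0 := by
    refine Polynomial.eq_zero_of_infinite_isRoot Q ?_
    refine (Ioc_infinite hr).mono fun ρ hρ => ?_
    have h1 := h ρ hρ.1 hρ.2
    have h2 : ρ ^ l ≠ 0 := pow_ne_zero _ hρ.1.ne'
    have h3 : ∑ i ∈ Finset.range (N + 1), A i * ρ ^ (l + i) = (∑ i ∈ Finset.range (N + 1), A i * ρ ^ i) * ρ ^ l := by
      rw [Finset.sum_mul]
      refine Finset.sum_congr rfl fun i _ => ?_
      rw [pow_add]
      ring
    rw [h3] at h1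
    have h4 := mul_right_cancel₀ h2 h1
    show Q.eval ρ = 0
    rw [hQ, Polynomial.eval_sub, Polynomial.eval_C, Polynomial.eval_finsetSum, h4, sub_eq_zero]
    refine Finset.sum_congr rfl fun i _ => ?_
    rw [Polynomial.eval_mul, Polynomial.eval_C, Polynomial.eval_pow, Polynomial.eval_X]
  have h5 : ∀ i : ℕ, i ≤ N → (∑ i ∈ Finset.range (N + 1), Polynomial.C (A i) * Polynomial.X ^ i).coeff i = A i := by
    intro i hiN
    rw [Polynomial.finsetSum_coeff, Finset.sum_eq_single i]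
    · rw [Polynomial.coeff_C_mul, Polynomial.coeff_X_pow, if_pos rfl, mul_one]
    · intro b _ hb
      rw [Polynomial.coeff_C_mul, Polynomial.coeff_X_pow, if_neg (Ne.symm hb), mul_zero]
    · intro h7
      exact absurd (Finset.mem_range.2 (by omega)) h7
  refine ⟨?_, fun i hi hiN => ?_⟩
  · have h6 := congrArg (fun q => Polynomial.coeff q 0) h0
    have h7 : Q.coeff 0 = A 0 - L := by
      rw [hQ, Polynomial.coeff_sub, Polynomial.coeff_C, if_pos rfl, h5 0 (by omega)]
    have h8 : Q.coeff 0 = 0 := h6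
    rw [h7] at h8
    linarith
  · have h6 := congrArg (fun q => Polynomial.coeff q i) h0
    have h7 : Q.coeff i = A i := by
      rw [hQ, Polynomial.coeff_sub, Polynomial.coeff_C, if_neg (by omega), sub_zero, h5 i hiN]
    rw [← h7]
    exact h6

/-- the coefficients of a translated polynomial -/
private theorem sh_coeff {N l : ℕ} {P : Polynomial ℝ} (hP : P.natDegree ≤ N) (s : ℝ) :
    (P.comp (Polynomial.X + Polynomial.C s)).coeff l =
      ∑ i ∈ Finset.range (N + 1), ((i + l).choose l : ℝ) * (P.coeff (i + l) * s ^ i) := by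
  have h1 : P.comp (Polynomial.X + Polynomial.C s) = Polynomial.taylor s P := rfl
  rw [h1, Polynomial.taylor_coeff]
  have h2 : (Polynomial.hasseDeriv l P).natDegree < N + 1 := by
    have h3 := Polynomial.natDegree_hasseDeriv_le P l
    omega
  rw [Polynomial.eval_eq_sum_range' h2]
  refine Finset.sum_congr rfl fun i _ => ?_
  rw [Polynomial.hasseDeriv_coeff]
  ring

/-- products of coefficients with powers of linear forms are integrable -/
private theorem sh_integrable {m N : ℕ} {c : ℝ} (hc : SFC (2 * m + 1) c)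
    {K : Set (E (2 * m + 1 + 1))} (hK : IsBody K) {r : ℝ} (hr : 0 < r) (hrK : closedBall 0 r ⊆ K)
    {P : Sph (2 * m + 1 + 1) → Polynomial ℝ}
    (hP : ∀ᵐ u : Sph (2 * m + 1 + 1) ∂(sg (2 * m + 1 + 1)),
      Rep K (u : E (2 * m + 1 + 1)) (P u) ∧ (P u).natDegree ≤ N) (j i : ℕ)
    (q : E (2 * m + 1 + 1)) :
    Integrable (fun u : Sph (2 * m + 1 + 1) => (P u).coeff j *
      (inner ℝ q (u : E (2 * m + 1 + 1))) ^ i) (sg (2 * m + 1 + 1)) := by
  refine (coeff_integrable hc hK hr hrK hP j).mul_bdd (c := ‖q‖ ^ i) ?_ ?_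
  · refine Continuous.aestronglyMeasurable ?_
    fun_prop
  · refine Filter.Eventually.of_forall fun u => ?_
    have h1 : ‖(u : E (2 * m + 1 + 1))‖ = 1 := norm_eq_of_mem_sphere u
    have h2 : ‖(inner ℝ q (u : E (2 * m + 1 + 1)) : ℝ)‖ ≤ ‖q‖ := by
      have h3 := norm_inner_le_norm (𝕜 := ℝ) q (u : E (2 * m + 1 + 1))
      rwa [h1, mul_one] at h3
    rw [norm_pow]
    exact pow_le_pow_left₀ (norm_nonneg _) h2 i

theorem coeff_avg_two {m N : ℕ} {c : ℝ} (hc : SFC (2 * m + 1) c)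
    {K : Set (E (2 * m + 1 + 1))} (hK : IsBody K) {r : ℝ} (hr : 0 < r) (hrK : closedBall 0 r ⊆ K)
    {P : Sph (2 * m + 1 + 1) → Polynomial ℝ}
    (hP : ∀ᵐ u : Sph (2 * m + 1 + 1) ∂(sg (2 * m + 1 + 1)),
      Rep K (u : E (2 * m + 1 + 1)) (P u) ∧ (P u).natDegree ≤ N) :
    Real.pi * (-1) ^ m * (2 * m).factorial * ∫ u, (P u).coeff (2 * m) ∂(sg (2 * m + 1 + 1)) =
      c * ((2 * Real.pi) ^ (2 * m + 1) * ∫ v : E (2 * m + 1 + 1), ‖v‖⁻¹ * gam v) := by
  have key := (sh_poly (N := N) (r := r) (L := c * ((2 * Real.pi) ^ (2 * m + 1) *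
      (∫ x : E (2 * m + 1), bump 1 x * (x 0) ^ 0) * (∫ v : E (2 * m + 1 + 1), ‖v‖⁻¹ * gam v))) hr
      (fun i => Real.pi * (-1) ^ m * (((i + 2 * m).descFactorial (2 * m) : ℝ) *
        ∫ x : E (2 * m + 1), bump 1 x * (x 0) ^ i) * ∫ u, (P u).coeff (i + 2 * m) ∂(sg (2 * m + 1 + 1))) (2 * m + 1)
      (by
        intro ρ hρ hρr
        have h1 := U_poly hc hK hρ ((closedBall_subset_closedBall hρr).trans hrK) (hP.mono fun u hu => hu.1)
        have h2 : ∫ x : E (2 * m + 1), bump ρ x = ρ ^ (2 * m + 1) * ∫ x : E (2 * m + 1), bump 1 x * (x 0) ^ 0 := by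
          have h3 := mu_smul (m := m) hρ 0
          rw [add_zero] at h3
          rw [← h3]
          refine integral_congr_ae (Filter.Eventually.of_forall fun x => ?_)
          show bump ρ x = bump ρ x * (x 0) ^ 0
          rw [pow_zero, mul_one]
        rw [h2] at h1
        have h4 : ∫ u : Sph (2 * m + 1 + 1), (Real.pi * (-1) ^ m * ∫ x : E (2 * m + 1),
            bump ρ x * ((Polynomial.derivative^[2 * m]) (P u)).eval (x 0)) ∂(sg (2 * m + 1 + 1)) =
            ∫ u : Sph (2 * m + 1 + 1), (∑ i ∈ Finset.range (N + 1), (Real.pi * (-1) ^ m *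
              (((i + 2 * m).descFactorial (2 * m) : ℝ) * (ρ ^ (2 * m + 1 + i) *
        ∫ x : E (2 * m + 1), bump 1 x * (x 0) ^ i))) * (P u).coeff (i + 2 * m)) ∂(sg (2 * m + 1 + 1)) := by
          refine integral_congr_ae ?_
          filter_upwards [hP] with u hu
          rw [sh_inner hu.2 hρ, Finset.mul_sum]
          exact Finset.sum_congr rfl fun i _ => by ring
        rw [h4, integral_finsetSum] at h1
        · have h5 : c * ((2 * Real.pi) ^ (2 * m + 1) *
            (∫ x : E (2 * m + 1), bump 1 x * (x 0) ^ 0) * (∫ v : E (2 * m + 1 + 1), ‖v‖⁻¹ * gam v)) * ρ ^ (2 * m + 1) =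
            c * ((2 * Real.pi) ^ (2 * m + 1) * (ρ ^ (2 * m + 1) * ∫ x : E (2 * m + 1), bump 1 x * (x 0) ^ 0) *
            (∫ v : E (2 * m + 1 + 1), ‖v‖⁻¹ * gam v)) := by ring
          rw [h5, h1]
          refine Finset.sum_congr rfl fun i _ => ?_
          rw [integral_const_mul]
          ring
        · intro i _
          exact (coeff_integrable hc hK hr hrK hP (i + 2 * m)).const_mul _)).1
  have hmu : 0 < ∫ x : E (2 * m + 1), bump 1 x * (x 0) ^ 0 := mu_even_pos one_pos (by decide)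
  simp only [zero_add, Nat.descFactorial_self] at key
  refine mul_right_cancel₀ hmu.ne' ?_
  linear_combination key

theorem shift_sum {m N : ℕ} {c : ℝ} (hc : SFC (2 * m + 1) c)
    {K : Set (E (2 * m + 1 + 1))} (hK : IsBody K) {r : ℝ} (hr : 0 < r) (hrK : closedBall 0 r ⊆ K)
    {P : Sph (2 * m + 1 + 1) → Polynomial ℝ}
    (hP : ∀ᵐ u : Sph (2 * m + 1 + 1) ∂(sg (2 * m + 1 + 1)),
      Rep K (u : E (2 * m + 1 + 1)) (P u) ∧ (P u).natDegree ≤ N)
    {p : E (2 * m + 1 + 1)} (hp : ‖p‖ ≤ r / 2) :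
    ∫ u : Sph (2 * m + 1 + 1), (∑ i ∈ Finset.range (N + 1), ((i + 2 * m).choose (2 * m) : ℝ) *
      ((P u).coeff (i + 2 * m) * (inner ℝ p (u : E (2 * m + 1 + 1))) ^ i)) ∂(sg (2 * m + 1 + 1)) =
      ∫ u, (P u).coeff (2 * m) ∂(sg (2 * m + 1 + 1)) := by
  have hr2 : 0 < r / 2 := by linarith
  have hK' := body_translate hK p
  have hrK' : closedBall 0 (r / 2) ⊆ (fun x => x - p) '' K := by
    intro x hx
    refine ⟨x + p, hrK ?_, add_sub_cancel_right x p⟩
    rw [mem_closedBall, dist_zero_right] at hx ⊢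
    have h1 := norm_add_le x p
    linarith
  have hQ : ∀ᵐ u : Sph (2 * m + 1 + 1) ∂(sg (2 * m + 1 + 1)),
      Rep ((fun x => x - p) '' K) (u : E (2 * m + 1 + 1))
        ((P u).comp (Polynomial.X + Polynomial.C (inner ℝ p (u : E (2 * m + 1 + 1))))) ∧
      ((P u).comp (Polynomial.X + Polynomial.C (inner ℝ p (u : E (2 * m + 1 + 1))))).natDegree ≤ N := by
    filter_upwards [hP] with u hu
    refine ⟨rep_translate p (u : E (2 * m + 1 + 1)) hu.1 fun t => ?_, ?_⟩
    · rw [Polynomial.eval_comp, Polynomial.eval_add, Polynomial.eval_X, Polynomial.eval_C]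
    · rw [Polynomial.natDegree_comp, Polynomial.natDegree_X_add_C, mul_one]
      exact hu.2
  have e1 := coeff_avg_two hc hK' hr2 hrK' hQ
  have e2 := coeff_avg_two hc hK hr hrK hP
  have hne : Real.pi * (-1 : ℝ) ^ m * ((2 * m).factorial : ℝ) ≠ 0 :=
    mul_ne_zero (mul_ne_zero Real.pi_ne_zero (pow_ne_zero _ (by norm_num)))
      (Nat.cast_ne_zero.2 (Nat.factorial_ne_zero _))
  have e3 := mul_left_cancel₀ hne (e1.trans e2.symm)
  rw [← e3]
  refine integral_congr_ae ?_
  filter_upwards [hP] with u hu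
  exact (sh_coeff hu.2 _).symm

theorem coeff_orth {m N : ℕ} {c : ℝ} (hc : SFC (2 * m + 1) c)
    {K : Set (E (2 * m + 1 + 1))} (hK : IsBody K) {r : ℝ} (hr : 0 < r) (hrK : closedBall 0 r ⊆ K)
    {P : Sph (2 * m + 1 + 1) → Polynomial ℝ}
    (hP : ∀ᵐ u : Sph (2 * m + 1 + 1) ∂(sg (2 * m + 1 + 1)),
      Rep K (u : E (2 * m + 1 + 1)) (P u) ∧ (P u).natDegree ≤ N) {i : ℕ} (hi : 1 ≤ i)
    (q : E (2 * m + 1 + 1)) :
    ∫ u : Sph (2 * m + 1 + 1), (P u).coeff (i + 2 * m) *
      (inner ℝ q (u : E (2 * m + 1 + 1))) ^ i ∂(sg (2 * m + 1 + 1)) = 0 := by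
  by_cases hiN : i ≤ N
  · have hq1 : 0 < 2 * (‖q‖ + 1) := by
      have := norm_nonneg q
      linarith
    have hδ : 0 < r / (2 * (‖q‖ + 1)) := div_pos hr hq1
    have key := (sh_poly (N := N) (r := r / (2 * (‖q‖ + 1)))
      (L := ∫ u, (P u).coeff (2 * m) ∂(sg (2 * m + 1 + 1))) hδ
      (fun i => ((i + 2 * m).choose (2 * m) : ℝ) * ∫ u : Sph (2 * m + 1 + 1), (P u).coeff (i + 2 * m) *
        (inner ℝ q (u : E (2 * m + 1 + 1))) ^ i ∂(sg (2 * m + 1 + 1))) 0
      (by
        intro ρ hρ hρr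
        have hp : ‖ρ • q‖ ≤ r / 2 := by
          rw [norm_smul, Real.norm_of_nonneg hρ.le]
          have h1 : ρ * (2 * (‖q‖ + 1)) ≤ r := by
            rwa [le_div_iff₀ hq1] at hρr
          have h2 := norm_nonneg q
          nlinarith
        have h1 := shift_sum hc hK hr hrK hP hp
        rw [integral_finsetSum] at h1
        · rw [pow_zero, mul_one, ← h1]
          refine Finset.sum_congr rfl fun j _ => ?_
          rw [zero_add, integral_const_mul, mul_assoc, ← integral_mul_const]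
          congr 1
          refine integral_congr_ae (Filter.Eventually.of_forall fun u => ?_)
          show (P u).coeff (j + 2 * m) * (inner ℝ (ρ • q) (u : E (2 * m + 1 + 1))) ^ j =
            (P u).coeff (j + 2 * m) * (inner ℝ q (u : E (2 * m + 1 + 1))) ^ j * ρ ^ j
          rw [real_inner_smul_left, mul_pow]
          ring
        · intro j _
          exact (sh_integrable hc hK hr hrK hP (j + 2 * m) j (ρ • q)).const_mul _)).2 i hi hiN
    have hch : ((i + 2 * m).choose (2 * m) : ℝ) ≠ 0 :=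
      Nat.cast_ne_zero.2 (Nat.choose_pos (by omega)).ne'
    exact (mul_eq_zero.1 key).resolve_left hch
  · rw [← integral_zero (Sph (2 * m + 1 + 1)) ℝ (μ := sg (2 * m + 1 + 1))]
    refine integral_congr_ae ?_
    filter_upwards [hP] with u hu
    rw [Polynomial.coeff_eq_zero_of_natDegree_lt (by omega), zero_mul]

end Pool.Agent.MP_c8a077_gtP
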