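import Pool.Agent.Lib.MP_c8a077_gtP.Po

/-!
# JOB Zn (about 120 lines): the zeros of a homogeneous polynomial on the sphere are a null set

(`Po` is complete; use `sphere_of_ae`.)
PROOF.  The zero set of a nonzero real polynomial in `ℝⁿ` is a null set: induction on `n` with Fubini; see the model
`Pool/Agent/Lib/MP_ec260d_ntB/Q/PolyNull.lean` (in the graded repository: `git -C /workdir/pool/outputs/live show
origin/main:Pool/Agent/Lib/MP_ec260d_ntB/Q/PolyNull.lean`), or with `MvPolynomial.finSuccEquiv`, or a theorem of Mathlib on zero sets of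
analytic functions.  The volume of `E n` and of `Fin n → ℝ` correspond (`EuclideanSpace.volume_preserving_measurableEquiv` or the current
name).  For `x ≠ 0`, `eval (‖x‖⁻¹ • x) g = ‖x‖⁻¹ ^ i * eval x g` (homogeneous: `MvPolynomial.IsHomogeneous.eval₂`... or
`IsHomogeneous.aeval`, `eval_eq'`).  So for a.e. `x`, `eval (‖x‖⁻¹ • x) g ≠ 0`, and `sphere_of_ae` gives the statement.
-/

open MeasureTheory Set Metric Topology Filter
open Pool.Agent.MP_c8a077_gt
open scoped ENNReal NNReal

namespace Pool.Agent.MP_c8a077_gtP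

private theorem zn_null : ∀ (n : ℕ) (g : MvPolynomial (Fin n) ℝ), g ≠ 0 →
    volume {y : Fin n → ℝ | MvPolynomial.eval y g = 0} = 0
  | 0, g, hg => by
    have h1 : {y : Fin 0 → ℝ | MvPolynomial.eval y g = 0} = ∅ := by
      rw [Set.eq_empty_iff_forall_notMem]
      intro y hy
      have h2 : MvPolynomial.eval y g = 0 := hy
      apply hg
      rw [MvPolynomial.eq_C_of_isEmpty g] at h2 ⊢
      rw [MvPolynomial.eval_C] at h2
      rw [h2, MvPolynomial.C_0]
    rw [h1, measure_empty]
  | n + 1, g, hg => by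
    have hP0 : MvPolynomial.finSuccEquiv ℝ n g ≠ 0 := by
      intro h
      apply hg
      exact (MvPolynomial.finSuccEquiv ℝ n).injective (by rw [h, map_zero])
    obtain ⟨j, hj⟩ : ∃ j, (MvPolynomial.finSuccEquiv ℝ n g).coeff j ≠ 0 := by
      by_contra h
      push Not at h
      exact hP0 (Polynomial.ext (fun j => by rw [h j, Polynomial.coeff_zero]))
    have hae := zn_null n _ hj
    have hcont : Continuous fun p : (Fin n → ℝ) × ℝ =>
        MvPolynomial.eval (Fin.cons p.2 p.1 : Fin (n + 1) → ℝ) g := by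
      refine (MvPolynomial.continuous_eval g).comp ?_
      refine continuous_pi fun i => ?_
      refine Fin.cases ?_ (fun i => ?_) i
      · exact continuous_snd
      · exact (continuous_apply i).comp continuous_fst
    have hmeas : MeasurableSet {p : (Fin n → ℝ) × ℝ |
        MvPolynomial.eval (Fin.cons p.2 p.1 : Fin (n + 1) → ℝ) g = 0} :=
      (isClosed_eq hcont continuous_const).measurableSet
    have hT : (volume : Measure (Fin n → ℝ)).prod (volume : Measure ℝ)
        {p : (Fin n → ℝ) × ℝ | MvPolynomial.eval (Fin.cons p.2 p.1 : Fin (n + 1) → ℝ) g = 0} = 0 := by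
      rw [Measure.measure_prod_null hmeas]
      have h1 : ∀ᵐ y : Fin n → ℝ, MvPolynomial.eval y
          ((MvPolynomial.finSuccEquiv ℝ n g).coeff j) ≠ 0 := by
        rw [ae_iff]
        simpa using hae
      filter_upwards [h1] with y hy
      have hQ : (MvPolynomial.finSuccEquiv ℝ n g).map (MvPolynomial.eval y) ≠ 0 := by
        intro h
        apply hy
        rw [← Polynomial.coeff_map, h, Polynomial.coeff_zero]
      have hfin : {a : ℝ | MvPolynomial.eval (Fin.cons a y : Fin (n + 1) → ℝ) g = 0}.Finite := by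
        refine ((MvPolynomial.finSuccEquiv ℝ n g).map (MvPolynomial.eval y)).rootSet_finite ℝ
          |>.subset fun z hz => ?_
        rw [Polynomial.mem_rootSet]
        refine ⟨hQ, ?_⟩
        rw [Polynomial.coe_aeval_eq_eval, ← MvPolynomial.eval_eq_eval_mv_eval']
        exact hz
      exact hfin.measure_zero _
    have hsw := (Measure.measurePreserving_swap (μ := (volume : Measure ℝ))
      (ν := (volume : Measure (Fin n → ℝ)))).measure_preimage hmeas.nullMeasurableSet
    rw [hT] at hsw
    have hmeas2 : MeasurableSet (Prod.swap ⁻¹' {p : (Fin n → ℝ) × ℝ |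
        MvPolynomial.eval (Fin.cons p.2 p.1 : Fin (n + 1) → ℝ) g = 0} : Set (ℝ × (Fin n → ℝ))) :=
      measurable_swap hmeas
    have hpi := (volume_preserving_piFinSuccAbove (fun _ : Fin (n + 1) => ℝ) 0).measure_preimage
      hmeas2.nullMeasurableSet
    have hset : {y : Fin (n + 1) → ℝ | MvPolynomial.eval y g = 0} =
        (MeasurableEquiv.piFinSuccAbove (fun _ : Fin (n + 1) => ℝ) 0) ⁻¹'
          (Prod.swap ⁻¹' {p : (Fin n → ℝ) × ℝ |
            MvPolynomial.eval (Fin.cons p.2 p.1 : Fin (n + 1) → ℝ) g = 0}) := by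
      ext y
      have h2 : (Fin.cons (y 0) (fun i => y (Fin.succAbove 0 i)) : Fin (n + 1) → ℝ) = y := by
        funext i
        refine Fin.cases ?_ (fun i => ?_) i
        · rfl
        · rw [Fin.cons_succ, Fin.zero_succAbove]
      change MvPolynomial.eval y g = 0 ↔
        MvPolynomial.eval (Fin.cons (y 0) (fun i => y (Fin.succAbove 0 i)) :
        Fin (n + 1) → ℝ) g = 0
      rw [h2]
    rw [hset, hpi]
    exact hsw

theorem zero_null {n : ℕ} (hn : 1 ≤ n) {i : ℕ} {g : MvPolynomial (Fin n) ℝ} (hg0 : g ≠ 0)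
    (hg : g.IsHomogeneous i) :
    ∀ᵐ u : Sph n ∂(sg n), MvPolynomial.eval (fun l => (u : E n) l) g ≠ 0 := by
  have h1 : ∀ᵐ y : Fin n → ℝ, MvPolynomial.eval y g ≠ 0 := by
    rw [ae_iff]
    simpa using zn_null n g hg0
  have h2 : ∀ᵐ x : E n, MvPolynomial.eval (fun l => x l) g ≠ 0 :=
    (PiLp.volume_preserving_ofLp (Fin n)).quasiMeasurePreserving.ae h1
  refine sphere_of_ae (p := fun x => MvPolynomial.eval (fun l => x l) g ≠ 0) hn ?_
  have h3 : ∀ᵐ x : E n, x ≠ 0 := by
    have hnt : Nontrivial (E n) := by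
      apply Module.nontrivial_of_finrank_pos (R := ℝ)
      rw [finrank_euclideanSpace_fin]
      exact hn
    rw [ae_iff]
    simp only [not_not, ne_eq]
    exact measure_singleton 0
  filter_upwards [h2, h3] with x hx hx0
  have h4 : MvPolynomial.eval (fun l => (‖x‖⁻¹ • x) l) g =
      (‖x‖⁻¹) ^ i * MvPolynomial.eval (fun l => x l) g := by
    rw [MvPolynomial.eval_eq', MvPolynomial.eval_eq', Finset.mul_sum]
    refine Finset.sum_congr rfl fun d hd => ?_
    have hdi : d.degree = i := by
      by_contra hne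
      exact (MvPolynomial.mem_support_iff.mp hd) (hg.coeff_eq_zero hne)
    have h5 : ∏ l : Fin n, ((‖x‖⁻¹ • x) l) ^ d l = (‖x‖⁻¹) ^ i * ∏ l : Fin n, (x l) ^ d l := by
      have h6 : ∀ l : Fin n, ((‖x‖⁻¹ • x) l) ^ d l = (‖x‖⁻¹) ^ d l * (x l) ^ d l := by
        intro l
        rw [← mul_pow]
        rfl
      rw [Finset.prod_congr rfl (fun l _ => h6 l), Finset.prod_mul_distrib, Finset.prod_pow_eq_pow_sum,
        ← hdi, Finsupp.degree_eq_sum]
    rw [h5]
    ring
  change MvPolynomial.eval (fun l => (‖x‖⁻¹ • x) l) g ≠ 0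
  rw [h4]
  exact mul_ne_zero (pow_ne_zero _ (inv_ne_zero (norm_ne_zero_iff.mpr hx0))) hx

end Pool.Agent.MP_c8a077_gtP
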