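import Pool.Agent.Lib.MP_c8a077_gtP.Fl
import Pool.Agent.Lib.MP_c8a077_gtP.D2
import Pool.Agent.Lib.MP_c8a077_gtP.D3
import Pool.Agent.Lib.MP_c8a077_gtP.Tr
import Pool.Agent.Lib.MP_c8a077_gtP.Sh
import Pool.Agent.Lib.MP_c8a077_gtP.Pz
import Pool.Agent.Lib.MP_c8a077_gtP.Zn

/-!
# Assembly
-/

open MeasureTheory Set Metric Topology Filter
open Pool.Agent.MP_c8a077_gt
open scoped ENNReal NNReal

namespace Pool.Agent.MP_c8a077_gtP

/-- the main theorem with `0` in the interior -/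
theorem main_zero {m : ℕ} (hm : 1 ≤ m) {K : Set (E (2 * m + 1 + 1))} (hK : IsBody K) {r : ℝ}
    (hr : 0 < r) (hrK : closedBall 0 r ⊆ K) {P : Sph (2 * m + 1 + 1) → Polynomial ℝ}
    (hP : ∀ᵐ u : Sph (2 * m + 1 + 1) ∂(sg (2 * m + 1 + 1)),
      Rep K (u : E (2 * m + 1 + 1)) (P u) ∧ (P u).natDegree ≤ 2 * m) : IsEllipsoid K := by
  obtain ⟨c, hc⟩ := exists_SFC (k := 2 * m + 1) (by omega)
  refine ellipsoid_of_spec hK (spec_all (by omega) hK ?_)
  have h0 : ∀ᵐ v : E (2 * m + 1 + 1), v ≠ 0 := by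
    have : Nontrivial (E (2 * m + 1 + 1)) := inferInstance
    exact Measure.ae_ne volume 0
  filter_upwards [flagEq_ae hc hK hr hrK hP, h0] with v hv hv0 x y z hx hy hz
  exact special hK hv0 (flagEq_all hK hv0 hv) hx hy hz

/-- the main theorem for arbitrary degree: every higher coefficient has the sign of a homogeneous
polynomial of small degree -/
theorem main_gen {m N : ℕ} (hm : 1 ≤ m) {K : Set (E (2 * m + 1 + 1))} (hK : IsBody K) {r : ℝ}
    (hr : 0 < r) (hrK : closedBall 0 r ⊆ K) {P : Sph (2 * m + 1 + 1) → Polynomial ℝ}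
    (hP : ∀ u : Sph (2 * m + 1 + 1), Rep K (u : E (2 * m + 1 + 1)) (P u) ∧ (P u).natDegree ≤ N)
    (hs : ∀ j ≤ N, 2 * m < j → ∃ g : MvPolynomial (Fin (2 * m + 1 + 1)) ℝ, g ≠ 0 ∧
      g.IsHomogeneous (j - 2 * m) ∧ ∀ u : Sph (2 * m + 1 + 1),
        0 ≤ (P u).coeff j * MvPolynomial.eval (fun l => (u : E (2 * m + 1 + 1)) l) g) :
    IsEllipsoid K := by
  obtain ⟨c, hc⟩ := exists_SFC (k := 2 * m + 1) (by omega)
  have hP' : ∀ᵐ u : Sph (2 * m + 1 + 1) ∂(sg (2 * m + 1 + 1)),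
      Rep K (u : E (2 * m + 1 + 1)) (P u) ∧ (P u).natDegree ≤ N := Filter.Eventually.of_forall hP
  have hz : ∀ j, 2 * m < j → ∀ᵐ u : Sph (2 * m + 1 + 1) ∂(sg (2 * m + 1 + 1)),
      (P u).coeff j = 0 := by
    intro j hj
    by_cases hjN : j ≤ N
    · obtain ⟨g, hg0, hgh, hg⟩ := hs j hjN hj
      have hint := coeff_integrable hc hK hr hrK hP' j
      have horth : ∀ q : E (2 * m + 1 + 1), ∫ u : Sph (2 * m + 1 + 1), (P u).coeff j *
          (inner ℝ q (u : E (2 * m + 1 + 1))) ^ (j - 2 * m) ∂(sg (2 * m + 1 + 1)) = 0 := by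
        intro q
        have h := coeff_orth hc hK hr hrK hP' (i := j - 2 * m) (by omega) q
        have hj' : j - 2 * m + 2 * m = j := by omega
        rwa [hj'] at h
      have havg := polar_zero hint horth hgh
      have h1 := (integral_eq_zero_iff_of_nonneg hg (integrable_mul_eval hint g)).1 havg
      filter_upwards [h1, zero_null (by omega) hg0 hgh] with u hu hu'
      exact (mul_eq_zero.1 hu).resolve_right hu'
    · exact Filter.Eventually.of_forall fun u =>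
        Polynomial.coeff_eq_zero_of_natDegree_lt (lt_of_le_of_lt (hP u).2 (by omega))
  refine main_zero hm hK hr hrK (P := P) ?_
  filter_upwards [ae_all_iff.2 fun j => ae_all_iff.2 fun hj => hz j hj] with u hu
  refine ⟨(hP u).1, Polynomial.natDegree_le_iff_coeff_eq_zero.2 fun j hj => hu j hj⟩

end Pool.Agent.MP_c8a077_gtP
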