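import Pool.Agent.Lib.MP_c8a077_gtP.Bu

/-!
# JOB Mg (about 180 lines): the marginal of the bump function

The marginal is the parameter integral `ψ t = ∫ w : E (2m), smoothTransition (1 - (t² + ‖w‖²)/r²)`, written as the value at `0` of
the convolution of the constant function one with `w ↦ smoothTransition (1 - (t² + ‖w‖²)/r²)`; it is smooth by
`contDiffOn_convolution_right_with_param`. The formula with `g` is Fubini for the volume preserving map `E (2m+1) ≃ ℝ × E (2m)`.
-/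

open MeasureTheory Set Metric Topology Filter
open Pool.Agent.MP_c8a077_gt
open scoped ENNReal NNReal ContDiff

namespace Pool.Agent.MP_c8a077_gtP

/-- Splitting off the first coordinate. -/
private noncomputable def mg_e (d : ℕ) : E (d + 1) ≃ᵐ ℝ × E d :=
  (MeasurableEquiv.toLp 2 (Fin (d + 1) → ℝ)).symm.trans
    ((MeasurableEquiv.piFinSuccAbove (fun _ : Fin (d + 1) => ℝ) 0).trans
      (MeasurableEquiv.prodCongr (MeasurableEquiv.refl ℝ) (MeasurableEquiv.toLp 2 (Fin d → ℝ))))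

private theorem mg_e_mp (d : ℕ) : MeasurePreserving (mg_e d) := by
  have h1 : MeasurePreserving (MeasurableEquiv.toLp 2 (Fin (d + 1) → ℝ)).symm :=
    EuclideanSpace.volume_preserving_symm_measurableEquiv_toLp (Fin (d + 1))
  have h2 : MeasurePreserving (MeasurableEquiv.piFinSuccAbove (fun _ : Fin (d + 1) => ℝ) 0) :=
    volume_preserving_piFinSuccAbove (fun _ : Fin (d + 1) => ℝ) 0
  have h3 : MeasurePreserving (MeasurableEquiv.prodCongr (MeasurableEquiv.refl ℝ) (MeasurableEquiv.toLp 2 (Fin d → ℝ))) :=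
    (MeasurePreserving.id (volume : Measure ℝ)).prod (PiLp.volume_preserving_toLp (Fin d))
  exact h3.comp (h2.comp h1)

private theorem mg_e_fst (d : ℕ) (x : E (d + 1)) : (mg_e d x).1 = x 0 := rfl

private theorem mg_e_norm (d : ℕ) (x : E (d + 1)) : ‖x‖ ^ 2 = (mg_e d x).1 ^ 2 + ‖(mg_e d x).2‖ ^ 2 := by
  rw [EuclideanSpace.norm_sq_eq, EuclideanSpace.norm_sq_eq, Fin.sum_univ_succ]
  congr 1
  · rw [Real.norm_eq_abs, sq_abs]; rfl

/-- The integrand. -/
private noncomputable def mg_g (d : ℕ) (r t : ℝ) (w : E d) : ℝ :=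
  Real.smoothTransition (1 - (t ^ 2 + ‖w‖ ^ 2) / r ^ 2)

private theorem mg_g_smooth (d : ℕ) (r : ℝ) : ContDiff ℝ ∞ (fun p : ℝ × E d => mg_g d r p.1 p.2) := by
  have h1 : ContDiff ℝ ∞ (fun p : ℝ × E d => 1 - (p.1 ^ 2 + ‖p.2‖ ^ 2) / r ^ 2) := by
    have h2 : ContDiff ℝ ∞ (fun p : ℝ × E d => ‖p.2‖ ^ 2) := contDiff_snd.norm_sq ℝ
    have h3 : ContDiff ℝ ∞ (fun p : ℝ × E d => p.1 ^ 2) := contDiff_fst.pow 2
    exact contDiff_const.sub ((h3.add h2).div_const _)
  exact Real.smoothTransition.contDiff.comp h1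

private theorem mg_g_zero (d : ℕ) {r : ℝ} (hr : 0 < r) (t : ℝ) (w : E d) (h : r ^ 2 ≤ t ^ 2 + ‖w‖ ^ 2) :
    mg_g d r t w = 0 := by
  apply Real.smoothTransition.zero_of_nonpos
  have : 1 ≤ (t ^ 2 + ‖w‖ ^ 2) / r ^ 2 := by rwa [le_div_iff₀ (by positivity), one_mul]
  linarith

private noncomputable def mg_psi (d : ℕ) (r t : ℝ) : ℝ := ∫ w : E d, mg_g d r t w

private theorem mg_psi_smooth (d : ℕ) {r : ℝ} (hr : 0 < r) : ContDiff ℝ ∞ (mg_psi d r) := by
  have h := contDiffOn_convolution_right_with_param (n := ⊤) (𝕜 := ℝ) (μ := (volume : Measure (E d)))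
    (f := fun _ : E d => (1 : ℝ)) (ContinuousLinearMap.lsmul ℝ ℝ : ℝ →L[ℝ] ℝ →L[ℝ] ℝ)
    (g := fun (t : ℝ) (w : E d) => mg_g d r t w) (s := univ) (k := closedBall 0 r) isOpen_univ
    (isCompact_closedBall _ _)
    (by
      intro t w _ hw
      apply mg_g_zero d hr
      rw [mem_closedBall, dist_zero_right, not_le] at hw
      nlinarith [sq_nonneg t, norm_nonneg w])
    (locallyIntegrable_const _)
    (by
      exact (mg_g_smooth d r).contDiffOn)
  rw [univ_prod_univ, contDiffOn_univ] at h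
  have h2 : ContDiff ℝ ∞ (fun t : ℝ => ((t, (0 : E d)) : ℝ × E d)) := contDiff_id.prodMk contDiff_const
  have h3 := h.comp h2
  have h4 : mg_psi d r = (fun q : ℝ × E d => (MeasureTheory.convolution (fun _ : E d => (1 : ℝ)) (mg_g d r q.1)
      (ContinuousLinearMap.lsmul ℝ ℝ : ℝ →L[ℝ] ℝ →L[ℝ] ℝ) volume) q.2) ∘ fun t : ℝ => ((t, (0 : E d)) : ℝ × E d) := by
    funext t
    simp only [Function.comp_apply, MeasureTheory.convolution, mg_psi]
    refine integral_congr_ae (Filter.Eventually.of_forall fun w => ?_)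
    simp only [ContinuousLinearMap.lsmul_apply, one_smul, zero_sub, mg_g, norm_neg]
  rw [h4]
  exact h3

theorem exists_marginal {m : ℕ} {r : ℝ} (hr : 0 < r) : ∃ ψ : ℝ → ℝ, ContDiff ℝ ∞ ψ ∧
    (∀ t, r < |t| → ψ t = 0) ∧ (∀ t, ψ (-t) = ψ t) ∧
    (∀ s, bt m r s = ∫ t : ℝ, ψ t * Real.cos (s * t)) ∧
    ∀ g : ℝ → ℝ, Continuous g → ∫ t : ℝ, ψ t * g t = ∫ x : E (2 * m + 1), bump r x * g (x 0) := by
  have key : ∀ g : ℝ → ℝ, Continuous g →
      ∫ t : ℝ, mg_psi (2 * m) r t * g t = ∫ x : E (2 * m + 1), bump r x * g (x 0) := by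
    intro g hg
    have h0 : (fun x : E (2 * m + 1) => bump r x * g (x 0)) =
        (fun p : ℝ × E (2 * m) => mg_g (2 * m) r p.1 p.2 * g p.1) ∘ (mg_e (2 * m)) := by
      funext x
      simp only [Function.comp_apply, bump, mg_g]
      rw [mg_e_norm, mg_e_fst]
    have hint : Integrable (fun p : ℝ × E (2 * m) => mg_g (2 * m) r p.1 p.2 * g p.1) := by
      rw [← (mg_e_mp (2 * m)).integrable_comp_emb (mg_e (2 * m)).measurableEmbedding, ← h0]
      exact integrable_bump hr (hg.comp (EuclideanSpace.proj (0 : Fin (2 * m + 1))).continuous)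
    have h1 : ∫ x : E (2 * m + 1), bump r x * g (x 0) =
        ∫ p : ℝ × E (2 * m), mg_g (2 * m) r p.1 p.2 * g p.1 := by
      rw [h0, ← (mg_e_mp (2 * m)).integral_comp (mg_e (2 * m)).measurableEmbedding]
      rfl
    rw [h1]
    rw [Measure.volume_eq_prod] at hint ⊢
    rw [integral_prod _ hint]
    refine integral_congr_ae (Filter.Eventually.of_forall fun t => ?_)
    simp only [mg_psi]
    rw [← integral_mul_const]
  refine ⟨mg_psi (2 * m) r, mg_psi_smooth (2 * m) hr, ?_, ?_, ?_, key⟩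
  · intro t ht
    rw [mg_psi]
    have : (fun w : E (2 * m) => mg_g (2 * m) r t w) = fun _ => 0 := by
      funext w
      apply mg_g_zero (2 * m) hr
      have h1 : r ^ 2 ≤ t ^ 2 := by
        rw [← sq_abs t]
        exact pow_le_pow_left₀ hr.le ht.le 2
      nlinarith [sq_nonneg ‖w‖]
    rw [this, integral_zero]
  · intro t
    simp only [mg_psi, mg_g, neg_sq]
  · intro s
    rw [key (fun t => Real.cos (s * t)) (Real.continuous_cos.comp (continuous_const.mul continuous_id))]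
    rfl

end Pool.Agent.MP_c8a077_gtP
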