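import Pool.Agent.Lib.MP_c8a077_gtP.Defs

/-!
# Measurability
-/

open MeasureTheory Set Metric Topology Filter
open Pool.Agent.MP_c8a077_gt
open scoped ENNReal NNReal

namespace Pool.Agent.MP_c8a077_gtP

theorem measurable_pr {n : ℕ} : Measurable (fun p : E n × E n => pr p.1 p.2) := by
  unfold pr
  have h1 : Measurable fun p : E n × E n => (inner ℝ p.2 p.1 : ℝ) :=
    (continuous_snd.inner continuous_fst).measurable
  have h2 : Measurable fun p : E n × E n => ‖p.1‖ ^ 2 := (continuous_fst.norm.pow 2).measurable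
  exact measurable_snd.sub ((h1.div h2).smul measurable_fst)

theorem measurable_gam {n : ℕ} : Measurable (fun v : E n => gam v) := by
  unfold gam
  exact (Real.continuous_exp.comp (((continuous_norm.pow 2).neg).div_const 2)).measurable

theorem measurableSet_slab {n : ℕ} : MeasurableSet {p : E n × E n | p.2 ∈ slab p.1} := by
  have h1 : Continuous fun p : E n × E n => (inner ℝ p.2 p.1 : ℝ) :=
    continuous_snd.inner continuous_fst
  have h2 : Continuous fun p : E n × E n => ‖p.1‖ := continuous_fst.norm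
  exact ((isClosed_le continuous_const h1).inter (isClosed_le h1 h2)).measurableSet

private theorem Ms_pr {n : ℕ} (v : E n) : Measurable (pr v) :=
  measurable_pr.comp measurable_prodMk_left

private theorem Ms_slab {n : ℕ} (v : E n) : MeasurableSet (slab v) :=
  measurable_prodMk_left (x := v) measurableSet_slab

theorem lintegral_pm {n : ℕ} (v : E n) {F : E n → ℝ≥0∞} (hF : Measurable F) :
    ∫⁻ y, F y ∂(pm v) = ∫⁻ x in slab v, F (pr v x) := by
  unfold pm
  rw [lintegral_map hF (Ms_pr v)]

theorem integral_pm {n : ℕ} (v : E n) {F : E n → ℂ} (hF : Measurable F) :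
    ∫ y, F y ∂(pm v) = ∫ x in slab v, F (pr v x) := by
  unfold pm
  rw [integral_map (Ms_pr v).aemeasurable hF.aestronglyMeasurable]

theorem measurable_lintegral_pm {n : ℕ} {F : E n × E n → ℝ≥0∞} (hF : Measurable F) :
    Measurable (fun v => ∫⁻ y, F (v, y) ∂(pm v)) := by
  have h1 : Measurable ({p : E n × E n | p.2 ∈ slab p.1}.indicator
      fun p => F (p.1, pr p.1 p.2)) :=
    (hF.comp (measurable_fst.prodMk measurable_pr)).indicator measurableSet_slab
  have h2 := h1.lintegral_prod_right' (ν := (volume : Measure (E n)))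
  have h3 : (fun v => ∫⁻ y, F (v, y) ∂(pm v)) = fun v => ∫⁻ x,
      ({p : E n × E n | p.2 ∈ slab p.1}.indicator fun p => F (p.1, pr p.1 p.2)) (v, x) := by
    funext v
    have e1 := lintegral_pm v (F := fun y => F (v, y)) (hF.comp measurable_prodMk_left)
    rw [e1, ← lintegral_indicator (Ms_slab v)]
    refine lintegral_congr fun x => ?_
    by_cases hx : x ∈ slab v
    · rw [indicator_of_mem hx, indicator_of_mem (show (v, x) ∈ {p : E n × E n | p.2 ∈ slab p.1} from hx)]
    · rw [indicator_of_notMem hx,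
        indicator_of_notMem (show (v, x) ∉ {p : E n × E n | p.2 ∈ slab p.1} from hx)]
  rw [h3]
  exact h2

theorem measurable_integral_pm {n : ℕ} {F : E n × E n → ℂ} (hF : Measurable F) :
    Measurable (fun v => ∫ y, F (v, y) ∂(pm v)) := by
  have h1 : Measurable ({p : E n × E n | p.2 ∈ slab p.1}.indicator
      fun p => F (p.1, pr p.1 p.2)) :=
    (hF.comp (measurable_fst.prodMk measurable_pr)).indicator measurableSet_slab
  have h2 := (h1.stronglyMeasurable.integral_prod_right' (ν := (volume : Measure (E n)))).measurable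
  have h3 : (fun v => ∫ y, F (v, y) ∂(pm v)) = fun v => ∫ x,
      ({p : E n × E n | p.2 ∈ slab p.1}.indicator fun p => F (p.1, pr p.1 p.2)) (v, x) := by
    funext v
    have e1 := integral_pm v (F := fun y => F (v, y)) (hF.comp measurable_prodMk_left)
    rw [e1, ← integral_indicator (Ms_slab v)]
    refine integral_congr_ae (Filter.Eventually.of_forall fun x => ?_)
    show (slab v).indicator (fun x => F (v, pr v x)) x =
      ({p : E n × E n | p.2 ∈ slab p.1}.indicator fun p => F (p.1, pr p.1 p.2)) (v, x)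
    by_cases hx : x ∈ slab v
    · rw [indicator_of_mem hx, indicator_of_mem (show (v, x) ∈ {p : E n × E n | p.2 ∈ slab p.1} from hx)]
    · rw [indicator_of_notMem hx,
        indicator_of_notMem (show (v, x) ∉ {p : E n × E n | p.2 ∈ slab p.1} from hx)]
  rw [h3]
  exact h2

theorem measurableSet_cyl {n : ℕ} {K : Set (E n)} (hK : IsCompact K) :
    MeasurableSet {p : E n × E n | p.2 ∈ cyl K p.1} := by
  have h1 : {p : E n × E n | p.2 ∈ cyl K p.1} =
      ⋃ N : ℕ, Prod.fst '' {q : (E n × E n) × Icc (-(N : ℝ)) N | q.1.2 + (q.2 : ℝ) • q.1.1 ∈ K} := by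
    ext p
    rw [mem_iUnion]
    constructor
    · rintro ⟨s, hs⟩
      obtain ⟨N, hN⟩ := exists_nat_ge |s|
      exact ⟨N, (p, ⟨s, abs_le.1 hN⟩), hs, rfl⟩
    · rintro ⟨N, q, hq, rfl⟩
      exact ⟨(q.2 : ℝ), hq⟩
  rw [h1]
  refine MeasurableSet.iUnion fun N => ?_
  have hc : IsClosed {q : (E n × E n) × Icc (-(N : ℝ)) N | q.1.2 + (q.2 : ℝ) • q.1.1 ∈ K} := by
    have hcont : Continuous fun q : (E n × E n) × Icc (-(N : ℝ)) N => q.1.2 + (q.2 : ℝ) • q.1.1 :=
      (continuous_snd.comp continuous_fst).add
        ((continuous_subtype_val.comp continuous_snd).smul (continuous_fst.comp continuous_fst))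
    exact IsClosed.preimage hcont hK.isClosed
  exact (isClosedMap_fst_of_compactSpace _ hc).measurableSet

private theorem Ms_TT {n : ℕ} {K : Set (E n)} (hK : IsCompact K) :
    MeasurableSet {p : E n × E n | p.2 ∈ TT K p.1} :=
  (measurableSet_cyl hK).inter measurableSet_slab

theorem measurable_sh {n : ℕ} {K : Set (E n)} (hK : IsCompact K) :
    Measurable (fun v => sh K v) :=
  measurable_measure_prodMk_left (ν := (volume : Measure (E n))) (Ms_TT hK)

theorem measurable_ft {n : ℕ} {K : Set (E n)} (hK : IsCompact K) :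
    Measurable (fun p : E n × E n => ft K p.1 p.2) := by
  have hS : MeasurableSet {q : (E n × E n) × E n | q.2 ∈ TT K q.1.1} :=
    ((measurable_fst.comp measurable_fst).prodMk measurable_snd) (Ms_TT hK)
  have hc : Continuous fun q : (E n × E n) × E n =>
      Complex.exp (Complex.I * ((inner ℝ q.2 q.1.2 : ℝ) : ℂ)) := by
    have hcont : Continuous fun q : (E n × E n) × E n => (inner ℝ q.2 q.1.2 : ℝ) :=
      continuous_snd.inner (continuous_snd.comp continuous_fst)
    exact Complex.continuous_exp.comp (continuous_const.mul (Complex.continuous_ofReal.comp hcont))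
  have h1 : Measurable ({q : (E n × E n) × E n | q.2 ∈ TT K q.1.1}.indicator
      fun q => Complex.exp (Complex.I * ((inner ℝ q.2 q.1.2 : ℝ) : ℂ))) :=
    hc.measurable.indicator hS
  have h2 := (h1.stronglyMeasurable.integral_prod_right' (ν := (volume : Measure (E n)))).measurable
  have h3 : (fun p : E n × E n => ft K p.1 p.2) = fun p => ∫ x,
      ({q : (E n × E n) × E n | q.2 ∈ TT K q.1.1}.indicator
        fun q => Complex.exp (Complex.I * ((inner ℝ q.2 q.1.2 : ℝ) : ℂ))) (p, x) := by
    funext p
    have hT : MeasurableSet (TT K p.1) := measurable_prodMk_left (x := p.1) (Ms_TT hK)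
    unfold ft
    rw [← integral_indicator hT]
    refine integral_congr_ae (Filter.Eventually.of_forall fun x => ?_)
    show (TT K p.1).indicator (fun x => Complex.exp (Complex.I * ((inner ℝ x p.2 : ℝ) : ℂ))) x =
      ({q : (E n × E n) × E n | q.2 ∈ TT K q.1.1}.indicator
        fun q => Complex.exp (Complex.I * ((inner ℝ q.2 q.1.2 : ℝ) : ℂ))) (p, x)
    by_cases hx : x ∈ TT K p.1
    · rw [indicator_of_mem hx,
        indicator_of_mem (show (p, x) ∈ {q : (E n × E n) × E n | q.2 ∈ TT K q.1.1} from hx)]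
    · rw [indicator_of_notMem hx,
        indicator_of_notMem (show (p, x) ∉ {q : (E n × E n) × E n | q.2 ∈ TT K q.1.1} from hx)]
  rw [h3]
  exact h2

theorem measurable_gf {n : ℕ} {K : Set (E n)} (hK : IsCompact K) :
    Measurable (fun ξ => gf K ξ) := by
  have ha : Measurable fun p : E n × E n => gam p.2 := measurable_gam.comp measurable_snd
  have hb : Measurable fun p : E n × E n => ((gam p.2 : ℝ) : ℂ) := Complex.measurable_ofReal.comp ha
  obtain ⟨G, hG⟩ : ∃ G : E n × E n → ℂ, ∀ p, G p = ft K p.1 p.2 := ⟨fun p => ft K p.1 p.2, fun _ => rfl⟩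
  have hGm : Measurable G := by
    have e : G = fun p => ft K p.1 p.2 := funext hG
    rw [e]
    exact measurable_ft hK
  have hGs : Measurable (G ∘ Prod.swap) := hGm.comp measurable_swap
  obtain ⟨F, hF⟩ : ∃ F : E n × E n → ℂ, F = (fun p => ((gam p.2 : ℝ) : ℂ)) * (G ∘ Prod.swap) := ⟨_, rfl⟩
  have h1 : Measurable F := by
    rw [hF]
    exact hb.mul hGs
  have h2 := measurable_integral_pm h1
  have h3 : (fun ξ => gf K ξ) = fun v => ∫ y, F (v, y) ∂(pm v) := by
    funext ξ
    unfold gf
    refine integral_congr_ae (Filter.Eventually.of_forall fun y => ?_)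
    show ((gam y : ℝ) : ℂ) * ft K y ξ = F (ξ, y)
    rw [hF, Pi.mul_apply, Function.comp_apply, hG]
    rfl
  rw [h3]
  exact h2

theorem measurable_gV {n : ℕ} {K : Set (E n)} (hK : IsCompact K) :
    Measurable (fun ξ => gV K ξ) := by
  have ha : Measurable fun p : E n × E n => gam p.2 := measurable_gam.comp measurable_snd
  have hb : Measurable fun p : E n × E n => (sh K p.2).toReal :=
    ((measurable_sh hK).comp measurable_snd).ennreal_toReal
  have hc : Measurable fun p : E n × E n => gam p.2 * (sh K p.2).toReal := Measurable.mul ha hb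
  have h1 : Measurable fun p : E n × E n => ((gam p.2 * (sh K p.2).toReal : ℝ) : ℂ) :=
    Complex.measurable_ofReal.comp hc
  have h2 := Complex.measurable_re.comp (measurable_integral_pm h1)
  have h3 : (fun ξ => gV K ξ) = Complex.re ∘ fun v => ∫ y,
      (fun p : E n × E n => ((gam p.2 * (sh K p.2).toReal : ℝ) : ℂ)) (v, y) ∂(pm v) := by
    funext ξ
    have e1 : (∫ y, ((gam y * (sh K y).toReal : ℝ) : ℂ) ∂(pm ξ)) =
        ((∫ y, gam y * (sh K y).toReal ∂(pm ξ) : ℝ) : ℂ) := integral_ofReal
    show gV K ξ = (∫ y, ((gam y * (sh K y).toReal : ℝ) : ℂ) ∂(pm ξ)).re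
    rw [e1, Complex.ofReal_re]
    rfl
  rw [h3]
  exact h2

end Pool.Agent.MP_c8a077_gtP
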