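import Pool.Agent.Lib.MP_c8a077_gtP.Mg

/-!
# JOB OD (about 180 lines): one-dimensional inversion against polynomials


PROOF of `one_dim_psi`.  `ψ` smooth, even, supported in `[-r,r]`.  Let `B s = ∫ ψ t cos (s t) dt = ∫ ψ t e^{ist} dt` (even real).
Integrating by parts `2m` times (`integral_mul_deriv_eq_deriv_mul_of_integrable`, compact support; or the formula for the Fourier
transform of `iteratedDeriv`), `(-1)^m s^(2m) B s = ∫ ψ^(2m) t e^{ist} dt` (`ψ^(2m) = iteratedDeriv (2m) ψ`, smooth, compactly supported in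
`[-r,r]`, even, with integrable Fourier transform), so by inversion `∫ s : ℝ, s^(2m) B s e^{ist} = 2π (-1)^m ψ^(2m) t`, i.e.
`∫ s in Ioi 0, s^(2m) B s cos (s t) = π (-1)^m ψ^(2m) t` (even integrand).  Multiply with `P.eval t`, integrate over `[a,b]` (Fubini:
`s^(2m) B s` is integrable, `[a,b]` compact), and use that `ψ^(2m)` is supported in `[-r,r] ⊆ [a,b]`:
`∫ s in Ioi 0, s^(2m) B s (∫ t in a..b, P t cos (s t)) = π (-1)^m ∫ t, P t ψ^(2m) t = π (-1)^m ∫ t, P^(2m) t ψ t` (integrate by parts `2m` times,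
induction on the number of derivatives with `Polynomial.derivative`).
PROOF of `one_dim`.  `exists_marginal` and `one_dim_psi`.
-/

open MeasureTheory Set Metric Topology Filter
open Pool.Agent.MP_c8a077_gt
open scoped ENNReal NNReal ContDiff

namespace Pool.Agent.MP_c8a077_gtP

private theorem OD_even {g : ℝ → ℝ} (he : ∀ x, g (-x) = g x) :
    ∫ x, g x = 2 * ∫ x in Ioi (0 : ℝ), g x := by
  have h := integral_comp_abs (f := g)
  rw [← h]
  refine integral_congr_ae (Eventually.of_forall fun x => ?_)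
  rcases abs_cases x with h1 | h1
  · simp only [h1.1]
  · simp only [h1.1, he]

private theorem OD_cs {ψ : ℝ → ℝ} {r : ℝ} (h2 : ∀ t, r < |t| → ψ t = 0) : HasCompactSupport ψ := by
  refine HasCompactSupport.intro (isCompact_Icc (a := -r) (b := r)) fun x hx => h2 x ?_
  rw [mem_Icc, ← abs_le, not_le] at hx
  exact hx

private theorem OD_int {ψ g : ℝ → ℝ} {r : ℝ} (h1 : Continuous ψ) (h2 : ∀ t, r < |t| → ψ t = 0)
    (hg : Continuous g) : Integrable (fun t => ψ t * g t) :=
  (h1.mul hg).integrable_of_hasCompactSupport (OD_cs (r := r) fun t ht => by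
    change ψ t * g t = 0
    rw [h2 t ht, zero_mul])

private theorem OD_deriv {ψ : ℝ → ℝ} {r : ℝ} (h1 : ContDiff ℝ ∞ ψ) (h2 : ∀ t, r < |t| → ψ t = 0) :
    ContDiff ℝ ∞ (deriv ψ) ∧ ∀ t, r < |t| → deriv ψ t = 0 := by
  refine ⟨(contDiff_infty_iff_deriv.1 h1).2, fun t ht => ?_⟩
  have h : ψ =ᶠ[𝓝 t] fun _ => 0 := by
    have ho : IsOpen {x : ℝ | r < |x|} := isOpen_lt continuous_const continuous_abs
    filter_upwards [ho.mem_nhds ht] with x hx
    exact h2 x hx
  rw [h.deriv_eq, deriv_const]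

private theorem OD_iter {ψ : ℝ → ℝ} {r : ℝ} (h1 : ContDiff ℝ ∞ ψ) (h2 : ∀ t, r < |t| → ψ t = 0) (k : ℕ) :
    ContDiff ℝ ∞ (iteratedDeriv k ψ) ∧ ∀ t, r < |t| → iteratedDeriv k ψ t = 0 := by
  induction k with
  | zero =>
    rw [iteratedDeriv_zero]
    exact ⟨h1, h2⟩
  | succ k ih =>
    rw [iteratedDeriv_succ]
    exact OD_deriv ih.1 ih.2

private theorem OD_parts {ψ g g' : ℝ → ℝ} {r : ℝ} (h1 : ContDiff ℝ ∞ ψ) (h2 : ∀ t, r < |t| → ψ t = 0)
    (hg : ∀ t, HasDerivAt g (g' t) t) (hg' : Continuous g') :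
    ∫ t, deriv ψ t * g t = -∫ t, ψ t * g' t := by
  have hgc : Continuous g := continuous_iff_continuousAt.2 fun t => (hg t).continuousAt
  have hd := OD_deriv h1 h2
  have hψ : ∀ t, HasDerivAt ψ (deriv ψ t) t := fun t =>
    ((contDiff_infty_iff_deriv.1 h1).1 t).hasDerivAt
  have i1 : Integrable (g * deriv ψ) := by
    have := OD_int hd.1.continuous hd.2 hgc
    refine this.congr (Eventually.of_forall fun t => ?_)
    exact mul_comm _ _
  have i2 : Integrable (g' * ψ) := by
    have := OD_int h1.continuous h2 hg'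
    refine this.congr (Eventually.of_forall fun t => ?_)
    exact mul_comm _ _
  have i3 : Integrable (g * ψ) := by
    have := OD_int h1.continuous h2 hgc
    refine this.congr (Eventually.of_forall fun t => ?_)
    exact mul_comm _ _
  have h := integral_mul_deriv_eq_deriv_mul_of_integrable (fun t _ => hg t) (fun t _ => hψ t) i1 i2 i3
  have e1 : ∫ t, deriv ψ t * g t = ∫ t, g t * deriv ψ t :=
    integral_congr_ae (Eventually.of_forall fun t => mul_comm _ _)
  have e2 : ∫ t, ψ t * g' t = ∫ t, g' t * ψ t :=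
    integral_congr_ae (Eventually.of_forall fun t => mul_comm _ _)
  rw [e1, e2]
  exact h

private theorem OD_cos {ψ : ℝ → ℝ} {r : ℝ} (h1 : ContDiff ℝ ∞ ψ) (h2 : ∀ t, r < |t| → ψ t = 0) (s : ℝ) :
    ∫ t, deriv (deriv ψ) t * Real.cos (s * t) = -(s ^ 2 * ∫ t, ψ t * Real.cos (s * t)) := by
  have hd := OD_deriv h1 h2
  have hl : ∀ t : ℝ, HasDerivAt (fun t : ℝ => s * t) s t := fun t => by
    have h4 := (hasDerivAt_id t).const_mul s
    rw [mul_one] at h4
    exact h4
  have a1 := OD_parts hd.1 hd.2 (g := fun t => Real.cos (s * t))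
    (g' := fun t => -Real.sin (s * t) * s) (fun t => (hl t).cos) (by fun_prop)
  have a2 := OD_parts h1 h2 (g := fun t => Real.sin (s * t))
    (g' := fun t => Real.cos (s * t) * s) (fun t => (hl t).sin) (by fun_prop)
  have e1 : ∫ t, deriv ψ t * (-Real.sin (s * t) * s) = -s * ∫ t, deriv ψ t * Real.sin (s * t) := by
    rw [← integral_const_mul]
    refine integral_congr_ae (Eventually.of_forall fun t => ?_)
    change _ = -s * (deriv ψ t * Real.sin (s * t))
    ring
  have e2 : ∫ t, ψ t * (Real.cos (s * t) * s) = s * ∫ t, ψ t * Real.cos (s * t) := by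
    rw [← integral_const_mul]
    refine integral_congr_ae (Eventually.of_forall fun t => ?_)
    change _ = s * (ψ t * Real.cos (s * t))
    ring
  rw [a1, e1, a2, e2]
  ring

private theorem OD_cos_iter {ψ : ℝ → ℝ} {r : ℝ} (h1 : ContDiff ℝ ∞ ψ) (h2 : ∀ t, r < |t| → ψ t = 0)
    (s : ℝ) (m : ℕ) : ∫ t, iteratedDeriv (2 * m) ψ t * Real.cos (s * t) =
      (-1) ^ m * s ^ (2 * m) * ∫ t, ψ t * Real.cos (s * t) := by
  induction m with
  | zero => simp
  | succ m ih =>
    have e : 2 * (m + 1) = 2 * m + 1 + 1 := by ring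
    have hi := OD_iter h1 h2 (2 * m)
    rw [e, iteratedDeriv_succ, iteratedDeriv_succ, OD_cos hi.1 hi.2, ih, pow_succ, pow_succ, pow_succ]
    ring

private theorem OD_poly {ψ : ℝ → ℝ} {r : ℝ} (h1 : ContDiff ℝ ∞ ψ) (h2 : ∀ t, r < |t| → ψ t = 0)
    (k : ℕ) : ∀ P : Polynomial ℝ, ∫ t, iteratedDeriv k ψ t * P.eval t =
      (-1) ^ k * ∫ t, ψ t * ((Polynomial.derivative^[k]) P).eval t := by
  induction k with
  | zero =>
    intro P
    rw [iteratedDeriv_zero, pow_zero, one_mul]
    rfl
  | succ k ih =>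
    intro P
    have hi := OD_iter h1 h2 k
    rw [iteratedDeriv_succ, OD_parts hi.1 hi.2 (g := fun t => P.eval t)
      (g' := fun t => (Polynomial.derivative P).eval t) (fun t => P.hasDerivAt t) (by fun_prop), ih,
      Function.iterate_succ_apply, pow_succ]
    ring

private theorem OD_sin {φ : ℝ → ℝ} (h3 : ∀ t, φ (-t) = φ t) (s : ℝ) :
    ∫ t, φ t * Real.sin (s * t) = 0 := by
  have h := integral_neg_eq_self (fun t : ℝ => φ t * Real.sin (s * t)) volume
  have e : ∫ t, φ (-t) * Real.sin (s * -t) = -∫ t, φ t * Real.sin (s * t) := by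
    rw [← integral_neg]
    refine integral_congr_ae (Eventually.of_forall fun t => ?_)
    change φ (-t) * Real.sin (s * -t) = -(φ t * Real.sin (s * t))
    rw [h3, mul_neg, Real.sin_neg]
    ring
  rw [e] at h
  linarith

open scoped FourierTransform SchwartzMap in
private theorem OD_inv {φ : ℝ → ℝ} {r : ℝ} (h1 : ContDiff ℝ ∞ φ) (h2 : ∀ t, r < |t| → φ t = 0)
    (h3 : ∀ t, φ (-t) = φ t) :
    Integrable (fun s : ℝ => ∫ t, φ t * Real.cos (s * t)) ∧
      ∀ t, ∫ s : ℝ, (∫ u, φ u * Real.cos (s * u)) * Real.cos (s * t) = 2 * Real.pi * φ t := by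
  have hpi : (0 : ℝ) < 2 * Real.pi := by positivity
  set G : ℝ → ℝ := fun s => ∫ t, φ t * Real.cos (s * t) with hG
  have hcs : HasCompactSupport (Complex.ofRealCLM ∘ φ) := (OD_cs h2).comp_left rfl
  have hsm : ContDiff ℝ ∞ (Complex.ofRealCLM ∘ φ) := by fun_prop
  set F : 𝓢(ℝ, ℂ) := hcs.toSchwartzMap hsm with hF
  have hFc : (F : ℝ → ℂ) = fun t => ((φ t : ℝ) : ℂ) := rfl
  have hFT : ∀ w : ℝ, (𝓕 (F : ℝ → ℂ)) w = ((G (2 * Real.pi * w) : ℝ) : ℂ) := by
    intro w
    rw [Real.fourier_real_eq_integral_exp_smul]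
    have e : ∀ v : ℝ, Complex.exp (((-2 * Real.pi * v * w : ℝ) : ℂ) * Complex.I) • F v =
        ((φ v * Real.cos (2 * Real.pi * w * v) : ℝ) : ℂ) +
          (-Complex.I) * ((φ v * Real.sin (2 * Real.pi * w * v) : ℝ) : ℂ) := by
      intro v
      have e1 : F v = ((φ v : ℝ) : ℂ) := rfl
      have e2 : ((-2 * Real.pi * v * w : ℝ) : ℂ) = ((-(2 * Real.pi * w * v) : ℝ) : ℂ) := by
        congr 1
        ring
      rw [e1, e2, smul_eq_mul, Complex.exp_mul_I, ← Complex.ofReal_cos, ← Complex.ofReal_sin,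
        Real.cos_neg, Real.sin_neg]
      push_cast
      ring
    have ic : Integrable (fun v : ℝ => ((φ v * Real.cos (2 * Real.pi * w * v) : ℝ) : ℂ)) :=
      (OD_int h1.continuous h2 (by fun_prop)).ofReal
    have is : Integrable (fun v : ℝ => (-Complex.I) *
        ((φ v * Real.sin (2 * Real.pi * w * v) : ℝ) : ℂ)) :=
      ((OD_int h1.continuous h2 (by fun_prop)).ofReal).const_mul _
    rw [integral_congr_ae (Eventually.of_forall e), integral_add ic is, integral_const_mul,
      integral_complex_ofReal, integral_complex_ofReal, OD_sin h3]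
    simp [hG]
  have hFTi : Integrable (𝓕 (F : ℝ → ℂ)) := by
    have h := (𝓕 F).integrable (μ := (volume : Measure ℝ))
    exact h
  have hGc : Integrable (fun w : ℝ => ((G (2 * Real.pi * w) : ℝ) : ℂ)) :=
    hFTi.congr (Eventually.of_forall hFT)
  have hGr : Integrable (fun w : ℝ => G (2 * Real.pi * w)) := by
    have h := hGc.re
    refine h.congr (Eventually.of_forall fun w => ?_)
    simp
  have hGi : Integrable G := (integrable_comp_mul_left_iff G hpi.ne').1 hGr
  refine ⟨hGi, fun t => ?_⟩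
  have hinv := Continuous.fourierInv_fourier_eq (f := (F : ℝ → ℂ)) F.continuous
    (F.integrable (μ := (volume : Measure ℝ))) hFTi
  have h4 := congrFun hinv t
  rw [Real.fourierInv_eq'] at h4
  have e5 : ∀ w : ℝ, Complex.exp (((2 * Real.pi * inner ℝ w t : ℝ) : ℂ) * Complex.I) •
      (𝓕 (F : ℝ → ℂ)) w = ((G (2 * Real.pi * w) * Real.cos (2 * Real.pi * w * t) : ℝ) : ℂ) +
        Complex.I * ((G (2 * Real.pi * w) * Real.sin (2 * Real.pi * w * t) : ℝ) : ℂ) := by
    intro w
    have e6 : ((2 * Real.pi * inner ℝ w t : ℝ) : ℂ) = ((2 * Real.pi * w * t : ℝ) : ℂ) := by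
      congr 1
      have : (inner ℝ w t : ℝ) = t * w := rfl
      rw [this]
      ring
    rw [hFT, e6, smul_eq_mul, Complex.exp_mul_I, ← Complex.ofReal_cos, ← Complex.ofReal_sin]
    push_cast
    ring
  have jc : Integrable (fun w : ℝ => ((G (2 * Real.pi * w) * Real.cos (2 * Real.pi * w * t) : ℝ) : ℂ)) := by
    refine Integrable.ofReal ?_
    refine hGr.mul_bdd (c := 1) (by fun_prop) (Eventually.of_forall fun w => ?_)
    rw [Real.norm_eq_abs]
    exact Real.abs_cos_le_one _
  have js : Integrable (fun w : ℝ => Complex.I *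
      ((G (2 * Real.pi * w) * Real.sin (2 * Real.pi * w * t) : ℝ) : ℂ)) := by
    refine (Integrable.ofReal ?_).const_mul _
    refine hGr.mul_bdd (c := 1) (by fun_prop) (Eventually.of_forall fun w => ?_)
    rw [Real.norm_eq_abs]
    exact Real.abs_sin_le_one _
  rw [integral_congr_ae (Eventually.of_forall e5), integral_add jc js, integral_const_mul,
    integral_complex_ofReal, integral_complex_ofReal] at h4
  have h5 := congrArg Complex.re h4
  have e7 : (F t).re = φ t := rfl
  rw [e7] at h5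
  simp only [Complex.add_re, Complex.ofReal_re, Complex.mul_re, Complex.I_re, zero_mul, Complex.I_im,
    Complex.ofReal_im, mul_zero, sub_zero, add_zero] at h5
  have h6 := Measure.integral_comp_mul_left (fun s : ℝ => G s * Real.cos (s * t)) (2 * Real.pi)
  have e8 : ∫ w : ℝ, G (2 * Real.pi * w) * Real.cos (2 * Real.pi * w * t) = φ t := h5
  rw [e8, abs_of_pos (inv_pos.2 hpi), smul_eq_mul] at h6
  rw [h6, ← mul_assoc, mul_inv_cancel₀ hpi.ne', one_mul]

theorem one_dim_psi (m : ℕ) {r a b : ℝ} (hr : 0 < r) (ha : a ≤ -r) (hb : r ≤ b) {ψ : ℝ → ℝ}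
    (h1 : ContDiff ℝ ∞ ψ) (h2 : ∀ t, r < |t| → ψ t = 0) (h3 : ∀ t, ψ (-t) = ψ t)
    (P : Polynomial ℝ) :
    ∫ s in Ioi (0 : ℝ), s ^ (2 * m) * (∫ t : ℝ, ψ t * Real.cos (s * t)) *
      (∫ t in a..b, P.eval t * Real.cos (s * t)) =
      Real.pi * (-1) ^ m * ∫ t : ℝ, ψ t * ((Polynomial.derivative^[2 * m]) P).eval t := by
  have hab : a ≤ b := by linarith
  have hit := OD_iter h1 h2 (2 * m)
  set φ : ℝ → ℝ := iteratedDeriv (2 * m) ψ with hφ
  have hφe : ∀ t, φ (-t) = φ t := by
    intro t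
    have h := iteratedDeriv_comp_neg (2 * m) ψ t
    have e : (fun x => ψ (-x)) = ψ := funext h3
    rw [e, pow_mul, neg_one_sq, one_pow, one_smul] at h
    exact h.symm
  obtain ⟨hGi, hinv⟩ := OD_inv hit.1 hit.2 hφe
  set G : ℝ → ℝ := fun s => ∫ t, φ t * Real.cos (s * t) with hG
  set H : ℝ → ℝ := fun s => ∫ t in a..b, P.eval t * Real.cos (s * t) with hH
  have hsq : ((-1 : ℝ) ^ m) * (-1) ^ m = 1 := by
    rw [← mul_pow]
    norm_num
  have hG1 : ∀ s, s ^ (2 * m) * (∫ t : ℝ, ψ t * Real.cos (s * t)) = (-1) ^ m * G s := by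
    intro s
    have h := OD_cos_iter h1 h2 s m
    have h' : G s = (-1) ^ m * s ^ (2 * m) * ∫ t, ψ t * Real.cos (s * t) := h
    rw [h']
    calc s ^ (2 * m) * (∫ t : ℝ, ψ t * Real.cos (s * t))
        = ((-1) ^ m * (-1) ^ m) * (s ^ (2 * m) * (∫ t : ℝ, ψ t * Real.cos (s * t))) := by
          rw [hsq, one_mul]
      _ = _ := by ring
  have eL : ∫ s in Ioi (0 : ℝ), s ^ (2 * m) * (∫ t : ℝ, ψ t * Real.cos (s * t)) *
      (∫ t in a..b, P.eval t * Real.cos (s * t)) = (-1) ^ m * ∫ s in Ioi (0 : ℝ), G s * H s := by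
    rw [← integral_const_mul]
    refine integral_congr_ae (Eventually.of_forall fun s => ?_)
    change s ^ (2 * m) * (∫ t : ℝ, ψ t * Real.cos (s * t)) * H s = (-1) ^ m * (G s * H s)
    rw [hG1]
    ring
  have hGe : ∀ s, G (-s) = G s := by
    intro s
    refine integral_congr_ae (Eventually.of_forall fun t => ?_)
    change φ t * Real.cos (-s * t) = φ t * Real.cos (s * t)
    rw [neg_mul, Real.cos_neg]
  have hHe : ∀ s, H (-s) = H s := by
    intro s
    refine intervalIntegral.integral_congr fun t _ => ?_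
    rw [neg_mul, Real.cos_neg]
  have hfull : ∫ s, G s * H s = 2 * ∫ s in Ioi (0 : ℝ), G s * H s :=
    OD_even (g := fun s => G s * H s) fun s => by rw [hGe, hHe]
  -- Fubini
  have hPi : Integrable (fun t : ℝ => P.eval t) (volume.restrict (Ioc a b)) := by
    have hc : Continuous fun t : ℝ => P.eval t := by fun_prop
    exact (hc.integrableOn_Icc (a := a) (b := b)).mono_set Ioc_subset_Icc_self
  have hprod : Integrable (Function.uncurry fun s t : ℝ => G s * (P.eval t * Real.cos (s * t)))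
      (volume.prod (volume.restrict (Ioc a b))) := by
    have h := hGi.mul_prod hPi
    have h' := h.mul_bdd (c := 1) (g := fun z : ℝ × ℝ => Real.cos (z.1 * z.2))
      (by fun_prop) (Eventually.of_forall fun z => by
        rw [Real.norm_eq_abs]
        exact Real.abs_cos_le_one _)
    refine h'.congr (Eventually.of_forall fun z => ?_)
    change G z.1 * P.eval z.2 * Real.cos (z.1 * z.2) = G z.1 * (P.eval z.2 * Real.cos (z.1 * z.2))
    ring
  have hswap := integral_integral_swap hprod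
  have e1 : ∫ s, G s * H s = ∫ s, ∫ t in Ioc a b, G s * (P.eval t * Real.cos (s * t)) := by
    refine integral_congr_ae (Eventually.of_forall fun s => ?_)
    change G s * H s = ∫ t in Ioc a b, G s * (P.eval t * Real.cos (s * t))
    rw [integral_const_mul]
    congr 1
    exact intervalIntegral.integral_of_le hab
  have e2 : ∫ t in Ioc a b, ∫ s, G s * (P.eval t * Real.cos (s * t)) =
      2 * Real.pi * ∫ t, φ t * P.eval t := by
    have e3 : ∀ t : ℝ, ∫ s, G s * (P.eval t * Real.cos (s * t)) = 2 * Real.pi * (φ t * P.eval t) := by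
      intro t
      have h := hinv t
      calc ∫ s, G s * (P.eval t * Real.cos (s * t)) = ∫ s, P.eval t * (G s * Real.cos (s * t)) := by
            refine integral_congr_ae (Eventually.of_forall fun s => ?_)
            change G s * (P.eval t * Real.cos (s * t)) = P.eval t * (G s * Real.cos (s * t))
            ring
        _ = P.eval t * (2 * Real.pi * φ t) := by
            rw [integral_const_mul]
            exact congrArg _ h
        _ = _ := by ring
    rw [integral_congr_ae (Eventually.of_forall e3), integral_const_mul, ← integral_Icc_eq_integral_Ioc]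
    congr 1
    refine setIntegral_eq_integral_of_forall_compl_eq_zero fun t ht => ?_
    have : r < |t| := by
      rw [mem_Icc, not_and_or, not_le, not_le] at ht
      rw [lt_abs]
      rcases ht with ht | ht
      · right
        linarith
      · left
        linarith
    rw [hit.2 t this, zero_mul]
  have hswap' : ∫ s, ∫ t in Ioc a b, G s * (P.eval t * Real.cos (s * t)) =
      ∫ t in Ioc a b, ∫ s, G s * (P.eval t * Real.cos (s * t)) := hswap
  have h9 := OD_poly h1 h2 (2 * m) P
  rw [pow_mul, neg_one_sq, one_pow, one_mul] at h9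
  have h10 : ∫ t, φ t * P.eval t = ∫ t, ψ t * ((Polynomial.derivative^[2 * m]) P).eval t := h9
  rw [eL, ← h10]
  have h11 : 2 * ∫ s in Ioi (0 : ℝ), G s * H s = 2 * Real.pi * ∫ t, φ t * P.eval t := by
    rw [← hfull, e1, hswap', e2]
  have h12 : ∫ s in Ioi (0 : ℝ), G s * H s = Real.pi * ∫ t, φ t * P.eval t := by linarith
  rw [h12]
  ring

theorem one_dim {m : ℕ} {r a b : ℝ} (hr : 0 < r) (ha : a ≤ -r) (hb : r ≤ b) (P : Polynomial ℝ) :
    ∫ s in Ioi (0 : ℝ), s ^ (2 * m) * bt m r s * (∫ t in a..b, P.eval t * Real.cos (s * t)) =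
      Real.pi * (-1) ^ m *
        ∫ x : E (2 * m + 1), bump r x * ((Polynomial.derivative^[2 * m]) P).eval (x 0) := by
  obtain ⟨ψ, k1, k2, k3, k4, k5⟩ := exists_marginal (m := m) hr
  rw [← k5 (fun t => ((Polynomial.derivative^[2 * m]) P).eval t) (by fun_prop),
    ← one_dim_psi m hr ha hb k1 k2 k3 P]
  refine integral_congr_ae (Eventually.of_forall fun s => ?_)
  change _ * bt m r s * _ = _
  rw [k4]

end Pool.Agent.MP_c8a077_gtP
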