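import Pool.Agent.Lib.MP_c8a077_gtP.Sec
import Pool.Agent.Lib.MP_c8a077_gtP.A6
import Pool.Agent.Lib.MP_c8a077_gtP.Bd

/-!
# Cauchy's formula for the sections

`c` from `cauchy` with `d = k`.  Let `u` be a unit vector, `ι` with `IsDec u ι`.
Positivity: for `t` in the open interval, `surfSec K u t = μHE[k-1] (frontier L)`, `L = secT K ι u t` a body (`surfSec_eq`, `sec_body`),
`= ofReal c * ∫⁻ w, ofReal (gam w) * sh L w`, and `sh L w > 0` for `w ≠ 0` (`sh_pos`).
Formula: the functions `φ t * surfSec K u t` and `φ t * ofReal c * ∫⁻ w : E k, ofReal (gam w) * sh (secT K ι u t) w` agree for all `t` except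
possibly the two end points (outside the closed interval both are `0`: `secT = ∅` and the frontier of `∅` is empty).
Then Tonelli: `y ∈ TT (secT K ι u t) w` if and only if `t • u + ι y ∈ TT K (ι w)`, and the map `(y, t) ↦ ι y + t • u` preserves the volume.
-/

open MeasureTheory Set Metric Topology Filter
open Pool.Agent.MP_c8a077_gt
open scoped ENNReal NNReal

namespace Pool.Agent.MP_c8a077_gtP

private theorem SC_mem {k : ℕ} (K : Set (E (k + 1))) {u : E (k + 1)} {ι : E k →ₗᵢ[ℝ] E (k + 1)}
    (hι : IsDec u ι) (t : ℝ) (w y : E k) :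
    y ∈ TT (secT K ι u t) w ↔ t • u + ι y ∈ TT K (ι w) := by
  have h1 : inner ℝ (t • u + ι y) (ι w) = inner ℝ y w := by
    rw [inner_add_left, inner_smul_left, ι.inner_map_map, real_inner_comm, hι.1 w]
    simp
  have h2 : ‖ι w‖ = ‖w‖ := ι.norm_map w
  constructor
  · rintro ⟨⟨s, hs⟩, h3, h4⟩
    refine ⟨⟨s, ?_⟩, ?_, ?_⟩
    · have h5 : t • u + ι y + s • ι w = t • u + ι (y + s • w) := by
        rw [map_add, map_smul, add_assoc]
      rw [h5]
      exact hs
    · rw [h1]
      exact h3
    · rw [h1, h2]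
      exact h4
  · rintro ⟨⟨s, hs⟩, h3, h4⟩
    rw [h1] at h3
    rw [h1, h2] at h4
    refine ⟨⟨s, ?_⟩, h3, h4⟩
    have h5 : t • u + ι y + s • ι w = t • u + ι (y + s • w) := by
      rw [map_add, map_smul, add_assoc]
    rw [h5] at hs
    exact hs

private theorem SC_meas {k : ℕ} {K : Set (E (k + 1))} (hK : IsCompact K) (u : E (k + 1))
    (ι : E k →ₗᵢ[ℝ] E (k + 1)) :
    MeasurableSet {p : (ℝ × E k) × E k | p.1.1 • u + ι p.2 ∈ TT K (ι p.1.2)} := by
  have h1 : Measurable (fun p : (ℝ × E k) × E k => ((ι p.1.2, p.1.1 • u + ι p.2) : E (k + 1) × E (k + 1))) := by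
    have h2 : Continuous (fun p : (ℝ × E k) × E k => ((ι p.1.2, p.1.1 • u + ι p.2) : E (k + 1) × E (k + 1))) := by
      have := ι.continuous
      fun_prop
    exact h2.measurable
  exact h1 ((measurableSet_cyl hK).inter measurableSet_slab)

/-- The inner integral. -/
private theorem SC_inner {k : ℕ} {K : Set (E (k + 1))} (hK : IsCompact K) {u : E (k + 1)} (hu : ‖u‖ = 1)
    {ι : E k →ₗᵢ[ℝ] E (k + 1)} (hι : IsDec u ι) {φ : ℝ → ℝ≥0∞} (hφ : Measurable φ) (w : E k) :
    ∫⁻ t, φ t * volume {y : E k | t • u + ι y ∈ TT K (ι w)} = ∫⁻ x in TT K (ι w), φ (inner ℝ x u) := by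
  have hu0 : u ≠ 0 := by
    rintro rfl
    simp at hu
  have hTm := measurableSet_TT hK (ι w)
  have hmp := dec_mp hu0 hι
  have hF : Measurable (fun x : E (k + 1) => (TT K (ι w)).indicator (fun x => φ (inner ℝ x u)) x) := by
    apply Measurable.indicator _ hTm
    exact hφ.comp (by fun_prop)
  have huu : inner ℝ u u = (1 : ℝ) := by rw [real_inner_self_eq_norm_sq, hu, one_pow]
  have hA : AEMeasurable (fun p : E k × ℝ => (TT K (ι w)).indicator (fun x => φ (inner ℝ x u))
      (ι p.1 + (p.2 / ‖u‖) • u)) (volume.prod volume) := (hF.comp hmp.measurable).aemeasurable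
  rw [← lintegral_indicator hTm, ← hmp.lintegral_comp hF, lintegral_prod_symm _ hA]
  apply lintegral_congr
  intro t
  have h1 : ∀ y : E k, ι y + (t / ‖u‖) • u = t • u + ι y := by
    intro y
    rw [hu, div_one]
    exact add_comm _ _
  have h2 : ∀ y : E k, inner ℝ (t • u + ι y) u = t := by
    intro y
    rw [inner_add_left, inner_smul_left, huu, hι.1 y]
    simp
  have hc : Continuous fun y : E k => t • u + ι y := by
    have := ι.continuous
    fun_prop
  have hm : MeasurableSet {y : E k | t • u + ι y ∈ TT K (ι w)} := hc.measurable hTm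
  calc φ t * volume {y : E k | t • u + ι y ∈ TT K (ι w)}
      = ∫⁻ y, ({y : E k | t • u + ι y ∈ TT K (ι w)}.indicator (fun _ => φ t)) y := by
        rw [lintegral_indicator_const hm]
    _ = ∫⁻ y, (TT K (ι w)).indicator (fun x => φ (inner ℝ x u)) (ι (y, t).1 + ((y, t).2 / ‖u‖) • u) := by
        apply lintegral_congr
        intro y
        simp only
        rw [h1 y]
        by_cases hy : t • u + ι y ∈ TT K (ι w)
        · rw [indicator_of_mem (show y ∈ {y : E k | t • u + ι y ∈ TT K (ι w)} from hy), indicator_of_mem hy, h2 y]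
        · rw [indicator_of_notMem (show y ∉ {y : E k | t • u + ι y ∈ TT K (ι w)} from hy), indicator_of_notMem hy]

theorem surf_cauchy {k : ℕ} (hk : 2 ≤ k) : ∃ c : ℝ, 0 < c ∧ ∀ K : Set (E (k + 1)), IsBody K →
    ∀ u : E (k + 1), ‖u‖ = 1 →
      (∀ t, -hs K (-u) < t → t < hs K u → 0 < surfSec K u t) ∧
      ∀ φ : ℝ → ℝ≥0∞, Measurable φ →
        ∫⁻ t, φ t * surfSec K u t = ENNReal.ofReal c *
          ∫⁻ v, ENNReal.ofReal (gam v) * (∫⁻ x in TT K v, φ (inner ℝ x u)) ∂(pm u) := by
  obtain ⟨c, hc, hcau⟩ := cauchy hk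
  refine ⟨c, hc, ?_⟩
  intro K hK u hu
  have hu0 : u ≠ 0 := by
    rintro rfl
    simp at hu
  obtain ⟨ι, hι⟩ := exists_dec hu0
  have hval : ∀ t, -hs K (-u) < t → t < hs K u →
      surfSec K u t = ENNReal.ofReal c * ∫⁻ w : E k, ENNReal.ofReal (gam w) * sh (secT K ι u t) w := by
    intro t h1 h2
    rw [surfSec_eq K hu hι t]
    exact hcau _ (sec_body hK hu hι h1 h2)
  constructor
  · intro t h1 h2
    have hL := sec_body hK hu hι h1 h2
    rw [hval t h1 h2]
    have hm : Measurable (fun w : E k => ENNReal.ofReal (gam w) * sh (secT K ι u t) w) :=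
      (measurable_gam.ennreal_ofReal).mul (measurable_sh hL.2.1)
    have hpos : 0 < ∫⁻ w : E k, ENNReal.ofReal (gam w) * sh (secT K ι u t) w := by
      rw [lintegral_pos_iff_support hm]
      have hsub : ({0}ᶜ : Set (E k)) ⊆ Function.support (fun w : E k => ENNReal.ofReal (gam w) * sh (secT K ι u t) w) := by
        intro w hw
        rw [Function.mem_support]
        have h3 := sh_pos hL (show w ≠ 0 from hw)
        have h4 : 0 < ENNReal.ofReal (gam w) := ENNReal.ofReal_pos.2 (Real.exp_pos _)
        exact (ENNReal.mul_pos h4.ne' h3.ne').ne'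
      have hne : ({0}ᶜ : Set (E k)).Nonempty := by
        refine ⟨EuclideanSpace.single ⟨0, by omega⟩ 1, ?_⟩
        intro h
        have h5 : ‖(EuclideanSpace.single ⟨0, by omega⟩ 1 : E k)‖ = 0 := by
          rw [mem_singleton_iff.1 h, norm_zero]
        simp at h5
      exact (isOpen_compl_singleton.measure_pos volume hne).trans_le (measure_mono hsub)
    exact ENNReal.mul_pos (ENNReal.ofReal_pos.2 hc).ne' hpos.ne'
  · intro φ hφ
    have hM := SC_meas hK.2.1 u ι
    obtain ⟨V, hV⟩ : ∃ V : ℝ × E k → ℝ≥0∞, ∀ p, V p = volume {y : E k | p.1 • u + ι y ∈ TT K (ι p.2)} :=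
      ⟨_, fun _ => rfl⟩
    have hmV : Measurable V := by
      have h1 : V = fun p => volume {y : E k | p.1 • u + ι y ∈ TT K (ι p.2)} := funext hV
      rw [h1]
      exact measurable_measure_prodMk_left hM
    have hvol : ∀ t w, sh (secT K ι u t) w = V (t, w) := by
      intro t w
      rw [hV]
      have h1 : TT (secT K ι u t) w = {y : E k | t • u + ι y ∈ TT K (ι w)} := by
        ext y
        exact SC_mem K hι t w y
      unfold sh
      rw [h1]
    obtain ⟨g, hgd⟩ : ∃ g : E k → ℝ≥0∞, ∀ w, g w = ENNReal.ofReal (gam w) := ⟨_, fun _ => rfl⟩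
    have hg : Measurable g := by
      have h1 : g = fun w => ENNReal.ofReal (gam w) := funext hgd
      rw [h1]
      exact measurable_gam.ennreal_ofReal
    have hae : ∀ᵐ t : ℝ, φ t * surfSec K u t = ENNReal.ofReal c * ∫⁻ w : E k, φ t * (g w * V (t, w)) := by
      have h0 : ∀ᵐ t : ℝ, t ∉ ({-hs K (-u), hs K u} : Set ℝ) := by
        rw [ae_iff]
        simp only [not_not]
        exact ((Set.finite_singleton _).insert _).measure_zero volume
      filter_upwards [h0] with t ht
      have h1 : t ≠ -hs K (-u) := fun h => ht (by rw [h]; simp)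
      have h2 : t ≠ hs K u := fun h => ht (by rw [h]; simp)
      have hpt : Measurable fun w : E k => ((t, w) : ℝ × E k) := measurable_prodMk_left
      have hVt : Measurable (fun w : E k => V (t, w)) := hmV.comp hpt
      have hmw : Measurable (fun w : E k => g w * V (t, w)) := hg.mul hVt
      rw [lintegral_const_mul _ hmw]
      by_cases hin : -hs K (-u) < t ∧ t < hs K u
      · rw [hval t hin.1 hin.2]
        have h3 : ∫⁻ w : E k, ENNReal.ofReal (gam w) * sh (secT K ι u t) w = ∫⁻ w : E k, g w * V (t, w) :=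
          lintegral_congr fun w => by rw [hvol t w, hgd]
        rw [h3]
        ring
      · have hout : t < -hs K (-u) ∨ hs K u < t := by
          by_contra hcon
          push Not at hcon
          exact hin ⟨lt_of_le_of_ne hcon.1 (Ne.symm h1), lt_of_le_of_ne hcon.2 h2⟩
        have hE := secT_empty hK hu hι hout
        have h3 : surfSec K u t = 0 := by
          rw [surfSec_eq K hu hι t, hE, frontier_empty, measure_empty]
        have h4 : ∀ w : E k, V (t, w) = 0 := by
          intro w
          rw [← hvol t w, hE]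
          have h5 : TT (∅ : Set (E k)) w = ∅ := by
            rw [eq_empty_iff_forall_notMem]
            rintro x ⟨⟨s, hs⟩, -⟩
            exact hs
          unfold sh
          rw [h5, measure_empty]
        rw [h3]
        simp [h4]
    rw [lintegral_congr_ae hae, lintegral_const_mul' _ _ ENNReal.ofReal_ne_top]
    congr 1
    have hjoint : AEMeasurable (fun p : ℝ × E k => φ p.1 * (g p.2 * V p)) (volume.prod volume) := by
      have h1 : Measurable (fun p : ℝ × E k => φ p.1) := hφ.comp measurable_fst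
      have h2 : Measurable (fun p : ℝ × E k => g p.2) := hg.comp measurable_snd
      exact (h1.mul (h2.mul hmV)).aemeasurable
    have hswap : ∫⁻ t : ℝ, ∫⁻ w : E k, φ t * (g w * V (t, w)) = ∫⁻ w : E k, ∫⁻ t : ℝ, φ t * (g w * V (t, w)) :=
      lintegral_lintegral_swap hjoint
    have hemb : MeasurableEmbedding (ι : E k → E (k + 1)) :=
      ι.isometry.isClosedEmbedding.measurableEmbedding
    rw [hswap, pm_eq hu0 hι, hemb.lintegral_map]
    apply lintegral_congr
    intro w
    have h5 : gam (ι w) = gam w := by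
      unfold gam
      rw [ι.norm_map]
    rw [h5, ← SC_inner hK.2.1 hu hι hφ w, ← hgd]
    have h6 : g w ≠ ∞ := by
      rw [hgd]
      exact ENNReal.ofReal_ne_top
    rw [← lintegral_const_mul' _ _ h6]
    apply lintegral_congr
    intro t
    rw [hV]
    ring

end Pool.Agent.MP_c8a077_gtP
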