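import Pool.Agent.Lib.MP_c8a077_gtP.SC

/-!
# SF: the Fourier transform of `S_{K,u}`

PROOF.  `c` from `surf_cauchy`; let `a = -hs K (-u)`, `b = hs K u`, `a < b` (`neg_hs_lt`); `surfSec K u t = ofReal (P.eval t)` for `t ∈ [a,b]`
(`nonempty_iff`), so `0 < P.eval t` on `(a,b)`, and by continuity `0 ≤ P` on `[a,b]`.
Let `μ₁` be the measure `volume.restrict (Ioo a b)` with density `ofReal (P.eval t)`, and `μ₂` the measure on `ℝ` with
`∫⁻ φ dμ₂ = ofReal c * ∫⁻ v, ofReal (gam v) * (∫⁻ x in TT K v, φ ⟪x,u⟫) ∂(pm u)`.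
For `φ` vanishing outside `(a,b)` both agree by `surf_cauchy`; for `t` outside `[a,b]` no `x ∈ TT K v` has `⟪x,u⟫ = t` when `v ⊥ u`
(`pm_perp`: `x + s v ∈ K` and `⟪x + s v, u⟫ = ⟪x,u⟫`), and the end points are null sets for both sides (a hyperplane is null).  Finite
measures (`sh_le`, `lintegral_gam_pm`).  So for a bounded measurable real function `g`:
`∫ t in a..b, P.eval t * g t = c * ∫ v, gam v * (∫ x in TT K v, g ⟪x,u⟫) ∂(pm u)` (`surf_real`): for `g ≥ 0` take `toReal` in `surf_cauchy` with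
`φ = ofReal ∘ g` (all integrals finite), in general write `g + M ≥ 0`, `M ≥ |g|`, and subtract.
`surf_fourier`: apply `surf_real` to `g t = cos (s t)` and `g t = sin (s t)`; `ft K v (s • u) = ∫ x in TT K v, (cos (s ⟪x,u⟫) + i sin (s ⟪x,u⟫))`,
`pm (s • u) = pm u` for `s > 0` (`pm_smul`).  The value for `g = 1` is the statement about `gV` (`∫ x in TT K v, 1 = (sh K v).toReal`).
-/

open MeasureTheory Set Metric Topology Filter
open Pool.Agent.MP_c8a077_gt
open scoped ENNReal NNReal

namespace Pool.Agent.MP_c8a077_gtP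

/-- `P` represents `S_{K,u}`. -/
def Rep {n : ℕ} (K : Set (E n)) (u : E n) (P : Polynomial ℝ) : Prop :=
  ∀ t : ℝ, (K ∩ hyper u t).Nonempty → surfSec K u t = ENNReal.ofReal (P.eval t)

private theorem sf_measJ {n : ℕ} {K : Set (E n)} (hK : IsCompact K) (u : E n) {g : ℝ → ℝ}
    (hg : Measurable g) :
    StronglyMeasurable (fun v : E n => ∫ x in TT K v, g (inner ℝ x u)) := by
  have hT : MeasurableSet {p : E n × E n | p.2 ∈ TT K p.1} :=
    (measurableSet_cyl hK).inter measurableSet_slab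
  have hgx : Measurable (fun p : E n × E n => g (inner ℝ p.2 u)) := by
    have h : Measurable (fun p : E n × E n => (inner ℝ p.2 u : ℝ)) := by fun_prop
    exact hg.comp h
  have h1 : StronglyMeasurable (fun p : E n × E n =>
      indicator {p : E n × E n | p.2 ∈ TT K p.1} (fun p => g (inner ℝ p.2 u)) p) :=
    (hgx.indicator hT).stronglyMeasurable
  have h2 := h1.integral_prod_right' (ν := (volume : Measure (E n)))
  have h3 : (fun v : E n => ∫ x, indicator {p : E n × E n | p.2 ∈ TT K p.1}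
      (fun p => g (inner ℝ p.2 u)) (v, x)) = fun v : E n => ∫ x in TT K v, g (inner ℝ x u) := by
    funext v
    have hv : MeasurableSet (TT K v) := measurable_prodMk_left hT
    rw [← integral_indicator hv]
    rfl
  rw [← h3]
  exact h2

private theorem sf_intJ {n : ℕ} {K : Set (E n)} (hK : IsBody K) (u : E n) {g : ℝ → ℝ}
    (hg : Measurable g) {M : ℝ} (hM : ∀ t, |g t| ≤ M) {v : E n} (hv : v ≠ 0) :
    IntegrableOn (fun x => g (inner ℝ x u)) (TT K v) := by
  have hgx : Measurable (fun x : E n => g (inner ℝ x u)) := by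
    have h : Measurable (fun x : E n => (inner ℝ x u : ℝ)) := by fun_prop
    exact hg.comp h
  have hfin : volume (TT K v) < ∞ := (sh_ne_top hK hv).lt_top
  refine Measure.integrableOn_of_bounded hfin.ne hgx.aestronglyMeasurable (M := M) ?_
  exact ae_of_all _ fun x => by rw [Real.norm_eq_abs]; exact hM _

private theorem sf_ae {k : ℕ} (hk : 1 ≤ k) {u : E (k + 1)} (hu : u ≠ 0) :
    ∀ᵐ v ∂(pm u), v ≠ 0 := by
  have h := pm_zero hk hu
  rw [ae_iff]
  have : {a : E (k + 1) | ¬ a ≠ 0} = {0} := by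
    ext a
    simp
  rw [this]
  exact h

private theorem sf_intG {k : ℕ} (hk : 1 ≤ k) {K : Set (E (k + 1))} (hK : IsBody K)
    {u : E (k + 1)} (hu : u ≠ 0) {g : ℝ → ℝ} (hg : Measurable g) {M : ℝ}
    (hM : ∀ t, |g t| ≤ M) :
    Integrable (fun v => gam v * (∫ x in TT K v, g (inner ℝ x u))) (pm u) := by
  have h1 := (integrable_gV hk hK hu).const_mul M
  refine h1.mono' ((measurable_gam.stronglyMeasurable.mul
    (sf_measJ hK.2.1 u hg)).aestronglyMeasurable) ?_
  filter_upwards [sf_ae hk hu] with v hv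
  have hgam : 0 ≤ gam v := (Real.exp_pos _).le
  have hb : ‖∫ x in TT K v, g (inner ℝ x u)‖ ≤ M * (sh K v).toReal := by
    have h2 := norm_setIntegral_le_of_norm_le_const (μ := (volume : Measure (E (k + 1))))
      (s := TT K v) (f := fun x => g (inner ℝ x u)) (C := M)
      (sh_ne_top hK hv).lt_top (fun x _ => by rw [Real.norm_eq_abs]; exact hM _)
    exact h2
  rw [norm_mul, Real.norm_of_nonneg hgam]
  calc gam v * ‖∫ x in TT K v, g (inner ℝ x u)‖ ≤ gam v * (M * (sh K v).toReal) := by gcongr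
    _ = M * (gam v * (sh K v).toReal) := by ring

private theorem sf_intP {P : Polynomial ℝ} {a b : ℝ} {g : ℝ → ℝ} (hg : Measurable g) {M : ℝ}
    (hM : ∀ t, |g t| ≤ M) :
    IntervalIntegrable (fun t => P.eval t * g t) volume a b := by
  have h1 : IntervalIntegrable (fun t => P.eval t) volume a b :=
    P.continuous.intervalIntegrable a b
  rw [intervalIntegrable_iff] at h1 ⊢
  refine h1.mul_bdd (c := M) hg.aestronglyMeasurable (ae_of_all _ fun t => ?_)
  rw [Real.norm_eq_abs]
  exact hM t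

private theorem sf_real_nonneg {k : ℕ} (hk : 1 ≤ k) {c : ℝ} (hc0 : 0 < c)
    {K : Set (E (k + 1))} (hK : IsBody K) {u : E (k + 1)} (hu : ‖u‖ = 1)
    (hc : ∀ φ : ℝ → ℝ≥0∞, Measurable φ →
        ∫⁻ t, φ t * surfSec K u t = ENNReal.ofReal c *
          ∫⁻ v, ENNReal.ofReal (gam v) * (∫⁻ x in TT K v, φ (inner ℝ x u)) ∂(pm u))
    {P : Polynomial ℝ} (hP : Rep K u P)
    (hpos : ∀ t ∈ Ioo (-hs K (-u)) (hs K u), 0 < P.eval t)
    {g : ℝ → ℝ} (hg : Measurable g) {M : ℝ} (hM : ∀ t, |g t| ≤ M) (hg0 : ∀ t, 0 ≤ g t) :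
    ∫ t in (-hs K (-u))..(hs K u), P.eval t * g t =
      c * ∫ v, gam v * (∫ x in TT K v, g (inner ℝ x u)) ∂(pm u) := by
  have hu0 : u ≠ 0 := by
    intro h
    rw [h, norm_zero] at hu
    exact zero_ne_one hu
  have hab := neg_hs_lt hK hu0
  have hφ : Measurable (fun t => ENNReal.ofReal (g t)) := hg.ennreal_ofReal
  have hform := hc _ hφ
  -- left side
  have hL : ∫⁻ t, ENNReal.ofReal (g t) * surfSec K u t =
      ∫⁻ t in Icc (-hs K (-u)) (hs K u), ENNReal.ofReal (P.eval t * g t) := by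
    rw [← lintegral_indicator measurableSet_Icc]
    refine lintegral_congr fun t => ?_
    by_cases ht : t ∈ Icc (-hs K (-u)) (hs K u)
    · rw [indicator_of_mem ht, hP t ((nonempty_iff hK u t).2 ht), mul_comm,
        ← ENNReal.ofReal_mul' (hg0 t)]
    · rw [indicator_of_notMem ht]
      have hem : K ∩ hyper u t = ∅ := by
        rw [← not_nonempty_iff_eq_empty]
        exact fun h => ht ((nonempty_iff hK u t).1 h)
      have hpre : ((↑) ⁻¹' K : Set (hyper u t)) = ∅ := by
        ext x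
        simp only [mem_preimage, mem_empty_iff_false, iff_false]
        intro hx
        have : (x : E (k + 1)) ∈ K ∩ hyper u t := ⟨hx, x.2⟩
        rw [hem] at this
        exact this
      have : surfSec K u t = 0 := by
        unfold surfSec
        rw [hpre, frontier_empty, measure_empty]
      rw [this, mul_zero]
  have hnn : 0 ≤ᵐ[volume.restrict (Icc (-hs K (-u)) (hs K u))]
      (fun t => P.eval t * g t) := by
    rw [Measure.restrict_congr_set Ioo_ae_eq_Icc.symm]
    refine (ae_restrict_iff' measurableSet_Ioo).2 (ae_of_all _ fun t ht => ?_)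
    exact mul_nonneg (hpos t ht).le (hg0 t)
  have hL2 : ∫ t in (-hs K (-u))..(hs K u), P.eval t * g t =
      (∫⁻ t in Icc (-hs K (-u)) (hs K u), ENNReal.ofReal (P.eval t * g t)).toReal := by
    rw [intervalIntegral.integral_of_le hab.le, ← integral_Icc_eq_integral_Ioc,
      integral_eq_lintegral_of_nonneg_ae hnn
        (P.continuous.measurable.mul hg).aestronglyMeasurable]
  -- right side
  have hR : ∫ v, gam v * (∫ x in TT K v, g (inner ℝ x u)) ∂(pm u) =
      (∫⁻ v, ENNReal.ofReal (gam v) *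
        (∫⁻ x in TT K v, ENNReal.ofReal (g (inner ℝ x u))) ∂(pm u)).toReal := by
    rw [integral_eq_lintegral_of_nonneg_ae]
    · congr 1
      refine lintegral_congr_ae ?_
      filter_upwards [sf_ae hk hu0] with v hv
      rw [ENNReal.ofReal_mul (by unfold gam; positivity),
        ofReal_integral_eq_lintegral_ofReal (sf_intJ hK u hg hM hv)
          (ae_of_all _ fun x => hg0 _)]
    · exact ae_of_all _ fun v => mul_nonneg (by unfold gam; positivity)
        (integral_nonneg fun x => hg0 _)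
    · exact (measurable_gam.stronglyMeasurable.mul
        (sf_measJ hK.2.1 u hg)).aestronglyMeasurable
  rw [hL2, hR, ← hL, hform, ENNReal.toReal_mul, ENNReal.toReal_ofReal hc0.le]

private theorem sf_real {k : ℕ} (hk : 1 ≤ k) {c : ℝ} (hc0 : 0 < c)
    {K : Set (E (k + 1))} (hK : IsBody K) {u : E (k + 1)} (hu : ‖u‖ = 1)
    (hc : ∀ φ : ℝ → ℝ≥0∞, Measurable φ →
        ∫⁻ t, φ t * surfSec K u t = ENNReal.ofReal c *
          ∫⁻ v, ENNReal.ofReal (gam v) * (∫⁻ x in TT K v, φ (inner ℝ x u)) ∂(pm u))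
    {P : Polynomial ℝ} (hP : Rep K u P)
    (hpos : ∀ t ∈ Ioo (-hs K (-u)) (hs K u), 0 < P.eval t)
    {g : ℝ → ℝ} (hg : Measurable g) {M : ℝ} (hM : ∀ t, |g t| ≤ M) :
    ∫ t in (-hs K (-u))..(hs K u), P.eval t * g t =
      c * ∫ v, gam v * (∫ x in TT K v, g (inner ℝ x u)) ∂(pm u) := by
  have hu0 : u ≠ 0 := by
    intro h
    rw [h, norm_zero] at hu
    exact zero_ne_one hu
  have hM0 : 0 ≤ M := (abs_nonneg _).trans (hM 0)
  have hg1 : Measurable (fun t => g t + M) := hg.add_const M
  have hg2 : Measurable (fun _ : ℝ => M) := measurable_const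
  have hb1 : ∀ t, |g t + M| ≤ M + M := fun t =>
    (abs_add_le _ _).trans (add_le_add (hM t) (abs_of_nonneg hM0).le)
  have hb2 : ∀ t : ℝ, |(fun _ : ℝ => M) t| ≤ M := fun t => (abs_of_nonneg hM0).le
  have hn1 : ∀ t, 0 ≤ g t + M := fun t => by
    have := (abs_le.1 (hM t)).1
    linarith
  have h1 := sf_real_nonneg hk hc0 hK hu hc hP hpos hg1 hb1 hn1
  have h2 := sf_real_nonneg hk hc0 hK hu hc hP hpos hg2 hb2 (fun _ => hM0)
  have hLs : ∫ t in (-hs K (-u))..(hs K u), P.eval t * g t =
      (∫ t in (-hs K (-u))..(hs K u), P.eval t * (g t + M)) -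
        ∫ t in (-hs K (-u))..(hs K u), P.eval t * M := by
    rw [← intervalIntegral.integral_sub (sf_intP hg1 hb1) (sf_intP hg2 hb2)]
    refine intervalIntegral.integral_congr fun t _ => ?_
    ring
  have hRs : ∫ v, gam v * (∫ x in TT K v, g (inner ℝ x u)) ∂(pm u) =
      (∫ v, gam v * (∫ x in TT K v, (g (inner ℝ x u) + M)) ∂(pm u)) -
        ∫ v, gam v * (∫ x in TT K v, M) ∂(pm u) := by
    rw [← integral_sub (sf_intG hk hK hu0 hg1 hb1) (sf_intG hk hK hu0 hg2 hb2)]
    refine integral_congr_ae ?_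
    filter_upwards [sf_ae hk hu0] with v hv
    rw [integral_add (sf_intJ hK u hg hM hv) (sf_intJ hK u hg2 hb2 hv)]
    ring
  rw [hLs, h1, h2, hRs]
  ring

private theorem sf_ft {n : ℕ} {K : Set (E n)} (hK : IsBody K) (u : E n) (s : ℝ) {v : E n}
    (hv : v ≠ 0) :
    ft K v (s • u) = ((∫ x in TT K v, Real.cos (s * inner ℝ x u) : ℝ) : ℂ) +
      Complex.I * ((∫ x in TT K v, Real.sin (s * inner ℝ x u) : ℝ) : ℂ) := by
  have hc : Measurable (fun t : ℝ => Real.cos (s * t)) := by fun_prop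
  have hsn : Measurable (fun t : ℝ => Real.sin (s * t)) := by fun_prop
  have i1 := sf_intJ hK u hc (M := 1) (fun t => Real.abs_cos_le_one _) hv
  have i2 := sf_intJ hK u hsn (M := 1) (fun t => Real.abs_sin_le_one _) hv
  unfold ft
  rw [← integral_complex_ofReal, ← integral_complex_ofReal, ← integral_const_mul, ← integral_add]
  · refine integral_congr_ae (ae_of_all _ fun x => ?_)
    simp only [inner_smul_right]
    rw [mul_comm Complex.I, Complex.exp_mul_I]
    push_cast
    ring
  · exact i1.ofReal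
  · exact i2.ofReal.const_mul _

theorem surf_fourier {k : ℕ} (hk : 2 ≤ k) : ∃ c : ℝ, 0 < c ∧ ∀ K : Set (E (k + 1)), IsBody K →
    ∀ u : E (k + 1), ‖u‖ = 1 → ∀ P : Polynomial ℝ, Rep K u P →
      (∀ t ∈ Ioo (-hs K (-u)) (hs K u), 0 < P.eval t) ∧
      (∀ g : ℝ → ℝ, Measurable g → (∃ M : ℝ, ∀ t, |g t| ≤ M) →
        ∫ t in (-hs K (-u))..(hs K u), P.eval t * g t =
          c * ∫ v, gam v * (∫ x in TT K v, g (inner ℝ x u)) ∂(pm u)) ∧
      (∀ s : ℝ, 0 < s → (c : ℂ) * gf K (s • u) =
        ∫ t in (-hs K (-u))..(hs K u), ((P.eval t : ℝ) : ℂ) * Complex.exp (Complex.I * ((s * t : ℝ) : ℂ))) ∧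
      c * gV K u = ∫ t in (-hs K (-u))..(hs K u), P.eval t := by
  obtain ⟨c, hc0, hc⟩ := surf_cauchy hk
  refine ⟨c, hc0, fun K hK u hu P hP => ?_⟩
  have hk1 : 1 ≤ k := by omega
  have hu0 : u ≠ 0 := by
    intro h
    rw [h, norm_zero] at hu
    exact zero_ne_one hu
  have hab := neg_hs_lt hK hu0
  have hcK := hc K hK u hu
  have hpos : ∀ t ∈ Ioo (-hs K (-u)) (hs K u), 0 < P.eval t := by
    intro t ht
    have h1 := hcK.1 t ht.1 ht.2
    rw [hP t ((nonempty_iff hK u t).2 ⟨ht.1.le, ht.2.le⟩)] at h1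
    exact ENNReal.ofReal_pos.1 h1
  have hreal : ∀ g : ℝ → ℝ, Measurable g → (∃ M : ℝ, ∀ t, |g t| ≤ M) →
        ∫ t in (-hs K (-u))..(hs K u), P.eval t * g t =
          c * ∫ v, gam v * (∫ x in TT K v, g (inner ℝ x u)) ∂(pm u) := by
    rintro g hg ⟨M, hM⟩
    exact sf_real hk1 hc0 hK hu hcK.2 hP hpos hg hM
  refine ⟨hpos, hreal, ?_, ?_⟩
  · intro s hs0
    have hc1 : Measurable (fun t : ℝ => Real.cos (s * t)) := by fun_prop
    have hs1 : Measurable (fun t : ℝ => Real.sin (s * t)) := by fun_prop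
    have e1 := hreal _ hc1 ⟨1, fun t => Real.abs_cos_le_one _⟩
    have e2 := hreal _ hs1 ⟨1, fun t => Real.abs_sin_le_one _⟩
    have i1 := sf_intG hk1 hK hu0 hc1 (M := 1) (fun t => Real.abs_cos_le_one _)
    have i2 := sf_intG hk1 hK hu0 hs1 (M := 1) (fun t => Real.abs_sin_le_one _)
    have hgf : gf K (s • u) =
        ((∫ v, gam v * (∫ x in TT K v, Real.cos (s * inner ℝ x u)) ∂(pm u) : ℝ) : ℂ) +
        Complex.I *
          ((∫ v, gam v * (∫ x in TT K v, Real.sin (s * inner ℝ x u)) ∂(pm u) : ℝ) : ℂ) := by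
      unfold gf
      rw [pm_smul u hs0, ← integral_complex_ofReal, ← integral_complex_ofReal, ← integral_const_mul,
        ← integral_add]
      · refine integral_congr_ae ?_
        filter_upwards [sf_ae hk1 hu0] with v hv
        rw [sf_ft hK u s hv]
        push_cast
        ring
      · exact i1.ofReal
      · exact i2.ofReal.const_mul _
    have hint : ∫ t in (-hs K (-u))..(hs K u), ((P.eval t : ℝ) : ℂ) *
          Complex.exp (Complex.I * ((s * t : ℝ) : ℂ)) =
        ((∫ t in (-hs K (-u))..(hs K u), P.eval t * Real.cos (s * t) : ℝ) : ℂ) +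
        Complex.I *
          ((∫ t in (-hs K (-u))..(hs K u), P.eval t * Real.sin (s * t) : ℝ) : ℂ) := by
      rw [← intervalIntegral.integral_ofReal, ← intervalIntegral.integral_ofReal,
        ← intervalIntegral.integral_const_mul, ← intervalIntegral.integral_add]
      · refine intervalIntegral.integral_congr fun t _ => ?_
        rw [mul_comm Complex.I, Complex.exp_mul_I]
        push_cast
        ring
      · exact (Complex.continuous_ofReal.comp
          (P.continuous.mul (by fun_prop))).intervalIntegrable _ _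
      · exact (continuous_const.mul (Complex.continuous_ofReal.comp
          (P.continuous.mul (by fun_prop)))).intervalIntegrable _ _
    rw [hgf, hint, e1, e2]
    push_cast
    ring
  · have e := hreal (fun _ => 1) measurable_const ⟨1, fun t => by simp⟩
    have e' : ∫ t in (-hs K (-u))..(hs K u), P.eval t =
        ∫ t in (-hs K (-u))..(hs K u), P.eval t * 1 := by simp
    rw [e', e]
    unfold gV
    congr 1
    refine integral_congr_ae (ae_of_all _ fun v => ?_)
    simp only [integral_const, Measure.real, Measure.restrict_apply_univ, smul_eq_mul, mul_one]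
    rfl

end Pool.Agent.MP_c8a077_gtP
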