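import Pool.Agent.Lib.MP_c8a077_gtP.FF
import Pool.Agent.Lib.MP_c8a077_gtP.Bu
import Pool.Agent.Lib.MP_c8a077_gtP.Bd

/-!
# JOB UF (about 250 lines): the inversion formula averaged over the flags

(All imports may still contain sorry.)  `n = 2 m + 2`, `k = 2 m + 1`.
PROOF of `v_side`.  Coordinates `ι` with `IsDec v ι`: `pm v = map ι volume`, `‖ι y‖ = ‖y‖`, `ft K v (ι y) = ∫ x in M, exp (i⟪x,y⟫)`,
`M = ι ⁻¹' cyl K v` (`ft_eq`), `volume M < ∞`.  So `∫ y, bt ‖y‖ * ft K v y ∂pm v = ∫ y : E k, bt ‖y‖ (∫ x in M, exp (i⟪x,y⟫))`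
`= ∫ x in M, ∫ y, bt ‖y‖ exp (i⟪x,y⟫) = ∫ x in M, (2π)^k bump r x` (Fubini: `bt ‖·‖` is integrable; `bump_inv`), and `M` contains the ball
`closedBall 0 r` (`closedBall 0 r ⊆ K ⊆ cyl K v`), outside of which `bump` vanishes.  Take real parts.
PROOF of `U_flag`.  `F (v, y) = gam v * bt m r ‖y‖ * (ft K v y).re` is measurable, `|F| ≤ gam v * C * |bt ‖y‖|` (`norm_ft_le`, `sh_le`), and
`∫ |bt ‖y‖| ∂pm v = ∫ y : E k, |bt m r ‖y‖|` is finite and independent of `v`, `∫ ‖v‖⁻¹ gam v < ∞`: `flag_integral` applies.  Its left side is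
`∫ v, ‖v‖⁻¹ * gam v * (2π)^k * I` by `v_side`.  Its right side is `∫ ξ, ‖ξ‖⁻¹ * bt m r ‖ξ‖ * (gf K ξ).re`; this function of `ξ` is integrable
(the lintegral of its norm is at most the finite one of `flag_fubini`), so `integral_polar` (`n = 2m+2`) gives
`∫ u, ∫ s in Ioi 0, s^(2m+1) * (s⁻¹ * bt m r s * (gf K (s • u)).re)`, and `s^(2m+1) s⁻¹ = s^(2m)` for `s > 0`, `‖s • u‖ = s`.
-/

open MeasureTheory Set Metric Topology Filter
open Pool.Agent.MP_c8a077_gt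
open scoped ENNReal NNReal

namespace Pool.Agent.MP_c8a077_gtP

theorem v_side {m : ℕ} {K : Set (E (2 * m + 1 + 1))} (hK : IsBody K) {r : ℝ} (hr : 0 < r)
    (hrK : closedBall 0 r ⊆ K) {v : E (2 * m + 1 + 1)} (hv : v ≠ 0) :
    ∫ y, bt m r ‖y‖ * (ft K v y).re ∂(pm v) =
      (2 * Real.pi) ^ (2 * m + 1) * ∫ x : E (2 * m + 1), bump r x := by
  obtain ⟨ι, hι⟩ := exists_dec hv
  have hιe : MeasurableEmbedding ι := ι.isometry.isClosedEmbedding.measurableEmbedding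
  have hMm : MeasurableSet (ι ⁻¹' cyl K v) := ((isClosed_cyl hK.2.1 v).preimage ι.continuous).measurableSet
  have hMf : volume (ι ⁻¹' cyl K v) ≠ ∞ := by
    rw [← sh_eq hK.2.1 hv hι]
    exact sh_ne_top hK hv
  have hfin : IsFiniteMeasure (volume.restrict (ι ⁻¹' cyl K v)) :=
    ⟨by rw [Measure.restrict_apply_univ]; exact lt_top_iff_ne_top.2 hMf⟩
  have hprod : Integrable (fun p : E (2 * m + 1) × E (2 * m + 1) => ((bt m r ‖p.1‖ : ℝ) : ℂ) *
      Complex.exp (Complex.I * ((inner ℝ p.2 p.1 : ℝ) : ℂ))) (volume.prod (volume.restrict (ι ⁻¹' cyl K v))) := by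
    have h1 : Integrable (fun p : E (2 * m + 1) × E (2 * m + 1) => bt m r ‖p.1‖ * (1 : ℝ))
        (volume.prod (volume.restrict (ι ⁻¹' cyl K v))) :=
      (bt_integrable hr).mul_prod (integrable_const (1 : ℝ))
    have hcont : Continuous (fun p : E (2 * m + 1) × E (2 * m + 1) => ((bt m r ‖p.1‖ : ℝ) : ℂ) *
      Complex.exp (Complex.I * ((inner ℝ p.2 p.1 : ℝ) : ℂ))) := by
      have h2 : Continuous (fun p : E (2 * m + 1) × E (2 * m + 1) => bt m r ‖p.1‖) :=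
        (continuous_bt hr).comp (continuous_fst.norm)
      have h3 : Continuous (fun p : E (2 * m + 1) × E (2 * m + 1) => (inner ℝ p.2 p.1 : ℝ)) :=
        continuous_snd.inner continuous_fst
      exact (Complex.continuous_ofReal.comp h2).mul
        (Complex.continuous_exp.comp (continuous_const.mul (Complex.continuous_ofReal.comp h3)))
    refine h1.mono hcont.aestronglyMeasurable (Eventually.of_forall fun p => le_of_eq ?_)
    rw [norm_mul, mul_comm Complex.I, Complex.norm_exp_ofReal_mul_I, mul_one, mul_one, Complex.norm_real]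
  rw [pm_eq hv hι, hιe.integral_map]
  have h1 : ∀ y : E (2 * m + 1), bt m r ‖ι y‖ * (ft K v (ι y)).re =
      (∫ x in ι ⁻¹' cyl K v, ((bt m r ‖y‖ : ℝ) : ℂ) *
        Complex.exp (Complex.I * ((inner ℝ x y : ℝ) : ℂ))).re := by
    intro y
    rw [ft_eq hK.2.1 hv hι, ι.norm_map, integral_const_mul, Complex.re_ofReal_mul]
  simp_rw [h1]
  have h2 := integral_re (μ := (volume : Measure (E (2 * m + 1)))) hprod.integral_prod_left
  simp only [RCLike.re_eq_complex_re] at h2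
  rw [h2, integral_integral_swap hprod]
  have h3 : ∀ x : E (2 * m + 1), ∫ y : E (2 * m + 1), ((bt m r ‖y‖ : ℝ) : ℂ) *
      Complex.exp (Complex.I * ((inner ℝ x y : ℝ) : ℂ)) =
      (((2 * Real.pi) ^ (2 * m + 1) * bump r x : ℝ) : ℂ) := bump_inv hr
  simp_rw [h3]
  rw [integral_complex_ofReal, Complex.ofReal_re, integral_const_mul,
    setIntegral_eq_integral_of_forall_compl_eq_zero]
  intro x hx
  apply bump_zero hr
  by_contra hlt
  apply hx
  have h4 : ι x ∈ K := hrK (by rw [mem_closedBall_zero_iff, ι.norm_map]; exact (not_le.1 hlt).le)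
  exact ⟨0, by rw [zero_smul, add_zero]; exact h4⟩

theorem U_flag {m : ℕ} {K : Set (E (2 * m + 1 + 1))} (hK : IsBody K) {r : ℝ} (hr : 0 < r)
    (hrK : closedBall 0 r ⊆ K) :
    (2 * Real.pi) ^ (2 * m + 1) * (∫ x : E (2 * m + 1), bump r x) *
      (∫ v : E (2 * m + 1 + 1), ‖v‖⁻¹ * gam v) =
      ∫ u : Sph (2 * m + 1 + 1), (∫ s in Ioi (0 : ℝ), s ^ (2 * m) * bt m r s *
        (gf K (s • (u : E (2 * m + 1 + 1)))).re) ∂(sg (2 * m + 1 + 1)) := by
  obtain ⟨C, hC0, hC⟩ := sh_le hK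
  set F : E (2 * m + 1 + 1) × E (2 * m + 1 + 1) → ℝ :=
    fun p => gam p.1 * bt m r ‖p.2‖ * (ft K p.1 p.2).re with hFdef
  have hFm : Measurable F :=
    ((measurable_gam.comp measurable_fst).mul
      ((continuous_bt hr).measurable.comp measurable_snd.norm)).mul
      (Complex.measurable_re.comp (measurable_ft hK.2.1))
  have hB : ∫⁻ y : E (2 * m + 1), ‖bt m r ‖y‖‖ₑ ≠ ∞ := (bt_integrable hr).2.ne
  have hpm : ∀ v : E (2 * m + 1 + 1), v ≠ 0 →
      ∫⁻ y, ‖bt m r ‖y‖‖ₑ ∂(pm v) = ∫⁻ y : E (2 * m + 1), ‖bt m r ‖y‖‖ₑ := by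
    intro v hv
    obtain ⟨ι, hι⟩ := exists_dec hv
    rw [pm_eq hv hι, ι.isometry.isClosedEmbedding.measurableEmbedding.lintegral_map]
    simp_rw [ι.norm_map]
  have hin : ∀ v : E (2 * m + 1 + 1), v ≠ 0 → ∫⁻ y, ‖F (v, y)‖ₑ ∂(pm v) ≤
      ENNReal.ofReal (gam v) * (ENNReal.ofReal C * ∫⁻ y : E (2 * m + 1), ‖bt m r ‖y‖‖ₑ) := by
    intro v hv
    have h1 : ∀ y, ‖F (v, y)‖ₑ ≤ ENNReal.ofReal (gam v) * (ENNReal.ofReal C * ‖bt m r ‖y‖‖ₑ) := by
      intro y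
      have h2 : (sh K v).toReal ≤ C := ENNReal.toReal_le_of_le_ofReal hC0.le (hC v hv)
      have h3 : ‖(ft K v y).re‖ ≤ C := (Complex.abs_re_le_norm _).trans ((norm_ft_le hK hv y).trans h2)
      have h4 : 0 ≤ gam v := (Real.exp_pos _).le
      rw [← ofReal_norm, ← ofReal_norm, ← ENNReal.ofReal_mul hC0.le, ← ENNReal.ofReal_mul h4]
      apply ENNReal.ofReal_le_ofReal
      change ‖gam v * bt m r ‖y‖ * (ft K v y).re‖ ≤ _
      rw [norm_mul, norm_mul, Real.norm_of_nonneg h4, mul_assoc]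
      refine mul_le_mul_of_nonneg_left ?_ h4
      rw [mul_comm]
      exact mul_le_mul_of_nonneg_right h3 (norm_nonneg _)
    refine (lintegral_mono h1).trans (le_of_eq ?_)
    have hm1 : Measurable fun y : E (2 * m + 1 + 1) => ‖bt m r ‖y‖‖ₑ :=
      ((continuous_bt hr).measurable.comp measurable_norm).enorm
    rw [lintegral_const_mul _ (hm1.const_mul _), lintegral_const_mul _ hm1, hpm v hv]
  have hfin : ∫⁻ v, ENNReal.ofReal ‖v‖⁻¹ * ∫⁻ y, ‖F (v, y)‖ₑ ∂(pm v) ≠ ∞ := by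
    have h1 : ∀ v : E (2 * m + 1 + 1), ENNReal.ofReal ‖v‖⁻¹ * ∫⁻ y, ‖F (v, y)‖ₑ ∂(pm v) ≤
        ENNReal.ofReal (‖v‖⁻¹ * gam v) * (ENNReal.ofReal C * ∫⁻ y : E (2 * m + 1), ‖bt m r ‖y‖‖ₑ) := by
      intro v
      by_cases hv : v = 0
      · rw [hv, norm_zero, inv_zero, ENNReal.ofReal_zero, zero_mul]
        exact zero_le
      · rw [ENNReal.ofReal_mul (inv_nonneg.2 (norm_nonneg v)), mul_assoc]
        exact mul_le_mul_right (hin v hv) _
    refine ne_top_of_le_ne_top ?_ (lintegral_mono h1)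
    have hm2 : Measurable fun v : E (2 * m + 1 + 1) => ENNReal.ofReal (‖v‖⁻¹ * gam v) :=
      (measurable_norm.inv.mul measurable_gam).ennreal_ofReal
    rw [lintegral_mul_const _ hm2]
    have hW : ∫⁻ v : E (2 * m + 1 + 1), ENNReal.ofReal (‖v‖⁻¹ * gam v) ≠ ∞ := by
      have h2 := (integrable_W (n := 2 * m + 1 + 1) (by omega)).lintegral_lt_top
      exact h2.ne
    exact ENNReal.mul_ne_top hW (ENNReal.mul_ne_top ENNReal.ofReal_ne_top hB)
  have hk : 1 ≤ 2 * m + 1 := by omega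
  have hflag := flag_integral hk hFm hfin
  have hL : ∫ v, ‖v‖⁻¹ * ∫ y, F (v, y) ∂(pm v) =
      (2 * Real.pi) ^ (2 * m + 1) * (∫ x : E (2 * m + 1), bump r x) *
      (∫ v : E (2 * m + 1 + 1), ‖v‖⁻¹ * gam v) := by
    rw [← integral_const_mul]
    congr 1
    funext v
    by_cases hv : v = 0
    · rw [hv, norm_zero, inv_zero, zero_mul, zero_mul, mul_zero]
    · have h1 : ∀ y, F (v, y) = gam v * (bt m r ‖y‖ * (ft K v y).re) := fun y => mul_assoc _ _ _
      simp_rw [h1]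
      rw [integral_const_mul, v_side hK hr hrK hv]
      ring
  have hR0 : ∀ ξ : E (2 * m + 1 + 1), ‖ξ‖⁻¹ * ∫ w, F (w, ξ) ∂(pm ξ) =
      ‖ξ‖⁻¹ * (bt m r ‖ξ‖ * (gf K ξ).re) := by
    intro ξ
    by_cases hξ : ξ = 0
    · rw [hξ, norm_zero, inv_zero, zero_mul, zero_mul]
    · congr 1
      have h1 : ∀ w, F (w, ξ) = bt m r ‖ξ‖ * (((gam w : ℝ) : ℂ) * ft K w ξ).re := by
        intro w
        change gam w * bt m r ‖ξ‖ * (ft K w ξ).re = _
        rw [Complex.re_ofReal_mul]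
        ring
      simp_rw [h1]
      rw [integral_const_mul]
      have h2 := integral_re (integrable_gf hk hK hξ ξ)
      simp only [RCLike.re_eq_complex_re] at h2
      rw [h2]
      rfl
  set H : E (2 * m + 1 + 1) → ℝ := fun ξ => ‖ξ‖⁻¹ * (bt m r ‖ξ‖ * (gf K ξ).re) with hHdef
  have hHint : Integrable H := by
    have hHm : Measurable H :=
      measurable_norm.inv.mul (((continuous_bt hr).measurable.comp measurable_norm).mul
        (Complex.measurable_re.comp (measurable_gf hK.2.1)))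
    refine ⟨hHm.aestronglyMeasurable, ?_⟩
    have h1 := flag_fubini hk (F := fun p => ‖F p‖ₑ) hFm.enorm
    rw [h1] at hfin
    refine lt_of_le_of_lt (lintegral_mono fun ξ => ?_) (lt_top_iff_ne_top.2 hfin)
    change ‖‖ξ‖⁻¹ * (bt m r ‖ξ‖ * (gf K ξ).re)‖ₑ ≤ _
    rw [← hR0 ξ, enorm_mul]
    have h2 : ‖‖ξ‖⁻¹‖ₑ = ENNReal.ofReal ‖ξ‖⁻¹ := Real.enorm_of_nonneg (inv_nonneg.2 (norm_nonneg ξ))
    rw [h2]
    exact mul_le_mul_right (enorm_integral_le_lintegral_enorm _) _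
  have hR : ∫ ξ, ‖ξ‖⁻¹ * ∫ w, F (w, ξ) ∂(pm ξ) = ∫ ξ, H ξ := by
    congr 1
    funext ξ
    exact hR0 ξ
  rw [← hL, hflag, hR, integral_polar (by omega) hHint]
  congr 1
  funext u
  refine setIntegral_congr_fun measurableSet_Ioi fun s hs => ?_
  have hs' : (0 : ℝ) < s := hs
  have hu : ‖s • (u : E (2 * m + 1 + 1))‖ = s := by
    rw [norm_smul, norm_eq_of_mem_sphere u, mul_one, Real.norm_of_nonneg hs'.le]
  change s ^ (2 * m + 1 + 1 - 1) * (‖s • (u : E (2 * m + 1 + 1))‖⁻¹ * (bt m r ‖s • (u : E (2 * m + 1 + 1))‖ *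
    (gf K (s • (u : E (2 * m + 1 + 1)))).re)) = s ^ (2 * m) * bt m r s * (gf K (s • (u : E (2 * m + 1 + 1)))).re
  rw [hu, Nat.add_sub_cancel, pow_succ]
  have hs0 : s ≠ 0 := hs'.ne'
  field_simp

end Pool.Agent.MP_c8a077_gtP
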