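import Pool.Agent.Lib.MP_c8a077_gtP.UF
import Pool.Agent.Lib.MP_c8a077_gtP.OD
import Pool.Agent.Lib.MP_c8a077_gtP.SF
import Pool.Agent.Lib.MP_c8a077_gtP.Sec

/-!
# JOB UP (about 80 lines): the averaged inversion formula for polynomials


PROOF.  Let `c` satisfy the properties of `surf_fourier` (hypothesis `hc`).  For almost every `u` with `Rep K u (P u)`: taking real parts
in `c * gf K (s • u) = ∫ t in a..b, P t exp (i s t)` (`a = -hs K (-u) ≤ -r`, `b = hs K u ≥ r` by `ball_hs`) gives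
`c * (gf K (s • u)).re = ∫ t in a..b, (P u).eval t * cos (s t)` for `s > 0`, and `one_dim` gives
`∫ s in Ioi 0, s^(2m) bt m r s (gf K (s • u)).re = c⁻¹ * π (-1)^m ∫ x, bump r x * (derivative^[2m] (P u)).eval (x 0)`.
Insert into `U_flag` (`integral_congr_ae`).
-/

open MeasureTheory Set Metric Topology Filter
open Pool.Agent.MP_c8a077_gt
open scoped ENNReal NNReal

namespace Pool.Agent.MP_c8a077_gtP

/-- the property of the constant in `surf_fourier` -/
def SFC (k : ℕ) (c : ℝ) : Prop := 0 < c ∧ ∀ K : Set (E (k + 1)), IsBody K →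
    ∀ u : E (k + 1), ‖u‖ = 1 → ∀ P : Polynomial ℝ, Rep K u P →
      (∀ t ∈ Ioo (-hs K (-u)) (hs K u), 0 < P.eval t) ∧
      (∀ g : ℝ → ℝ, Measurable g → (∃ M : ℝ, ∀ t, |g t| ≤ M) →
        ∫ t in (-hs K (-u))..(hs K u), P.eval t * g t =
          c * ∫ v, gam v * (∫ x in TT K v, g (inner ℝ x u)) ∂(pm u)) ∧
      (∀ s : ℝ, 0 < s → (c : ℂ) * gf K (s • u) =
        ∫ t in (-hs K (-u))..(hs K u), ((P.eval t : ℝ) : ℂ) * Complex.exp (Complex.I * ((s * t : ℝ) : ℂ))) ∧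
      c * gV K u = ∫ t in (-hs K (-u))..(hs K u), P.eval t

theorem exists_SFC {k : ℕ} (hk : 2 ≤ k) : ∃ c : ℝ, SFC k c := surf_fourier hk

private theorem up_re {k : ℕ} {c : ℝ} (hc : SFC k c) {K : Set (E (k + 1))} (hK : IsBody K) {u : E (k + 1)}
    (hu : ‖u‖ = 1) {P : Polynomial ℝ} (hP : Rep K u P) {s : ℝ} (hs0 : 0 < s) :
    c * (gf K (s • u)).re = ∫ t in (-hs K (-u))..(hs K u), P.eval t * Real.cos (s * t) := by
  have h1 := (hc.2 K hK u hu P hP).2.2.1 s hs0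
  have h2 := congrArg Complex.re h1
  rw [Complex.re_ofReal_mul] at h2
  rw [h2]
  have hcont : Continuous fun t : ℝ => ((P.eval t : ℝ) : ℂ) * Complex.exp (Complex.I * ((s * t : ℝ) : ℂ)) := by
    have hP1 : Continuous fun t : ℝ => P.eval t := P.continuous
    fun_prop
  have h3 := Complex.reCLM.intervalIntegral_comp_comm
    (hcont.intervalIntegrable (μ := volume) (-hs K (-u)) (hs K u))
  rw [Complex.reCLM_apply] at h3
  rw [← h3]
  refine intervalIntegral.integral_congr fun t _ => ?_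
  change (((P.eval t : ℝ) : ℂ) * Complex.exp (Complex.I * ((s * t : ℝ) : ℂ))).re = P.eval t * Real.cos (s * t)
  rw [Complex.re_ofReal_mul, mul_comm Complex.I, Complex.exp_ofReal_mul_I_re]

theorem U_poly {m : ℕ} {c : ℝ} (hc : SFC (2 * m + 1) c) {K : Set (E (2 * m + 1 + 1))}
    (hK : IsBody K) {r : ℝ} (hr : 0 < r) (hrK : closedBall 0 r ⊆ K)
    {P : Sph (2 * m + 1 + 1) → Polynomial ℝ}
    (hP : ∀ᵐ u : Sph (2 * m + 1 + 1) ∂(sg (2 * m + 1 + 1)), Rep K (u : E (2 * m + 1 + 1)) (P u)) :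
    c * ((2 * Real.pi) ^ (2 * m + 1) * (∫ x : E (2 * m + 1), bump r x) *
      (∫ v : E (2 * m + 1 + 1), ‖v‖⁻¹ * gam v)) =
      ∫ u : Sph (2 * m + 1 + 1), (Real.pi * (-1) ^ m * ∫ x : E (2 * m + 1),
        bump r x * ((Polynomial.derivative^[2 * m]) (P u)).eval (x 0)) ∂(sg (2 * m + 1 + 1)) := by
  rw [U_flag hK hr hrK, ← integral_const_mul]
  refine integral_congr_ae ?_
  filter_upwards [hP] with u hu
  have hun : ‖(u : E (2 * m + 1 + 1))‖ = 1 := by
    have := u.2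
    rwa [mem_sphere_zero_iff_norm] at this
  have ha : -hs K (-(u : E (2 * m + 1 + 1))) ≤ -r :=
    neg_le_neg (ball_hs hK hr.le hrK (by rw [norm_neg, hun]))
  have hb : r ≤ hs K (u : E (2 * m + 1 + 1)) := ball_hs hK hr.le hrK hun
  rw [← one_dim hr ha hb (P u), ← integral_const_mul]
  refine setIntegral_congr_fun measurableSet_Ioi fun s hs0 => ?_
  have h1 := up_re hc hK hun hu (mem_Ioi.1 hs0)
  change c * (s ^ (2 * m) * bt m r s * (gf K (s • (u : E (2 * m + 1 + 1)))).re) =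
    s ^ (2 * m) * bt m r s * (∫ t in (-hs K (-(u : E (2 * m + 1 + 1))))..(hs K (u : E (2 * m + 1 + 1))),
      (P u).eval t * Real.cos (s * t))
  rw [← h1]
  ring

end Pool.Agent.MP_c8a077_gtP
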